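import Pool.Agent.Lib.MP_78bd4b_ag.ApprF

/-! Approximation by polynomials together with first derivatives, and related small lemmas. -/

noncomputable section

namespace Pool.Agent.Lib.MP_78bd4b_ag

open MvPolynomial Complex Filter Function Matrix
open scoped Manifold ContDiff Topology Real ComplexConjugate

namespace W

open MeasureTheory Metric
open scoped Convolution

variable {E ι : Type*} [NormedAddCommGroup E] [NormedSpace ℝ E] [FiniteDimensional ℝ E]
  [MeasurableSpace E] [BorelSpace E] {μ : Measure E} [μ.IsAddHaarMeasure] [μ.IsNegInvariant]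
  (l : ι → E →L[ℝ] ℝ)

omit [FiniteDimensional ℝ E] [MeasurableSpace E] [BorelSpace E] in
theorem cont_ev (k : MvPolynomial ι ℝ) : Continuous fun x : E => eval (l · x) k :=
  (MvPolynomial.continuous_eval k).comp (continuous_pi fun i => (l i).continuous)

omit [FiniteDimensional ℝ E] [μ.IsNegInvariant] in
theorem conv_pol (k : MvPolynomial ι ℝ) : ∀ g : E → ℝ, Continuous g → HasCompactSupport g →
    ∃ Q : MvPolynomial ι ℝ, ∀ x, ∫ t, eval (l · (x - t)) k * g t ∂μ = eval (l · x) Q := by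
  have I : ∀ (k : MvPolynomial ι ℝ) (g : E → ℝ), Continuous g → HasCompactSupport g → ∀ x,
      Integrable (fun t => eval (l · (x - t)) k * g t) μ := fun k g hg hc x =>
    (((cont_ev l k).comp (continuous_const.sub continuous_id)).mul
      hg).integrable_of_hasCompactSupport hc.mul_left
  induction k using MvPolynomial.induction_on with
  | C a => exact fun g _ _ => ⟨C (∫ t, a * g t ∂μ), fun x => by simp⟩
  | add p q hp hq =>
    intro g hg hc
    obtain ⟨P, hP⟩ := hp g hg hc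
    obtain ⟨Q, hQ⟩ := hq g hg hc
    refine ⟨P + Q, fun x => ?_⟩
    rw [map_add, ← hP, ← hQ, ← integral_add (I p g hg hc x) (I q g hg hc x)]
    simp only [map_add, add_mul]
  | mul_X p i hp =>
    intro g hg hc
    have hg' : Continuous fun t => l i t * g t := (l i).continuous.mul hg
    obtain ⟨P, hP⟩ := hp g hg hc
    obtain ⟨Q, hQ⟩ := hp _ hg' hc.mul_left
    refine ⟨X i * P - Q, fun x => ?_⟩
    rw [map_sub, map_mul, eval_X, ← hP, ← hQ, ← integral_const_mul,
      ← integral_sub ((I p g hg hc x).const_mul _) (I p _ hg' hc.mul_left x)]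
    refine integral_congr_ae (.of_forall fun t => ?_)
    simp only [map_mul, eval_X, map_sub (l i)]
    ring

theorem ker_appr (hl : ∀ x, (∀ i, l i x = 0) → x = 0) {V : Type*} [NormedAddCommGroup V]
    [NormedSpace ℝ V] [CompleteSpace V] {h : E → V} (hh : Continuous h) (hc : HasCompactSupport h)
    {K : Set E} (hK : IsCompact K) {η : ℝ} (hη : 0 < η) : ∃ k : MvPolynomial ι ℝ, ∀ x ∈ K,
      ‖∫ t, eval (l · (x - t)) k • h t ∂μ - h x‖ ≤ η := by
  obtain ⟨δ, δ0, hδ⟩ := Metric.uniformContinuous_iff.1 (hc.uniformContinuous_of_continuous hh)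
    (η / 2) (half_pos hη)
  let φ : ContDiffBump (0 : E) := ⟨δ / 2, δ, half_pos δ0, half_lt_self δ0⟩
  have h1 : ∀ x, ‖∫ t, φ.normed μ (x - t) • h t ∂μ - h x‖ ≤ η / 2 := fun x => by
    have := φ.dist_normed_convolution_le (μ := μ) (x₀ := x) hh.aestronglyMeasurable
      fun y hy => (hδ hy).le
    rwa [dist_eq_norm, convolution_lsmul_swap] at this
  let A : Subalgebra ℝ C(E, ℝ) :=
    (aeval fun i => (⟨l i, (l i).continuous⟩ : C(E, ℝ)) : MvPolynomial ι ℝ →ₐ[ℝ] _).range
  have hA : A.SeparatesPoints := fun x y xy => by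
    obtain ⟨i, hi⟩ : ∃ i, l i (x - y) ≠ 0 := by
      by_contra! c
      exact xy (sub_eq_zero.1 (hl _ c))
    exact ⟨_, ⟨_, ⟨X i, aeval_X _ i⟩, rfl⟩, fun e => hi (by rw [map_sub, sub_eq_zero]; exact e)⟩
  have C0 : 0 ≤ ∫ t, ‖h t‖ ∂μ := integral_nonneg fun _ => norm_nonneg _
  obtain ⟨_, ⟨k, rfl⟩, hk⟩ :=
    ContinuousMap.exists_mem_subalgebra_near_continuous_of_isCompact_of_separatesPoints hA
      ⟨φ.normed μ, φ.continuous_normed⟩ ((hK.prod hc).image continuous_sub)
      (ε := η / 2 / (∫ t, ‖h t‖ ∂μ + 1)) (by positivity)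
  have ek : ∀ x, (aeval fun i => (⟨l i, (l i).continuous⟩ : C(E, ℝ))) k x = eval (l · x) k :=
    fun x => by
      clear hk
      induction k using MvPolynomial.induction_on <;> simp [*]
  refine ⟨k, fun x hx => ?_⟩
  have I : ∀ {f : E → ℝ}, Continuous f → Integrable (fun t => f (x - t) • h t) μ := fun hf =>
    ((hf.comp (continuous_const.sub continuous_id)).smul hh).integrable_of_hasCompactSupport
      hc.smul_left
  have h2 : ‖∫ t, eval (l · (x - t)) k • h t ∂μ - ∫ t, φ.normed μ (x - t) • h t ∂μ‖ ≤ η / 2 := by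
    rw [← integral_sub (I (cont_ev l k)) (I φ.continuous_normed)]
    refine (norm_integral_le_of_norm_le (g := fun t => η / 2 / (∫ t, ‖h t‖ ∂μ + 1) * ‖h t‖)
      ((hh.integrable_of_hasCompactSupport hc).norm.const_mul _) (.of_forall fun t => ?_)).trans ?_
    · by_cases ht : h t = 0
      · simp [ht]
      rw [← sub_smul, norm_smul, ← ek]
      exact mul_le_mul_of_nonneg_right (hk _ ⟨(x, t), ⟨hx, subset_tsupport _ ht⟩, rfl⟩).le
        (norm_nonneg _)
    · rw [integral_const_mul, div_mul_eq_mul_div, div_le_iff₀ (by positivity)]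
      nlinarith
  have := norm_sub_le_norm_sub_add_norm_sub (∫ t, eval (l · (x - t)) k • h t ∂μ)
    (∫ t, φ.normed μ (x - t) • h t ∂μ) (h x)
  linarith [h1 x]

omit [MeasurableSpace E] [BorelSpace E] in
theorem weier (hl : ∀ x, (∀ i, l i x = 0) → x = 0) {f : E → ℝ} (hf : ContDiff ℝ 1 f) {K : Set E}
    (hK : IsCompact K) {η : ℝ} (hη : 0 < η) : ∃ Q : MvPolynomial ι ℝ, ∀ e ∈ K,
      ‖eval (l · e) Q - f e‖ ≤ η ∧ ‖fderiv ℝ (fun e => eval (l · e) Q) e - fderiv ℝ f e‖ ≤ η := by
  borelize E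
  let μ : Measure E := Measure.addHaar
  obtain ⟨R, R0, hR⟩ := hK.isBounded.subset_ball_lt 0 (0 : E)
  let χ : ContDiffBump (0 : E) := ⟨R, R + 1, R0, lt_add_one R⟩
  let g : E → ℝ := fun x => χ x * f x
  have hg : ContDiff ℝ 1 g := χ.contDiff.mul hf
  have cg : HasCompactSupport g := χ.hasCompactSupport.mul_right
  have dg := hg.continuous_fderiv one_ne_zero
  have cd := cg.fderiv ℝ
  have cp : HasCompactSupport fun x => (g x, fderiv ℝ g x) :=
    .of_support_subset_isCompact (cg.union cd) fun x hx => by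
      by_contra c
      rw [Set.mem_union, not_or] at c
      exact hx (Prod.mk_eq_zero.2 ⟨image_eq_zero_of_notMem_tsupport c.1,
        image_eq_zero_of_notMem_tsupport c.2⟩)
  obtain ⟨k, hk⟩ := ker_appr (μ := μ) l hl (hg.continuous.prodMk dg) cp hK hη
  obtain ⟨Q, hQ⟩ := conv_pol (μ := μ) l k g hg.continuous cg
  refine ⟨Q, fun x hx => ?_⟩
  have eg : g =ᶠ[𝓝 x] f := by
    filter_upwards [χ.eventuallyEq_one_of_mem_ball (hR hx)] with y hy
    simp [g, hy]
  have ck : Continuous fun t => eval (l · (x - t)) k :=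
    (cont_ev l k).comp (continuous_const.sub continuous_id)
  have i1 : Integrable (fun t => eval (l · (x - t)) k • g t) μ :=
    (ck.smul hg.continuous).integrable_of_hasCompactSupport cg.smul_left
  have i2 : Integrable (fun t => eval (l · (x - t)) k • fderiv ℝ g t) μ :=
    (ck.smul dg).integrable_of_hasCompactSupport cd.smul_left
  have := hk x hx
  simp only [Prod.smul_mk] at this
  rw [integral_pair i1 i2, Prod.mk_sub_mk, Prod.norm_mk, max_le_iff] at this
  rw [← eg.eq_of_nhds, ← eg.fderiv_eq, ← hQ]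
  refine ⟨this.1, ?_⟩
  have d := cg.hasFDerivAt_convolution_right (μ := μ) (ContinuousLinearMap.lsmul ℝ ℝ)
    (cont_ev l k).locallyIntegrable hg x
  have e : (fun e => eval (l · e) Q) =
      (fun x : E => eval (l · x) k) ⋆[ContinuousLinearMap.lsmul ℝ ℝ, μ] g :=
    funext fun y => by rw [convolution_lsmul_swap, ← hQ]; rfl
  rw [e, d.fderiv, convolution_eq_swap]
  refine le_of_eq_of_le ?_ this.2
  congr 2

theorem split {I : Type} (P : MvPolynomial (Option I) ℝ) : ∃ Q R : MvPolynomial (Option I) ℝ,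
    ∀ (x : I → ℝ) (t : ℝ), eval (fun o => o.elim t x) P =
      eval (fun o => o.elim (t ^ 2) x) Q + t * eval (fun o => o.elim (t ^ 2) x) R := by
  induction P using MvPolynomial.induction_on with
  | C a => exact ⟨C a, 0, by simp⟩
  | add p q hp hq =>
    obtain ⟨Q, R, h⟩ := hp
    obtain ⟨Q', R', h'⟩ := hq
    exact ⟨Q + Q', R + R', fun x t => by simp only [map_add, h, h']; ring⟩
  | mul_X p i hp =>
    obtain ⟨Q, R, h⟩ := hp
    cases i with
    | none => exact ⟨X none * R, Q, fun x t => by simp [h]; ring⟩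
    | some i => exact ⟨Q * X (some i), R * X (some i), fun x t => by simp [h]; ring⟩

theorem prod_getD (l : List ℝ) : ∀ D, l.length ≤ D → ∏ j : Fin D, l.getD j 1 = l.prod := by
  induction l with
  | nil => simp
  | cons a l ih =>
    rintro (_ | D) h
    · simp at h
    · rw [Fin.prod_univ_succ, List.prod_cons, ← ih D (Nat.le_of_succ_le_succ h)]
      simp

end W

theorem weier_even {I : Type} [Fintype I] [DecidableEq I] {f : (I → ℝ) × ℝ → ℝ}
    (hf : ContDiff ℝ 1 f) (ev : ∀ x t, f (x, -t) = f (x, t)) {K : Set ((I → ℝ) × ℝ)}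
    (hK : IsCompact K) {η : ℝ} (hη : 0 < η) : ∃ Q : MvPolynomial (Option I) ℝ, ∀ e ∈ K,
      ‖eval (fun o => o.elim (e.2 ^ 2) e.1) Q - f e‖ ≤ η ∧
      ‖fderiv ℝ (fun e : (I → ℝ) × ℝ => eval (fun o => o.elim (e.2 ^ 2) e.1) Q) e -
        fderiv ℝ f e‖ ≤ η := by
  let l : Option I → (I → ℝ) × ℝ →L[ℝ] ℝ := fun o => o.elim (.snd ℝ _ _) fun i =>
    (ContinuousLinearMap.proj i).comp (.fst ℝ _ _)
  let σ : (I → ℝ) × ℝ →L[ℝ] (I → ℝ) × ℝ := (ContinuousLinearMap.id ℝ _).prodMap (-.id ℝ ℝ)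
  have nσ : ‖σ‖ ≤ 1 := σ.opNorm_le_bound zero_le_one fun e => by simp [σ, Prod.norm_def]
  obtain ⟨P, hP⟩ := W.weier l (fun e h => Prod.ext (funext fun i => h (some i)) (h none)) hf
    (hK.union (hK.image σ.continuous)) hη
  obtain ⟨Q, R, h⟩ := W.split P
  set p := fun e : (I → ℝ) × ℝ => eval (l · e) P
  have hp : ∀ e, p e = eval (fun o => o.elim e.2 e.1) P := fun e => by
    simp only [p]
    congr 2
    funext o
    cases o <;> rfl
  have dp : Differentiable ℝ p := by
    simp only [p, eval_eq]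
    fun_prop
  have df := hf.differentiable one_ne_zero
  have e1 : (fun e : (I → ℝ) × ℝ => eval (fun o => o.elim (e.2 ^ 2) e.1) Q) =
      fun e => (1 / 2 : ℝ) • (p e + p (σ e)) := funext fun e => by
    simp [hp, h, σ]
    ring
  have e2 : f = fun e => f (σ e) := funext fun e => (ev e.1 e.2).symm
  refine ⟨Q, fun e he => ?_⟩
  obtain ⟨a1, a2⟩ := hP e (.inl he)
  obtain ⟨b1, b2⟩ := hP (σ e) (.inr ⟨e, he, rfl⟩)
  have key : ∀ {V : Type} [NormedAddCommGroup V] [NormedSpace ℝ V] {a b c : V}, ‖a - c‖ ≤ η →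
      ‖b - c‖ ≤ η → ‖(1 / 2 : ℝ) • (a + b) - c‖ ≤ η := fun {V} _ _ a b c ha hb => by
    rw [show (1 / 2 : ℝ) • (a + b) - c = (1 / 2 : ℝ) • ((a - c) + (b - c)) by module, norm_smul]
    have := norm_add_le (a - c) (b - c)
    rw [Real.norm_of_nonneg (by norm_num)]
    linarith
  refine ⟨by rw [congrFun e1 e]; exact key a1 (by rwa [congrFun e2 e]), ?_⟩
  have d1 := ((dp e).hasFDerivAt.add
    ((dp (σ e)).hasFDerivAt.comp e σ.hasFDerivAt)).const_smul (1 / 2 : ℝ)
  have d2 : fderiv ℝ f e = (fderiv ℝ f (σ e)).comp σ := by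
    conv_lhs => rw [e2]
    exact ((df (σ e)).hasFDerivAt.comp e σ.hasFDerivAt).fderiv
  rw [e1]
  erw [d1.fderiv]
  refine key a2 ?_
  rw [d2, ← ContinuousLinearMap.sub_comp]
  exact (ContinuousLinearMap.opNorm_comp_le _ _).trans
    ((mul_le_of_le_one_right (norm_nonneg _) nσ).trans b2)

theorem xm_span {Ix : Type} [Fintype Ix] [DecidableEq Ix] (i0 : Ix) {D δ : ℕ} (hδ : δ ≤ D)
    (Q : MvPolynomial Ix ℝ) (hQ : Q.totalDegree ≤ δ) : ∃ c : (Fin D → Ix) → ℝ,
      ∀ x : Ix → ℝ, x i0 = 1 → ∑ r, c r * xm δ r x = eval x Q := by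
  let ρ : (Ix →₀ ℕ) → Fin D → Ix := fun m j => m.toMultiset.toList.getD j i0
  refine ⟨fun r => ∑ m ∈ Q.support with ρ m = r, Q.coeff m, fun x hx => ?_⟩
  rw [eval_eq, ← Finset.sum_fiberwise Q.support ρ]
  refine Finset.sum_congr rfl fun r _ => ?_
  rw [Finset.sum_mul]
  refine Finset.sum_congr rfl fun m hm => ?_
  obtain ⟨hm', rfl⟩ := Finset.mem_filter.1 hm
  have len : (m.toMultiset.toList.map x).length ≤ δ := by
    rw [List.length_map, Multiset.length_toList, Finsupp.card_toMultiset]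
    exact (le_totalDegree hm').trans hQ
  have : xm δ (ρ m) x = (m.toMultiset.toList.map x).prod := by
    rw [← W.prod_getD _ D (len.trans hδ)]
    refine Finset.prod_congr rfl fun j _ => ?_
    split_ifs with hj
    · rw [← hx, List.getD_map]
    · rw [List.getD_eq_default _ _ (len.trans (not_lt.1 hj))]
  rw [this, Multiset.prod_map_toList, Finsupp.toMultiset_map, Finsupp.prod_toMultiset,
    Finsupp.prod_mapDomain_index (by simp) (by simp [pow_add])]
  rfl

theorem c1_comp {E T H : Type*} [NormedAddCommGroup E] [NormedSpace ℝ E] [FiniteDimensional ℝ E]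
    [NormedAddCommGroup T] [NormedSpace ℝ T] [FiniteDimensional ℝ T]
    [NormedAddCommGroup H] [NormedSpace ℝ H] {Φ : E × T → H} (hΦ : ContDiff ℝ 1 Φ)
    {c0 : E → T} (h0 : ContDiff ℝ 1 c0) {K : Set E} (hK : IsCompact K) {η : ℝ} (hη : 0 < η) :
    ∃ η' > 0, ∀ c : E → T, Differentiable ℝ c →
      (∀ e ∈ K, ‖c e - c0 e‖ ≤ η' ∧ ‖fderiv ℝ c e - fderiv ℝ c0 e‖ ≤ η') → ∀ e ∈ K,
        ‖Φ (e, c e) - Φ (e, c0 e)‖ ≤ η ∧
        ‖fderiv ℝ (fun e => Φ (e, c e)) e - fderiv ℝ (fun e => Φ (e, c0 e)) e‖ ≤ η := by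
  let G : (E × T) × (E →L[ℝ] T) → H × (E →L[ℝ] H) := fun q => (Φ q.1, (fderiv ℝ Φ q.1).comp
    (ContinuousLinearMap.inl ℝ E T + (ContinuousLinearMap.inr ℝ E T).comp q.2))
  have hG : Continuous G := (hΦ.continuous.comp continuous_fst).prodMk
    (((hΦ.continuous_fderiv one_ne_zero).comp continuous_fst).clm_comp
      (continuous_const.add (continuous_const.clm_comp continuous_snd)))
  have hj : Continuous fun e => ((e, c0 e), fderiv ℝ c0 e) :=
    (continuous_id.prodMk h0.continuous).prodMk (h0.continuous_fderiv one_ne_zero)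
  obtain ⟨ε, ε0, hε⟩ := Metric.mem_uniformity_dist.1
    ((hK.image hj).uniformContinuousAt_of_continuousAt G (fun _ _ => hG.continuousAt)
      (Metric.dist_mem_uniformity hη))
  have d : ∀ (c : E → T) e, Differentiable ℝ c →
      fderiv ℝ (fun e => Φ (e, c e)) e = (G ((e, c e), fderiv ℝ c e)).2 := fun c e hc => by
    rw [show fderiv ℝ (fun e => Φ (e, c e)) e = _ from
      ((hΦ.differentiable one_ne_zero _).hasFDerivAt.comp e
        ((hasFDerivAt_id e).prodMk (hc e).hasFDerivAt)).fderiv]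
    ext v
    simp [G, ← map_add]
  refine ⟨ε / 2, half_pos ε0, fun c hc h e he => ?_⟩
  have : dist (G ((e, c0 e), fderiv ℝ c0 e)) (G ((e, c e), fderiv ℝ c e)) < η := by
    refine hε (a := ((e, c0 e), fderiv ℝ c0 e)) (b := ((e, c e), fderiv ℝ c e)) ?_ ⟨e, he, rfl⟩
    rw [Prod.dist_eq, Prod.dist_eq, dist_self, max_lt_iff, max_lt_iff, dist_eq_norm', dist_eq_norm']
    exact ⟨⟨ε0, (h e he).1.trans_lt (half_lt_self ε0)⟩, (h e he).2.trans_lt (half_lt_self ε0)⟩
  rw [Prod.dist_eq, max_lt_iff, dist_eq_norm', dist_eq_norm'] at this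
  rw [d c e hc, d c0 e (h0.differentiable one_ne_zero)]
  exact ⟨this.1.le, this.2.le⟩

theorem c1_par {S E H : Type*} [NormedAddCommGroup S] [NormedSpace ℝ S]
    [NormedAddCommGroup E] [NormedSpace ℝ E] [NormedAddCommGroup H] [NormedSpace ℝ H]
    {Φ : S × E → H} (hΦ : ContDiff ℝ 1 Φ) (σ1 : S) {K : Set E} (hK : IsCompact K) {η : ℝ}
    (hη : 0 < η) : ∀ᶠ σ in 𝓝 σ1, ∀ e ∈ K, ‖Φ (σ, e) - Φ (σ1, e)‖ ≤ η ∧
      ‖fderiv ℝ (fun e => Φ (σ, e)) e - fderiv ℝ (fun e => Φ (σ1, e)) e‖ ≤ η := by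
  have d : ∀ σ e, fderiv ℝ (fun e => Φ (σ, e)) e =
      (fderiv ℝ Φ (σ, e)).comp (ContinuousLinearMap.inr ℝ S E) := fun σ e =>
    ((hΦ.differentiable one_ne_zero _).hasFDerivAt.comp e (hasFDerivAt_prodMk_right σ e)).fderiv
  have c0 := hΦ.continuous
  have c1 : Continuous fun q => (fderiv ℝ Φ q).comp (ContinuousLinearMap.inr ℝ S E) :=
    (hΦ.continuous_fderiv one_ne_zero).clm_comp continuous_const
  have j : Continuous fun q : S × E => (σ1, q.2) := continuous_const.prodMk continuous_snd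
  simp only [d]
  refine hK.eventually_forall_of_forall_eventually fun e _ => ?_
  filter_upwards [(c0.sub (c0.comp j)).norm.continuousAt.eventually_lt (x₀ := (σ1, e))
      continuousAt_const (by simpa using hη),
    (c1.sub (c1.comp j)).norm.continuousAt.eventually_lt (x₀ := (σ1, e))
      continuousAt_const (by simpa using hη)] with q h h'
  exact ⟨h.le, h'.le⟩

theorem freq_indep {S : Type} [Fintype S] (σ1 : S → ℝ) :
    ∃ᶠ σ in 𝓝 σ1, AlgebraicIndependent ℚ fun s => (σ s : ℂ) := by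
  let U : {P : MvPolynomial S ℚ // P ≠ 0} → Set (S → ℝ) := fun P =>
    {σ | eval σ (map (algebraMap ℚ ℝ) P.1) ≠ 0}
  have : Countable (MvPolynomial S ℚ) := Cardinal.mk_le_aleph0_iff.1
    (cardinalMk_le_max.trans (by simp))
  have hd : Dense (⋂ P, U P) := by
    refine dense_iInter_of_isOpen
      (fun P => isOpen_ne_fun (MvPolynomial.continuous_eval _) continuous_const) fun P => ?_
    refine dense_iff_inter_open.2 fun O hO ⟨x, hx⟩ => ?_
    by_contra c
    obtain ⟨ε, ε0, hε⟩ := Metric.isOpen_iff.1 hO x hx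
    refine P.2 (map_injective _ (algebraMap ℚ ℝ).injective ?_)
    rw [map_zero]
    refine funext_set (fun s => Metric.ball (x s) ε) (fun s => ?_) fun y hy => ?_
    · rw [Real.ball_eq_Ioo]
      exact Set.Ioo_infinite (by linarith)
    · by_contra c'
      exact c ⟨y, hε (by rwa [ball_pi _ ε0]), c'⟩
  refine (mem_closure_iff_frequently.1 (hd σ1)).mono fun σ hσ => ?_
  refine AlgebraicIndependent.map' (f := ofRealAm.restrictScalars ℚ) (x := σ) ?_ ofReal_injective
  refine algebraicIndependent_iff.2 fun P hP => ?_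
  by_contra c
  exact Set.mem_iInter.1 hσ ⟨P, c⟩ (by rw [eval_map, ← aeval_def, hP])

end Pool.Agent.Lib.MP_78bd4b_ag
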