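import Pool.Agent.Lib.MP_78bd4b_ag.Core

/-! Orthonormal frames in the kernel of a symmetric matrix. -/

noncomputable section

namespace Pool.Agent.Lib.MP_78bd4b_ag

open MvPolynomial Complex Filter Function Matrix
open scoped Manifold ContDiff Topology Real ComplexConjugate

/-- orthonormal frames in the kernel -/
def Fr {n : Type} [Fintype n] (S : Matrix n n ℝ) (r : Fin 2 → n → ℝ) : Prop :=
  (∀ a b, r a ⬝ᵥ r b = if a = b then 1 else 0) ∧ ∀ a, S *ᵥ r a = 0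

namespace W

variable {n : Type} [Fintype n] {S : Matrix n n ℝ} {r : Fin 2 → n → ℝ}

theorem dot_comb (h : Fr S r) (c : Fin 2 → ℝ) (a : Fin 2) : (∑ b, c b • r b) ⬝ᵥ r a = c a := by
  fin_cases a <;> simp [h.1]

theorem span (h : Fr S r) (h2 : Module.finrank ℝ (LinearMap.ker S.mulVecLin) = 2) {x : n → ℝ}
    (hx : S *ᵥ x = 0) : x = ∑ a, (x ⬝ᵥ r a) • r a := by
  let f : (Fin 2 → ℝ) →ₗ[ℝ] LinearMap.ker S.mulVecLin :=
    (Fintype.linearCombination ℝ r).codRestrict _ fun c => by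
      simp [Fintype.linearCombination_apply, mulVec_add, mulVec_smul, h.2]
  have hi : Injective f := by
    rw [injective_iff_map_eq_zero]
    intro c hc
    have e : ∑ b, c b • r b = 0 := congrArg Subtype.val hc
    funext a
    rw [← dot_comb h c a, e, zero_dotProduct, Pi.zero_apply]
  obtain ⟨c, hc⟩ := (LinearMap.injective_iff_surjective_of_finrank_eq_finrank
    (by rw [h2]; simp)).1 hi ⟨x, hx⟩
  have e : ∑ b, c b • r b = x := congrArg Subtype.val hc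
  simp only [← e, dot_comb h]

/-- the matrix made invertible by a frame -/
def Mx (S : Matrix n n ℝ) (b : Fin 2 → n → ℝ) : Matrix n n ℝ := S + ∑ a, vecMulVec (b a) (b a)

theorem Mx_mulVec (S : Matrix n n ℝ) (b : Fin 2 → n → ℝ) (x : n → ℝ) :
    Mx S b *ᵥ x = S *ᵥ x + ∑ a, (x ⬝ᵥ b a) • b a := by
  simp only [Mx, add_mulVec, sum_mulVec, vecMulVec_mulVec, dotProduct_comm x, op_smul_eq_smul]

theorem dot_ker (h : Fr S r) (hs : S.IsSymm) (x : n → ℝ) (a : Fin 2) : (S *ᵥ x) ⬝ᵥ r a = 0 := by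
  rw [dotProduct_comm, dotProduct_mulVec, ← mulVec_transpose, hs.eq, h.2, zero_dotProduct]

theorem det_ne [DecidableEq n] (h : Fr S r) (hs : S.IsSymm)
    (h2 : Module.finrank ℝ (LinearMap.ker S.mulVecLin) = 2) : (Mx S r).det ≠ 0 := by
  rw [Ne, ← exists_mulVec_eq_zero_iff]
  rintro ⟨x, x0, hx⟩
  rw [Mx_mulVec] at hx
  have e : ∀ a, x ⬝ᵥ r a = 0 := fun a => by
    have := congrArg (· ⬝ᵥ r a) hx
    simpa only [add_dotProduct, dot_ker h hs, dot_comb h, zero_add, zero_dotProduct] using this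
  simp only [e, zero_smul, Finset.sum_const_zero, add_zero] at hx
  exact x0 (by rw [span h h2 hx]; simp [e])

/-- the unit vector in a direction -/
def nm (v : n → ℝ) : n → ℝ := (√(v ⬝ᵥ v))⁻¹ • v

/-- the second vector made orthogonal to the first -/
def orth (u : Fin 2 → n → ℝ) : n → ℝ := (u 0 ⬝ᵥ u 0) • u 1 - (u 0 ⬝ᵥ u 1) • u 0

/-- Gram-Schmidt -/
def gs (u : Fin 2 → n → ℝ) : Fin 2 → n → ℝ := ![nm (u 0), nm (orth u)]

theorem dot_pos {v : n → ℝ} (h : v ≠ 0) : 0 < v ⬝ᵥ v :=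
  lt_of_le_of_ne (Finset.sum_nonneg fun _ _ => mul_self_nonneg _)
    fun e => h (dotProduct_self_eq_zero.1 e.symm)

theorem nm_dot {v : n → ℝ} (h : v ≠ 0) : nm v ⬝ᵥ nm v = 1 := by
  have := dot_pos h
  have h1 := Real.mul_self_sqrt this.le
  have h2 := (Real.sqrt_pos.2 this).ne'
  rw [nm, smul_dotProduct, dotProduct_smul, smul_eq_mul, smul_eq_mul]
  field_simp
  rw [sq, h1]

theorem orth_ne {u : Fin 2 → n → ℝ} (h : LinearIndependent ℝ u) : orth u ≠ 0 := by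
  intro e
  have := Fintype.linearIndependent_iff.1 h ![-(u 0 ⬝ᵥ u 1), u 0 ⬝ᵥ u 0]
    (by rw [← e, orth]; simp [sub_eq_neg_add]) 1
  exact (dot_pos (h.ne_zero 0)).ne' this

theorem gs_fr {u : Fin 2 → n → ℝ} (h : LinearIndependent ℝ u) (hu : ∀ a, S *ᵥ u a = 0) :
    Fr S (gs u) := by
  have o : nm (u 0) ⬝ᵥ nm (orth u) = 0 := by
    have : u 0 ⬝ᵥ orth u = 0 := by simp [orth, mul_comm]
    simp [nm, this]
  refine ⟨fun a b => ?_, fun a => ?_⟩
  · fin_cases a <;> fin_cases b <;>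
      simp [gs, nm_dot (h.ne_zero 0), nm_dot (orth_ne h), o, dotProduct_comm (nm (orth u))]
  · fin_cases a <;> simp [gs, nm, orth, mulVec_smul, mulVec_sub, hu]

variable {P : Type} [NormedAddCommGroup P] [NormedSpace ℝ P] {w : P}

theorem sm_dot {x y : P → n → ℝ} (hx : ContDiffAt ℝ ∞ x w) (hy : ContDiffAt ℝ ∞ y w) :
    ContDiffAt ℝ ∞ (fun p => x p ⬝ᵥ y p) w :=
  ContDiffAt.sum fun i _ => (contDiffAt_pi.1 hx i).mul (contDiffAt_pi.1 hy i)

theorem sm_nm {x : P → n → ℝ} (hx : ContDiffAt ℝ ∞ x w) (h : x w ≠ 0) :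
    ContDiffAt ℝ ∞ (fun p => nm (x p)) w :=
  (((sm_dot hx hx).sqrt (dot_pos h).ne').inv (Real.sqrt_pos.2 (dot_pos h)).ne').smul hx

theorem sm_gs {u : P → Fin 2 → n → ℝ} (hu : ContDiffAt ℝ ∞ u w) (h : LinearIndependent ℝ (u w)) :
    ContDiffAt ℝ ∞ (fun p => gs (u p)) w := by
  have h0 := contDiffAt_pi.1 hu 0
  have h1 := contDiffAt_pi.1 hu 1
  refine contDiffAt_pi.2 fun a => ?_
  fin_cases a
  · exact sm_nm h0 (h.ne_zero 0)
  · exact sm_nm (((sm_dot h0 h0).smul h1).sub ((sm_dot h0 h1).smul h0)) (orth_ne h)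

theorem sm_det [DecidableEq n] {A : P → Matrix n n ℝ} (h : ∀ i j, ContDiffAt ℝ ∞ (A · i j) w) :
    ContDiffAt ℝ ∞ (fun p => (A p).det) w := by
  simp only [det_apply']
  exact ContDiffAt.sum fun σ _ => contDiffAt_const.mul (contDiffAt_prod fun i _ => h _ _)

theorem cramer_ker [DecidableEq n] {b : Fin 2 → n → ℝ} (hd : (Mx S b).det ≠ 0)
    (h2 : Module.finrank ℝ (LinearMap.ker S.mulVecLin) = 2) (a : Fin 2) :
    S *ᵥ cramer (Mx S b) (b a) = 0 := by
  have inj : ∀ x, Mx S b *ᵥ x = 0 → x = 0 := fun x => eq_zero_of_mulVec_eq_zero hd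
  let f : LinearMap.ker S.mulVecLin →ₗ[ℝ] Fin 2 → ℝ :=
    (LinearMap.pi fun c => (dotProductBilin ℝ ℝ).flip (b c)).domRestrict _
  have hf : ∀ x c, f x c = x.1 ⬝ᵥ b c := fun _ _ => rfl
  have hi : Injective f := by
    rw [injective_iff_map_eq_zero]
    rintro ⟨x, hx⟩ e
    refine Subtype.ext (inj x ?_)
    have : ∀ c, x ⬝ᵥ b c = 0 := fun c => congrFun e c
    rw [Mx_mulVec, show S *ᵥ x = 0 from hx]
    simp [this]
  obtain ⟨⟨x, hx⟩, e⟩ := (LinearMap.injective_iff_surjective_of_finrank_eq_finrank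
    (by rw [h2]; simp)).1 hi (Pi.single a (Mx S b).det)
  have : ∀ c, x ⬝ᵥ b c = (Pi.single a (Mx S b).det : Fin 2 → ℝ) c := fun c => congrFun e c
  have e' : cramer (Mx S b) (b a) = x := by
    refine sub_eq_zero.1 (inj _ ?_)
    rw [mulVec_sub, mulVec_cramer, Mx_mulVec, show S *ᵥ x = 0 from hx]
    simp [this, Pi.single_apply]
  rw [e']
  exact hx

end W

theorem frame_loc {n P : Type} [Fintype n] [DecidableEq n] [NormedAddCommGroup P]
    [NormedSpace ℝ P] {S : P → Matrix n n ℝ} {w0 : P}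
    (h : ∀ᶠ w in 𝓝 w0, (∀ i j, ContDiffAt ℝ ∞ (S · i j) w) ∧ (S w).PosSemidef ∧
      Module.finrank ℝ (LinearMap.ker (S w).mulVecLin) = 2) :
    ∃ r : P → Fin 2 → n → ℝ, ∀ᶠ w in 𝓝 w0, ContDiffAt ℝ ∞ r w ∧ Fr (S w) (r w) := by
  obtain ⟨s0, p0, k0⟩ := h.self_of_nhds
  obtain ⟨b, f0⟩ : ∃ b, Fr (S w0) b := by
    let β := Module.finBasisOfFinrankEq ℝ _ k0
    have := β.linearIndependent.map' _ (Submodule.ker_subtype _)
    exact ⟨_, W.gs_fr this fun a => (β a).2⟩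
  have sm : ∀ w, (∀ i j, ContDiffAt ℝ ∞ (S · i j) w) → ∀ i j,
      ContDiffAt ℝ ∞ (fun p => W.Mx (S p) b i j) w := fun w h i j => by
    simp only [W.Mx, Matrix.add_apply]
    exact (h i j).add contDiffAt_const
  have hb : LinearIndependent ℝ b := Fintype.linearIndependent_iff.2 fun c e a => by
    rw [← W.dot_comb f0 c a, e, zero_dotProduct]
  have hc : ContinuousAt (fun p => (W.Mx (S p) b).det) w0 :=
    (W.sm_det (A := fun p => W.Mx (S p) b) (sm w0 s0)).continuousAt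
  have d0 : (W.Mx (S w0) b).det ≠ 0 := W.det_ne f0 (isHermitian_iff_isSymm.1 p0.1) k0
  refine ⟨fun p => W.gs fun a => cramer (W.Mx (S p) b) (b a), ?_⟩
  filter_upwards [h, hc.eventually_ne d0] with w hw hd
  have li : LinearIndependent ℝ fun a => cramer (W.Mx (S w) b) (b a) :=
    Fintype.linearIndependent_iff.2 fun c e a => by
      have := congrArg (W.Mx (S w) b *ᵥ ·) e
      simp only [mulVec_sum, mulVec_smul, mulVec_cramer, smul_smul, mulVec_zero] at this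
      exact (mul_eq_zero.1 (Fintype.linearIndependent_iff.1 hb _ this a)).resolve_right hd
  refine ⟨W.sm_gs (u := fun p a => cramer (W.Mx (S p) b) (b a))
    (contDiffAt_pi.2 fun a => contDiffAt_pi.2 fun i => ?_) li,
    W.gs_fr li (W.cramer_ker hd hw.2.2)⟩
  refine W.sm_det (A := fun p => (W.Mx (S p) b).updateCol i (b a)) fun i' j => ?_
  simp only [updateCol_apply]
  split_ifs
  exacts [contDiffAt_const, sm w hw.1 _ _]

theorem Fr.solve {n : Type} [Fintype n] [DecidableEq n] {S : Matrix n n ℝ} {r : Fin 2 → n → ℝ}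
    (h : Fr S r) (hs : S.IsSymm) (h2 : Module.finrank ℝ (LinearMap.ker S.mulVecLin) = 2)
    (τ : n → ℝ) : ∃ u : n → ℝ, (∀ a, u ⬝ᵥ r a = 0) ∧ S *ᵥ u + ∑ a, (τ ⬝ᵥ r a) • r a = τ := by
  obtain ⟨x, hx⟩ := mulVec_surjective_iff_isUnit.2
    ((isUnit_iff_isUnit_det _).2 (W.det_ne h hs h2).isUnit) τ
  replace hx : S *ᵥ x + ∑ a, (x ⬝ᵥ r a) • r a = τ := (W.Mx_mulVec S r x).symm.trans hx
  have e : ∀ a, τ ⬝ᵥ r a = x ⬝ᵥ r a := fun a => by
    rw [← hx, add_dotProduct, W.dot_ker h hs, W.dot_comb h, zero_add]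
  refine ⟨x - ∑ a, (x ⬝ᵥ r a) • r a, fun a => by rw [sub_dotProduct, W.dot_comb h, sub_self], ?_⟩
  simp only [e, mulVec_sub, mulVec_sum, mulVec_smul, h.2, smul_zero, Finset.sum_const_zero,
    sub_zero, hx]

theorem Fr.rot {n : Type} [Fintype n] [DecidableEq n] {S : Matrix n n ℝ} {r r' : Fin 2 → n → ℝ}
    (h : Fr S r) (h' : Fr S r') (h2 : Module.finrank ℝ (LinearMap.ker S.mulVecLin) = 2) :
    ∃ O : Matrix (Fin 2) (Fin 2) ℝ, O * Oᵀ = 1 ∧ ∀ a, r' a = ∑ b, O a b • r b := by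
  have e := fun a => W.span h h2 (h'.2 a)
  refine ⟨of fun a b => r' a ⬝ᵥ r b, ?_, e⟩
  ext a c
  rw [one_apply, ← h'.1, mul_apply]
  conv_rhs => rw [e a]
  simp only [sum_dotProduct, smul_dotProduct, of_apply, transpose_apply, smul_eq_mul,
    dotProduct_comm (r' c)]

theorem ker_gram {n m : Type} [Fintype n] [Fintype m] [DecidableEq n] [DecidableEq m]
    (B : Matrix n m ℝ) (hc : Fintype.card n = Fintype.card m) :
    Module.finrank ℝ (LinearMap.ker (B * Bᵀ).mulVecLin) =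
      Module.finrank ℝ (LinearMap.ker B.mulVecLin) := by
  have h1 := (B * Bᵀ).mulVecLin.finrank_range_add_finrank_ker
  have h2 := B.mulVecLin.finrank_range_add_finrank_ker
  have h3 := rank_self_mul_transpose B
  rw [Module.finrank_fintype_fun_eq_card] at h1 h2
  unfold Matrix.rank at h3
  omega

end Pool.Agent.Lib.MP_78bd4b_ag
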