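import Pool.Agent.Lib.MP_78bd4b_ag.AtlasA

/-! Atlases in angle coordinates. -/

noncomputable section

namespace Pool.Agent.Lib.MP_78bd4b_ag

open Complex Set Filter Function Metric
open scoped Manifold ContDiff Topology Real ComplexConjugate

namespace At

variable {M : Type*} [TopologicalSpace M] [ChartedSpace (EuclideanSpace ℝ (Fin 3)) M]
  {r : Setoid M} (c : Pc r)

namespace Pc

/-- the deck action -/
abbrev A (j : ℤ) (z : ℂ) : ℂ := act c.kl c.ζ j z

theorem per (j : ℤ) (t : ℝ) (z : ℂ) : c.φ (t + c.T * j, c.A j z) = c.φ (t, z) :=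
  ((c.deck _ _).2 ⟨j, rfl, rfl⟩).symm

theorem A_zero (z : ℂ) : c.A 0 z = z := by simp [act]

theorem A_add (i j : ℤ) (z : ℂ) : c.A (i + j) z = c.A i (c.A j z) := by
  have : c.ζ ≠ 0 := fun h => by simpa [h, c.P0.ne'] using c.ζP
  cases h : c.kl
  · simp [act, h, zpow_add₀ this, mul_assoc]
  · by_cases hi : Even i <;> by_cases hj : Even j <;> simp [act, h, Int.even_add, hi, hj]

theorem A_P (z : ℂ) : c.A c.P z = z := by
  cases h : c.kl
  · simp [act, h, c.ζP]
  · simp [act, h, c.P2 h]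

theorem free {j : ℤ} {z : ℂ} (hz : z.im ≠ 0) (h : z = c.A j z) : (c.P : ℤ) ∣ j := by
  cases hk : c.kl
  · have z0 : z ≠ 0 := by rintro rfl; simp at hz
    have : c.ζ ^ j = 1 := mul_right_cancel₀ z0 (by simpa [act, hk] using h.symm)
    rw [← (isPrimitiveRoot_exp _ c.P0.ne').zpow_eq_one_iff_dvd, ← c.ζk, ← zpow_natCast, ← zpow_mul,
      mul_comm, zpow_mul, this, one_zpow]
  · rw [c.P2 hk]
    by_contra hj
    have : ¬Even j := fun h => hj h.two_dvd
    simp only [act, hk, this, if_true, if_false] at h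
    exact hz (conj_eq_iff_im.1 h.symm)

end Pc

variable {E : Type} [NormedAddCommGroup E] [InnerProductSpace ℝ E] {J : M → E}

/-- the fibres are traversed with constant speed -/
def Sp (J : M → E) (c : Pc r) (v : ℂ → ℝ) : Prop :=
  Continuous v ∧ ∀ x : ℝ × ℂ, 0 < v x.2 ∧ ‖deriv (fun s => J (c.φ (s, x.2))) x.1‖ = v x.2

variable (hJ : ContMDiff (𝓡 3) 𝓘(ℝ, E) ∞ J)

include hJ in
theorem Pc.sm : ContDiff ℝ ∞ (J ∘ c.φ) := (hJ.comp c.loc.contMDiff).contDiff

include hJ in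
theorem Pc.sm1 (z : ℂ) : ContDiff ℝ ∞ fun s => J (c.φ (s, z)) :=
  (c.sm hJ).comp (contDiff_prodMk_left z)

/-- the angle function -/
theorem ex_angle {μ : ℝ × ℂ → ℝ} (h1 : ContDiff ℝ ∞ μ) (h2 : ∀ x, 0 < μ x)
    (h3 : ∀ t z, μ (t + 1, c.A 1 z) = μ (t, z)) : ∃ (θ : ℝ × ℂ → ℝ) (l : ℂ → ℝ),
      ContDiff ℝ ∞ θ ∧ Continuous l ∧ (∀ z, 0 < l z) ∧
      (∀ t z, HasDerivAt (fun s => θ (s, z)) (μ (t, z) / l z) t) ∧
      ∀ t z, θ (t + 1, c.A 1 z) = θ (t, z) + 2 * π / c.P := by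
  have c1 : ∀ z, Continuous fun u => μ (u, z) := fun z => h1.continuous.comp (by fun_prop)
  let F : ℝ × ℂ → ℝ := fun x => ∫ u in (0 : ℝ)..x.1, μ (u, x.2)
  have s1 : ContDiff ℝ ∞ F := by
    have := (contDiff_int (F := fun p : (ℝ × ℂ) × ℝ => μ (p.1.1 * p.2, p.1.2))
      (h1.comp (by fun_prop)) 0 1).mul contDiff_fst
    refine (funext fun x => ?_ : _ = F) ▸ this
    rw [mul_comm, ← smul_eq_mul, intervalIntegral.smul_integral_comp_mul_left fun u => μ (u, x.2)]
    simp [F]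
  have d1 : ∀ t z, HasDerivAt (fun s => F (s, z)) (μ (t, z)) t := fun t z =>
    ((c1 z).integral_hasStrictDerivAt 0 t).hasDerivAt
  have e1 : ∀ a b z, F (a + 1, c.A 1 z) - F (b + 1, c.A 1 z) = F (a, z) - F (b, z) := fun a b z => by
    have := is_const_of_deriv_eq_zero (f := fun s => F (s + 1, c.A 1 z) - F (s, z))
      (fun s => (((d1 _ _).comp_add_const s 1).sub (d1 s z)).differentiableAt)
      (fun s => (((d1 _ _).comp_add_const s 1).sub (d1 s z)).deriv.trans (by rw [h3, sub_self])) a b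
    linarith
  have m1 : ∀ z, StrictMono fun s => F (s, z) := fun z =>
    strictMono_of_deriv_pos fun s => (d1 s z).deriv ▸ h2 _
  have p0 : (0 : ℝ) < c.P := Nat.cast_pos.2 c.P0
  let L : ℂ → ℝ := fun z => F (0, z) - F (-c.P, z)
  have L0 : ∀ z, 0 < L z := fun z => sub_pos.2 (m1 z (neg_lt_zero.2 p0))
  have e2 : ∀ (n : ℕ) a b z, F (a + n, c.A n z) - F (b + n, c.A n z) = F (a, z) - F (b, z) := by
    intro n a b z
    induction n with
    | zero => simp [c.A_zero]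
    | succ n ih => rw [Nat.cast_succ, Nat.cast_succ, add_comm (n : ℤ), c.A_add, ← add_assoc,
        ← add_assoc, e1, ih]
  have L1 : ∀ z, L (c.A 1 z) = L z := fun z => by
    have h4 := e1 (-1) (-c.P - 1) z
    have h5 := e2 c.P (-c.P) (-c.P - 1) z
    rw [c.A_P] at h5
    simp only [neg_add_cancel, sub_add_cancel, show -(c.P : ℝ) - 1 + c.P = -1 by ring] at h4 h5
    simp only [L]
    linarith
  have s2 : ContDiff ℝ ∞ L := (s1.comp (by fun_prop)).sub (s1.comp (by fun_prop))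
  refine ⟨fun x => 2 * π / (c.P * L x.2) * ∑ j ∈ Finset.range c.P, (F x - F (-j, x.2)),
    fun z => L z / (2 * π), ?_, s2.continuous.div_const _, fun z => div_pos (L0 z) Real.two_pi_pos,
    fun t z => ?_, fun t z => ?_⟩
  · exact (contDiff_const.div (contDiff_const.mul (s2.comp contDiff_snd)) fun x =>
      (mul_pos p0 (L0 _)).ne').mul (ContDiff.sum fun j _ => s1.sub (s1.comp (by fun_prop)))
  · refine ((HasDerivAt.fun_sum (u := Finset.range c.P) fun j _ =>
      (d1 t z).sub_const (F (-j, z))).const_mul (2 * π / (c.P * L z))).congr_deriv ?_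
    have := L0 z
    simp only [Finset.sum_const, Finset.card_range, nsmul_eq_mul]
    field_simp
  · have h4 : ∀ j : ℕ, F (t + 1, c.A 1 z) - F (-j, c.A 1 z) =
        F (t, z) - F (-j, z) + (F (-j, z) - F (-(j + 1 : ℕ), z)) := fun j => by
      have := e1 t (-(j + 1 : ℕ)) z
      rw [show -((j + 1 : ℕ) : ℝ) + 1 = -j by push_cast; ring] at this
      linarith
    have := L0 z
    simp only [h4, L1, Finset.sum_add_distrib, Finset.sum_range_sub' fun j : ℕ => F (-j, z),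
      mul_add, Nat.cast_zero, neg_zero]
    congr 1
    change _ * L z = _
    field_simp

include hJ in
theorem Pc.angle (hi : ∀ m, Injective (mfderiv (𝓡 3) 𝓘(ℝ, E) J m)) (hT : c.T = 1) :
    ∃ (c' : Pc r) (v : ℂ → ℝ), c'.T = 2 * π / c'.P ∧ Sp J c' v ∧
      ∀ x, ∃ t, c'.φ (t, x.2) = c.φ x := by
  have s1 := c.sm hJ
  let w : ℝ × ℂ → E := fun x => fderiv ℝ (J ∘ c.φ) x (1, 0)
  have d1 : ∀ t z, HasDerivAt (fun s => J (c.φ (s, z))) (w (t, z)) t := fun t z =>
    (s1.differentiable (by simp) (t, z)).hasFDerivAt.comp_hasDerivAt (f := fun s => (s, z)) t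
      ((hasDerivAt_id t).prodMk (hasDerivAt_const t z))
  have w0 : ∀ x, w x ≠ 0 := fun x h => by
    have : Injective (fderiv ℝ (J ∘ c.φ) x) := by
      rw [← mfderiv_eq_fderiv, mfderiv_comp x (hJ.mdifferentiable (by simp) _)
        ((c.loc x).mdifferentiableAt (by simp)),
        ← (c.loc x).mfderivToContinuousLinearEquiv_coe (by simp)]
      exact (hi _).comp ((c.loc x).mfderivToContinuousLinearEquiv (by simp)).injective
    simpa using this (h.trans (map_zero _).symm)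
  obtain ⟨θ, l, h1, h2, h3, h4, h5⟩ := ex_angle c (μ := fun x => ‖w x‖)
    (((s1.fderiv_right (m := ∞) le_rfl).clm_apply contDiff_const).norm ℝ w0)
    (fun x => norm_pos_iff.2 (w0 x)) fun t z => congrArg norm (by
      refine ((d1 _ _).comp_add_const t 1).unique ?_
      convert d1 t z using 3 with s
      simpa [hT] using c.per 1 s z)
  have p0 : (0 : ℝ) < c.P := Nat.cast_pos.2 c.P0
  have h6 : ∀ (j : ℤ) t z, θ (t + j, c.A j z) = θ (t, z) + 2 * π / c.P * j := fun j t z => by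
    induction j with
    | zero => simp [c.A_zero]
    | succ i ih => rw [add_comm (i : ℤ), c.A_add, Int.cast_add, Int.cast_one, add_comm 1,
        ← add_assoc, h5, ih]; ring
    | pred i ih =>
      have := h5 (t + (-(i : ℤ) - 1 : ℤ)) (c.A (-i - 1) z)
      rw [← c.A_add, add_sub_cancel, show t + (-(i : ℤ) - 1 : ℤ) + 1 = t + (-(i : ℤ) : ℤ) by
        push_cast; ring, ih] at this
      push_cast at this ⊢
      linarith
  have q0 : ∀ t z, 0 < ‖w (t, z)‖ / l z := fun t z => div_pos (norm_pos_iff.2 (w0 _)) (h3 z)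
  have m1 : ∀ z, StrictMono fun s => θ (s, z) := fun z =>
    strictMono_of_deriv_pos fun s => (h4 s z).deriv ▸ q0 s z
  have su : ∀ z, Surjective fun s => θ (s, z) := fun z => by
    have h7 : ∀ n : ℤ, θ (n * c.P, z) = θ (0, z) + 2 * π * n := fun n => by
      have h8 : c.A (n * c.P) z = z := by
        induction n with
        | zero => simp [c.A_zero]
        | succ i ih => rw [add_one_mul, c.A_add, c.A_P, ih]
        | pred i ih => rw [← c.A_P (c.A _ z), ← c.A_add, sub_one_mul, add_sub_cancel, ih]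
      have := h6 (n * c.P) 0 z
      rw [h8, zero_add, Int.cast_mul, Int.cast_natCast] at this
      rw [this]
      field_simp
    refine fun y => mem_range_of_exists_le_of_exists_ge (h1.continuous.comp (by fun_prop))
      ⟨⌊(y - θ (0, z)) / (2 * π)⌋ * c.P, ?_⟩ ⟨⌈(y - θ (0, z)) / (2 * π)⌉ * c.P, ?_⟩
    · rw [h7, ← le_sub_iff_add_le', ← le_div_iff₀' Real.two_pi_pos]
      exact Int.floor_le _
    · rw [h7, ← sub_le_iff_le_add', ← div_le_iff₀' Real.two_pi_pos]
      exact Int.le_ceil _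
  let Θ : ℝ × ℂ → ℝ × ℂ := fun x => (θ x, x.2)
  let D := (locDiff (f := Θ) (h1.prodMk contDiff_snd) fun x => by
    have h7 := (h1.differentiable (by simp) x).hasFDerivAt
    rw [(h7.prodMk hasFDerivAt_snd).fderiv, injective_iff_map_eq_zero]
    rintro ⟨a, b⟩ h
    obtain rfl : b = 0 := congrArg Prod.snd h
    have h8 : fderiv ℝ θ x (1, 0) = _ := (h7.comp_hasDerivAt x.1
      ((hasDerivAt_id x.1).prodMk (hasDerivAt_const x.1 x.2))).unique (h4 x.1 x.2)
    have h9 : fderiv ℝ θ x (a • (1, 0)) = 0 := by simpa using congrArg Prod.fst h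
    rw [map_smul, h8, smul_eq_zero] at h9
    rw [h9.resolve_right (q0 _ _).ne']
    rfl).diffeomorphOfBijective (f := Θ) ⟨fun x y h => by
      obtain ⟨s, z⟩ := x
      obtain ⟨t, z'⟩ := y
      obtain rfl : z = z' := congrArg Prod.snd h
      rw [(m1 z).injective (congrArg Prod.fst h)], fun y =>
        (su y.2 y.1).imp' (fun s => (s, y.2)) fun s hs => Prod.ext hs rfl⟩
  have e1 : ∀ x, D.symm (θ x, x.2) = x := D.symm_apply_apply
  refine ⟨{ c with
      φ := c.φ ∘ D.symm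
      T := 2 * π / c.P
      loc := fun x => (D.symm.isLocalDiffeomorph x).comp _ _ (c.loc _)
      deck := fun x y => ?_
      fib := fun x m => ?_ }, l, rfl, ⟨h2, fun x => ⟨h3 _, ?_⟩⟩,
    fun x => ⟨θ x, congrArg c.φ (e1 x)⟩⟩
  · obtain ⟨⟨s, z⟩, rfl⟩ := D.surjective x
    obtain ⟨⟨t, z'⟩, rfl⟩ := D.surjective y
    refine ((congrArg₂ (c.φ · = c.φ ·) (e1 _) (e1 _)).to_iff.trans (c.deck _ _)).trans
      (exists_congr fun j => and_congr_left ?_)
    rintro (rfl : z' = c.A j z)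
    change t = s + _ ↔ θ _ = θ _ + _
    rw [← h6, hT, one_mul]
    exact (m1 _).injective.eq_iff.symm
  · obtain ⟨⟨s, z⟩, rfl⟩ := D.surjective x
    refine ((congrArg (r <| c.φ ·) (e1 _) ▸ c.fib (s, z) m :) : _ ↔ _).trans ⟨?_, ?_⟩
    · rintro ⟨t, rfl⟩
      exact ⟨θ (t, z), congrArg c.φ (e1 (t, z))⟩
    · rintro ⟨t, rfl⟩
      obtain ⟨t, rfl⟩ := su z t
      exact ⟨t, congrArg c.φ (e1 (t, z)).symm⟩
  · obtain ⟨s, z⟩ := x
    obtain ⟨t, rfl⟩ := su z s
    have h7 : Differentiable ℝ fun s => J (c.φ (D.symm (s, z))) :=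
      ((s1.comp D.symm.contMDiff.contDiff).comp (contDiff_prodMk_left z)).differentiable (by simp)
    have := ((h7 _).hasDerivAt.scomp t (h4 t z)).unique (by
      convert d1 t z using 2 with s
      exact congrArg (J <| c.φ ·) (e1 (s, z)))
    have h8 := congrArg norm this
    rw [norm_smul, Real.norm_of_nonneg (q0 t z).le, div_mul_eq_mul_div, div_eq_iff (h3 z).ne',
      mul_right_inj' (norm_ne_zero_iff.2 (w0 _))] at h8
    exact h8

theorem const_of {X : Type*} [MetricSpace X] {f : ℝ → X} {B : Set ℝ} (hB : IsPreconnected B)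
    (hf : ContinuousOn f B) {S : Set X} (hS : S.Countable) (h : ∀ a ∈ B, f a ∈ S) {a b : ℝ}
    (ha : a ∈ B) (hb : b ∈ B) : f a = f b :=
  hS.isTotallyDisconnected _ (image_subset_iff.2 h) (hB.image f hf) ⟨a, ha, rfl⟩ ⟨b, hb, rfl⟩

variable {c} {c' : Pc r} {v v' : ℂ → ℝ} {x x' : ℝ × ℂ}

theorem lift (h : c.φ x = c'.φ x') : ∃ g : ℝ × ℂ → ℝ × ℂ, ContDiffAt ℝ ∞ g x ∧ g x = x' ∧
    ∀ᶠ y in 𝓝 x, c'.φ (g y) = c.φ y :=
  ⟨(c'.loc x').localInverse ∘ c.φ,
    ((c'.loc x').localInverse_contMDiffAt.comp_of_eq (c.loc x).contMDiffAt h).contDiffAt,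
    (congrArg _ h).trans ((c'.loc x').localInverse_left_inv (c'.loc x').localInverse_mem_target),
    (c.loc x).contMDiffAt.continuousAt.eventually (h ▸ (c'.loc x').localInverse_eventuallyEq_right)⟩

include hJ

theorem loc1 (hv : Sp J c v) (hv' : Sp J c' v') (h : c.φ x = c'.φ x') : ∃ e, |e| * v' x'.2 = v x.2 ∧
    ∀ᶠ s in 𝓝 x.1, c.φ (s, x.2) = c'.φ (x'.1 + e * (s - x.1), x'.2) := by
  obtain ⟨g, h1, h2, h3⟩ := lift h
  have h4 : ContDiffAt ℝ 1 (fun s => g (s, x.2)) x.1 :=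
    ContDiffAt.comp (g := g) (f := fun s => (s, x.2)) x.1 (h1.of_le (by simp))
      (contDiff_prodMk_left x.2).contDiffAt
  obtain ⟨ε, ε0, h5⟩ := eventually_nhds_iff_ball.1 ((h4.eventually (by simp)).and
    ((Continuous.prodMk_left x.2).continuousAt.eventually h3))
  have b0 := mem_ball_self (x := x.1) ε0
  have pc := (convex_ball x.1 ε).isPreconnected
  have h6 : ∀ s ∈ ball x.1 ε, c.φ (s, x.2) = c'.φ ((g (s, x.2)).1, x'.2) := fun s hs => by
    rw [← (h5 s hs).2, ← h2, ← const_of pc (f := fun s => (g (s, x.2)).2)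
      (fun s hs => (h5 s hs).1.continuousAt.snd.continuousWithinAt)
      (countable_range fun j => c'.A j x'.2) (fun s hs => ?_) hs b0]
    obtain ⟨t, ht⟩ := (c'.fib x' _).1 (h ▸ (c.fib x _).2 ⟨s, (h5 s hs).2.symm⟩)
    exact ((c'.deck _ _).1 ht).imp fun j hj => hj.2.symm
  have h7 : ∀ s ∈ ball x.1 ε, |deriv (fun s => (g (s, x.2)).1) s| * v' x'.2 = v x.2 := by
    intro s hs
    have := (((c'.sm1 hJ x'.2).differentiable (by simp) _).hasDerivAt.scomp s
      ((h5 s hs).1.fst.differentiableAt one_ne_zero).hasDerivAt).congr_of_eventuallyEq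
      (f₁ := fun s => J (c.φ (s, x.2))) (by
        filter_upwards [isOpen_ball.mem_nhds hs] with u hu using congrArg J (h6 u hu))
    rw [← (hv.2 (s, x.2)).2, this.deriv, norm_smul, (hv'.2 ((g (s, x.2)).1, x'.2)).2, Real.norm_eq_abs]
  refine ⟨_, h7 _ b0, ?_⟩
  have d : ∀ e s, HasDerivAt (fun s => x'.1 + e * (s - x.1)) e s := fun e s => by
    simpa using (((hasDerivAt_id s).sub_const x.1).const_mul e).const_add x'.1
  filter_upwards [isOpen_ball.mem_nhds b0] with s hs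
  refine (h6 s hs).trans (congrArg (fun t => c'.φ (t, x'.2)) (isOpen_ball.eqOn_of_deriv_eq pc (f := fun s => (g (s, x.2)).1)
    (fun s hs => ((h5 s hs).1.fst.differentiableAt one_ne_zero).differentiableWithinAt)
    (fun s _ => (d _ s).differentiableAt.differentiableWithinAt) (fun s hs => ?_) b0
    (by simp [h2]) hs))
  rw [(d _ s).deriv]
  refine const_of pc (ContDiffOn.continuousOn_deriv_of_isOpen
    (fun s hs => (h5 s hs).1.fst.contDiffWithinAt) isOpen_ball le_rfl) (toFinite {v x.2 / v' x'.2, -(v x.2 / v' x'.2)}).countable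
    (fun s hs => ?_) hs b0
  exact eq_or_eq_neg_of_abs_eq (eq_div_of_mul_eq (hv'.2 x').1.ne' (h7 s hs))

theorem glob (ji : Injective J) (hv : Sp J c v) (hv' : Sp J c' v') (h : c.φ x = c'.φ x') :
    ∃ e, |e| * v' x'.2 = v x.2 ∧ ∀ s, c.φ (s, x.2) = c'.φ (x'.1 + e * (s - x.1), x'.2) := by
  obtain ⟨e, h1, h2⟩ := loc1 hJ hv hv' h
  let γ := fun s => J (c.φ (s, x.2))
  let δ := fun a b e s => J (c'.φ (a + e * (s - b), x'.2))
  have s1 : ContDiff ℝ ∞ γ := c.sm1 hJ _
  have s2 : ContDiff ℝ ∞ (δ x'.1 x.1 e) := (c'.sm1 hJ _).comp (by fun_prop)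
  have d : ∀ a b e s, deriv (δ a b e) s =
      e • deriv (fun s => J (c'.φ (s, x'.2))) (a + e * (s - b)) := fun a b e s =>
    (((c'.sm1 hJ x'.2).differentiable (by simp) _).hasDerivAt.scomp s (by
      simpa using (((hasDerivAt_id s).sub_const b).const_mul e).const_add a)).deriv
  have key : ∀ {s}, γ =ᶠ[𝓝 s] δ x'.1 x.1 e → ∀ᶠ u in 𝓝 s, γ u = δ x'.1 x.1 e u ∧
      deriv γ u = deriv (δ x'.1 x.1 e) u := fun h => h.and h.deriv
  have := IsClopen.eq_univ (s := {s | γ s = δ x'.1 x.1 e s ∧ deriv γ s = deriv (δ x'.1 x.1 e) s})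
    ⟨(isClosed_eq s1.continuous s2.continuous).inter (isClosed_eq (s1.continuous_deriv (by simp))
      (s2.continuous_deriv (by simp))), isOpen_iff_mem_nhds.2 fun s hs => key ?_⟩
    ⟨x.1, (key (h2.mono fun _ => congrArg J)).self_of_nhds⟩
  · exact ⟨e, h1, fun s => ji (eq_univ_iff_forall.1 this s).1⟩
  obtain ⟨e', -, h3⟩ := loc1 hJ hv hv' (x := (s, x.2)) (x' := (_, x'.2)) (ji hs.1)
  have h4 : γ =ᶠ[𝓝 s] δ (x'.1 + e * (s - x.1)) s e' := h3.mono fun _ => congrArg J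
  have h5 := h4.deriv_eq.symm.trans hs.2
  rw [d, d, sub_self, mul_zero, add_zero] at h5
  obtain rfl := smul_left_injective ℝ (norm_pos_iff.1 ((hv'.2 x').1.trans_eq
    (hv'.2 (x'.1 + e * (s - x.1), x'.2)).2.symm)) h5
  exact h4.mono fun u hu => hu.trans (by simp only [δ]; ring_nf)

theorem ratio (ji : Injective J) (hv : Sp J c v) (hv' : Sp J c' v') (hT : c.T = 2 * π / c.P)
    (hT' : c'.T = 2 * π / c'.P) (h : c.φ x = c'.φ x') :
    v x.2 / v' x'.2 ∈ range (Int.cast : ℤ → ℝ) := by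
  obtain ⟨g, h1, h2, h3⟩ := lift h.symm
  refine Int.isClosedEmbedding_coe_real.isClosed_range.mem_of_frequently_of_tendsto
    (f := fun y => v (g y).2 / v' y.2) (((mem_closure_iff_frequently.1
      ((dense_compl_singleton 0).preimage (isOpenMap_im.comp isOpenMap_snd) x')).and_eventually
        h3).mono fun y hy => ?_) (h2 ▸ (hv.1.continuousAt.comp h1.continuousAt.snd).div
      (hv'.1.continuousAt.comp continuousAt_snd) (hv'.2 x').1.ne')
  obtain ⟨e, h4, h5⟩ := glob hJ ji hv hv' hy.2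
  have h6 := c.per c.P (g y).1 (g y).2
  rw [c.A_P, h5, hy.2] at h6
  obtain ⟨j, h7, h8⟩ := (c'.deck _ _).1 h6.symm
  obtain ⟨n, rfl⟩ := c'.free hy.1 h8
  have p0 : (0 : ℝ) < c.P := Nat.cast_pos.2 c.P0
  have p1 : (0 : ℝ) < c'.P := Nat.cast_pos.2 c'.P0
  have := Real.pi_pos
  refine ⟨|n|, ?_⟩
  rw [← h4, mul_div_cancel_right₀ _ (hv'.2 y).1.ne', Int.cast_abs]
  simp only [hT, hT', add_sub_cancel_left, add_right_inj, Int.cast_mul, Int.cast_natCast] at h7
  field_simp at h7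
  rw [h7]

theorem glob1 (ji : Injective J) (hv : Sp J c v) (hv' : Sp J c' v') (hT : c.T = 2 * π / c.P)
    (hT' : c'.T = 2 * π / c'.P) (h : c.φ x = c'.φ x') :
    ∃ e, (e = 1 ∨ e = -1) ∧ ∀ s, c.φ (s, x.2) = c'.φ (x'.1 + e * (s - x.1), x'.2) := by
  obtain ⟨e, h1, h2⟩ := glob hJ ji hv hv' h
  obtain ⟨n, hn⟩ := ratio hJ ji hv hv' hT hT' h
  obtain ⟨m, hm⟩ := ratio hJ ji hv' hv hT' hT h.symm
  have v0 := (hv.2 x).1
  have v1 := (hv'.2 x').1
  have h3 : n * m = 1 := by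
    have : (n * m : ℝ) = 1 := by rw [hn, hm]; field_simp
    exact_mod_cast this
  have h4 : (0 : ℝ) < n := hn ▸ div_pos v0 v1
  obtain rfl := Int.eq_one_of_mul_eq_one_right (by exact_mod_cast h4.le) h3
  refine ⟨e, eq_or_eq_neg_of_abs_eq ?_, h2⟩
  rw [eq_div_of_mul_eq v1.ne' h1, ← hn, Int.cast_one]

theorem trans [T2Space M] (ji : Injective J) (hv : Sp J c v) (hv' : Sp J c' v')
    (hT : c.T = 2 * π / c.P) (hT' : c'.T = 2 * π / c'.P) (h : c.φ x = c'.φ x') :
    ∃ (ε : ℝ) (τ : ℂ → ℝ) (χ : ℂ → ℂ), (ε = 1 ∨ ε = -1) ∧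
    ContDiffAt ℝ ∞ τ x.2 ∧ ContDiffAt ℝ ∞ χ x.2 ∧ ε * x.1 + τ x.2 = x'.1 ∧ χ x.2 = x'.2 ∧
    ∀ᶠ z in 𝓝 x.2, ∀ θ, c.φ (θ, z) = c'.φ (ε * θ + τ z, χ z) := by
  obtain ⟨g, h1, h2, h3⟩ := lift h
  obtain ⟨ε, h4, h5⟩ := glob1 hJ ji hv hv' hT hT' h
  have h6 : ContDiffAt ℝ ∞ (fun z => g (x.1, z)) x.2 :=
    ContDiffAt.comp (g := g) (f := fun z => (x.1, z)) x.2 h1 (contDiff_prodMk_right x.1).contDiffAt
  refine ⟨ε, fun z => (g (x.1, z)).1 - ε * x.1, fun z => (g (x.1, z)).2, h4,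
    h6.fst.sub contDiffAt_const, h6.snd, by simp [h2], by simp [h2], by_contra fun hn => ?_⟩
  have h7 := ((not_eventually.1 hn).and_eventually
    ((Continuous.prodMk_right x.1).continuousAt.eventually h3)).mono
    (q := fun z => c.φ (x.1 + c'.T / 4, z) =
      c'.φ ((g (x.1, z)).1 - ε * (c'.T / 4), (g (x.1, z)).2)) fun z hz => by
      obtain ⟨e, k1, k2⟩ := glob1 hJ ji hv hv' hT hT' hz.2.symm
      have : e = -ε := by
        by_contra he
        obtain rfl : e = ε := by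
          rcases k1 with rfl | rfl <;> rcases h4 with rfl | rfl <;> simp_all
        exact hz.1 fun θ => (k2 θ).trans (by ring_nf)
      rw [k2, this]
      ring_nf
  have h8 := tendsto_nhds_unique_of_frequently_eq
    (c.loc.contMDiff.continuous.continuousAt.comp (Continuous.prodMk_right _).continuousAt)
    (c'.loc.contMDiff.continuous.continuousAt.comp
      ((h6.continuousAt.fst.sub continuousAt_const).prodMk h6.continuousAt.snd)) h7
  simp only [comp_apply, Pi.sub_apply, Prod.mk.eta, h2, h5] at h8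
  obtain ⟨j, h9, -⟩ := (c'.deck _ _).1 h8
  have : 0 < c'.T := hT' ▸ div_pos Real.two_pi_pos (Nat.cast_pos.2 c'.P0)
  have h10 : -ε = 2 * j := mul_left_cancel₀ this.ne' (by simp only at h9; linarith)
  rcases h4 with rfl | rfl <;> norm_cast at h10 <;> omega

end At

open At in
theorem exists_atl {M : Type*} [TopologicalSpace M] [ChartedSpace (EuclideanSpace ℝ (Fin 3)) M]
    [T2Space M] [CompactSpace M] [IsManifold (𝓡 3) ∞ M] (h : IsSeifert M) :
    Nonempty (Atl M) := by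
  obtain ⟨r, h⟩ := exists_pc h
  obtain ⟨N, J, hJ, ji, hi⟩ := exists_embedding_euclidean_of_compact (I := 𝓡 3) (M := M)
  have : ∀ m, ∃ (c : Pc r) (v : ℂ → ℝ), c.T = 2 * π / c.P ∧ Sp J c v ∧
      m ∈ c.φ '' {x | ‖x.2‖ < 1} := fun m => by
    obtain ⟨c, h1, x, h2, rfl⟩ := h m
    obtain ⟨c', v, h3, h4, h5⟩ := c.angle hJ hi h1
    obtain ⟨t, ht⟩ := h5 x
    exact ⟨c', v, h3, h4, (t, x.2), h2, ht⟩
  choose c v h1 h2 h3 using this
  obtain ⟨t, ht⟩ := isCompact_univ.elim_finite_subcover _ (fun m => (c m).loc.isOpenMap _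
    (isOpen_lt continuous_snd.norm continuous_const)) fun m _ => mem_iUnion.2 ⟨m, h3 m⟩
  let f : Fin t.card → M := fun l => t.equivFin.symm l
  refine ⟨⟨t.card, fun l => (c (f l)).φ, fun l => (c (f l)).kl, fun l => (c (f l)).P,
    fun l => (c (f l)).k, fun l => (c (f l)).ζ, fun l => (c _).P0, fun l => (c _).P2,
    fun l => (c _).cop, fun l => (c _).ζP, fun l => (c _).ζk, fun l => (c _).loc,
    fun l x y => ?_, fun m => ?_, fun l l' x x' =>
      trans hJ ji.injective (h2 _) (h2 _) (h1 _) (h1 _)⟩⟩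
  · rw [(c _).deck, h1]
    simp only [div_mul_eq_mul_div]
    rfl
  · obtain ⟨a, ha, x, hx⟩ := mem_iUnion₂.1 (ht (mem_univ m))
    exact ⟨t.equivFin ⟨a, ha⟩, x, by simpa [f] using hx⟩

end Pool.Agent.Lib.MP_78bd4b_ag
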