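import Pool.Agent.Lib.MP_78bd4b_ag.Core

/-! Parametric integrals, local diffeomorphisms, fibred charts. -/

noncomputable section

namespace Pool.Agent.Lib.MP_78bd4b_ag

open Complex Set Filter Function Metric
open scoped Manifold ContDiff Topology Real ComplexConjugate

namespace At

section int

variable {Y V : Type} [NormedAddCommGroup Y] [NormedSpace ℝ Y] [FiniteDimensional ℝ Y]
  [NormedAddCommGroup V] [NormedSpace ℝ V] [CompleteSpace V]



open MeasureTheory ContinuousLinearMap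

variable {F : Y × ℝ → V} {a b : ℝ} {y : Y}

omit [CompleteSpace V] [FiniteDimensional ℝ Y] in
theorem tube {n : ℕ} (hF : ∀ t ∈ uIcc a b, ContDiffAt ℝ n F (y, t)) :
    ∀ᶠ x in 𝓝 y, ∀ t ∈ uIcc a b, ContDiffAt ℝ n F (x, t) :=
  isCompact_uIcc.eventually_forall_of_forall_eventually fun t ht => (hF t ht).eventually (by simp)

omit [CompleteSpace V] in
theorem bdd (hF : ∀ t ∈ uIcc a b, ContDiffAt ℝ 0 F (y, t)) :
    ∃ M, ∀ᶠ x in 𝓝 y, ContinuousOn (fun t => F (x, t)) (uIcc a b) ∧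
      ∀ t ∈ uIcc a b, ‖F (x, t)‖ ≤ M := by
  have := FiniteDimensional.proper_real Y
  obtain ⟨K, K1, K2, K3⟩ := local_compact_nhds (tube (n := 0) hF)
  obtain ⟨M, hM⟩ := (K3.prod (isCompact_uIcc (a := a) (b := b))).exists_bound_of_continuousOn
    (f := F) fun p hp => (K2 hp.1 p.2 hp.2).continuousAt.continuousWithinAt
  refine ⟨M, mem_of_superset K1 fun x hx => ⟨fun t ht => ?_, fun t ht => hM _ ⟨hx, ht⟩⟩⟩
  exact ((K2 hx t ht).continuousAt.comp_of_eq (f := fun t => (x, t)) (by fun_prop)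
    rfl).continuousWithinAt

omit [CompleteSpace V] in
theorem cont (hF : ∀ t ∈ uIcc a b, ContDiffAt ℝ 0 F (y, t)) :
    ContinuousAt (fun y => ∫ t in a..b, F (y, t)) y := by
  obtain ⟨M, hM⟩ := bdd hF
  exact intervalIntegral.continuousAt_of_dominated_interval (bound := fun _ => M)
    (hM.mono fun x h => (h.1.mono uIoc_subset_uIcc).aestronglyMeasurable measurableSet_uIoc)
    (hM.mono fun x h => .of_forall fun t ht => h.2 t (uIoc_subset_uIcc ht))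
    intervalIntegrable_const (.of_forall fun t ht =>
      (hF t (uIoc_subset_uIcc ht)).continuousAt.comp_of_eq (f := fun x => (x, t)) (by fun_prop) rfl)

/-- the derivative in the parameter -/
noncomputable def pd (F : Y × ℝ → V) (p : Y × ℝ) : Y →L[ℝ] V := (fderiv ℝ F p).comp (inl ℝ Y ℝ)

omit [CompleteSpace V] [FiniteDimensional ℝ Y] in
theorem pd_cd {n : ℕ} {p : Y × ℝ} (h : ContDiffAt ℝ (n + 1) F p) : ContDiffAt ℝ n (pd F) p :=
  (h.fderiv_right le_rfl).clm_comp contDiffAt_const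

omit [CompleteSpace V] in
theorem hasF (hF : ∀ t ∈ uIcc a b, ContDiffAt ℝ 1 F (y, t)) :
    HasFDerivAt (fun y => ∫ t in a..b, F (y, t)) (∫ t in a..b, pd F (y, t)) y := by
  obtain ⟨_, h0⟩ := bdd fun t ht => (hF t ht).of_le zero_le_one
  obtain ⟨M, hM⟩ := bdd (F := pd F) fun t ht => pd_cd (n := 0) (by simpa using hF t ht)
  refine intervalIntegral.hasFDerivAt_integral_of_dominated_of_fderiv_le (bound := fun _ => M)
    (F' := fun x t => pd F (x, t)) (hM.and (tube (n := 1) hF))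
    (h0.mono fun x h => (h.1.mono uIoc_subset_uIcc).aestronglyMeasurable measurableSet_uIoc)
    h0.self_of_nhds.1.intervalIntegrable
    ((hM.self_of_nhds.1.mono uIoc_subset_uIcc).aestronglyMeasurable measurableSet_uIoc)
    (.of_forall fun t ht x hx => hx.1.2 t (uIoc_subset_uIcc ht)) intervalIntegrable_const
    (.of_forall fun t ht x hx => ?_)
  exact ((hx.2 t (uIoc_subset_uIcc ht)).differentiableAt (by simp)).hasFDerivAt.comp x
    (hasFDerivAt_prodMk_left x t)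




theorem contDiffAt_int {n : ℕ} {F : Y × ℝ → V} {a b : ℝ} {y : Y}
    (hF : ∀ t ∈ uIcc a b, ContDiffAt ℝ n F (y, t)) :
    ContDiffAt ℝ n (fun y => ∫ t in a..b, F (y, t)) y := by
  induction n generalizing V with
  | zero =>
    exact contDiffAt_zero.2 ⟨_, tube hF, fun x hx => (cont hx).continuousWithinAt⟩
  | succ n ih =>
    push_cast at hF ⊢
    exact contDiffAt_succ_iff_hasFDerivAt.2 ⟨fun y => ∫ t in a..b, pd F (y, t),
      ⟨_, tube (n := 1) fun t ht => (hF t ht).of_le (by simp), fun x hx => hasF hx⟩,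
      ih fun t ht => pd_cd (hF t ht)⟩

theorem contDiff_int {n : ℕ∞} {F : Y × ℝ → V} (hF : ContDiff ℝ n F) (a b : ℝ) :
    ContDiff ℝ n fun y => ∫ t in a..b, F (y, t) :=
  contDiff_iff_forall_nat_le.2 fun _ hm => contDiff_iff_contDiffAt.2 fun _ =>
    contDiffAt_int fun _ _ => (contDiff_iff_forall_nat_le.1 hF _ hm).contDiffAt


end int

theorem locDiff {E : Type*} [NormedAddCommGroup E] [NormedSpace ℝ E] [FiniteDimensional ℝ E]
    {f : E → E} (hf : ContDiff ℝ ∞ f) (hi : ∀ x, Injective (fderiv ℝ f x)) :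
    IsLocalDiffeomorph 𝓘(ℝ, E) 𝓘(ℝ, E) ∞ f := fun x => by
  have := FiniteDimensional.complete ℝ E
  let L : E → E ≃L[ℝ] E := fun y =>
    (LinearEquiv.ofInjectiveEndo (fderiv ℝ f y).toLinearMap (hi y)).toContinuousLinearEquiv
  have hL : ∀ y, HasFDerivAt f (L y : E →L[ℝ] E) y := fun y =>
    (hf.differentiable (by simp) y).hasFDerivAt
  let e := hf.contDiffAt.toOpenPartialHomeomorph f (hL x) (by simp)
  exact ⟨⟨e.toPartialEquiv, e.open_source, e.open_target, hf.contMDiff.contMDiffOn, fun y hy =>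
    (e.contDiffAt_symm hy (hL _) hf.contDiffAt).contMDiffAt.contMDiffWithinAt⟩,
    hf.contDiffAt.mem_toOpenPartialHomeomorph_source (hL x) (by simp), fun _ _ => rfl⟩

/-- the action of the deck group on the disc -/
def act (kl : Bool) (ζ : ℂ) (j : ℤ) (z : ℂ) : ℂ :=
  if kl then (if Even j then z else conj z) else ζ ^ j * z

end At

variable {M : Type*} [TopologicalSpace M] [ChartedSpace (EuclideanSpace ℝ (Fin 3)) M]

theorem glue_mfd [IsManifold (𝓡 3) ∞ M] {V : Type*} [NormedAddCommGroup V] [NormedSpace ℝ V]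
    {ψ : ℝ × ℂ → M} (hψ : IsLocalDiffeomorph 𝓘(ℝ, ℝ × ℂ) (𝓡 3) ∞ ψ) {e : M → V} {w : ℝ × ℂ}
    (h : ContDiffAt ℝ ∞ (e ∘ ψ) w) (hi : Injective (fderiv ℝ (e ∘ ψ) w)) :
    ContMDiffAt (𝓡 3) 𝓘(ℝ, V) ∞ e (ψ w) ∧ Injective (mfderiv (𝓡 3) 𝓘(ℝ, V) e (ψ w)) := by
  have h1 : ContMDiffAt (𝓡 3) 𝓘(ℝ, V) ∞ e (ψ w) := by
    refine (h.contMDiffAt.comp_of_eq (hψ w).localInverse_contMDiffAt
      ((hψ w).localInverse_left_inv (hψ w).localInverse_mem_target)).congr_of_eventuallyEq ?_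
    filter_upwards [(hψ w).localInverse_eventuallyEq_right] with m hm
    exact congrArg e hm.symm
  refine ⟨h1, ?_⟩
  rw [← mfderiv_eq_fderiv, mfderiv_comp w (h1.mdifferentiableAt (by simp))
    ((hψ w).mdifferentiableAt (by simp)), ← (hψ w).mfderivToContinuousLinearEquiv_coe (by simp)] at hi
  exact Injective.of_comp_right hi ((hψ w).mfderivToContinuousLinearEquiv (by simp)).surjective

namespace At

/-- a fibred chart with translation length `T` -/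
structure Pc (r : Setoid M) where
  φ : ℝ × ℂ → M
  kl : Bool
  P : ℕ
  k : ℕ
  ζ : ℂ
  T : ℝ
  P0 : 0 < P
  P2 : kl = true → P = 2
  cop : Nat.Coprime k P
  ζP : ζ ^ P = 1
  ζk : ζ ^ k = exp (2 * π * I / P)
  loc : IsLocalDiffeomorph 𝓘(ℝ, ℝ × ℂ) (𝓡 3) ∞ φ
  deck : ∀ x y, φ x = φ y ↔ ∃ j : ℤ, y.1 = x.1 + T * j ∧ y.2 = act kl ζ j x.2
  fib : ∀ x m, r (φ x) m ↔ ∃ t, φ (t, x.2) = m

/-- the radial diffeomorphism onto the disc -/
def rad (R : ℝ) (z : ℂ) : ℂ := OpenPartialHomeomorph.univUnitBall (R • z)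

theorem rad_iso (R : ℝ) (A : ℂ →ₗᵢ[ℝ] ℂ) (z : ℂ) : rad R (A z) = A (rad R z) := by
  simp [rad, OpenPartialHomeomorph.univUnitBall_apply, ← map_smul]

theorem rad_inj {R : ℝ} (hR : 0 < R) : Injective (rad R) := fun _ _ h =>
  smul_right_injective _ hR.ne' (OpenPartialHomeomorph.univUnitBall.injOn trivial trivial h)

theorem rad_lt (R : ℝ) (z : ℂ) : ‖rad R z‖ < 1 :=
  mem_ball_zero_iff.1 (OpenPartialHomeomorph.univUnitBall.map_source (x := R • z) trivial)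

theorem rad_surj {R : ℝ} (hR : 0 < R) {w : ℂ} (hw : ‖w‖ < 1) :
    rad R (R⁻¹ • OpenPartialHomeomorph.univUnitBall.symm w) = w := by
  rw [rad, smul_inv_smul₀ hR.ne']
  exact OpenPartialHomeomorph.univUnitBall.right_inv (mem_ball_zero_iff.2 hw)

/-- the twisted parametrisation of the cylinder -/
def tw (c R : ℝ) (x : ℝ × ℂ) : ℝ × ℂ := (x.1, exp (-(c * x.1) * I) * rad R x.2)

theorem tw_mem (c R : ℝ) (x : ℝ × ℂ) : tw c R x ∈ Cyl := by
  simpa [tw, Cyl, norm_exp] using rad_lt R x.2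

theorem tw_surj (c : ℝ) {R : ℝ} (hR : 0 < R) {y : ℝ × ℂ} (hy : y ∈ Cyl) : tw c R
    (y.1, R⁻¹ • OpenPartialHomeomorph.univUnitBall.symm (exp (c * y.1 * I) * y.2)) = y := by
  rw [tw, rad_surj hR (by simpa [norm_exp, Cyl] using hy), ← mul_assoc, ← exp_add]
  simp

theorem tw_loc (c : ℝ) {R : ℝ} (hR : 0 < R) :
    IsLocalDiffeomorph 𝓘(ℝ, ℝ × ℂ) 𝓘(ℝ, ℝ × ℂ) ∞ (tw c R) := by
  have h0 : ∀ c : ℝ, ContDiff ℝ ∞ fun x : ℝ × ℂ => exp (c * x.1 * I) := fun c =>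
    contDiff_exp.comp ((contDiff_const.mul (ofRealCLM.contDiff.comp contDiff_fst)).mul
      contDiff_const)
  have h1 : ContDiff ℝ ∞ (tw c R) := contDiff_fst.prodMk ((by simpa using h0 (-c) :
    ContDiff ℝ ∞ fun x : ℝ × ℂ => exp (-(c * x.1) * I)).mul
      (OpenPartialHomeomorph.contDiff_univUnitBall.comp (contDiff_snd.const_smul R)))
  refine locDiff h1 fun x => ?_
  let g : ℝ × ℂ → ℝ × ℂ := fun y =>
    (y.1, R⁻¹ • OpenPartialHomeomorph.univUnitBall.symm (exp (c * y.1 * I) * y.2))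
  have h2 : g ∘ tw c R = id := funext fun x => by
    refine Prod.ext rfl (rad_inj hR (mul_left_cancel₀ (exp_ne_zero (-(c * x.1) * I)) ?_))
    exact congrArg Prod.snd (tw_surj c hR (tw_mem c R x))
  have h3 : DifferentiableAt ℝ g (tw c R x) := differentiableAt_fst.prodMk
    ((((OpenPartialHomeomorph.contDiffOn_univUnitBall_symm (n := 1)).contDiffAt
      (isOpen_ball.mem_nhds (by simpa [norm_exp, Cyl] using tw_mem c R x))).differentiableAt
        one_ne_zero).comp _ (((h0 c).mul contDiff_snd).differentiable (by simp) _) |>.const_smul R⁻¹)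
  have := fderiv_comp x h3 (h1.differentiable (by simp) x)
  rw [h2, fderiv_id] at this
  exact Injective.of_comp (f := fderiv ℝ g _) (by
    rw [← ContinuousLinearMap.coe_comp, ← this]; exact injective_id)

theorem act_rad {kl : Bool} {ζ : ℂ} (hζ : ‖ζ‖ = 1) (R : ℝ) (j : ℤ) (z : ℂ) :
    rad R (act kl ζ j z) = act kl ζ j (rad R z) := by
  unfold act
  split_ifs
  · rfl
  · exact rad_iso R conjLIE.toLinearIsometry z
  · exact rad_iso R ⟨LinearMap.mulLeft ℝ (ζ ^ j), fun z => by simp [hζ]⟩ z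

theorem mk_pc {r : Setoid M} {φ : ℝ × ℂ → M} (h1 : IsLocalDiffeomorphOn 𝓘(ℝ, ℝ × ℂ) (𝓡 3) ∞ φ Cyl)
    (h2 : ∀ x ∈ Cyl, ∀ m', r (φ x) m' → m' ∈ φ '' Cyl) {kl : Bool} {P k : ℕ} {c : ℝ} {ζ : ℂ}
    (P0 : 0 < P) (P2 : kl = true → P = 2) (cop : k.Coprime P) (ζP : ζ ^ P = 1)
    (ζk : ζ ^ k = exp (2 * π * I / P))
    (h3 : ∀ t t' z z', ‖z‖ < 1 → ‖z'‖ < 1 →
      (φ (t, exp (-(c * t) * I) * z) = φ (t', exp (-(c * t') * I) * z') ↔
        ∃ j : ℤ, t' = t + j ∧ z' = act kl ζ j z) ∧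
      (r (φ (t, exp (-(c * t) * I) * z)) (φ (t', exp (-(c * t') * I) * z')) ↔
        ∃ j : ℤ, z' = act kl ζ j z)) {m : M} (hm : m ∈ φ '' Cyl) :
    ∃ c : Pc r, c.T = 1 ∧ ∃ x, ‖x.2‖ < 1 ∧ c.φ x = m := by
  obtain ⟨y, hy, rfl⟩ := hm
  set v := OpenPartialHomeomorph.univUnitBall.symm (exp (c * y.1 * I) * y.2)
  have hR : 0 < ‖v‖ + 1 := by positivity
  have hζ : ‖ζ‖ = 1 := norm_eq_one_of_pow_eq_one ζP P0.ne'
  have e := fun x x' : ℝ × ℂ => h3 x.1 x'.1 _ _ (rad_lt (‖v‖ + 1) x.2) (rad_lt (‖v‖ + 1) x'.2)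
  simp only [← act_rad hζ, (rad_inj hR).eq_iff] at e
  refine ⟨⟨φ ∘ tw c (‖v‖ + 1), kl, P, k, ζ, 1, P0, P2, cop, ζP, ζk,
    fun x => (tw_loc c hR x).comp _ _ (h1 ⟨_, tw_mem ..⟩), fun x x' => by
      simp only [one_mul]; exact (e x x').1, fun x m => ⟨fun h => ?_, ?_⟩⟩, rfl,
    (y.1, (‖v‖ + 1)⁻¹ • v), ?_, congrArg φ (tw_surj c hR hy)⟩
  · obtain ⟨y, hy, rfl⟩ := h2 _ (tw_mem ..) _ h
    rw [← tw_surj c hR hy] at h ⊢
    obtain ⟨j, hj⟩ := (e x (_, _)).2.1 h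
    exact ⟨y.1 - j, (e (_, x.2) (_, _)).1.2 ⟨j, (sub_add_cancel _ _).symm, hj⟩⟩
  · rintro ⟨t, rfl⟩
    exact (e x (t, x.2)).2.2 ⟨0, by simp [act]⟩
  · rw [norm_smul, norm_inv, Real.norm_of_nonneg hR.le, inv_mul_lt_one₀ hR]
    exact lt_add_one _

theorem pc_of_torus {r : Setoid M} {φ : ℝ × ℂ → M}
    (h1 : IsLocalDiffeomorphOn 𝓘(ℝ, ℝ × ℂ) (𝓡 3) ∞ φ Cyl)
    (h2 : ∀ x ∈ Cyl, ∀ m', r (φ x) m' → m' ∈ φ '' Cyl) (h : TorusModel r φ) {m : M}
    (hm : m ∈ φ '' Cyl) : ∃ c : Pc r, c.T = 1 ∧ ∃ x, ‖x.2‖ < 1 ∧ c.φ x = m := by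
  obtain ⟨p, q, p0, cop, h⟩ := h
  wlog hp : 0 < p generalizing p q
  · exact this (-p) (-q) (neg_ne_zero.2 p0) cop.neg_neg (fun x hx y hy => by
      simpa only [zpow_neg, ← mul_inv, inv_inj] using h x hx y hy) (by omega)
  lift p to ℕ using hp.le
  have : NeZero p := ⟨by omega⟩
  have hζ := isPrimitiveRoot_exp_of_isCoprime q p this.1 cop.symm
  obtain ⟨k, -, k1, k2⟩ := hζ.isPrimitiveRoot_iff.1 (isPrimitiveRoot_exp p this.1)
  have pc : (p : ℂ) ≠ 0 := Nat.cast_ne_zero.2 this.1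
  refine mk_pc h1 h2 (kl := false) (c := 2 * π * (q / p)) (by omega) (by simp) k1 hζ.pow_eq_one k2
    (fun t t' z z' hz hz' => ?_) hm
  have e0 : ∀ (t : ℝ) (z : ℂ), ‖z‖ < 1 →
      (t, exp (-((2 * π * (q / p) : ℝ) * t) * I) * z) ∈ Cyl := fun t z hz => by
    simpa [Cyl, norm_exp] using hz
  have e1 : ∀ (t : ℝ) (z : ℂ), exp (2 * π * I * t) ^ q *
      (exp (-((2 * π * (q / p) : ℝ) * t) * I) * z) ^ (p : ℤ) = z ^ p := fun t z => by
    rw [zpow_natCast, mul_pow, ← mul_assoc, ← exp_int_mul, ← exp_nat_mul, ← exp_add]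
    convert one_mul _
    rw [← exp_zero]
    congr 1
    push_cast
    field_simp
    ring
  obtain ⟨h3, h4⟩ := h _ (e0 t z hz) _ (e0 t' z' hz')
  rw [h3, h4, e1, e1, ← exists_and_right]
  simp only [act, Bool.false_eq_true, if_false]
  refine ⟨exists_congr fun j => and_congr_right ?_, fun h => ?_, ?_⟩
  · rintro rfl
    rw [← mul_right_inj' (b := z') (exp_ne_zero (-((2 * π * (q / p) : ℝ) * (t + j : ℝ)) * I)),
      ← mul_assoc, ← exp_int_mul, ← exp_add]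
    congr! 3
    push_cast
    ring
  · rcases eq_or_ne z 0 with rfl | z0
    · exact ⟨0, by simpa [this.1, eq_comm] using h⟩
    · obtain ⟨i, -, hi⟩ := hζ.eq_pow_of_pow_eq_one (ξ := z' / z) (by
        rw [div_pow, h, div_self (h ▸ pow_ne_zero _ z0)])
      exact ⟨i, by rw [zpow_natCast, hi, div_mul_cancel₀ _ z0]⟩
  · rintro ⟨j, rfl⟩
    rw [mul_pow, ← zpow_natCast (_ ^ j), ← zpow_mul, mul_comm j, zpow_mul, zpow_natCast,
      hζ.pow_eq_one, one_zpow, one_mul]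

theorem exists_pc (h : IsSeifert M) : ∃ r : Setoid M, ∀ m,
    ∃ c : Pc r, c.T = 1 ∧ ∃ x, ‖x.2‖ < 1 ∧ c.φ x = m := by
  obtain ⟨r, h⟩ := h
  refine ⟨r, fun m => ?_⟩
  obtain ⟨φ, h1, hm, h2, h | h⟩ := h m
  · exact pc_of_torus h1 h2 h hm
  refine mk_pc h1 h2 (kl := true) (P := 2) (k := 1) (c := 0) (ζ := -1) two_pos (fun _ => rfl)
    (by simp) (by simp) (by
      rw [pow_one, ← exp_pi_mul_I]; congr 1; push_cast; ring) (fun t t' z z' hz hz' => ?_) hm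
  obtain ⟨h3, h4⟩ := h (t, z) hz (t', z') hz'
  simp only [ofReal_zero, zero_mul, neg_zero, exp_zero, one_mul, act, if_true]
  refine ⟨h3, h4.trans ⟨?_, ?_⟩⟩
  · rintro (h | h)
    exacts [⟨0, by simpa using h⟩, ⟨1, by simpa using h⟩]
  · rintro ⟨j, h⟩
    split_ifs at h
    exacts [.inl h, .inr h]

end At

end Pool.Agent.Lib.MP_78bd4b_ag
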