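import Pool.Agent.Lib.MP_78bd4b_ag.Core

/-! The image is a connected component. -/

noncomputable section

namespace Pool.Agent.Lib.MP_78bd4b_ag

open MvPolynomial Filter Set
open scoped Manifold ContDiff Topology

variable {V M : Type*} [NormedAddCommGroup V] [NormedSpace ℝ V] [TopologicalSpace M]

theorem mem_cls {S : Set V} {v : {v : V // v ≠ 0}} :
    Quotient.mk (projectivizationSetoid ℝ V) v ∈ Cls S ↔ ∃ t : ℝ, t ≠ 0 ∧ t • v.1 ∈ S := by
  constructor
  · rintro ⟨w, a, b⟩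
    obtain ⟨t, e⟩ := Quotient.exact b
    exact ⟨t, t.ne_zero, (show t • v.1 = w.1 from e).symm ▸ a⟩
  · rintro ⟨t, a, b⟩
    exact ⟨⟨_, smul_ne_zero a v.2⟩, b, Quotient.sound ⟨Units.mk0 t a, rfl⟩⟩

theorem cls_comp [CompactSpace M] [ConnectedSpace M] {e : M → V} {X : Set V} (he : Continuous e)
    (h0 : ∀ m, e m ≠ 0 ∧ e m ∈ X) (hX : ∀ (t : ℝ), ∀ x ∈ X, t • x ∈ X)
    (ho : ∀ m, ∀ᶠ y in 𝓝 (e m), y ∈ X → ∃ (m' : M) (t : ℝ), y = t • e m') :
    ∀ p ∈ Cls (range e), connectedComponentIn (Cls X) p = Cls (range e) := fun p hp => by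
  have q := isQuotientMap_quotient_mk' (s := projectivizationSetoid ℝ V)
  have s : Cls (range e) ⊆ Cls X := image_mono fun v ⟨m, a⟩ => (a ▸ (h0 m).2 : v.1 ∈ X)
  have c : IsPreconnected (Cls (range e)) := by
    have : Cls (range e) = range fun m => Quotient.mk _ ⟨e m, (h0 m).1⟩ :=
      Set.ext fun _ => ⟨fun ⟨v, ⟨m, a⟩, b⟩ => ⟨m, b ▸ congrArg _ (Subtype.ext a)⟩,
        fun ⟨m, a⟩ => ⟨_, ⟨m, rfl⟩, a⟩⟩
    rw [this]
    exact isPreconnected_range (q.continuous.comp (he.subtype_mk _))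
  have cl : IsClosed (Cls (range e)) := by
    rw [← q.isClosed_preimage]
    have := isClosedMap_snd_of_compactSpace (X := M) (Y := {v : V // v ≠ 0}) _
      ((isClosed_eq (f := fun z => ‖z.2.1‖ • e z.1) (g := fun z => ‖e z.1‖ • z.2.1) (by fun_prop)
        (by fun_prop)).union (isClosed_eq (f := fun z => ‖z.2.1‖ • e z.1)
          (g := fun z => (-‖e z.1‖) • z.2.1) (by fun_prop) (by fun_prop)))
    refine Eq.mp (congrArg IsClosed (Set.ext fun v => ?_)) this
    have n := norm_ne_zero_iff.2 v.2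
    refine Iff.trans ⟨?_, ?_⟩ mem_cls.symm
    · have k : ∀ m (a : ℝ), a ≠ 0 → ‖v.1‖ • e m = a • v.1 → ∃ t : ℝ, t ≠ 0 ∧ t • v.1 ∈ range e :=
        fun m a b c => ⟨‖v.1‖⁻¹ * a, by simp [n, b], m, by rw [mul_smul, ← c, inv_smul_smul₀ n]⟩
      rintro ⟨⟨m, _⟩, a | a, rfl⟩
      exacts [k m _ (norm_ne_zero_iff.2 (h0 m).1) a,
        k m _ (neg_ne_zero.2 (norm_ne_zero_iff.2 (h0 m).1)) a]
    · rintro ⟨t, -, m, a⟩
      refine ⟨(m, v), (le_total 0 t).imp (fun b => ?_) fun b => ?_, rfl⟩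
      · simp [a, norm_smul, abs_of_nonneg b, smul_smul, mul_comm]
      · simp [a, norm_smul, abs_of_nonpos b, smul_smul, mul_comm]
  let O := interior {y | y ∈ X → ∃ (m' : M) (t : ℝ), y = t • e m'}
  have op : IsOpen (Cls O) := by
    rw [← q.isOpen_preimage]
    have : IsOpen (⋃ t : ℝ, ⋃ _ : t ≠ 0, (fun v : {v : V // v ≠ 0} => t • v.1) ⁻¹' O) :=
      isOpen_iUnion fun t => isOpen_iUnion fun _ => isOpen_interior.preimage (by fun_prop)
    exact Eq.mp (congrArg IsOpen (Set.ext fun v => Iff.trans (by simp) mem_cls.symm)) this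
  refine subset_antisymm (fun z hz => by_contra fun n => ?_) (c.subset_connectedComponentIn hp s)
  have u : Cls (range e) ⊆ Cls O :=
    image_mono fun v ⟨m, a⟩ => (a ▸ mem_interior_iff_mem_nhds.2 (ho m) : v.1 ∈ O)
  obtain ⟨w, a, b, d⟩ := isPreconnected_connectedComponentIn _ _ op cl.isOpen_compl
    (fun y _ => (em _).imp_left (@u y)) ⟨p, mem_connectedComponentIn (s hp), u hp⟩ ⟨z, hz, n⟩
  obtain ⟨v, rfl⟩ := Quotient.exists_rep w
  obtain ⟨t, t0, a⟩ := mem_cls.1 (connectedComponentIn_subset _ _ a)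
  obtain ⟨r, r0, b⟩ := mem_cls.1 b
  obtain ⟨m, x, f⟩ := interior_subset b (by
    simpa [smul_smul, t0] using hX (r * t⁻¹) _ a)
  have x0 : x ≠ 0 := fun g => smul_ne_zero r0 v.2 (by rw [f, g, zero_smul])
  exact d (mem_cls.2 ⟨x⁻¹ * r, by simp [x0, r0], m, by rw [mul_smul, f, inv_smul_smul₀ x0]⟩)

theorem HasUniruledModel.hasModel [ChartedSpace (EuclideanSpace ℝ (Fin 3)) M] [CompactSpace M]
    [ConnectedSpace M] (h : HasUniruledModel M) : HasModel M := by
  obtain ⟨n, J, e, a, b, c, d, f, g, i, j, k⟩ := h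
  refine ⟨n, J, e, ⟨a, b, c, d⟩, f, g, i, j, k, cls_comp f.continuous g (fun t x hx P hP => ?_) k⟩
  rw [← sum_homogeneousComponent P, map_sum]
  refine Finset.sum_eq_zero fun d _ => ?_
  have := hx _ (a P hP d)
  rw [aeval_def, eval₂_eq'] at this ⊢
  rw [← mul_zero (t ^ d), ← this, Finset.mul_sum]
  refine Finset.sum_congr rfl fun s hs => ?_
  have := homogeneousComponent_isHomogeneous d P (mem_support_iff.1 hs)
  simp only [Finsupp.weight_apply, Finsupp.sum_fintype, Pi.one_apply, smul_eq_mul, mul_one,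
    implies_true] at this
  simp [mul_pow, Finset.prod_mul_distrib, Finset.prod_pow_eq_pow_sum, this, mul_left_comm]

end Pool.Agent.Lib.MP_78bd4b_ag
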