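import Pool.Agent.Lib.MP_78bd4b_ag.Defs

/-! Working definitions shared by all parts of the proof. -/

noncomputable section

namespace Pool.Agent.Lib.MP_78bd4b_ag

open MvPolynomial Complex Filter Function
open scoped Manifold ContDiff Topology Real ComplexConjugate

/-- the working form of `HasModel` -/
def HasUniruledModel (M : Type*) [TopologicalSpace M]
    [ChartedSpace (EuclideanSpace ℝ (Fin 3)) M] : Prop :=
  ∃ (n : ℕ) (J : Ideal (MvPolynomial (Fin n) ℝ)) (e : M → Fin n → ℝ),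
    (∀ f ∈ J, ∀ d, homogeneousComponent d f ∈ J) ∧
    (vanishingIdeal ℂ (zeroLocus ℂ J)).IsPrime ∧
    (∀ x ∈ zeroLocus ℂ J, x ≠ 0 → SmoothPt (zeroLocus ℂ J) 4 x) ∧
    Uniruled3 (zeroLocus ℂ J) ∧
    ContMDiff (𝓡 3) 𝓘(ℝ, Fin n → ℝ) ∞ e ∧
    (∀ m, e m ≠ 0 ∧ e m ∈ zeroLocus ℝ J) ∧
    (∀ m m' (t : ℝ), e m' = t • e m → m' = m) ∧
    (∀ m u (t : ℝ), mfderiv (𝓡 3) 𝓘(ℝ, Fin n → ℝ) e m u = t • e m → u = 0) ∧
    ∀ m, ∀ᶠ y in 𝓝 (e m), y ∈ zeroLocus ℝ J → ∃ (m' : M) (t : ℝ), y = t • e m'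

/-! ### Local algebraic geometry in coordinates -/

/-- the numbers killed by all derivations -/
def K0 : Subring ℂ where
  carrier := {c | ∀ D : Derivation ℤ ℂ ℂ, D c = 0}
  mul_mem' a b D := by rw [D.leibniz, a D, b D, smul_zero, smul_zero, add_zero]
  one_mem' D := D.map_one_eq_zero
  add_mem' a b D := by rw [map_add, a D, b D, add_zero]
  zero_mem' D := map_zero D
  neg_mem' a D := by rw [map_neg, a D, neg_zero]

/-- `f` is a rational function with coefficients in `K`, regular at `x` -/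
def Rg (K : Subring ℂ) {I : Type} (x : I → ℂ) (f : (I → ℂ) → ℂ) : Prop :=
  ∃ P Q : MvPolynomial I K, aeval x Q ≠ 0 ∧ ∀ y, aeval y Q ≠ 0 → f y * aeval y Q = aeval y P

/-- polynomial functions -/
def Pol {I : Type} (f : (I → ℂ) → ℂ) : Prop := ∃ P : MvPolynomial I ℂ, ∀ y, f y = aeval y P

/-- Zariski neighbourhoods -/
def Zf {I : Type} (x : I → ℂ) : Filter (I → ℂ) where
  sets := {s | ∃ Q : MvPolynomial I ℂ, aeval x Q ≠ 0 ∧ ∀ y, aeval y Q ≠ 0 → y ∈ s}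
  univ_sets := ⟨1, by simp, fun _ _ => trivial⟩
  sets_of_superset := fun ⟨Q, a, b⟩ h => ⟨Q, a, fun y c => h (b y c)⟩
  inter_sets := fun ⟨Q, a, b⟩ ⟨Q', a', b'⟩ => ⟨Q * Q', by rw [map_mul]; exact mul_ne_zero a a',
    fun y c => by
      rw [map_mul] at c
      exact ⟨b y (left_ne_zero_of_mul c), b' y (right_ne_zero_of_mul c)⟩⟩

/-- Zariski closed sets -/
def Cl {I : Type} (Z : Set (I → ℂ)) : Prop := zeroLocus ℂ (vanishingIdeal ℂ Z) ⊆ Z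

/-- the Zariski tangent space -/
def Tan {I : Type} [Fintype I] (Z : Set (I → ℂ)) (x : I → ℂ) : Submodule ℂ (I → ℂ) where
  carrier := {u | ∀ f ∈ vanishingIdeal ℂ Z, fderiv ℂ (fun y => aeval y f) x u = 0}
  add_mem' a b f hf := by rw [map_add, a f hf, b f hf, add_zero]
  zero_mem' _ _ := map_zero _
  smul_mem' c _ a f hf := by rw [map_smul, a f hf, smul_zero]

/-- `Z` is nonsingular of dimension `n` at `x` -/
def Reg {I : Type} [Fintype I] (Z : Set (I → ℂ)) (n : ℕ) (x : I → ℂ) : Prop :=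
  ∃ φ : (Fin n → ℂ) → I → ℂ, AnalyticAt ℂ φ 0 ∧ φ 0 = x ∧ (∀ᶠ w in 𝓝 0, φ w ∈ Z) ∧
    Injective (fderiv ℂ φ 0) ∧ ∀ u ∈ Tan Z x, ∃ w, fderiv ℂ φ 0 w = u

/-- the quotient by the two signs -/
def sq2 {R A B : Type} [Mul R] (y : A ⊕ B → R) : (A × A) ⊕ (B × B) → R :=
  Sum.elim (fun i => y (.inl i.1) * y (.inl i.2)) fun i => y (.inr i.1) * y (.inr i.2)

/-! ### Toric data -/

/-- Laurent monomials -/
def mono {U : Type} [Fintype U] (u : U → ℂ) (F : U → ℤ) : ℂ := ∏ i, u i ^ F i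

/-- the affine toric variety of the weights `wt` -/
def Bin {U G : Type} [Fintype U] [AddCommGroup G] (wt : U → G) (u : U → ℂ) : Prop :=
  ∀ f f' : U → ℕ, ∑ i, f i • wt i = ∑ i, f' i • wt i → ∏ i, u i ^ f i = ∏ i, u i ^ f' i

/-- a smooth chart of the toric variety at `u` -/
structure TC {U G J : Type} [Fintype U] [AddCommGroup G] [Fintype J] [DecidableEq J] (wt : U → G)
    (u : U → ℂ) (κ : J → G →+ ℤ) (ν : J → U → ℤ) : Prop where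
  adm : ∀ j i, ν j i < 0 → u i ≠ 0
  dual : ∀ j j', κ j (∑ i, ν j' i • wt i) = if j = j' then 1 else 0
  span : ∀ i, wt i = ∑ j, κ j (wt i) • ∑ i', ν j i' • wt i'
  pos : ∀ j i, κ j (wt i) < 0 → mono u (ν j) ≠ 0

/-- the variables `z w g1 g2` of each type (indices `0 1 2 3`), and `α β` (`true`, `false`) -/
abbrev Cv (T : Type) : Type := (T × Fin 4) ⊕ Bool

/-- the base functions `a b c g` of each type (indices `0 1 2 3`), and `h` -/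
abbrev Bs (T : Type) : Type := (T × Fin 4) ⊕ Unit

/-- the exchange of `z, w`, of `g1, g2` and of `α, β` -/
def Cv.bar {T : Type} : Cv T → Cv T :=
  Sum.map (fun x => (x.1, ![1, 0, 3, 2] x.2)) (!·)

/-- exponents of `a = z ^ p g1`, `b = w ^ p g2`, `c = z w`, `g = g1 g2`, `h = α β` -/
def wb {T : Type} [DecidableEq T] (p : T → ℕ) : Bs T → Cv T → ℕ
  | .inl (t, i), .inl (t', j) =>
    if t = t' then ![![p t, 0, 1, 0], ![0, p t, 0, 1], ![1, 1, 0, 0], ![0, 0, 1, 1]] i j else 0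
  | .inl _, .inr _ => 0
  | .inr _, .inl _ => 0
  | .inr _, .inr _ => 1

/-- the weight of a monomial under the action on the fibres -/
def we {T : Type} (n : Cv T → ℕ) : ℤ := (n (.inr true) : ℤ) - n (.inr false)

/-- gauge invariant monomials -/
def Gau {T : Type} (p k : T → ℕ) (n : Cv T → ℕ) : Prop := ∀ t, (n (.inl (t, 0)) : ℤ) -
  n (.inl (t, 1)) - p t * n (.inl (t, 2)) + p t * n (.inl (t, 3)) + k t * we n = 0

/-- the weights of the base functions and of the monomials `ex m` -/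
def om {T Mon : Type} [DecidableEq T] (p : T → ℕ) (ex : Mon → Cv T → ℕ) :
    Bs T ⊕ Mon → (Cv T → ℤ) × ℤ :=
  Sum.elim (fun b => (fun v => wb p b v, 0)) fun m => (fun v => ex m v, 1)

/-- `a = b = c = 0` -/
def Spc {T : Type} (X : Bs T → ℂ) (t : T) : Prop :=
  X (.inl (t, 0)) = 0 ∧ X (.inl (t, 1)) = 0 ∧ X (.inl (t, 2)) = 0

/-- the values of the base functions which occur on a generic surface -/
def NonEx {T : Type} (X : Bs T → ℂ) : Prop :=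
  ∀ t, Spc X t → X (.inl (t, 3)) ≠ 0 ∧ X (.inr ()) ≠ 0 ∧ ∀ t', Spc X t' → t' = t

/-- a finite set of monomials which resolves the fibration -/
structure Tor (T : Type) [Fintype T] [DecidableEq T] (p k : T → ℕ) (b0 : ℕ) where
  Mon : Type
  [fin : Fintype Mon]
  ex : Mon → Cv T → ℕ
  inj : Injective ex
  gau : ∀ m, Gau p k (ex m)
  two : ∀ m, 2 ≤ ex m (.inr true) + ex m (.inr false)
  bar : Mon → Mon
  bar_ex : ∀ m, ex (bar m) = ex m ∘ Cv.bar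
  mg : ∀ n, Gau p k n → 2 ≤ n (.inr true) + n (.inr false) → (∀ v, n v ≤ b0) → ∃ m, ex m = n
  tc : ∀ u, Bin (om p ex) u → (∃ m, u (.inr m) ≠ 0) → NonEx (u ∘ .inl) →
    ∃ (κ : (T × Fin 3) ⊕ Fin 3 → _) (ν : _), TC (om p ex) u κ ν

attribute [instance] Tor.fin

/-! ### Atlases in angle coordinates -/

/-- a finite atlas of a Seifert manifold in which the first coordinate is the angle -/
structure Atl (M : Type*) [TopologicalSpace M] [ChartedSpace (EuclideanSpace ℝ (Fin 3)) M] where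
  n : ℕ
  ψ : Fin n → ℝ × ℂ → M
  kl : Fin n → Bool
  P : Fin n → ℕ
  k : Fin n → ℕ
  ζ : Fin n → ℂ
  P0 : ∀ l, 0 < P l
  P2 : ∀ l, kl l = true → P l = 2
  cop : ∀ l, Nat.Coprime (k l) (P l)
  ζP : ∀ l, ζ l ^ P l = 1
  ζk : ∀ l, ζ l ^ k l = exp (2 * π * I / P l)
  loc : ∀ l, IsLocalDiffeomorph 𝓘(ℝ, ℝ × ℂ) (𝓡 3) ∞ (ψ l)
  deck : ∀ l x y, ψ l x = ψ l y ↔ ∃ j : ℤ, y.1 = x.1 + 2 * π * j / P l ∧
    y.2 = if kl l then (if Even j then x.2 else conj x.2) else ζ l ^ j * x.2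
  cover : ∀ m, ∃ l x, ‖x.2‖ < 1 ∧ ψ l x = m
  trans : ∀ l l' x x', ψ l x = ψ l' x' → ∃ (ε : ℝ) (τ : ℂ → ℝ) (χ : ℂ → ℂ), (ε = 1 ∨ ε = -1) ∧
    ContDiffAt ℝ ∞ τ x.2 ∧ ContDiffAt ℝ ∞ χ x.2 ∧ ε * x.1 + τ x.2 = x'.1 ∧ χ x.2 = x'.2 ∧
    ∀ᶠ z in 𝓝 x.2, ∀ θ, ψ l (θ, z) = ψ l' (ε * θ + τ z, χ z)

/-- conjugation if `ε = -1` -/
def cj (ε : ℝ) (v : ℂ) : ℂ := ⟨v.re, ε * v.im⟩

/-- squares of Euclidean seminorms -/
def Euc {E : Type*} [AddCommGroup E] [Module ℝ E] (N : E → ℝ) : Prop :=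
  ∃ β : E →ₗ[ℝ] E →ₗ[ℝ] ℝ, (∀ e e', β e e' = β e' e) ∧ ∀ e, N e = β e e ∧ 0 ≤ N e

/-- the functions on the charts from which the embedding is built -/
structure Dat (M : Type*) [TopologicalSpace M] [ChartedSpace (EuclideanSpace ℝ (Fin 3)) M] where
  (L T I' : Type)
  [fL : Fintype L] [fT : Fintype T] [fI : Fintype I']
  [dL : DecidableEq L] [dT : DecidableEq T] [dI : DecidableEq I']
  ψ : L → ℝ × ℂ → M
  loc : ∀ l, IsLocalDiffeomorph 𝓘(ℝ, ℝ × ℂ) (𝓡 3) ∞ (ψ l)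
  (p k : T → ℕ)
  p0 : ∀ t, 0 < p t
  cop : ∀ t, Nat.Coprime (k t) (p t)
  act : L → Set ℂ
  op : ∀ l, IsOpen (act l)
  cover : ∀ m, ∃ l x, x.2 ∈ act l ∧ ψ l x = m
  X : L → ℂ → I' → ℝ
  y : L → ℂ → ℝ
  o : L → ℂ → L → ℝ
  (z g : L → ℂ → T → ℂ)
  v : (I' → ℝ) × ℝ → Option I' → ℝ
  iw : L → L → I'
  (iR iG ik : T → I')
  iI : T → L → I'
  Sp : L → ℂ → T → Prop
  sm : ∀ l, ∀ w ∈ act l, ContDiffAt ℝ ∞ (X l) w ∧ ContDiffAt ℝ ∞ (y l) w ∧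
    ContDiffAt ℝ ∞ (o l) w ∧ ContDiffAt ℝ ∞ (z l) w ∧ ContDiffAt ℝ ∞ (g l) w
  sv : ContDiff ℝ ∞ v
  ev : ∀ x t, v (x, -t) = v (x, t)
  v0 : ∀ l, ∀ w ∈ act l, v (X l w, y l w) = 0
  rk : ∀ l, ∀ w ∈ act l, Module.finrank ℝ (fderiv ℝ v (X l w, y l w)).ker = 2
  ew : ∀ l, ∀ w ∈ act l, ∀ j j', X l w (iw j j') = o l w j * o l w j'
  eo : ∀ l, ∀ w ∈ act l, ∑ j, o l w j ^ 2 = 1
  ea : ∀ l, ∀ w ∈ act l, ∀ t, z l w t ^ p t * g l w t =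
    X l w (iR t) + I * (∑ j, o l w j * X l w (iI t j) : ℝ)
  eg : ∀ l, ∀ w ∈ act l, ∀ t, normSq (g l w t) = X l w (iG t) + X l w (ik t) * normSq (z l w t)
  nd : ∀ l, ∀ w ∈ act l, ∀ t,
    (z l w t ≠ 0 ∧ 0 ≤ X l w (ik t) ∧ (g l w t ≠ 0 ∨ 0 < X l w (ik t))) ∨
      (z l w t = 0 ∧ g l w t ≠ 0 ∧ p t = 1) ∨ Sp l w t
  sp : ∀ l, ∀ w ∈ act l, ∀ t, Sp l w t → z l w t = 0 ∧ g l w t ≠ 0 ∧ y l w ≠ 0 ∧
    (∀ t', Sp l w t' → t' = t) ∧ (∀ θ, ψ l (θ + 2 * π / p t, w) = ψ l (θ, w)) ∧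
    ∀ a : ℂ, ∃ u : I' → ℝ, fderiv ℝ v (X l w, y l w) (u, 0) = 0 ∧ (∀ j j', u (iw j j') = 0) ∧
      u (iR t) + I * (∑ j, o l w j * u (iI t j) : ℝ) = a
  per : ∀ l θ w, ψ l (θ + 2 * π, w) = ψ l (θ, w)
  half : ∀ l, ∀ w ∈ act l, y l w = 0 → ∀ θ, ψ l (θ + π, w) = ψ l (θ, w)
  gauge : ∀ l l' θ θ', ∀ w ∈ act l, ∀ w' ∈ act l', ψ l (θ, w) = ψ l' (θ', w') →
    ∃ (ε η : ℝ) (u : T → ℂ), (ε = 1 ∨ ε = -1) ∧ (η = 1 ∨ η = -1) ∧ (∀ t, ‖u t‖ = 1) ∧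
      X l w = X l' w' ∧ y l w = η * y l' w' ∧ o l w = ε • o l' w' ∧
      (∀ t, z l w t = cj ε (u t * z l' w' t) ∧ g l w t = cj ε (conj (u t) ^ p t * g l' w' t)) ∧
      exp (θ * I) = cj ε (η * (∏ t, u t ^ k t) * exp (θ' * I))
  fib : ∀ l l', ∀ w ∈ act l, ∀ w' ∈ act l', X l w = X l' w' → y l w ^ 2 = y l' w' ^ 2 →
    ∀ θ', ∃ θ, ψ l (θ, w) = ψ l' (θ', w')
  imm : ∀ l, ∀ w ∈ act l, ∀ u : ℂ, fderiv ℝ (X l) w u = 0 → fderiv ℝ (y l) w u = 0 →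
    (∀ t, Sp l w t → fderiv ℝ (z l) w u t = 0) → u = 0
  reg : ∃ l, ∃ w ∈ act l, y l w ≠ 0 ∧ ∀ t, z l w t ≠ 0

attribute [instance] Dat.fL Dat.fT Dat.fI Dat.dL Dat.dT Dat.dI

/-- local data which show that `Z` is swept out by rational curves near `x0` -/
def Ruled {I : Type} [Fintype I] (Z : Set (I → ℂ)) (x0 : I → ℂ) : Prop :=
  ∃ (J : Type) (_ : Fintype J) (Y : Set (J → ℂ)) (R : (Option J → ℂ) → I → ℂ)
    (q0 : ℂ × (Option J → ℂ)) (H : (I → ℂ) → ℂ × (Option J → ℂ)),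
    Cl Y ∧ q0.2 ∘ some ∈ Y ∧ Reg Y 2 (q0.2 ∘ some) ∧ (∀ i, Pol (R · i)) ∧
    (∀ q, q ∘ some ∈ Y → R q ∈ Z) ∧ x0 = q0.1 • R q0.2 ∧ DifferentiableAt ℂ H x0 ∧
    ∀ᶠ q in 𝓝 q0, q.2 ∘ some ∈ Y → H (q.1 • R q.2) = q

/-- a real cone of dimension four with a free involution -/
structure Cone4 {A B : Type} [Fintype A] [Fintype B] (Z : Set (A ⊕ B → ℂ)) : Prop where
  cl : Cl Z
  smul : ∀ (c : ℂ), ∀ y ∈ Z, c • y ∈ Z
  star : ∀ y ∈ Z, star y ∈ Z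
  flip : ∀ y ∈ Z, Sum.elim (y ∘ .inl) (-y ∘ .inr) ∈ Z
  free : ∀ y ∈ Z, y ≠ 0 → y ∘ .inl ≠ 0 ∧ y ∘ .inr ≠ 0
  reg : ∀ y ∈ Z, y ≠ 0 → Reg Z 4 y

/-- the monomials of degree `δ` -/
def xm {R Ix : Type} [CommRing R] {D : ℕ} (δ : ℕ) (r : Fin D → Ix) (x : Ix → R) : R :=
  ∏ j : Fin D, if (j : ℕ) < δ then x (r j) else 1

end Pool.Agent.Lib.MP_78bd4b_ag
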