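import Pool.Agent.Lib.MP_78bd4b_ag.Data6

/-! Existence of the data. -/

noncomputable section

namespace Pool.Agent.Lib.MP_78bd4b_ag

open Complex Filter Function Set
open scoped Manifold ContDiff Topology Real ComplexConjugate

namespace DJ

variable {M : Type*} [TopologicalSpace M] [ChartedSpace (EuclideanSpace ℝ (Fin 3)) M]
  {A : Atl M} {p : Pou A} {t t' : Fin A.n → ℂ} {l l' : Fin A.n} {w w' : ℂ} [T2Space M]
  {gt : Fin A.n → ℂ → Option (Ix A.n) → ℝ}

theorem Su_gt (h2 : ∀ l w, gt l (bc A l w) = p.b l l w • gl p t t' l w) :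
    ∀ e ∈ Su p t t', ∀ l, e.1 (.w l l) ≠ 0 → gt l (zh A l e) = sq e := fun e he l n => by
  obtain ⟨w, σ, a, b, c, rfl⟩ := Su_chart he n
  rw [zh_ee a c, h2, act_b a, one_smul, gl_eq a (.refl l w)]
  unfold sq ee
  simp only [mul_pow, pow_two σ, b.sq, one_mul]

omit [T2Space M] in
theorem ee_mem (h : w ∈ act p l) : ee p t t' l w ∈ Su p t t' :=
  ⟨l, w, 1, h, .inl rfl, by rw [one_mul, ee]⟩

theorem zh_ee' (h : w ∈ act p l) : zh A l (ee p t t' l w) = bc A l w := by
  simpa only [one_mul, ee] using zh_ee (t := t) (t' := t') h (σ := 1) fun _ => rfl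

theorem Su_par (h1 : ∀ l, ContDiff ℝ ∞ (gt l))
    (h2 : ∀ l w, gt l (bc A l w) = p.b l l w • gl p t t' l w) {e : (Ix A.n → ℝ) × ℝ}
    (he : e ∈ Su p t t') (l : Fin A.n) (n : e.1 (.w l l) ≠ 0) :
    ∃ γ : ℂ → (Ix A.n → ℝ) × ℝ, DifferentiableAt ℝ γ (zh A l e) ∧ γ (zh A l e) = e ∧
      (∀ᶠ a in 𝓝 (zh A l e), γ a ∈ Su p t t' ∧ zh A l (γ a) = a) ∧
      (e.2 = 0 → ∃ a, (fderiv ℝ γ (zh A l e) a).1 = 0 ∧ a ≠ 0) := by
  obtain ⟨w, σ, a, b, c, rfl⟩ := Su_chart he n
  rw [zh_ee a c]
  by_cases k : A.kl l = true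
  · have d := (ee_cd (t := t) (t' := t') a).differentiableAt (by simp)
    have m := (act_open l).mem_nhds a
    rw [c k, bc, if_pos k, one_mul]
    refine ⟨ee p t t' l, d, rfl, (eventually_mem_set.2 m).mono fun z h =>
      ⟨ee_mem h, by rw [zh_ee' h, bc, if_pos k]⟩, fun h => ⟨I, ?_, I_ne_zero⟩⟩
    have i : conjCLE w = w := conj_eq_iff_im.2 (by simpa [yy, κ, k, (Q_pos p l w).ne'] using h)
    have q : (fun z => (ee p t t' l z).1) ∘ conjCLE =ᶠ[𝓝 w] fun z => (ee p t t' l z).1 := by
      filter_upwards [m, conjCLE.continuous.continuousAt.eventually_mem (i.symm ▸ m)] with z h h'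
      exact (XX_rel h h' (by simpa only [dk_one k, conjCLE_apply] using R.deck l 1 z)).symm
    have f := (HasFDerivAt.comp w (i.symm ▸ d.hasFDerivAt.fst)
      conjCLE.hasFDerivAt).congr_of_eventuallyEq q.symm
    have g := congr($(f.unique d.hasFDerivAt.fst) I)
    simp only [i, ContinuousLinearMap.comp_apply, ContinuousLinearEquiv.coe_coe, conjCLE_apply,
      conj_I, map_neg, ContinuousLinearMap.coe_fst'] at g
    exact funext fun j => by have := congrFun g j; simp at this ⊢; linarith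
  · have k' : A.kl l = false := by simpa using k
    have y : ∀ z, 0 < yy p l z := fun z => by simpa [yy, κ, k'] using Q_pos p l z
    have f : ∀ z ∈ act p l, gt l (z ^ A.P l) = sq (ee p t t' l z) := fun z h => by
      simpa [bc, k', act_b h, gl_eq h (.refl l z)] using h2 l z
    have g : ∀ z ∈ act p l, ((fun i => gt l (z ^ A.P l) (some i)), σ * √(gt l (z ^ A.P l) none)) =
        (XX p t t' l z, σ * yy p l z) := fun z h => by
      simp [f z h, sq, ee, Real.sqrt_sq (y z).le]
    have s := contDiff_pi.1 (h1 l)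
    rw [bc, if_neg k]
    refine ⟨fun a => (fun i => gt l a (some i), σ * √(gt l a none)),
      ContDiffAt.differentiableAt (n := ∞) ((contDiffAt_pi.2 fun i => (s _).contDiffAt).prodMk
        (contDiffAt_const.mul ((s _).contDiffAt.sqrt ?_))) (by simp), g w a, ?_, fun h => ?_⟩
    · simp [f w a, sq, ee, (y w).ne']
    · filter_upwards [(s (some (.w l l))).continuous.continuousAt.eventually_ne (y := 0)
        (by rw [f w a]; exact n)] with x hx
      obtain ⟨z, rfl⟩ : ∃ z, z ^ A.P l = x := ⟨_, rt_pow (A.P0 l) x⟩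
      have h : z ∈ act p l := fun h => hx (by
        have := congrFun (h2 l z) (some (.w l l))
        simpa [bc, k', gl_w, h] using this)
      rw [g z h]
      exact ⟨⟨l, z, σ, h, b, rfl⟩, by rw [zh_ee h c, bc, if_neg k]⟩
    · rcases b with rfl | rfl <;> simp [(y w).ne'] at h

theorem sp_ker (h1 : ∀ l, ContDiff ℝ ∞ (gt l))
    (h2 : ∀ l w, gt l (bc A l w) = p.b l l w • gl p t t' l w) (k : A.kl l = false)
    (h : 0 ∈ act p l) (a : ℂ) :
    fderiv ℝ (vv (fun l => Ix.w l l) (zh A) gt) (ee p t t' l 0) (UU l a, 0) = 0 := by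
  have c := lone_ev k (act_b h ▸ one_ne_zero)
  refine ((vv_cd zh_cd h1).differentiable (by simp) _).hasFDerivAt.hasLineDerivAt _ |>.unique
    ((hasDerivAt_const (0 : ℝ) 0).congr_of_eventuallyEq ?_)
  have : Tendsto (fun s : ℝ => s * a) (𝓝 0) (𝓝 0) :=
    Continuous.tendsto' (by fun_prop) _ _ (by simp)
  filter_upwards [((rt_tendsto (A.P0 l)).comp this).eventually c] with s hs
  refine vv_zero (Su_gt h2 _ ?_)
  convert ee_mem (t := t) (t' := t') hs.act using 1
  rw [ee, ee, hs.XX c.self_of_nhds k, hs.yy k, c.self_of_nhds.yy k]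
  simp [rt_pow (A.P0 l), UU_smul]

theorem same_dk (h : w ∈ act p l) (h' : w' ∈ act p l) (e : XX p t t' l w = XX p t t' l w')
    (e' : yy p l w ^ 2 = yy p l w' ^ 2) : ∃ m, w' = dk A l m w := by
  have a := zh_ee' (t := t) (t' := t') h
  have b := zh_ee' (t := t) (t' := t') h'
  rw [ee, ← e] at b
  by_cases k : A.kl l = true
  · rw [bc, if_pos k] at a b
    rcases sq_eq_sq_iff_eq_or_eq_neg.1 e'.symm with c | c
    · exact ⟨0, by rw [← b, c, dk, if_pos k, if_pos (by decide)]; exact a⟩
    · exact ⟨1, by rw [← b, c, zh_neg k, dk_one k]; exact congrArg _ a⟩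
  · refine pow_dk (by simpa using k) ?_
    rw [bc, if_neg k] at a b
    rw [← a, ← b]
    simp [zh, k, ee]

theorem imm (h : w ∈ act p l) {u : ℂ} (e : fderiv ℝ (XX p t t' l) w u = 0)
    (e' : fderiv ℝ (yy p l) w u = 0)
    (e'' : A.kl l = false → w = 0 → fderiv ℝ (zf p t l) w u (some l) = 0) : u = 0 := by
  have d := ((zh_cd l).differentiable (by simp) _).hasFDerivAt.comp w
    (((XX_cd (t := t) (t' := t') h).differentiableAt (by simp)).hasFDerivAt.prodMk
      ((yy_cd p l).differentiable (by simp) w).hasFDerivAt)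
  have d' := d.congr_of_eventuallyEq (f₁ := bc A l)
    (((act_open l).eventually_mem h).mono fun z h => (zh_ee' h).symm)
  by_cases k : A.kl l = true
  · have := congr($(d'.unique (f' := _) ((hasFDerivAt_id w).congr_of_eventuallyEq
      (.of_forall fun z => if_pos k))) u)
    simpa [e, e', eq_comm, Prod.mk_zero_zero] using this
  · have := congr($(d'.unique (f' := _) ((hasDerivAt_pow (A.P l)
      w).complexToReal_fderiv.congr_of_eventuallyEq (.of_forall fun z => if_neg k))) u)
    rcases eq_or_ne w 0 with n | n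
    · have f := (hasFDerivAt_pi'.1 ((zf_cd h t).differentiableAt (by simp)).hasFDerivAt
        (some l)).unique ((hasFDerivAt_id w).congr_of_eventuallyEq (.of_forall fun z => by
          simp [zf, zz, lam, k]))
      exact congr($f u).symm.trans (e'' (by simpa using k) n)
    · simpa [e, e', n, (A.P0 l).ne', Prod.mk_zero_zero] using this

theorem exists_reg [Nonempty M] (p : Pou A) : ∃ t t' : Fin A.n → ℂ, (∀ l, ∀ w ∈ act p l,
    ZZ p l t w ≠ 0 ∨ ZZ p l t' w ≠ 0) ∧ ∃ l, ∃ w ∈ act p l, w.im ≠ 0 ∧ ZZ p l t w ≠ 0 := by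
  obtain ⟨t, t', h⟩ := exists_tt p
  obtain ⟨l, x, -⟩ := A.cover (Classical.arbitrary M)
  obtain ⟨l, w, -, -, a, -⟩ := exists_act p l x.2
  obtain ⟨w, b, c⟩ := ((freq_im w).and_eventually ((act_open l).eventually_mem a)).exists
  rcases h l w c with d | d
  · exact ⟨t, t', h, l, w, c, b, d⟩
  · exact ⟨t', t, fun l w a => (h l w a).symm, l, w, c, b, d⟩

end DJ

open DJ in
theorem exists_dat {M : Type*} [TopologicalSpace M] [ChartedSpace (EuclideanSpace ℝ (Fin 3)) M]
    [T2Space M] [Nonempty M] (A : Atl M) : Nonempty (Dat M) := by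
  obtain ⟨p⟩ := exists_pou A
  obtain ⟨t, t', ht, l0, w0, a0, b0, c0⟩ := exists_reg p
  choose gt h1 h2 using exists_gt p t t'
  have os : ∀ l w, ∑ j, oo p l w j * oo p l w j = 1 := fun l w => by simp only [oo_sq, p.sum]
  refine ⟨{
    L := Fin A.n, T := Option (Fin A.n), I' := Ix A.n, ψ := A.ψ, loc := A.loc, p := pp A,
    k := kk A, p0 := ?_, cop := ?_, act := act p, op := act_open, cover := fun m => ?_,
    X := XX p t t', y := yy p, o := oo p, z := zf p t, g := gf p t',
    v := vv (fun l => Ix.w l l) (zh A) gt, iw := .w, iR := .r, iG := .g, ik := .k, iI := .i,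
    Sp := fun l w s => s = some l ∧ A.kl l = false ∧ w = 0,
    sm := fun l w h => ⟨XX_cd h, (yy_cd p l).contDiffAt, (oo_cd p l).contDiffAt, zf_cd h t,
      gf_cd h t'⟩,
    sv := vv_cd zh_cd h1, ev := fun x y => Finset.sum_congr rfl fun l _ => ?_,
    v0 := fun l w h => vv_zero (Su_gt h2 _ (ee_mem h)),
    rk := fun l w h => rank_two zh_cd h1 (Su_gt h2) (ee_mem h) (l0 := l)
      ((oo_sq p l w l).trans_ne (pow_ne_zero 2 h)) (Su_par h1 h2 (ee_mem h)),
    ew := fun _ _ _ _ _ => rfl, eo := fun l w _ => by simp only [pow_two, os],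
    ea := fun l w h s => ?_, eg := fun l w h s => by simp [XX], nd := fun l w h s => ?_,
    sp := ?_, per := DJ.per, half := fun l w h e θ => ?_,
    gauge := fun l l' θ θ' w h w' h' e => ?_, fib := fun l l' w h w' h' e e' θ' => ?_,
    imm := fun l w h u a b c => imm h a b fun d e => c _ ⟨rfl, d, e⟩,
    reg := ⟨l0, w0, a0, mul_ne_zero (by unfold κ; split_ifs <;> simp [b0]) (Q_pos p l0 w0).ne',
      ?_⟩ }⟩
  · rintro (_ | l)
    · exact one_pos
    · simp only [pp, Option.elim]
      split_ifs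
      exacts [one_pos, A.P0 l]
  · rintro (_ | l)
    · exact Nat.coprime_one_left 1
    · simp only [pp, kk, Option.elim]
      split_ifs
      exacts [Nat.coprime_one_right 0, A.cop l]
  · obtain ⟨l, x, -, rfl⟩ := A.cover m
    obtain ⟨l', w, ε, θ, a, r⟩ := exists_act p l x.2
    exact ⟨l', (_, w), a, (r.2 x.1).symm⟩
  · have : gt l (zh A l (x, -y)) = gt l (zh A l (x, y)) := by
      by_cases k : A.kl l = true
      · have := fun w => h2 l w
        simp only [bc, if_pos k] at this
        rw [zh_neg k, this, this, ← dk_one k, (p.bi l).dk, gl_inv.dk]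
      · simp [zh, k]
    rw [this]
    unfold DJ.sq
    simp
  · simp only [XX, ← mul_assoc, ← Finset.sum_mul, os, one_mul]
    rw [mul_comm I, re_add_im]
  · cases s with
    | none =>
      rcases eq_or_ne (ZZ p l t w) 0 with e | e
      · exact .inr (.inl ⟨by simp [zf, e], div_ne_zero ((ht l w h).resolve_left (by simp [e]))
          (NN_ne h), rfl⟩)
      · exact .inl ⟨by simp [zf, e, NN_ne h], zero_le_one, .inr one_pos⟩
    | some j =>
      have q := p.sum l w
      rcases eq_or_ne j l with rfl | n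
      · by_cases e : lam A j w = 0
        · exact .inr (.inr ⟨rfl, lam_eq_zero e⟩)
        · exact .inl ⟨by simpa [zf, zz], sub_nonneg.2 (q ▸ Finset.single_le_sum
            (fun i _ => sq_nonneg (p.ρ i j w)) (Finset.mem_univ j)), .inl (by simpa [gf, gg])⟩
      · have : 0 < 1 - p.ρ j l w ^ 2 := sub_pos.2 (q ▸ Finset.single_lt_sum n.symm
          (Finset.mem_univ j) (Finset.mem_univ l) (pow_pos ((p.ρ0 ..).lt_of_ne' h) 2)
          fun i _ _ => sq_nonneg (p.ρ i l w))
        exact .inl ⟨zz_ne h n, this.le, .inr this⟩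
  · rintro l w h s ⟨rfl, k, rfl⟩
    have c := (lone_ev k (act_b h ▸ one_ne_zero)).self_of_nhds
    refine ⟨by simp [c.zf k], by simp [c.zf k], by simp [c.yy k], fun _ h => h.1, fun θ => ?_,
      fun a => ⟨UU l a, sp_ker h1 h2 k h a, fun _ _ => rfl, ?_⟩⟩
    · simpa [dk_zero, pp, k] using ((R.deck l 1 0).2 θ).symm
    · simp [UU, c.oo, Pi.single_apply, mul_comm I]
  · have : κ A l w = 0 := (mul_eq_zero.1 e).resolve_right (Q_pos p l w).ne'
    unfold κ at this
    split_ifs at this with k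
    · simpa using ((R.half k this).2 θ).symm
    · simp at this
  · obtain ⟨ε, τ, r, q⟩ := R.of_eq e
    obtain ⟨η, u, a, b, c, d, f⟩ := gauge (t := t) (t' := t') h h' r
    refine ⟨ε, η, u, r.1, a, b, XX_rel h h' r, c, oo_rel r, by simpa only [r.1.cj] using d, ?_⟩
    change ex θ = cj ε (_ * ex θ')
    rw [show θ' = ε * θ + τ from q, add_comm, ex_add, ← mul_assoc, f, one_mul, r.1.cj, r.1.cr_ex,
      ← mul_assoc, r.1.sq, one_mul]
  · obtain ⟨w'', ε, τ, a, r⟩ := act_rel (p := p) (l := l') (w := w') (l' := l) fun n => h (by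
      have := congrFun e (.w l l)
      simpa [XX, oo_sq, n] using this)
    obtain ⟨m, rfl⟩ := same_dk h a (e.trans (XX_rel h' a r)) (e'.trans (yy_rel h' a r))
    exact ⟨_, ((r.trans (R.deck l m w).symm).2 θ').symm⟩
  · rintro (_ | j)
    · simp [zf, c0, NN_ne a0]
    · rcases eq_or_ne j l0 with rfl | n
      · simpa [zf, zz] using fun e => b0 (by simp [(lam_eq_zero e).2])
      · exact zz_ne a0 n

end Pool.Agent.Lib.MP_78bd4b_ag
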