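import Pool.Agent.Lib.MP_78bd4b_ag.Core

/-! Fibre relations between the charts and extension by zero. -/

noncomputable section

namespace Pool.Agent.Lib.MP_78bd4b_ag.DJ

open Complex Filter Function Set
open scoped Manifold ContDiff Topology Real ComplexConjugate

/-- the signs -/
def Sg (ε : ℝ) : Prop := ε = 1 ∨ ε = -1

theorem Sg.sq {ε : ℝ} (h : Sg ε) : ε * ε = 1 := by rcases h with rfl | rfl <;> norm_num

theorem Sg.mul {ε ε' : ℝ} (h : Sg ε) (h' : Sg ε') : Sg (ε * ε') := by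
  rcases h with rfl | rfl <;> rcases h' with rfl | rfl <;> simp [Sg]

theorem Sg.eq {ε ε' : ℝ} (h : Sg ε) (e : ε' * ε = 1) : ε' = ε := by
  rcases h with rfl | rfl <;> linarith

/-- `cj` as a ring homomorphism -/
def cr (ε : ℝ) : ℂ →+* ℂ := if ε = 1 then RingHom.id ℂ else starRingEnd ℂ

theorem cr_one (v : ℂ) : cr 1 v = v := by simp [cr]

theorem cr_neg (v : ℂ) : cr (-1) v = conj v := by
  rw [cr, if_neg (by norm_num)]

theorem Sg.cj {ε : ℝ} (h : Sg ε) (v : ℂ) : cj ε v = cr ε v := by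
  rcases h with rfl | rfl
  · simp [cr_one, MP_78bd4b_ag.cj]
  · rw [cr_neg]; apply Complex.ext <;> simp [MP_78bd4b_ag.cj]

theorem cr_real (ε x : ℝ) : cr ε x = x := by
  unfold cr; split_ifs <;> simp

theorem cr_cr (ε : ℝ) (v : ℂ) : cr ε (cr ε v) = v := by
  unfold cr; split_ifs <;> simp

theorem cr_conj (ε : ℝ) (v : ℂ) : cr ε (conj v) = conj (cr ε v) := by
  unfold cr; split_ifs <;> simp

theorem cr_norm (ε : ℝ) (v : ℂ) : ‖cr ε v‖ = ‖v‖ := by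
  unfold cr; split_ifs <;> simp

theorem cr_normSq (ε : ℝ) (v : ℂ) : normSq (cr ε v) = normSq v := by
  rw [normSq_eq_norm_sq, normSq_eq_norm_sq, cr_norm]

theorem cr_re (ε : ℝ) (v : ℂ) : (cr ε v).re = v.re := by
  unfold cr; split_ifs <;> simp

theorem Sg.cr_im {ε : ℝ} (h : Sg ε) (v : ℂ) : (cr ε v).im = ε * v.im := by
  rw [← h.cj]; rfl

theorem Sg.cr_mul {ε ε' : ℝ} (h : Sg ε) (h' : Sg ε') (v : ℂ) :
    cr (ε' * ε) v = cr ε (cr ε' v) := by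
  rcases h with rfl | rfl <;> rcases h' with rfl | rfl <;> simp [cr_one, cr_neg]

theorem cr_cd (ε : ℝ) : ContDiff ℝ ∞ (cr ε) := by
  unfold cr; split_ifs
  · exact contDiff_id
  · exact conjCLE.contDiff

/-- the unit complex number of argument `x` -/
def ex (x : ℝ) : ℂ := exp (x * I)

theorem ex_add (x y : ℝ) : ex (x + y) = ex x * ex y := by
  simp [ex, add_mul, exp_add]

theorem ex_zero : ex 0 = 1 := by simp [ex]

theorem ex_norm (x : ℝ) : ‖ex x‖ = 1 := norm_exp_ofReal_mul_I x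

theorem ex_ne (x : ℝ) : ex x ≠ 0 := exp_ne_zero _

theorem conj_ex (x : ℝ) : conj (ex x) = ex (-x) := by
  simp [ex, ← exp_conj]

theorem Sg.cr_ex {ε : ℝ} (h : Sg ε) (x : ℝ) : cr ε (ex x) = ex (ε * x) := by
  rcases h with rfl | rfl <;> simp [cr_one, cr_neg, conj_ex]

theorem ex_cd : ContDiff ℝ ∞ ex :=
  (contDiff_exp (𝕜 := ℝ)).comp (ofRealCLM.contDiff.mul contDiff_const)

variable {M : Type*} [TopologicalSpace M] [ChartedSpace (EuclideanSpace ℝ (Fin 3)) M]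
  (A : Atl M)

/-- the deck transformations -/
def dk (l : Fin A.n) (j : ℤ) (w : ℂ) : ℂ :=
  if A.kl l then (if Even j then w else conj w) else A.ζ l ^ j * w

/-- the two lines have the same image -/
def R (l : Fin A.n) (w : ℂ) (l' : Fin A.n) (w' : ℂ) (ε θ : ℝ) : Prop :=
  Sg ε ∧ ∀ s, A.ψ l (s, w) = A.ψ l' (ε * s + θ, w')

variable {A} {l l' l'' j : Fin A.n} {w w' w'' : ℂ} {ε θ ε' θ' : ℝ}

theorem R.refl (l : Fin A.n) (w : ℂ) : R A l w l w 1 0 := ⟨.inl rfl, fun s => by simp⟩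

theorem R.symm (h : R A l w l' w' ε θ) : R A l' w' l w ε (-(ε * θ)) :=
  ⟨h.1, fun s => by
    rw [h.2, show ε * (ε * s + -(ε * θ)) + θ = s by linear_combination (s - θ) * h.1.sq]⟩

theorem R.trans (h : R A l w l' w' ε θ) (h' : R A l' w' l'' w'' ε' θ') :
    R A l w l'' w'' (ε' * ε) (ε' * θ + θ') :=
  ⟨h'.1.mul h.1, fun s => by rw [h.2, h'.2]; congr 2; ring⟩

theorem P_pos (l : Fin A.n) : (0 : ℝ) < A.P l := by exact_mod_cast A.P0 l

theorem R.deck (l : Fin A.n) (m : ℤ) (w : ℂ) :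
    R A l w l (dk A l m w) 1 (2 * π * m / A.P l) :=
  ⟨.inl rfl, fun s => (A.deck l _ _).2 ⟨m, by simp, rfl⟩⟩

theorem R.same (h : R A l w l w' ε θ) :
    ε = 1 ∧ ∃ m : ℤ, θ = 2 * π * m / A.P l ∧ w' = dk A l m w := by
  have p := P_pos l
  obtain ⟨m, h1, h2⟩ := (A.deck l _ _).1 (h.2 0)
  refine ⟨h.1.resolve_right fun e => ?_, m, by simpa using h1, h2⟩
  obtain ⟨m', h3, -⟩ := (A.deck l _ _).1 (h.2 (π / (2 * A.P l)))
  simp only [e, mul_zero, zero_add] at h1 h3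
  rw [h1] at h3
  have : (2 * (m - m') : ℤ) = (1 : ℝ) := by
    have := Real.pi_pos
    field_simp at h3
    push_cast
    linarith
  norm_cast at this
  omega

theorem R.nhds0 {x x' : ℝ × ℂ} (h : A.ψ l x = A.ψ l' x') : ∃ (ε : ℝ) (τ : ℂ → ℝ) (χ : ℂ → ℂ),
    ContDiffAt ℝ ∞ τ x.2 ∧ ContDiffAt ℝ ∞ χ x.2 ∧ ε * x.1 + τ x.2 = x'.1 ∧ χ x.2 = x'.2 ∧
    ∀ᶠ z in 𝓝 x.2, R A l z l' (χ z) ε (τ z) := by
  obtain ⟨ε, τ, χ, a, b, c, d, e, f⟩ := A.trans l l' x x' h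
  exact ⟨ε, τ, χ, b, c, d, e, f.mono fun z hz => ⟨a, hz⟩⟩

theorem R.of_eq {x x' : ℝ × ℂ} (h : A.ψ l x = A.ψ l' x') :
    ∃ ε θ, R A l x.2 l' x'.2 ε θ ∧ x'.1 = ε * x.1 + θ := by
  obtain ⟨ε, τ, χ, -, -, d, e, f⟩ := R.nhds0 h
  exact ⟨ε, _, e ▸ f.self_of_nhds, d.symm⟩

theorem R.uniq (h : R A l w l' w' ε θ) (h' : R A l w l' w'' ε' θ') :
    ε' = ε ∧ ∃ m : ℤ, θ' = θ + 2 * π * m / A.P l' ∧ w'' = dk A l' m w' := by
  obtain ⟨a, m, b, c⟩ := (h.symm.trans h').same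
  obtain rfl := h.1.eq a
  exact ⟨rfl, m, by linear_combination b + θ * h.1.sq, c⟩

theorem R.nhds (h : R A l w l' w' ε θ) : ∃ (τ : ℂ → ℝ) (χ : ℂ → ℂ),
    ContDiffAt ℝ ∞ τ w ∧ ContDiffAt ℝ ∞ χ w ∧ τ w = θ ∧ χ w = w' ∧
    ∀ᶠ z in 𝓝 w, R A l z l' (χ z) ε (τ z) := by
  obtain ⟨ε', τ, χ, a, b, c, d, e⟩ := R.nhds0 (h.2 0)
  obtain ⟨rfl, -⟩ := h.uniq e.self_of_nhds
  exact ⟨τ, χ, a, b, by simpa using c, d, e⟩

theorem dk_P (l : Fin A.n) (w : ℂ) : dk A l (A.P l) w = w := by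
  unfold dk
  split_ifs with h1 h2
  · rfl
  · exact absurd (by rw [A.P2 l h1]; decide) h2
  · simp [A.ζP l]

theorem per (l : Fin A.n) (s : ℝ) (w : ℂ) : A.ψ l (s + 2 * π, w) = A.ψ l (s, w) := by
  have := (R.deck l (A.P l) w).2 s
  rw [dk_P] at this
  rw [this]
  congr 2
  have := P_pos l
  push_cast
  field_simp

theorem cont (l : Fin A.n) : Continuous (A.ψ l) := (A.loc l).contMDiff.continuous

theorem closed_tube [T2Space M] (l j : Fin A.n) (r : ℝ) :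
    IsClosed {w | ∃ w' ε θ, ‖w'‖ ≤ r ∧ R A l w j w' ε θ} := by
  have c : IsCompact (A.ψ j '' (Icc 0 (2 * π) ×ˢ Metric.closedBall 0 r)) :=
    (isCompact_Icc.prod (isCompact_closedBall _ _)).image (cont j)
  convert c.isClosed.preimage ((cont l).comp (Continuous.prodMk_right (0 : ℝ))) using 1
  ext w
  constructor
  · rintro ⟨w', ε, θ, h1, h2⟩
    obtain ⟨s, hs, e⟩ := Periodic.exists_mem_Ico₀ (f := fun s => A.ψ j (s, w'))
      (fun s => per j s w') Real.two_pi_pos (ε * 0 + θ)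
    exact ⟨(s, w'), ⟨Ico_subset_Icc_self hs, by simpa using h1⟩, ((h2.2 0).trans e).symm⟩
  · rintro ⟨x, hx, e⟩
    obtain ⟨ε, θ, h, -⟩ := R.of_eq e.symm
    exact ⟨x.2, ε, θ, by simpa using hx.2, h⟩

variable (A)

/-- sections of weight `n` -/
def Sec (n : ℕ) (s : Fin A.n → ℂ → ℂ) : Prop :=
  ∀ ⦃l w l' w' ε θ⦄, R A l w l' w' ε θ → s l w = cr ε (ex (n * θ) * s l' w')

/-- invariant families -/
def Inv {V : Type*} (s : Fin A.n → ℂ → V) : Prop :=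
  ∀ ⦃l w l' w' ε θ⦄, R A l w l' w' ε θ → s l w = s l' w'

/-- equivariant functions on one chart -/
def Eqv (n : ℕ) (j : Fin A.n) (f : ℂ → ℂ) : Prop :=
  ∀ (m : ℤ) w, f w = ex (n * (2 * π * m / A.P j)) * f (dk A j m w)

open Classical in
/-- extension by zero -/
def ext (n : ℕ) (j : Fin A.n) (f : ℂ → ℂ) (l : Fin A.n) (w : ℂ) : ℂ :=
  if h : ∃ q : ℂ × ℝ × ℝ, R A l w j q.1 q.2.1 q.2.2 then
    cr h.choose.2.1 (ex (n * h.choose.2.2) * f h.choose.1) else 0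

variable {A} {n : ℕ} {f : ℂ → ℂ}

theorem ext_eq (hf : Eqv A n j f) (h : R A l w j w' ε θ) :
    ext A n j f l w = cr ε (ex (n * θ) * f w') := by
  have e : ∃ q : ℂ × ℝ × ℝ, R A l w j q.1 q.2.1 q.2.2 := ⟨(w', ε, θ), h⟩
  rw [ext, dif_pos e]
  obtain ⟨a, m, b, c⟩ := h.uniq e.choose_spec
  rw [a, b, c, hf m w', mul_add, ex_add, mul_assoc]

theorem ext_self (hf : Eqv A n j f) (w : ℂ) : ext A n j f j w = f w := by
  simp [ext_eq hf (R.refl j w), cr_one, ex_zero]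

theorem ext_no (h : ¬∃ w' ε θ, R A l w j w' ε θ) : ext A n j f l w = 0 :=
  dif_neg fun ⟨_, hq⟩ => h ⟨_, _, _, hq⟩

theorem ext_zero (hf : Eqv A n j f) (h : ∀ w' ε θ, R A l w j w' ε θ → f w' = 0) :
    ext A n j f l w = 0 := by
  by_cases e : ∃ w' ε θ, R A l w j w' ε θ
  · obtain ⟨w', ε, θ, e⟩ := e
    simp [ext_eq hf e, h _ _ _ e]
  · exact ext_no e

theorem ext_sec (hf : Eqv A n j f) : Sec A n (ext A n j f) := fun l w l' w' ε θ h => by
  by_cases e : ∃ w'' ε θ, R A l' w' j w'' ε θ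
  · obtain ⟨w'', ε', θ', e⟩ := e
    rw [ext_eq hf e, ext_eq hf (h.trans e), h.1.cr_mul e.1, mul_add, ex_add, mul_assoc, map_mul,
      e.1.cr_ex]
    congr 3
    linear_combination n * θ * e.1.sq
  · rw [ext_no e, ext_no fun ⟨_, _, _, e'⟩ => e ⟨_, _, _, h.symm.trans e'⟩]
    simp

theorem ext_cd [T2Space M] (hf : Eqv A n j f) (h1 : ContDiff ℝ ∞ f) (h2 : ∀ w, 2 ≤ ‖w‖ → f w = 0)
    (l : Fin A.n) : ContDiff ℝ ∞ (ext A n j f l) := contDiff_iff_contDiffAt.2 fun w => by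
  by_cases e : ∃ w' ε θ, R A l w j w' ε θ
  · obtain ⟨w', ε, θ, e⟩ := e
    obtain ⟨τ, χ, a, b, -, -, c⟩ := e.nhds
    exact ((cr_cd ε).contDiffAt.comp w ((ex_cd.contDiffAt.comp w (contDiffAt_const.mul a)).mul
      (h1.contDiffAt.comp w b))).congr_of_eventuallyEq (c.mono fun z hz => ext_eq hf hz)
  · refine (contDiffAt_const (c := 0)).congr_of_eventuallyEq ?_
    filter_upwards [(closed_tube l j 2).isOpen_compl.mem_nhds
      fun ⟨_, _, _, _, h⟩ => e ⟨_, _, _, h⟩] with z hz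
    exact ext_zero hf fun w' ε θ h => h2 _ (le_of_not_ge fun a => hz ⟨_, _, _, a, h⟩)

/-- extension by zero of real functions -/
def exr (A : Atl M) (j : Fin A.n) (f : ℂ → ℝ) (l : Fin A.n) (w : ℂ) : ℝ :=
  (ext A 0 j (fun w => f w) l w).re

/-- functions invariant under the deck group -/
def Dk {V : Type*} (A : Atl M) (j : Fin A.n) (f : ℂ → V) : Prop := ∀ m w, f (dk A j m w) = f w

theorem Dk.eqv (h : Dk A j f) : Eqv A 0 j f := fun m w => by simp [h m w, ex_zero]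

theorem Inv.dk {V : Type*} {s : Fin A.n → ℂ → V} (h : Inv A s) (j : Fin A.n) : Dk A j (s j) :=
  fun m w => (h (R.deck j m w)).symm

variable {g : ℂ → ℝ}

theorem Dk.eqr (h : Dk A j g) : Eqv A 0 j fun w => g w := fun m w => by simp [h m w, ex_zero]

theorem exr_eq (hg : Dk A j g) (h : R A l w j w' ε θ) : exr A j g l w = g w' := by
  simp [exr, ext_eq hg.eqr h, cr_real, ex_zero]

theorem exr_zero (hg : Dk A j g) (h : ∀ w' ε θ, R A l w j w' ε θ → g w' = 0) :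
    exr A j g l w = 0 := by
  rw [exr, ext_zero hg.eqr fun w' ε θ e => by simp [h w' ε θ e], zero_re]

theorem exr_inv (hg : Dk A j g) : Inv A (exr A j g) := fun l w l' w' ε θ h => by
  simp [exr, ext_sec hg.eqr h, cr_re, ex_zero]

theorem exr_cd [T2Space M] (hg : Dk A j g) (h1 : ContDiff ℝ ∞ g) (h2 : ∀ w, 2 ≤ ‖w‖ → g w = 0)
    (l : Fin A.n) : ContDiff ℝ ∞ (exr A j g l) :=
  reCLM.contDiff.comp (ext_cd hg.eqr (ofRealCLM.contDiff.comp h1) (fun w h => by simp [h2 w h]) l)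

theorem exr_mem (hg : Dk A j g) {S : Set ℝ} (h0 : 0 ∈ S) (h : ∀ w, g w ∈ S) (l : Fin A.n) (w : ℂ) :
    exr A j g l w ∈ S := by
  by_cases e : ∃ w' ε θ, R A l w j w' ε θ
  · obtain ⟨w', ε, θ, e⟩ := e
    exact exr_eq hg e ▸ h w'
  · rwa [exr_zero hg fun _ _ _ h => absurd ⟨_, _, _, h⟩ e]

theorem ζ_norm (l : Fin A.n) : ‖A.ζ l‖ = 1 := by
  have := congrArg norm (A.ζP l)
  rw [norm_pow, norm_one] at this
  exact (pow_eq_one_iff_of_nonneg (norm_nonneg _) (A.P0 l).ne').1 this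

theorem dk_norm (l : Fin A.n) (m : ℤ) (w : ℂ) : ‖dk A l m w‖ = ‖w‖ := by
  unfold dk; split_ifs <;> simp [ζ_norm]

theorem dk_zero (l : Fin A.n) (m : ℤ) : dk A l m 0 = 0 := by
  simpa using dk_norm l m 0

end Pool.Agent.Lib.MP_78bd4b_ag.DJ
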