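import Pool.Agent.Lib.MP_78bd4b_ag.Data1

/-! The partition of unity. -/

noncomputable section

namespace Pool.Agent.Lib.MP_78bd4b_ag.DJ

open Complex Filter Function Set
open scoped Manifold ContDiff Topology Real ComplexConjugate

variable {M : Type*} [TopologicalSpace M] [ChartedSpace (EuclideanSpace ℝ (Fin 3)) M]

/-- a partition of unity adapted to the cores -/
structure Pou (A : Atl M) where
  (b ρ : Fin A.n → Fin A.n → ℂ → ℝ)
  bs : ∀ j l, ContDiff ℝ ∞ (b j l)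
  ρs : ∀ j l, ContDiff ℝ ∞ (ρ j l)
  bi : ∀ j, Inv A (b j)
  ρi : ∀ j, Inv A (ρ j)
  supp : ∀ j w, 2 ≤ ‖w‖ → b j j w = 0
  loc : ∀ j l w, b j l w ≠ 0 → ∃ w' ε θ, R A l w j w' ε θ
  b0 : ∀ j l w, 0 ≤ b j l w
  b1 : ∀ j l w, b j l w ≤ 1
  one : ∀ j l w, ρ j l w ≠ 0 → b j l w = 1
  ρ0 : ∀ j l w, 0 ≤ ρ j l w
  sum : ∀ l w, ∑ j, ρ j l w ^ 2 = 1
  core : ∀ l, A.kl l = false →
    (∀ᶠ w in 𝓝 0, b l l w = 0) ∨ ∀ᶠ w in 𝓝 0, ∀ j ≠ l, b j l w = 0

/-- radial bump functions -/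
def bump (r : ℝ) (w : ℂ) : ℝ := Real.smoothTransition (2 - ‖w‖ ^ 2 / r ^ 2)

theorem bump_cd (r : ℝ) : ContDiff ℝ ∞ (bump r) :=
  Real.smoothTransition.contDiff.comp (contDiff_const.sub ((contDiff_norm_sq ℝ).div_const _))

theorem bump_one {r : ℝ} {w : ℂ} (hr : 0 < r) (h : ‖w‖ ≤ r) : bump r w = 1 := by
  refine Real.smoothTransition.one_of_one_le ?_
  have : ‖w‖ ^ 2 / r ^ 2 ≤ 1 := (div_le_one (by positivity)).2 (by gcongr)
  linarith

theorem bump_zero {r : ℝ} {w : ℂ} (hr : 0 < r) (h : 2 * r ≤ ‖w‖) : bump r w = 0 := by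
  refine Real.smoothTransition.zero_of_nonpos ?_
  have : 2 ≤ ‖w‖ ^ 2 / r ^ 2 := (le_div_iff₀ (by positivity)).2 (by nlinarith)
  linarith

theorem bump_dk (A : Atl M) (j : Fin A.n) (r : ℝ) : Dk A j (bump r) := fun m w => by
  simp [bump, dk_norm]

/-- one torus chart for each core -/
def Ac (A : Atl M) (l : Fin A.n) : Prop :=
  A.kl l = false ∧ ∀ l' < l, A.kl l' = false → ¬∃ ε θ, R A l 0 l' 0 ε θ

variable {A : Atl M}

theorem exists_ac {l : Fin A.n} (h : A.kl l = false) : ∃ l0, Ac A l0 ∧ ∃ ε θ, R A l 0 l0 0 ε θ := by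
  obtain ⟨l0, ⟨a, ε, θ, b⟩, c⟩ := WellFounded.has_min wellFounded_lt
    {l0 | A.kl l0 = false ∧ ∃ ε θ, R A l 0 l0 0 ε θ} ⟨l, h, _, _, .refl l 0⟩
  exact ⟨l0, ⟨a, fun l' h1 h2 ⟨_, _, e⟩ => c l' ⟨h2, _, _, b.trans e⟩ h1⟩, _, _, b⟩

theorem tubes [T2Space M] {l l' : Fin A.n} (h : ¬∃ ε θ, R A l 0 l' 0 ε θ) :
    ∀ᶠ r in 𝓝[>] (0 : ℝ), ∀ w w' ε θ, ‖w‖ ≤ r → ‖w'‖ ≤ r → ¬R A l w l' w' ε θ := by
  obtain ⟨r1, p1, h1⟩ := Metric.nhds_basis_closedBall.mem_iff.1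
    ((closed_tube l l' 0).isOpen_compl.mem_nhds (x := 0) fun ⟨w, ε, θ, a, b⟩ =>
      h ⟨ε, θ, norm_le_zero_iff.1 a ▸ b⟩)
  obtain ⟨r2, p2, h2⟩ := Metric.nhds_basis_closedBall.mem_iff.1
    ((closed_tube l' l r1).isOpen_compl.mem_nhds (x := 0) fun ⟨w, ε, θ, a, b⟩ =>
      h1 (by simpa using a) ⟨0, _, _, by simp, b.symm⟩)
  filter_upwards [Ioo_mem_nhdsGT (lt_min p1 p2)] with r hr w w' ε θ a b c
  exact h2 (by simpa using b.trans (hr.2.le.trans (min_le_right ..)))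
    ⟨w, _, _, a.trans (hr.2.le.trans (min_le_left ..)), c.symm⟩

theorem exists_δ [T2Space M] (A : Atl M) : ∃ δ > 0, 2 * δ ≤ 1 ∧ ∀ l l', Ac A l → Ac A l' → l ≠ l' →
    ∀ w w' ε θ, ‖w‖ ≤ 2 * δ → ‖w'‖ ≤ 2 * δ → ¬R A l w l' w' ε θ := by
  have : ∀ᶠ r in 𝓝[>] (0 : ℝ), ∀ l l', Ac A l → Ac A l' → l ≠ l' →
      ∀ w w' ε θ, ‖w‖ ≤ r → ‖w'‖ ≤ r → ¬R A l w l' w' ε θ := by
    refine eventually_all.2 fun l => eventually_all.2 fun l' => eventually_imp_distrib_left.2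
      fun a => eventually_imp_distrib_left.2 fun b => eventually_imp_distrib_left.2 fun c =>
        tubes ?_
    rcases c.lt_or_gt with c | c
    · exact fun ⟨_, _, e⟩ => b.2 l c a.1 ⟨_, _, e.symm⟩
    · exact a.2 l' c b.1
  obtain ⟨r, a, b⟩ := (this.and (Ioo_mem_nhdsGT one_pos)).exists
  refine ⟨r / 2, by linarith [b.1], by linarith [b.2], ?_⟩
  rwa [mul_div_cancel₀ _ two_ne_zero]

open Classical in
/-- the function from which the partition is cut -/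
def r0 (A : Atl M) (δ : ℝ) (j l : Fin A.n) (w : ℂ) : ℝ :=
  2 * exr A j (bump 1) l w * ∏ i, if Ac A i ∧ i ≠ j then 1 - exr A i (bump δ) l w else 1

theorem r0_cd [T2Space M] {δ : ℝ} (p : 0 < δ) (q : 2 * δ ≤ 1) (j l : Fin A.n) :
    ContDiff ℝ ∞ (r0 A δ j l) := by
  refine (contDiff_const.mul (exr_cd (bump_dk A j 1) (bump_cd 1)
    (fun w h => bump_zero one_pos (by linarith)) l)).mul (contDiff_prod fun i _ => ?_)
  split_ifs
  · exact contDiff_const.sub (exr_cd (bump_dk A i δ) (bump_cd δ)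
      (fun w h => bump_zero p (by linarith)) l)
  · exact contDiff_const

theorem r0_inv (δ : ℝ) (j : Fin A.n) : Inv A (r0 A δ j) := fun l w l' w' ε θ h => by
  simp only [r0, exr_inv (bump_dk A _ _) h]

theorem r0_two {δ : ℝ} (p : 0 < δ) (q : 2 * δ ≤ 1) (hδ : ∀ l l', Ac A l → Ac A l' → l ≠ l' →
    ∀ w w' ε θ, ‖w‖ ≤ 2 * δ → ‖w'‖ ≤ 2 * δ → ¬R A l w l' w' ε θ) (l : Fin A.n) (w : ℂ) :
    ∃ j, r0 A δ j l w = 2 := by
  by_cases h : ∃ i w' ε θ, Ac A i ∧ R A l w i w' ε θ ∧ ‖w'‖ ≤ 2 * δ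
  · obtain ⟨i, w', ε, θ, a, b, c⟩ := h
    refine ⟨i, ?_⟩
    rw [r0, exr_eq (bump_dk A _ _) b, bump_one one_pos (c.trans q), Finset.prod_eq_one, mul_one,
      mul_one]
    intro i' _
    split_ifs with e
    · rw [exr_zero (bump_dk A _ _) fun w'' _ _ d => bump_zero p (le_of_not_ge fun f =>
        hδ i i' a e.1 e.2.symm _ _ _ _ c f (b.symm.trans d)), sub_zero]
    · rfl
  · obtain ⟨j, x, a, b⟩ := A.cover (A.ψ l (0, w))
    obtain ⟨ε, θ, c, -⟩ := R.of_eq b.symm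
    refine ⟨j, ?_⟩
    rw [r0, exr_eq (bump_dk A _ _) c, bump_one one_pos a.le, Finset.prod_eq_one, mul_one,
      mul_one]
    intro i' _
    split_ifs with e
    · rw [exr_zero (bump_dk A _ _) fun w'' _ _ d => bump_zero p (le_of_not_ge fun f =>
        h ⟨_, _, _, _, e.1, d, f⟩), sub_zero]
    · rfl

theorem r0_core {δ : ℝ} (p : 0 < δ) {l i : Fin A.n} {ε θ : ℝ} (a : Ac A i) (h : R A l 0 i 0 ε θ) :
    ∀ᶠ w in 𝓝 0, ∀ j ≠ i, r0 A δ j l w = 0 := by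
  obtain ⟨τ, χ, -, b, -, c, d⟩ := h.nhds
  have e : ∀ᶠ w in 𝓝 0, ‖χ w‖ < δ :=
    b.continuousAt.norm.eventually_lt continuousAt_const (by simpa [c] using p)
  filter_upwards [d, e] with w d e j hj
  rw [r0, Finset.prod_eq_zero (Finset.mem_univ i), mul_zero]
  rw [if_pos ⟨a, hj.symm⟩, exr_eq (bump_dk A _ _) d, bump_one p e.le, sub_self]

open Real in
theorem exists_pou [T2Space M] (A : Atl M) : Nonempty (Pou A) := by
  obtain ⟨δ, p, q, hδ⟩ := exists_δ A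
  let t : Fin A.n → Fin A.n → ℂ → ℝ := fun j l w => smoothTransition (r0 A δ j l w - 1)
  have tc : ∀ j l, ContDiff ℝ ∞ (t j l) := fun j l =>
    smoothTransition.contDiff.comp ((r0_cd p q j l).sub contDiff_const)
  have tp : ∀ l w, 0 < ∑ j, t j l w ^ 2 := fun l w => by
    obtain ⟨j, h⟩ := r0_two p q hδ l w
    refine Finset.sum_pos' (fun _ _ => sq_nonneg _) ⟨j, Finset.mem_univ _, ?_⟩
    simp only [t, h]
    norm_num
  have z : ∀ j l w, r0 A δ j l w = 0 → smoothTransition (r0 A δ j l w) = 0 := fun j l w h => by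
    rw [h, smoothTransition.zero]
  refine ⟨⟨fun j l w => smoothTransition (r0 A δ j l w), fun j l w => t j l w / √(∑ i, t i l w ^ 2),
    fun j l => smoothTransition.contDiff.comp (r0_cd p q j l),
    fun j l => (tc j l).div (ContDiff.sqrt (ContDiff.sum fun i _ => (tc i l).pow 2)
      fun w => (tp l w).ne') fun w => (sqrt_pos.2 (tp l w)).ne',
    fun j l w l' w' ε θ h => by simp only [r0_inv δ _ h],
    fun j l w l' w' ε θ h => by simp only [t, r0_inv δ _ h], fun j w h => z _ _ _ ?_,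
    fun j l w h => by_contra fun e => h (z _ _ _ ?_), fun _ _ _ => smoothTransition.nonneg _,
    fun _ _ _ => smoothTransition.le_one _, fun j l w h => smoothTransition.one_of_one_le ?_,
    fun j l w => div_nonneg (smoothTransition.nonneg _) (sqrt_nonneg _), fun l w => ?_,
    fun l h => ?_⟩⟩
  · simp [r0, exr_eq (bump_dk A _ _) (.refl j w), bump_zero one_pos (by simpa using h)]
  · simp [r0, exr_zero (bump_dk A _ _) fun _ _ _ h => absurd ⟨_, _, _, h⟩ e]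
  · by_contra! e
    exact h (by simp [t, smoothTransition.zero_of_nonpos (sub_nonpos.2 e.le)])
  · simp only [div_pow, ← Finset.sum_div, sq_sqrt (tp l w).le]
    exact div_self (tp l w).ne'
  · obtain ⟨i, a, ε, θ, b⟩ := exists_ac h
    by_cases e : l = i
    · subst e
      exact .inr ((r0_core p a b).mono fun w h j hj => z _ _ _ (h j hj))
    · exact .inl ((r0_core p a b).mono fun w h => z _ _ _ (h l e))

end Pool.Agent.Lib.MP_78bd4b_ag.DJ
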