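import Pool.Agent.Lib.MP_0cc5e8_gt.Calc

/-! Analytic lemmas: division, descent, general position, rank. -/

noncomputable section

namespace Pool.Agent.Lib.MP_78bd4b_ag.DJ

open Complex Filter Function Set
open scoped ContDiff Topology Real ComplexConjugate

theorem had {f : ℂ → ℂ} (hf : ContDiff ℝ ∞ f) (h0 : ∀ w : ℂ, w.im = 0 → f w = 0) :
    ∃ g, ContDiff ℝ ∞ g ∧ ∀ w, f w = w.im * g w := by
  obtain ⟨G, a, b, -⟩ := MP_0cc5e8_gt.hadamard (n := ⊤) (F := fun p : ℝ × ℝ => f (equivRealProdCLM.symm p))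
    ((hf.comp equivRealProdCLM.symm.contDiff).of_le (by simp))
  refine ⟨fun w => G (equivRealProdCLM w), a.comp equivRealProdCLM.contDiff, fun w => ?_⟩
  have := b w.re w.im
  rw [h0 (equivRealProdCLM.symm (w.re, 0)) rfl, zero_add, real_smul] at this
  exact this

theorem freq_im (w : ℂ) : ∃ᶠ z in 𝓝 w, z.im ≠ 0 := by
  have : Dense {z : ℂ | z.im ≠ 0} :=
    (dense_compl_singleton (0 : ℝ)).preimage isOpenMap_im
  exact mem_closure_iff_frequently.1 (this w)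

/-- a chosen root -/
def rt (P : ℕ) (a : ℂ) : ℂ := a ^ (P : ℂ)⁻¹

theorem rt_pow {P : ℕ} (h : 0 < P) (a : ℂ) : rt P a ^ P = a := cpow_nat_inv_pow a h.ne'

theorem rt_tendsto {P : ℕ} (h : 0 < P) : Tendsto (rt P) (𝓝 0) (𝓝 0) := by
  have e : ((P : ℂ)⁻¹).re = (P : ℝ)⁻¹ := by
    rw [← ofReal_natCast, ← ofReal_inv, ofReal_re]
  have := continuousAt_cpow_const_of_re_pos (z := 0) (w := (P : ℂ)⁻¹) (by simp)
    (by rw [e]; positivity)
  rwa [ContinuousAt, zero_cpow (by simpa using h.ne')] at this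

theorem descent {V : Type*} [NormedAddCommGroup V] [NormedSpace ℝ V] {P : ℕ} (h : 0 < P)
    {F G : ℂ → V} (hF : ContDiff ℝ ∞ F) (inv : ∀ z z', z ^ P = z' ^ P → F z = F z')
    (hG : ContDiffAt ℝ ∞ G 0) (e : ∀ᶠ z in 𝓝 0, F z = G (z ^ P)) :
    ∃ g : ℂ → V, ContDiff ℝ ∞ g ∧ ∀ z, g (z ^ P) = F z := by
  refine ⟨fun a => F (rt P a), contDiff_iff_contDiffAt.2 fun a => ?_,
    fun z => inv _ _ (rt_pow h _)⟩
  rcases eq_or_ne a 0 with rfl | ha
  · exact hG.congr_of_eventuallyEq (((rt_tendsto h).eventually e).mono fun a e => by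
      simp only [e, rt_pow h])
  · have c0 : AnalyticAt ℂ (fun b => (b / a) ^ (P : ℂ)⁻¹) a :=
      AnalyticAt.cpow (f := fun b => b / a) (by fun_prop) analyticAt_const (by simp [ha])
    have c : ContDiffAt ℝ ∞ (fun b => rt P a * rt P (b / a)) a :=
      contDiffAt_const.mul (c0.contDiffAt.restrict_scalars ℝ)
    refine (hF.contDiffAt.comp a c).congr_of_eventuallyEq (.of_forall fun b => inv _ _ ?_)
    simp only [mul_pow, rt_pow h]
    field_simp

theorem avoid {E F ι : Type*} [NormedAddCommGroup E] [NormedSpace ℝ E] [FiniteDimensional ℝ E]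
    [NormedAddCommGroup F] [NormedSpace ℝ F] [FiniteDimensional ℝ F] [Countable ι]
    (h : Module.finrank ℝ E < Module.finrank ℝ F) (f : ι → E → F) (s : ι → Set E)
    (hf : ∀ i, ∀ x ∈ s i, ContDiffAt ℝ 1 (f i) x) : ∃ y, ∀ i, ∀ x ∈ s i, f i x ≠ y := by
  borelize F
  have : dimH (⋃ i, f i '' s i) ≤ Module.finrank ℝ E := by
    rw [dimH_iUnion]
    refine iSup_le fun i => (dimH_image_le_of_locally_lipschitzOn fun x hx => ?_).trans
      ((dimH_mono (subset_univ _)).trans_eq (Real.dimH_univ_eq_finrank E))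
    obtain ⟨C, t, a, b⟩ := (hf i x hx).exists_lipschitzOnWith
    exact ⟨C, t, nhdsWithin_le_nhds a, b⟩
  obtain ⟨y, hy⟩ := (dense_compl_of_dimH_lt_finrank
    (this.trans_lt (Nat.cast_lt.2 h))).nonempty
  exact ⟨y, fun i x hx e => hy (mem_iUnion.2 ⟨i, x, hx, e⟩)⟩

theorem lim_cpt {X Y Z : Type*} [TopologicalSpace X] [TopologicalSpace Y] [TopologicalSpace Z]
    [T2Space Z] {K : Set Y} (hK : IsCompact K) {x0 : X} {f g : X × Y → Z}
    (hf : ∀ y, ContinuousAt f (x0, y)) (hg : ∀ y, ContinuousAt g (x0, y))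
    (h : ∃ᶠ x in 𝓝 x0, ∃ y ∈ K, f (x, y) = g (x, y)) : ∃ y ∈ K, f (x0, y) = g (x0, y) := by
  by_contra! e
  obtain ⟨x, ⟨y, a, b⟩, c⟩ := (h.and_eventually (hK.eventually_forall_of_forall_eventually
    (P := fun x y => f (x, y) ≠ g (x, y)) fun y hy =>
      ((hf y).prodMk (hg y)).eventually (isClosed_diagonal.isOpen_compl.mem_nhds (e y hy)))).exists
  exact c y a b

/-- the square of the last coordinate -/
def sq {I : Type} (e : (I → ℝ) × ℝ) : Option I → ℝ := fun o => o.elim (e.2 ^ 2) e.1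

theorem sq_cd {I : Type} [Fintype I] : ContDiff ℝ ∞ (sq (I := I)) :=
  contDiff_pi.2 fun o => by cases o <;> simp only [sq, Option.elim] <;> fun_prop

theorem sq_ker {I : Type} [Fintype I] {e u : (I → ℝ) × ℝ} (h : fderiv ℝ sq e u = 0) :
    u.1 = 0 ∧ e.2 * u.2 = 0 := by
  have d : HasDerivAt (fun s : ℝ => sq (e + s • u)) (fun o => o.elim (2 * e.2 * u.2) u.1) 0 :=
    hasDerivAt_pi.2 fun o => by
      cases o with
      | none => simpa [sq] using (((hasDerivAt_id (0 : ℝ)).mul_const u.2).const_add e.2).fun_pow 2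
      | some i => simpa [sq] using (((hasDerivAt_id (0 : ℝ)).mul_const (u.1 i)).const_add (e.1 i))
  have d' := (sq_cd.differentiable (by simp) e).hasFDerivAt.hasLineDerivAt u
  have := d'.unique d
  rw [h] at this
  exact ⟨funext fun i => (congrFun this (some i)).symm, by
    have := congrFun this none
    simp only [Pi.zero_apply, Option.elim] at this
    linarith⟩

/-- the equations of the surface -/
def vv {I L : Type} [Fintype L] (r : L → I) (zh : L → (I → ℝ) × ℝ → ℂ) (gt : L → ℂ → Option I → ℝ)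
    (e : (I → ℝ) × ℝ) : Option I → ℝ := ∑ l, e.1 (r l) ^ 2 • (sq e - gt l (zh l e))

section
variable {I L : Type} [Fintype I] [Fintype L] {r : L → I} {zh : L → (I → ℝ) × ℝ → ℂ}
  {gt : L → ℂ → Option I → ℝ}

theorem vv_cd (h1 : ∀ l, ContDiff ℝ ∞ (zh l)) (h2 : ∀ l, ContDiff ℝ ∞ (gt l)) :
    ContDiff ℝ ∞ (vv r zh gt) :=
  ContDiff.sum fun l _ => ContDiff.smul (f := fun e : (I → ℝ) × ℝ => e.1 (r l) ^ 2) (by fun_prop)
    (sq_cd.sub ((h2 l).comp (h1 l)))

omit [Fintype I] in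
theorem vv_zero {e : (I → ℝ) × ℝ} (h : ∀ l, e.1 (r l) ≠ 0 → gt l (zh l e) = sq e) :
    vv r zh gt e = 0 := Finset.sum_eq_zero fun l _ => by
  by_cases a : e.1 (r l) = 0
  · simp [a]
  · simp [h l a]

theorem rank_two (h1 : ∀ l, ContDiff ℝ ∞ (zh l)) (h2 : ∀ l, ContDiff ℝ ∞ (gt l))
    {S : Set ((I → ℝ) × ℝ)} (hS : ∀ e ∈ S, ∀ l, e.1 (r l) ≠ 0 → gt l (zh l e) = sq e)
    {e : (I → ℝ) × ℝ} (he : e ∈ S) {l0 : L} (h0 : e.1 (r l0) ≠ 0)
    (hγ : ∀ l, e.1 (r l) ≠ 0 → ∃ γ : ℂ → (I → ℝ) × ℝ, DifferentiableAt ℝ γ (zh l e) ∧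
      γ (zh l e) = e ∧ (∀ᶠ a in 𝓝 (zh l e), γ a ∈ S ∧ zh l (γ a) = a) ∧
      (e.2 = 0 → ∃ a, (fderiv ℝ γ (zh l e) a).1 = 0 ∧ a ≠ 0)) :
    Module.finrank ℝ (fderiv ℝ (vv r zh gt) e).ker = 2 := by
  have dz : ∀ l e, DifferentiableAt ℝ (zh l) e := fun l => (h1 l).differentiable (by simp)
  have dg : ∀ l e, DifferentiableAt ℝ (gt l) e := fun l => (h2 l).differentiable (by simp)
  have ds : ∀ e : (I → ℝ) × ℝ, DifferentiableAt ℝ sq e := sq_cd.differentiable (by simp)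
  have key : ∀ l l', e.1 (r l') ≠ 0 → ∀ γ : ℂ → (I → ℝ) × ℝ, DifferentiableAt ℝ γ (zh l e) →
      γ (zh l e) = e → (∀ᶠ a in 𝓝 (zh l e), γ a ∈ S) → ∀ a,
      fderiv ℝ (gt l') (zh l' e) (fderiv ℝ (zh l') e (fderiv ℝ γ (zh l e) a)) =
        fderiv ℝ sq e (fderiv ℝ γ (zh l e) a) := fun l l' h γ a b c x => by
    have n : ∀ᶠ a in 𝓝 (zh l e), (γ a).1 (r l') ≠ 0 :=
      ((continuous_apply (r l')).continuousAt.comp a.continuousAt.fst).eventually_ne (by
        simpa [b] using h)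
    have e1 : (gt l' ∘ zh l') ∘ γ =ᶠ[𝓝 (zh l e)] sq ∘ γ := by
      filter_upwards [n, c] with a n c using hS _ c l' n
    have := e1.fderiv_eq (𝕜 := ℝ)
    rw [fderiv_comp _ ((dg ..).comp _ (dz ..)) a, fderiv_comp _ (ds _) a, b,
      fderiv_comp _ (dg ..) (dz ..)] at this
    exact congr($this x)
  have sec : ∀ l (γ : ℂ → (I → ℝ) × ℝ), DifferentiableAt ℝ γ (zh l e) →
      γ (zh l e) = e → (∀ᶠ a in 𝓝 (zh l e), zh l (γ a) = a) → ∀ a,
      fderiv ℝ (zh l) e (fderiv ℝ γ (zh l e) a) = a := fun l γ a b c x => by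
    have := EventuallyEq.fderiv_eq (𝕜 := ℝ) (f₁ := zh l ∘ γ) (f := id) c
    rw [fderiv_comp _ (dz ..) a, b, fderiv_id] at this
    exact congr($this x)
  obtain ⟨γ, g1, g2, g3, g4⟩ := hγ l0 h0
  set D := fderiv ℝ γ (zh l0 e)
  have inj : Injective D := LeftInverse.injective (sec l0 γ g1 g2 (g3.mono fun _ h => h.2))
  suffices (fderiv ℝ (vv r zh gt) e).ker = D.range by
    rw [this, LinearMap.finrank_range_of_inj inj, finrank_real_complex]
  have dv : HasFDerivAt (vv r zh gt) (∑ l, e.1 (r l) ^ 2 • (fderiv ℝ sq e -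
      (fderiv ℝ (gt l) (zh l e)).comp (fderiv ℝ (zh l) e))) e := by
    refine HasFDerivAt.fun_sum fun l _ => ?_
    have d : HasFDerivAt (fun x : (I → ℝ) × ℝ => x.1 (r l)) _ e :=
      (hasFDerivAt_apply (𝕜 := ℝ) (r l) e.1).comp e hasFDerivAt_fst
    refine ((d.pow 2).smul ((ds e).hasFDerivAt.sub
      ((dg ..).hasFDerivAt.comp e (dz ..).hasFDerivAt))).congr_fderiv ?_
    by_cases a : e.1 (r l) = 0
    · simp [a]
    · simp [hS e he l a]
  rw [dv.fderiv]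
  ext u
  simp only [LinearMap.mem_ker, LinearMap.mem_range, ContinuousLinearMap.coe_coe,
    sum_apply, smul_apply, sub_apply,
    ContinuousLinearMap.comp_apply]
  constructor
  · intro h
    have k : ∀ l, ∃ a, e.1 (r l) ^ 2 • fderiv ℝ (gt l) (zh l e) (fderiv ℝ (zh l) e u) =
        e.1 (r l) ^ 2 • fderiv ℝ sq e (D a) := fun l => by
      by_cases a : e.1 (r l) = 0
      · simp [a]
      obtain ⟨γ', k1, k2, k3, -⟩ := hγ l a
      have m1 := key l l a γ' k1 k2 (k3.mono fun _ h => h.1)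
      have m2 := key l l0 h0 γ' k1 k2 (k3.mono fun _ h => h.1)
      have m3 := key l0 l0 h0 γ g1 g2 (g3.mono fun _ h => h.1)
      simp only [sec l γ' k1 k2 (k3.mono fun _ h => h.2)] at m1
      simp only [sec l0 γ g1 g2 (g3.mono fun _ h => h.2)] at m3
      exact ⟨_, by rw [m1, ← m2, m3]⟩
    choose a ha using k
    have p : 0 < ∑ l, e.1 (r l) ^ 2 :=
      Finset.sum_pos' (fun _ _ => sq_nonneg _) ⟨l0, Finset.mem_univ _, by positivity⟩
    set c := ∑ l, e.1 (r l) ^ 2 with hc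
    have : fderiv ℝ sq e (u - D (c⁻¹ • ∑ l, e.1 (r l) ^ 2 • a l)) = 0 := by
      simp only [smul_sub, ha, Finset.sum_sub_distrib, ← Finset.sum_smul, ← hc] at h
      simp only [map_sub, map_smul, map_sum]
      rw [← sub_eq_zero.1 h, smul_smul, inv_mul_cancel₀ p.ne', one_smul, sub_self]
    obtain ⟨q1, q2⟩ := sq_ker this
    generalize c⁻¹ • ∑ l, e.1 (r l) ^ 2 • a l = b at q1 q2
    rcases mul_eq_zero.1 q2 with q | q
    · obtain ⟨a0, s1, s2⟩ := g4 q
      have s3 : (D a0).2 ≠ 0 := fun s => s2 (inj (by rw [map_zero]; exact Prod.ext s1 s))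
      refine ⟨b + ((u - D b).2 / (D a0).2) • a0, ?_⟩
      rw [D.map_add, D.map_smul]
      refine Prod.ext ?_ ?_
      · simpa [s1] using (sub_eq_zero.1 q1).symm
      · simp [s3]
    · exact ⟨b, (sub_eq_zero.1 (Prod.ext q1 q)).symm⟩
  · rintro ⟨a, rfl⟩
    refine Finset.sum_eq_zero fun l _ => ?_
    by_cases h : e.1 (r l) = 0
    · simp [h]
    · rw [key l0 l h γ g1 g2 (g3.mono fun _ h => h.1), sub_self, smul_zero]

end

end Pool.Agent.Lib.MP_78bd4b_ag.DJ
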