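import Pool.Agent.Lib.MP_78bd4b_ag.Data2
import Pool.Agent.Lib.MP_78bd4b_ag.Data3

/-! The global sections. -/

noncomputable section

namespace Pool.Agent.Lib.MP_78bd4b_ag.DJ

open Complex Filter Function Set
open scoped Manifold ContDiff Topology Real ComplexConjugate

variable {M : Type*} [TopologicalSpace M] [ChartedSpace (EuclideanSpace ℝ (Fin 3)) M]
  (A : Atl M)

/-- the equation of the mirror -/
def κ (l : Fin A.n) (w : ℂ) : ℝ := if A.kl l then w.im else 1

/-- the equation of the core -/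
def lam (l : Fin A.n) (w : ℂ) : ℂ := if A.kl l then 1 else w

/-- the orders -/
def pp (t : Option (Fin A.n)) : ℕ := t.elim 1 fun l => if A.kl l then 1 else A.P l

/-- the twists -/
def kk (t : Option (Fin A.n)) : ℕ := t.elim 1 fun l => if A.kl l then 0 else A.k l

open Classical in
/-- division by the equation of the mirror -/
def flat (l : Fin A.n) (f : ℂ → ℂ) : ℂ → ℂ :=
  if h : ∃ g, ContDiff ℝ ∞ g ∧ ∀ w, f w = κ A l w * g w then h.choose else 0

variable {A} {l l' j : Fin A.n} {w w' : ℂ} {ε θ : ℝ}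

theorem κ_cd (l : Fin A.n) : ContDiff ℝ ∞ (κ A l) := by
  unfold κ; split_ifs
  · exact imCLM.contDiff
  · exact contDiff_const

theorem lam_cd (l : Fin A.n) : ContDiff ℝ ∞ (lam A l) := by
  unfold lam; split_ifs
  · exact contDiff_const
  · exact contDiff_id

theorem lam_eq_zero (h : lam A l w = 0) : A.kl l = false ∧ w = 0 := by
  unfold lam at h; split_ifs at h with e
  · simp at h
  · exact ⟨by simpa using e, h⟩

theorem flat_spec {f : ℂ → ℂ} (hf : ContDiff ℝ ∞ f) (h : A.kl l = true → ∀ w, w.im = 0 → f w = 0) :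
    ContDiff ℝ ∞ (flat A l f) ∧ ∀ w, f w = κ A l w * flat A l f w := by
  have : ∃ g, ContDiff ℝ ∞ g ∧ ∀ w, f w = κ A l w * g w := by
    unfold κ; split_ifs with e
    · exact had hf (h e)
    · exact ⟨f, hf, by simp⟩
  rw [flat, dif_pos this]
  exact this.choose_spec

theorem ζ_pow (l : Fin A.n) (m : ℤ) : (A.ζ l ^ m) ^ A.k l = ex (2 * π * m / A.P l) := by
  rw [← zpow_natCast, ← zpow_mul, mul_comm, zpow_mul, zpow_natCast, A.ζk, ← exp_int_mul, ex]
  congr 1
  push_cast
  ring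

theorem ex_pi (m : ℤ) : ex (π * m) = if Even m then 1 else -1 := by
  have : ex (π * m) = (-1) ^ m := by
    rw [← exp_pi_mul_I, ← exp_int_mul, ex]
    congr 1
    push_cast
    ring
  rw [this]
  split_ifs with h
  · exact h.neg_one_zpow
  · exact (Int.not_even_iff_odd.1 h).neg_one_zpow

theorem R.half (h : A.kl l = true) (e : w.im = 0) : R A l w l w 1 π := by
  have := R.deck l 1 w
  rw [dk, if_pos h, if_neg (by decide), conj_eq_iff_im.2 e, A.P2 l h] at this
  convert this using 1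
  simp

theorem Sec.van {s : Fin A.n → ℂ → ℂ} (hs : Sec A 1 s) (h : A.kl l = true) (w : ℂ) (e : w.im = 0) :
    s l w = 0 := by
  have := hs (R.half h e)
  simp only [cr_one, ex, Nat.cast_one, one_mul, exp_pi_mul_I] at this
  linear_combination this / 2

theorem R.core (h : A.kl l = true) (e : w.im = 0) (hj : A.kl j = false) (r : R A l w j w' ε θ) :
    w' = 0 := by
  obtain ⟨-, m, a, b⟩ := r.uniq ((R.half h e).trans r)
  have c := ζ_pow j m
  rw [show 2 * π * m / A.P j = ε * π by linarith, ← r.1.cr_ex, ex, exp_pi_mul_I, map_neg,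
    map_one] at c
  by_contra n
  rw [dk, hj, if_neg (by simp), eq_comm, mul_eq_right₀ n] at b
  rw [b] at c
  norm_num at c

theorem no_rel (h : A.kl l = true) (e : w.im = 0) (hj : A.kl j = false) : ¬R A l w j w' ε θ := by
  intro r
  obtain ⟨τ, χ, -, -, -, -, d⟩ := r.nhds
  have t : Tendsto (fun s : ℝ => w + s) (𝓝[≠] 0) (𝓝 w) :=
    tendsto_nhdsWithin_of_tendsto_nhds
      (Continuous.tendsto' (by fun_prop) _ _ (by simp))
  obtain ⟨s, a, b⟩ := ((t.eventually d).and self_mem_nhdsWithin).exists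
  have c := R.core h (by simp [e]) hj a
  rw [c, ← r.core h e hj] at a
  obtain ⟨-, m, -, f⟩ := (r.trans a.symm).same
  rw [dk, if_pos h, conj_eq_iff_im.2 e, ite_self] at f
  exact b (by simpa using f)

theorem lam_dk (j : Fin A.n) : Dk A j fun w => lam A j w ^ pp A (some j) := fun m w => by
  unfold lam pp dk
  split_ifs with h <;> simp [h, mul_pow]
  rw [← zpow_natCast (A.ζ j ^ m), ← zpow_mul, mul_comm m, zpow_mul, zpow_natCast, A.ζP, one_zpow,
    one_mul]

theorem lam_norm (j : Fin A.n) : Dk A j fun w => normSq (lam A j w) := fun m w => by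
  unfold lam
  split_ifs <;> simp [normSq_eq_norm_sq, dk_norm]

variable (p : Pou A)

/-- the active points -/
def act (l : Fin A.n) : Set ℂ := {w | p.ρ l l w ≠ 0}

/-- sections of weight one -/
def α (j : Fin A.n) (c : ℂ) : Fin A.n → ℂ → ℂ :=
  ext A 1 j fun w => p.b j j w * (c * κ A j w * conj (lam A j w) ^ kk A (some j))

/-- odd functions -/
def oo (l : Fin A.n) (w : ℂ) (j : Fin A.n) : ℝ := (ext A 0 j (fun w => p.ρ j j w * I) l w).im

def aa (j : Fin A.n) : Fin A.n → ℂ → ℂ :=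
  ext A 0 j fun w => p.ρ j j w * lam A j w ^ pp A (some j)

def cc (j l : Fin A.n) (w : ℂ) : ℝ :=
  1 + exr A j (fun w => p.b j j w * (normSq (lam A j w) - 1)) l w

def bb (j l : Fin A.n) (w : ℂ) : ℂ := if A.kl j then α p j 1 l w else p.b j l w

def Q (l : Fin A.n) (w : ℂ) : ℝ := 1 + ∑ j ∈ Finset.univ.erase l, normSq (flat A l (bb p j l) w)

def yy (l : Fin A.n) (w : ℂ) : ℝ := κ A l w * √(Q p l w)

/-- only one chart is used -/
def Lone (l : Fin A.n) (w : ℂ) : Prop := ∀ j ≠ l, p.b j l w = 0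

variable {p}

theorem act_open (l : Fin A.n) : IsOpen (act p l) := isOpen_ne_fun (p.ρs l l).continuous continuous_const

theorem ρ_zero (h : p.b j l w = 0) : p.ρ j l w = 0 := by
  by_contra e
  simp [p.one j l w e] at h

theorem exists_act (p : Pou A) (l : Fin A.n) (w : ℂ) :
    ∃ l' w' ε θ, w' ∈ act p l' ∧ R A l w l' w' ε θ := by
  obtain ⟨j, -, h⟩ := Finset.exists_ne_zero_of_sum_ne_zero ((p.sum l w).trans_ne one_ne_zero)
  have h := (pow_ne_zero_iff two_ne_zero).1 h
  obtain ⟨w', ε, θ, r⟩ := p.loc j l w (p.one j l w h ▸ one_ne_zero)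
  exact ⟨j, w', ε, θ, fun e => h ((p.ρi j r).trans e), r⟩

theorem lone_ev (h : A.kl l = false) (h0 : p.b l l 0 ≠ 0) : ∀ᶠ w in 𝓝 0, Lone p l w :=
  (p.core l h).resolve_left fun e => h0 e.self_of_nhds

theorem act_b (h : w ∈ act p l) : p.b l l w = 1 := p.one _ _ _ h

theorem Lone.ρ (h : Lone p l w) : p.ρ l l w = 1 := by
  have := p.sum l w
  rw [Finset.sum_eq_single l (fun j _ e => by simp [ρ_zero (h j e)]) (by simp)] at this
  exact (pow_eq_one_iff_of_nonneg (p.ρ0 ..) two_ne_zero).1 this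

theorem Lone.b (h : Lone p l w) (e : j ≠ l) (r : R A l w j w' ε θ) : p.b j j w' = 0 :=
  (p.bi j r).symm.trans (h j e)

theorem α_eqv (p : Pou A) (j : Fin A.n) (c : ℂ) :
    Eqv A 1 j fun w => p.b j j w * (c * κ A j w * conj (lam A j w) ^ kk A (some j)) := fun m w => by
  simp only [(p.bi j).dk j m w, Nat.cast_one, one_mul]
  unfold κ lam kk dk
  by_cases h : A.kl j = true
  · rw [A.P2 j h, show 2 * π * m / (2 : ℕ) = π * m by push_cast; ring, ex_pi]
    simp only [h, if_true]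
    split_ifs <;> simp
  · have : ex (2 * π * m / A.P j) * conj (A.ζ j ^ m) ^ A.k j = 1 := by
      rw [← map_pow, ζ_pow, conj_ex, ← ex_add, add_neg_cancel, ex_zero]
    simp only [h, Option.elim, if_false, Bool.false_eq_true, map_mul, mul_pow,
      ofReal_one]
    linear_combination (-(p.b j j w : ℂ) * c * conj w ^ A.k j) * this

theorem α_sec (p : Pou A) (j : Fin A.n) (c : ℂ) : Sec A 1 (α p j c) := ext_sec (α_eqv p j c)

theorem α_self (h : w ∈ act p l) (c : ℂ) :
    α p l c l w = c * κ A l w * conj (lam A l w) ^ kk A (some l) := by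
  simp [α, ext_self (α_eqv p l c), act_b h]

theorem Lone.α (h : Lone p l w) (e : j ≠ l) (c : ℂ) : α p j c l w = 0 :=
  ext_zero (α_eqv p j c) fun _ _ _ r => by simp [h.b e r]

theorem oo_eqv (p : Pou A) (j : Fin A.n) : Eqv A 0 j fun w => p.ρ j j w * I :=
  Dk.eqv fun m w => by simp only [(p.ρi j).dk j m w]

theorem oo_rel (r : R A l w l' w' ε θ) : oo p l w = ε • oo p l' w' := funext fun j => by
  simp [oo, ext_sec (oo_eqv p j) r, r.1.cr_im, ex_zero]

theorem oo_self (p : Pou A) (l : Fin A.n) (w : ℂ) : oo p l w l = p.ρ l l w := by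
  simp [oo, ext_self (oo_eqv p l)]

theorem oo_sq (p : Pou A) (l : Fin A.n) (w : ℂ) (j : Fin A.n) :
    oo p l w j * oo p l w j = p.ρ j l w ^ 2 := by
  by_cases e : ∃ w' ε θ, R A l w j w' ε θ
  · obtain ⟨w', ε, θ, r⟩ := e
    rw [oo_rel r, p.ρi j r, Pi.smul_apply, oo_self, smul_eq_mul]
    linear_combination p.ρ j j w' ^ 2 * r.1.sq
  · simp [oo, ext_no e, ρ_zero (by_contra fun h => e (p.loc _ _ _ h))]

theorem Lone.oo (h : Lone p l w) : oo p l w = Pi.single l 1 := funext fun j => by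
  rcases eq_or_ne j l with rfl | e
  · simp [oo_self, h.ρ]
  · simpa [e, ρ_zero (h j e)] using oo_sq p l w j

theorem aa_eqv (p : Pou A) (j : Fin A.n) :
    Eqv A 0 j fun w => p.ρ j j w * lam A j w ^ pp A (some j) :=
  Dk.eqv fun m w => by simp only [(p.ρi j).dk j m w, lam_dk j m w]

theorem Lone.aa (h : Lone p l w) (e : j ≠ l) : aa p j l w = 0 :=
  ext_zero (aa_eqv p j) fun _ _ _ r => by simp [ρ_zero (h.b e r)]

theorem cc_dk (p : Pou A) (j : Fin A.n) : Dk A j fun w => p.b j j w * (normSq (lam A j w) - 1) :=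
  fun m w => by simp only [(p.bi j).dk j m w, lam_norm j m w]

theorem cc_inv (p : Pou A) (j : Fin A.n) : Inv A (cc p j) := fun _ _ _ _ _ _ r => by
  simp only [cc, exr_inv (cc_dk p j) r]

theorem cc_self (h : w ∈ act p l) : cc p l l w = normSq (lam A l w) := by
  simp [cc, exr_eq (cc_dk p l) (.refl l w), act_b h]

theorem Lone.cc (h : Lone p l w) (e : j ≠ l) : cc p j l w = 1 := by
  rw [DJ.cc, exr_zero (cc_dk p j) fun _ _ _ r => by simp [h.b e r], add_zero]

theorem cc_pos (h : w ∈ act p l) (e : j ≠ l) : 0 < cc p j l w := by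
  by_cases n : ∃ w' ε θ, R A l w j w' ε θ
  · obtain ⟨w', ε, θ, r⟩ := n
    rw [cc, exr_eq (cc_dk p j) r]
    rcases (p.b0 j j w').eq_or_lt with a | a
    · simp [← a]
    have c : lam A j w' ≠ 0 := fun c => by
      obtain ⟨d, rfl⟩ := lam_eq_zero c
      exact h (ρ_zero ((p.bi l r).trans ((lone_ev d a.ne').self_of_nhds l e.symm)))
    nlinarith [p.b1 j j w', mul_pos a (normSq_pos.2 c)]
  · rw [cc, exr_zero (cc_dk p j) fun _ _ _ r => absurd ⟨_, _, _, r⟩ n]
    simp

theorem bb_inv (p : Pou A) (j : Fin A.n) : Inv A fun l w => normSq (bb p j l w) :=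
  fun _ _ _ _ _ _ r => by
  unfold bb; split_ifs
  · simp [α_sec p j 1 r, normSq_eq_norm_sq, ex_norm, cr_norm]
  · simp only [p.bi j r]

theorem bb_self (h : w ∈ act p l) : bb p l l w = κ A l w := by
  unfold bb; split_ifs with e
  · simp [α_self h, kk, e]
  · simp [act_b h, κ, e]

theorem Q_one (p : Pou A) (l : Fin A.n) (w : ℂ) : 1 ≤ Q p l w :=
  le_add_of_nonneg_right (Finset.sum_nonneg fun _ _ => normSq_nonneg _)

theorem Q_pos (p : Pou A) (l : Fin A.n) (w : ℂ) : 0 < √(Q p l w) :=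
  Real.sqrt_pos.2 (one_pos.trans_le (Q_one p l w))

variable [T2Space M]

theorem α_cd (p : Pou A) (j : Fin A.n) (c : ℂ) (l : Fin A.n) : ContDiff ℝ ∞ (α p j c l) :=
  ext_cd (α_eqv p j c) ((ofRealCLM.contDiff.comp (p.bs j j)).mul ((contDiff_const.mul
    (ofRealCLM.contDiff.comp (κ_cd j))).mul ((conjCLE.contDiff.comp (lam_cd j)).pow _)))
    (fun w h => by simp [p.supp j w h]) l

theorem oo_cd (p : Pou A) (l : Fin A.n) : ContDiff ℝ ∞ (oo p l) := contDiff_pi.2 fun j =>
  imCLM.contDiff.comp (ext_cd (oo_eqv p j) ((ofRealCLM.contDiff.comp (p.ρs j j)).mul contDiff_const)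
    (fun w h => by simp [ρ_zero (p.supp j w h)]) l)

theorem aa_cd (p : Pou A) (j l : Fin A.n) : ContDiff ℝ ∞ (aa p j l) :=
  ext_cd (aa_eqv p j) ((ofRealCLM.contDiff.comp (p.ρs j j)).mul ((lam_cd j).pow _))
    (fun w h => by simp [ρ_zero (p.supp j w h)]) l

theorem normSq_cd : ContDiff ℝ ∞ normSq := by
  simpa only [← normSq_eq_norm_sq] using contDiff_norm_sq ℝ (E := ℂ) (n := ∞)

theorem cc_cd (p : Pou A) (j l : Fin A.n) : ContDiff ℝ ∞ (cc p j l) :=
  contDiff_const.add (exr_cd (cc_dk p j) ((p.bs j j).mul ((normSq_cd.comp (lam_cd j)).sub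
    contDiff_const)) (fun w h => by simp [p.supp j w h]) l)

theorem α_flat (p : Pou A) (j : Fin A.n) (c : ℂ) (l : Fin A.n) :
    ContDiff ℝ ∞ (flat A l (α p j c l)) ∧ ∀ w, α p j c l w = κ A l w * flat A l (α p j c l) w :=
  flat_spec (α_cd p j c l) (α_sec p j c).van

theorem bb_flat (p : Pou A) (j l : Fin A.n) :
    ContDiff ℝ ∞ (flat A l (bb p j l)) ∧ ∀ w, bb p j l w = κ A l w * flat A l (bb p j l) w := by
  unfold bb; split_ifs with e
  · exact α_flat p j 1 l
  · refine flat_spec (ofRealCLM.contDiff.comp (p.bs j l)) fun h w i => ofReal_eq_zero.2 ?_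
    by_contra n
    obtain ⟨_, _, _, r⟩ := p.loc _ _ _ n
    exact no_rel h i (by simpa using e) r

theorem Q_cd (p : Pou A) (l : Fin A.n) : ContDiff ℝ ∞ fun w => √(Q p l w) :=
  ContDiff.sqrt (contDiff_const.add (ContDiff.sum fun j _ => normSq_cd.comp (bb_flat p j l).1))
    fun w => (one_pos.trans_le (Q_one p l w)).ne'

theorem yy_cd (p : Pou A) (l : Fin A.n) : ContDiff ℝ ∞ (yy p l) := (κ_cd l).mul (Q_cd p l)

theorem κ_Q (p : Pou A) (l : Fin A.n) (w : ℂ) : κ A l w ^ 2 * Q p l w =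
    κ A l w ^ 2 + ∑ j ∈ Finset.univ.erase l, normSq (bb p j l w) := by
  rw [Q, mul_add, mul_one, Finset.mul_sum]
  refine congrArg _ (Finset.sum_congr rfl fun j _ => ?_)
  rw [(bb_flat p j l).2 w, normSq_mul, normSq_ofReal, pow_two]

theorem yy_sq (h : w ∈ act p l) : yy p l w ^ 2 = ∑ j, normSq (bb p j l w) := by
  rw [yy, mul_pow, Real.sq_sqrt (zero_le_one.trans (Q_one ..)), κ_Q,
    ← Finset.add_sum_erase _ _ (Finset.mem_univ l), bb_self h, normSq_ofReal, pow_two]

theorem Q_dk (p : Pou A) (l : Fin A.n) : Dk A l (Q p l) := fun m w => by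
  have k : κ A l (dk A l m w) ^ 2 = κ A l w ^ 2 := by
    unfold κ dk; split_ifs <;> simp
  by_cases h : κ A l w = 0
  · unfold κ dk at *
    split_ifs at h ⊢ <;> simp_all [conj_eq_iff_im.2]
  · apply mul_left_cancel₀ (pow_ne_zero 2 h)
    rw [κ_Q, ← k, κ_Q]
    exact congrArg _ (Finset.sum_congr rfl fun j _ => (bb_inv p j).dk l m w)

theorem Lone.Q (h : Lone p l w) (e : A.kl l = false) : Q p l w = 1 := by
  have := κ_Q p l w
  rw [Finset.sum_eq_zero fun j hj => by
    have n := Finset.ne_of_mem_erase hj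
    simp [bb, h.α n, h j n]] at this
  simpa [κ, e] using this

end Pool.Agent.Lib.MP_78bd4b_ag.DJ
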