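import Pool.Agent.Lib.MP_78bd4b_ag.Data4

/-! The local coordinates and their transition rules. -/

noncomputable section

namespace Pool.Agent.Lib.MP_78bd4b_ag.DJ

open Complex Filter Function Set
open scoped Manifold ContDiff Topology Real ComplexConjugate

theorem gauge_alg {L : Type} [Fintype L] (ε τ : ℝ) (p k : L → ℕ) {y y' : ℝ} (hy : y ≠ 0)
    (e : y ^ 2 = y' ^ 2) {z z' g g' : L → ℂ} (hz : ∀ j, z j ≠ 0)
    (n : ∀ j, normSq (z j) = normSq (z' j))
    (a : ∀ j, z j ^ p j * g j = cr ε (z' j ^ p j * g' j)) :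
    ∃ (η : ℝ) (u : L → ℂ), Sg η ∧ (∀ j, ‖u j‖ = 1) ∧ y = η * y' ∧
      (∀ j, z j = cr ε (u j * z' j) ∧ g j = cr ε (conj (u j) ^ p j * g' j)) ∧
      ∀ G G' : ℂ, G * (y * ∏ j, conj (z j) ^ k j) =
        cr ε (ex τ * (G' * (y' * ∏ j, conj (z' j) ^ k j))) →
          G = cr ε (η * ex τ * (∏ j, u j ^ k j) * G') := by
  obtain ⟨η, h1, h2⟩ : ∃ η, Sg η ∧ y = η * y' := by
    rcases sq_eq_sq_iff_eq_or_eq_neg.1 e with e | e
    · exact ⟨1, .inl rfl, by simpa⟩
    · exact ⟨-1, .inr rfl, by simpa⟩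
  have hz' : ∀ j, z' j ≠ 0 := fun j => by simpa [← normSq_pos, ← n j] using hz j
  obtain ⟨u, hu⟩ : ∃ u : L → ℂ, ∀ j, cr ε (z j) = u j * z' j :=
    ⟨fun j => cr ε (z j) / z' j, fun j => by field_simp [hz' j]⟩
  have un : ∀ j, ‖u j‖ = 1 := fun j => by
    have := congrArg normSq (hu j)
    rw [cr_normSq, normSq_mul, n j, eq_comm, mul_eq_right₀ (normSq_pos.2 (hz' j)).ne',
      normSq_eq_norm_sq] at this
    exact (pow_eq_one_iff_of_nonneg (norm_nonneg _) two_ne_zero).1 this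
  have uu : ∀ j, conj (u j) * u j = 1 := fun j => by simp [conj_mul', un j]
  refine ⟨η, u, h1, un, h2, fun j => ⟨by rw [← hu, cr_cr], ?_⟩, fun G G' h => ?_⟩
  · have := congrArg (cr ε) (a j)
    rw [cr_cr, map_mul, map_pow, hu, mul_pow, mul_comm (u j ^ _), mul_assoc,
      mul_right_inj' (pow_ne_zero _ (hz' j))] at this
    rw [← this, ← mul_assoc, ← mul_pow, uu, one_pow, one_mul, cr_cr]
  · have := congrArg (cr ε) h
    simp only [cr_cr, map_mul, map_prod, map_pow, cr_real, cr_conj, hu, mul_pow,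
      Finset.prod_mul_distrib] at this
    have b : (∏ j, conj (u j) ^ k j) * ∏ j, u j ^ k j = 1 := by
      simp [← Finset.prod_mul_distrib, ← mul_pow, uu]
    have c : (η : ℂ) * η = 1 := by exact_mod_cast h1.sq
    have d : (y' : ℂ) * ∏ j, conj (z' j) ^ k j ≠ 0 :=
      mul_ne_zero (ofReal_ne_zero.2 fun h => hy (by simp [h2, h]))
        (Finset.prod_ne_zero_iff.2 fun j _ => pow_ne_zero _ (by simpa using hz' j))
    rw [← cr_cr ε G]
    congr 1
    apply mul_right_cancel₀ d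
    rw [h2, ofReal_mul] at this
    linear_combination (η * ∏ j, u j ^ k j) * this -
      (cr ε G * y' * ∏ j, conj (z' j) ^ k j) * (η * η * b + c)

variable {M : Type*} [TopologicalSpace M] [ChartedSpace (EuclideanSpace ℝ (Fin 3)) M]
  {A : Atl M} (p : Pou A)

def zz (l : Fin A.n) (w : ℂ) (j : Fin A.n) : ℂ := if j = l then lam A l w else √(cc p j l w)

def gg (l : Fin A.n) (w : ℂ) (j : Fin A.n) : ℂ :=
  if j = l then p.ρ l l w else aa p j l w / zz p l w j ^ pp A (some j)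

def WW (l j : Fin A.n) (c w : ℂ) : ℂ := flat A l (α p j c l) w / conj (lam A l w) ^ kk A (some l)

def ZZ (l : Fin A.n) (t : Fin A.n → ℂ) (w : ℂ) : ℂ :=
  t l + ∑ j ∈ Finset.univ.erase l, ((t j).re * WW p l j 1 w + (t j).im * WW p l j I w)

def SS (t : Fin A.n → ℂ) (l : Fin A.n) (w : ℂ) : ℂ :=
  ∑ j, ((t j).re * α p j 1 l w + (t j).im * α p j I l w)

def NN (l : Fin A.n) (w : ℂ) : ℂ :=
  √(Q p l w) * ∏ j ∈ Finset.univ.erase l, conj (zz p l w j) ^ kk A (some j)

def zf (t : Fin A.n → ℂ) (l : Fin A.n) (w : ℂ) (s : Option (Fin A.n)) : ℂ :=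
  s.elim (conj (ZZ p l t w / NN p l w)) (zz p l w)

def gf (t : Fin A.n → ℂ) (l : Fin A.n) (w : ℂ) (s : Option (Fin A.n)) : ℂ :=
  s.elim (ZZ p l t w / NN p l w) (gg p l w)

/-- the transition rule -/
def Gg (t t' : Fin A.n → ℂ) (l : Fin A.n) (w : ℂ) (l' : Fin A.n) (w' : ℂ) (ε τ : ℝ) : Prop :=
  ∃ (η : ℝ) (u : Option (Fin A.n) → ℂ), Sg η ∧ (∀ s, ‖u s‖ = 1) ∧ yy p l w = η * yy p l' w' ∧
    (∀ s, zf p t l w s = cr ε (u s * zf p t l' w' s) ∧
      gf p t' l w s = cr ε (conj (u s) ^ pp A s * gf p t' l' w' s)) ∧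
    η * (∏ s, u s ^ kk A s) * ex τ = 1

variable {p} {l l' j : Fin A.n} {w w' : ℂ} {ε θ : ℝ} {t t' : Fin A.n → ℂ}

theorem zz_ne (h : w ∈ act p l) (e : j ≠ l) : zz p l w j ≠ 0 := by
  simp [zz, e, Real.sqrt_ne_zero'.2 (cc_pos h e)]

theorem zz_norm (h : w ∈ act p l) (j : Fin A.n) : normSq (zz p l w j) = cc p j l w := by
  unfold zz; split_ifs with e
  · rw [e, cc_self h]
  · rw [normSq_ofReal, Real.mul_self_sqrt (cc_pos h e).le]

theorem zz_gg (h : w ∈ act p l) (j : Fin A.n) :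
    zz p l w j ^ pp A (some j) * gg p l w j = aa p j l w := by
  unfold gg; split_ifs with e
  · rw [e, zz, if_pos rfl, aa, ext_self (aa_eqv p l), mul_comm]
  · field_simp [zz_ne h e]

theorem NN_ne (h : w ∈ act p l) : NN p l w ≠ 0 :=
  mul_ne_zero (ofReal_ne_zero.2 (Q_pos p l w).ne') (Finset.prod_ne_zero_iff.2 fun _ e =>
    pow_ne_zero _ (by simpa using zz_ne h (Finset.ne_of_mem_erase e)))

theorem SS_sec (p : Pou A) (t : Fin A.n → ℂ) : Sec A 1 (SS p t) := fun _ _ _ _ _ _ r => by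
  simp only [SS, α_sec p _ _ r, Finset.mul_sum, map_sum, mul_add, map_add, map_mul, cr_real,
    mul_left_comm]

variable [T2Space M]

theorem Lone.WW (h : Lone p l w) (e : A.kl l = false) (n : j ≠ l) (c : ℂ) : WW p l j c w = 0 := by
  have := (α_flat p j c l).2 w
  rw [h.α n] at this
  simp only [κ, e, Bool.false_eq_true, if_false, ofReal_one, one_mul] at this
  rw [DJ.WW, ← this, zero_div]

theorem Lone.zf (h : Lone p l w) (e : A.kl l = false) (t : Fin A.n → ℂ) (s : Option (Fin A.n)) :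
    zf p t l w s = (if s = some l then w else if s = none then conj (t l) else 1) ∧
    gf p t l w s = if s = some l then 1 else if s = none then t l else 0 := by
  have z : ∀ j ≠ l, zz p l w j = 1 := fun j n => by simp [zz, n, h.cc n]
  cases s with
  | none =>
    have a : NN p l w = 1 := by
      rw [NN, Finset.prod_eq_one fun j n => by simp [z j (Finset.ne_of_mem_erase n)], h.Q e]
      simp
    have b : ZZ p l t w = t l := by
      rw [ZZ, Finset.sum_eq_zero fun j n => by simp [h.WW e (Finset.ne_of_mem_erase n)], add_zero]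
    simp [DJ.zf, gf, a, b]
  | some j =>
    rcases eq_or_ne j l with rfl | n
    · simp [DJ.zf, gf, zz, gg, lam, e, h.ρ]
    · simp [DJ.zf, gf, z j n, gg, n, h.aa n]

theorem zz_cd (h : w ∈ act p l) (j : Fin A.n) : ContDiffAt ℝ ∞ (zz p l · j) w := by
  unfold zz; split_ifs with e
  · exact (lam_cd l).contDiffAt
  · exact ofRealCLM.contDiff.contDiffAt.comp w ((cc_cd p j l).contDiffAt.sqrt (cc_pos h e).ne')

theorem cd_div {E : Type*} [NormedAddCommGroup E] [NormedSpace ℝ E] {f g : E → ℂ} {x : E}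
    (hf : ContDiffAt ℝ ∞ f x) (hg : ContDiffAt ℝ ∞ g x) (h : g x ≠ 0) :
    ContDiffAt ℝ ∞ (fun x => f x / g x) x := by
  simp only [div_eq_mul_inv]
  exact hf.mul (hg.inv h)

theorem gg_cd (h : w ∈ act p l) (j : Fin A.n) : ContDiffAt ℝ ∞ (gg p l · j) w := by
  unfold gg; split_ifs with e
  · exact (ofRealCLM.contDiff.comp (p.ρs l l)).contDiffAt
  · exact cd_div (aa_cd p j l).contDiffAt ((zz_cd h j).pow _) (pow_ne_zero _ (zz_ne h e))

theorem WW_cd (h : w ∈ act p l) (n : j ≠ l) (c : ℂ) : ContDiffAt ℝ ∞ (WW p l j c) w := by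
  by_cases e : lam A l w = 0
  · obtain ⟨d, rfl⟩ := lam_eq_zero e
    exact (contDiffAt_const (c := 0)).congr_of_eventuallyEq
      ((lone_ev d (act_b h ▸ one_ne_zero)).mono fun w a => a.WW d n c)
  · exact cd_div (α_flat p j c l).1.contDiffAt ((conjCLE.contDiff.comp (lam_cd l)).pow _).contDiffAt
      (pow_ne_zero _ (by simpa using e))

theorem ZZ_cd {E : Type*} [NormedAddCommGroup E] [NormedSpace ℝ E] {T : E → Fin A.n → ℂ}
    {f : E → ℂ} {x : E} (hT : ContDiffAt ℝ ∞ T x) (hf : ContDiffAt ℝ ∞ f x) (h : f x ∈ act p l) :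
    ContDiffAt ℝ ∞ (fun x => ZZ p l (T x) (f x)) x := by
  have c := contDiffAt_pi.1 hT
  refine (c l).add (ContDiffAt.sum fun j n => ?_)
  have n := Finset.ne_of_mem_erase n
  exact (((ofRealCLM.comp reCLM).contDiff.contDiffAt.comp x (c j)).mul
    ((WW_cd h n 1).comp x hf)).add (((ofRealCLM.comp imCLM).contDiff.contDiffAt.comp x (c j)).mul
      ((WW_cd h n I).comp x hf))

theorem ZN_cd (h : w ∈ act p l) (t : Fin A.n → ℂ) :
    ContDiffAt ℝ ∞ (fun w => ZZ p l t w / NN p l w) w :=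
  cd_div (ZZ_cd contDiffAt_const contDiffAt_id h) ((ofRealCLM.contDiff.comp (Q_cd p l)).contDiffAt.mul
    (contDiffAt_prod fun j _ => (conjCLE.contDiff.contDiffAt.comp w (zz_cd h j)).pow _)) (NN_ne h)

theorem zf_cd (h : w ∈ act p l) (t : Fin A.n → ℂ) : ContDiffAt ℝ ∞ (zf p t l) w :=
  contDiffAt_pi.2 fun s => by
    cases s with
    | none => exact conjCLE.contDiff.contDiffAt.comp w (ZN_cd h t)
    | some j => exact zz_cd h j

theorem gf_cd (h : w ∈ act p l) (t : Fin A.n → ℂ) : ContDiffAt ℝ ∞ (gf p t l) w :=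
  contDiffAt_pi.2 fun s => by
    cases s with
    | none => exact ZN_cd h t
    | some j => exact gg_cd h j

theorem exists_tt (p : Pou A) : ∃ t t' : Fin A.n → ℂ, ∀ l, ∀ w ∈ act p l,
    ZZ p l t w ≠ 0 ∨ ZZ p l t' w ≠ 0 := by
  obtain ⟨⟨⟨t, t'⟩, c, c'⟩, h⟩ := avoid (E := ℂ × (Fin A.n → ℂ) × (Fin A.n → ℂ))
    (F := ((Fin A.n → ℂ) × (Fin A.n → ℂ)) × ℂ × ℂ)
    (by simp only [Module.finrank_prod, finrank_real_complex]; omega)
    (fun l x => ((x.2.1 - Pi.single l (ZZ p l x.2.1 x.1), x.2.2 - Pi.single l (ZZ p l x.2.2 x.1)),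
      x.2.1 l, x.2.2 l)) (fun l => {x | x.1 ∈ act p l}) fun l x hx => by
    refine ContDiffAt.of_le (n := ∞) ?_ (by simp)
    have s := contDiff_single (𝕜 := ℝ) (fun _ : Fin A.n => ℂ) ∞ l
    exact ((contDiffAt_snd.fst.sub (s.contDiffAt.comp x
      (ZZ_cd contDiffAt_snd.fst contDiffAt_fst hx))).prodMk (contDiffAt_snd.snd.sub
        (s.contDiffAt.comp x (ZZ_cd contDiffAt_snd.snd contDiffAt_fst hx)))).prodMk (by fun_prop)
  refine ⟨t, t', fun l w hw => by_contra fun e => ?_⟩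
  push Not at e
  have a : ∀ (t : Fin A.n → ℂ) d, ZZ p l (t + Pi.single l d) w = ZZ p l t w + d := fun t d => by
    rw [ZZ, ZZ, add_right_comm, Pi.add_apply, Pi.single_eq_same]
    exact congrArg _ (Finset.sum_congr rfl fun j n => by simp [Finset.ne_of_mem_erase n])
  exact h l (w, t + Pi.single l (c - t l), t' + Pi.single l (c' - t' l)) hw (by simp [a, e])

theorem ZN_eq (h : w ∈ act p l) (e : lam A l w ≠ 0) (t : Fin A.n → ℂ) :
    ZZ p l t w / NN p l w * (yy p l w * ∏ j, conj (zz p l w j) ^ kk A (some j)) = SS p t l w := by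
  have n := NN_ne h
  have c : conj (lam A l w) ^ kk A (some l) ≠ 0 := pow_ne_zero _ (by simpa using e)
  have : (yy p l w : ℂ) * ∏ j, conj (zz p l w j) ^ kk A (some j) =
      NN p l w * (κ A l w * conj (lam A l w) ^ kk A (some l)) := by
    rw [← Finset.mul_prod_erase _ _ (Finset.mem_univ l), NN, yy, zz, if_pos rfl]
    push_cast
    ring
  rw [this, ← mul_assoc, div_mul_cancel₀ _ n, ZZ, SS, ← Finset.add_sum_erase _ _ (Finset.mem_univ l),
    add_mul, Finset.sum_mul, α_self h, α_self h]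
  congr 1
  · linear_combination -(κ A l w * conj (lam A l w) ^ kk A (some l)) * re_add_im (t l)
  · refine Finset.sum_congr rfl fun j _ => ?_
    rw [(α_flat p j 1 l).2 w, (α_flat p j I l).2 w, WW, WW]
    field_simp

theorem yy_rel (h : w ∈ act p l) (h' : w' ∈ act p l') (r : R A l w l' w' ε θ) :
    yy p l w ^ 2 = yy p l' w' ^ 2 := by
  rw [yy_sq h, yy_sq h']
  exact Finset.sum_congr rfl fun j _ => bb_inv p j r

theorem gauge_gen (h : w ∈ act p l) (h' : w' ∈ act p l') (r : R A l w l' w' ε θ) (e : w.im ≠ 0) :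
    Gg p t t' l w l' w' ε θ := by
  have e1 : lam A l w ≠ 0 := fun a => e (by simp [(lam_eq_zero a).2])
  have e2 : ∀ j, zz p l w j ≠ 0 := fun j => by
    rcases eq_or_ne j l with rfl | n
    · simpa [zz]
    · exact zz_ne h n
  have e3 : ∀ j, normSq (zz p l w j) = normSq (zz p l' w' j) := fun j => by
    rw [zz_norm h, zz_norm h', cc_inv p j r]
  have e4 : lam A l' w' ≠ 0 := by
    have := normSq_pos.2 (e2 l')
    rw [e3, zz, if_pos rfl] at this
    exact normSq_pos.1 this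
  obtain ⟨η, u, a, b, c, d, f⟩ := gauge_alg ε θ (fun j => pp A (some j)) (fun j => kk A (some j))
    (mul_ne_zero (by unfold κ; split_ifs <;> simp [e]) (Q_pos p l w).ne') (yy_rel h h' r) e2 e3
    (g := gg p l w) (g' := gg p l' w') fun j => by
      simp [zz_gg h, zz_gg h', aa, ext_sec (aa_eqv p j) r, ex_zero]
  have k : ∀ t, ZZ p l t w / NN p l w = _ := fun t => f _ (ZZ p l' t w' / NN p l' w') (by
    have := SS_sec p t r
    rwa [← ZN_eq h e1, ← ZN_eq h' e4, Nat.cast_one, one_mul] at this)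
  have m : (η : ℂ) * η = 1 := by exact_mod_cast a.sq
  refine ⟨η, fun s => s.elim (conj (η * ex θ * ∏ j, u j ^ kk A (some j))) u, a, ?_, c, ?_, ?_⟩
  · rintro (_ | j)
    · rcases a with rfl | rfl <;> simp [ex_norm, b]
    · exact b j
  · rintro (_ | j)
    · simp only [zf, gf, pp, Option.elim, k, conj_conj, pow_one, ← cr_conj, ← map_mul, and_self]
    · exact d j
  · have q : (∏ j, conj (u j) ^ kk A (some j)) * ∏ j, u j ^ kk A (some j) = 1 := by
      simp [← Finset.prod_mul_distrib, ← mul_pow, conj_mul', b]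
    have s : conj (ex θ) * ex θ = 1 := by simp [conj_mul', ex_norm]
    simp only [Fintype.prod_option, Option.elim, map_mul, map_prod, map_pow, conj_ofReal,
      show kk A none = 1 from rfl, pow_one]
    linear_combination (conj (ex θ) * ex θ * η * η) * q + η * η * s + m

theorem gauge (h : w ∈ act p l) (h' : w' ∈ act p l') (r : R A l w l' w' ε θ) :
    Gg p t t' l w l' w' ε θ := by
  obtain ⟨τ, χ, a, b, rfl, rfl, c⟩ := r.nhds
  have a := a.continuousAt
  have b := b.continuousAt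
  have c1 : ∀ y : ℝ × (Option (Fin A.n) → ℂ), ContinuousAt (fun x => χ x.1) (w, y) := fun y =>
    b.comp_of_eq continuousAt_fst rfl
  obtain ⟨⟨η, u⟩, ⟨k1, k2⟩, k⟩ := lim_cpt (x0 := w) (((finite_singleton (-1 : ℝ)).insert
    1).isCompact.prod (isCompact_univ_pi fun _ : Option (Fin A.n) => isCompact_sphere (0 : ℂ) 1))
    (f := fun x => (yy p l x.1, zf p t l x.1, gf p t' l x.1, (1 : ℂ)))
    (g := fun x => (x.2.1 * yy p l' (χ x.1), fun s => cr ε (x.2.2 s * zf p t l' (χ x.1) s),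
      fun s => cr ε (conj (x.2.2 s) ^ pp A s * gf p t' l' (χ x.1) s),
      x.2.1 * (∏ s, x.2.2 s ^ kk A s) * ex (τ x.1)))
    (fun y => ((yy_cd p l).continuous.continuousAt.comp continuousAt_fst).prodMk
      (((zf_cd h t).continuousAt.comp_of_eq continuousAt_fst rfl).prodMk
      (((gf_cd h t').continuousAt.comp_of_eq continuousAt_fst rfl).prodMk continuousAt_const)))
    (fun y => (continuousAt_snd.fst.mul ((yy_cd p l').continuous.continuousAt.comp (c1 y))).prodMk
      ((continuousAt_pi.2 fun s => (cr_cd ε).continuous.continuousAt.comp (ContinuousAt.mul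
        (by fun_prop) (continuousAt_pi.1 ((zf_cd h' t).continuousAt.comp_of_eq (c1 y) rfl) s))).prodMk
      ((continuousAt_pi.2 fun s => (cr_cd ε).continuous.continuousAt.comp (ContinuousAt.mul
        (by fun_prop) (continuousAt_pi.1 ((gf_cd h' t').continuousAt.comp_of_eq (c1 y) rfl) s))).prodMk
      (ContinuousAt.mul (by fun_prop) (ex_cd.continuous.continuousAt.comp
        (a.comp_of_eq continuousAt_fst rfl))))))
    (((freq_im w).and_eventually (c.and (((act_open l).eventually_mem h).and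
      (b.eventually ((act_open l').mem_nhds h'))))).mono fun z ⟨e, r, h, h'⟩ => by
        obtain ⟨η, u, a, b, c, d, f⟩ := gauge_gen (t := t) (t' := t') h h' r e
        exact ⟨(η, u), ⟨a, fun s _ => by simpa using b s⟩, Prod.ext c (Prod.ext
          (funext fun s => (d s).1) (Prod.ext (funext fun s => (d s).2) f.symm))⟩)
  simp only [Prod.mk.injEq] at k
  exact ⟨η, u, k1, fun s => by simpa using k2 s trivial, k.1,
    fun s => ⟨congrFun k.2.1 s, congrFun k.2.2.1 s⟩, k.2.2.2.symm⟩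

end Pool.Agent.Lib.MP_78bd4b_ag.DJ
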