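import Pool.Agent.Lib.MP_78bd4b_ag.Data5

/-! The embedding of the base surface. -/

noncomputable section

namespace Pool.Agent.Lib.MP_78bd4b_ag.DJ

open Complex Filter Function Set
open scoped Manifold ContDiff Topology Real ComplexConjugate

/-- the indices of the invariant functions -/
inductive Ix (n : ℕ)
  | w (j j' : Fin n)
  | b (j : Fin n) (c : Bool)
  | r (s : Option (Fin n))
  | i (s : Option (Fin n)) (j : Fin n)
  | g (s : Option (Fin n))
  | k (s : Option (Fin n))
  deriving DecidableEq, Fintype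

variable {M : Type*} [TopologicalSpace M] [ChartedSpace (EuclideanSpace ℝ (Fin 3)) M]
  {A : Atl M} (p : Pou A) (t t' : Fin A.n → ℂ)

def bf (l : Fin A.n) (w : ℂ) : ℂ := if A.kl l then w.re + (√(Q p l w))⁻¹ * I else w ^ A.P l

def bx (j : Fin A.n) (c : Bool) (w : ℂ) : ℝ :=
  p.b j j w * if c then (bf p j w).im else (bf p j w).re

def ik (l : Fin A.n) (w : ℂ) (s : Option (Fin A.n)) : ℝ := s.elim 1 fun j => 1 - p.ρ j l w ^ 2

def XX (l : Fin A.n) (w : ℂ) : Ix A.n → ℝ
  | .w j j' => oo p l w j * oo p l w j'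
  | .b j c => exr A j (bx p j c) l w
  | .r s => (zf p t l w s ^ pp A s * gf p t' l w s).re
  | .i s j => oo p l w j * (zf p t l w s ^ pp A s * gf p t' l w s).im
  | .g s => normSq (gf p t' l w s) - ik p l w s * normSq (zf p t l w s)
  | .k s => ik p l w s

def ee (l : Fin A.n) (w : ℂ) : (Ix A.n → ℝ) × ℝ := (XX p t t' l w, yy p l w)

/-- the glued functions -/
def gl (l : Fin A.n) (w : ℂ) : Option (Ix A.n) → ℝ :=
  sq (ee p t t' (exists_act p l w).choose (exists_act p l w).choose_spec.choose)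

variable (A) in
/-- the coordinate on the base -/
def bc (l : Fin A.n) (w : ℂ) : ℂ := if A.kl l then w else w ^ A.P l

variable (A) in
def zh (l : Fin A.n) (e : (Ix A.n → ℝ) × ℝ) : ℂ :=
  e.1 (.b l false) + ((if A.kl l then e.2 else 1) * e.1 (.b l true) : ℝ) * I

/-- the tangent plane at a cone point -/
def UU {n : ℕ} (l : Fin n) (a : ℂ) : Ix n → ℝ
  | .b j c => if j = l then (if c then a.im else a.re) else 0
  | .r s => if s = some l then a.re else 0
  | .i s j => if s = some l ∧ j = l then a.im else 0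
  | _ => 0

/-- the surface -/
def Su : Set ((Ix A.n → ℝ) × ℝ) :=
  {e | ∃ l w σ, w ∈ act p l ∧ Sg σ ∧ e = (XX p t t' l w, σ * yy p l w)}

variable {p t t'} {l l' j : Fin A.n} {w w' : ℂ} {ε θ : ℝ}

theorem UU_cd {n : ℕ} (l : Fin n) : ContDiff ℝ ∞ (UU l) := contDiff_pi.2 fun i => by
  cases i <;> simp only [UU] <;> try split_ifs
  all_goals first | exact contDiff_const | exact imCLM.contDiff | exact reCLM.contDiff

theorem UU_smul {n : ℕ} (l : Fin n) (s : ℝ) (a : ℂ) : UU l (s * a) = s • UU l a := funext fun i => by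
  cases i <;> simp [UU]

theorem zh_cd (l : Fin A.n) : ContDiff ℝ ∞ (zh A l) := by
  unfold zh
  refine (ofRealCLM.contDiff.comp (by fun_prop)).add
    ((ofRealCLM.contDiff.comp (ContDiff.mul ?_ (by fun_prop))).mul contDiff_const)
  split_ifs <;> fun_prop

theorem pow_dk (h : A.kl l = false) (e : w ^ A.P l = w' ^ A.P l) : ∃ m, w' = dk A l m w := by
  have p := A.P0 l
  rcases eq_or_ne w 0 with rfl | n
  · rw [zero_pow p.ne', eq_comm, pow_eq_zero_iff p.ne'] at e
    exact ⟨0, by rw [e, dk_zero]⟩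
  · have : NeZero (A.P l) := ⟨p.ne'⟩
    obtain ⟨i, -, a⟩ := (isPrimitiveRoot_exp _ p.ne').eq_pow_of_pow_eq_one (ξ := w' / w)
      (by rw [div_pow, ← e, div_self (pow_ne_zero _ n)])
    refine ⟨(A.k l * i : ℕ), ?_⟩
    rw [dk, h, if_neg (by simp), zpow_natCast, pow_mul, A.ζk, a, div_mul_cancel₀ _ n]

theorem dk_one (h : A.kl l = true) (w : ℂ) : dk A l 1 w = conj w := by
  rw [dk, if_pos h, if_neg (by decide)]

theorem act_rel (h : p.ρ l' l w ≠ 0) : ∃ w' ε θ, w' ∈ act p l' ∧ R A l w l' w' ε θ := by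
  obtain ⟨w', ε, θ, r⟩ := p.loc _ _ _ (p.one _ _ _ h ▸ one_ne_zero)
  exact ⟨w', ε, θ, fun e => h ((p.ρi _ r).trans e), r⟩

theorem zh_neg (h : A.kl l = true) (x : Ix A.n → ℝ) (y : ℝ) :
    zh A l (x, -y) = conj (zh A l (x, y)) := by
  simp [zh, h]

variable [T2Space M]

theorem bx_dk (p : Pou A) (j : Fin A.n) (c : Bool) : Dk A j (bx p j c) := fun m w => by
  have : bf p j (dk A j m w) = bf p j w := by
    have := lam_dk j m w
    unfold bf
    rw [Q_dk]
    split_ifs with h
    · unfold dk; split_ifs <;> simp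
    · simpa [lam, pp, h] using this
  simp only [bx, this, (p.bi j).dk j m w]

theorem bx_cd (p : Pou A) (j : Fin A.n) (c : Bool) : ContDiff ℝ ∞ (bx p j c) := by
  have : ContDiff ℝ ∞ (bf p j) := by
    unfold bf; split_ifs
    · exact (ofRealCLM.comp reCLM).contDiff.add ((ofRealCLM.contDiff.comp ((Q_cd p j).inv
        fun w => (Q_pos p j w).ne')).mul contDiff_const)
    · fun_prop
  refine (p.bs j j).mul ?_
  split_ifs
  · exact imCLM.contDiff.comp this
  · exact reCLM.contDiff.comp this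

theorem XX_cd (h : w ∈ act p l) : ContDiffAt ℝ ∞ (XX p t t' l) w := contDiffAt_pi.2 fun i => by
  have o := fun j => (contDiff_pi.1 (oo_cd p l) j).contDiffAt (x := w)
  have z := contDiffAt_pi.1 (zf_cd h t)
  have g := contDiffAt_pi.1 (gf_cd h t')
  have k : ∀ s, ContDiffAt ℝ ∞ (ik p l · s) w := by
    rintro (_ | j)
    · exact contDiffAt_const
    · exact contDiffAt_const.sub ((p.ρs j l).contDiffAt.pow 2)
  cases i with
  | w j j' => exact (o j).mul (o j')
  | b j c =>
    exact (exr_cd (bx_dk p j c) (bx_cd p j c) (fun w h => by simp [bx, p.supp j w h]) l).contDiffAt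
  | r s => exact reCLM.contDiff.contDiffAt.comp w (((z s).pow _).mul (g s))
  | i s j => exact (o j).mul (imCLM.contDiff.contDiffAt.comp w (((z s).pow _).mul (g s)))
  | g s =>
    exact (normSq_cd.contDiffAt.comp w (g s)).sub ((k s).mul (normSq_cd.contDiffAt.comp w (z s)))
  | k s => exact k s

theorem ee_cd (h : w ∈ act p l) : ContDiffAt ℝ ∞ (ee p t t' l) w :=
  (XX_cd h).prodMk (yy_cd p l).contDiffAt

theorem XX_rel (h : w ∈ act p l) (h' : w' ∈ act p l') (r : R A l w l' w' ε θ) :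
    XX p t t' l w = XX p t t' l' w' := funext fun i => by
  obtain ⟨η, u, -, a, -, b, -⟩ := gauge (t := t) (t' := t') h h' r
  have c : ∀ s, zf p t l w s ^ pp A s * gf p t' l w s =
      cr ε (zf p t l' w' s ^ pp A s * gf p t' l' w' s) := fun s => by
    rw [(b s).1, (b s).2, ← map_pow, ← map_mul, mul_pow, mul_mul_mul_comm, ← mul_pow, mul_conj', a]
    simp
  have k : ∀ s, ik p l w s = ik p l' w' s := fun s => by simp only [ik, p.ρi _ r]
  cases i with
  | w j j' =>
    simp only [XX, oo_rel r, Pi.smul_apply, smul_eq_mul]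
    linear_combination (oo p l' w' j * oo p l' w' j') * r.1.sq
  | b j c => exact exr_inv (bx_dk p j c) r
  | r s => simp only [XX, c, cr_re]
  | i s j =>
    simp only [XX, oo_rel r, Pi.smul_apply, smul_eq_mul, c, r.1.cr_im]
    linear_combination (oo p l' w' j * (zf p t l' w' s ^ pp A s * gf p t' l' w' s).im) * r.1.sq
  | g s => simp [XX, k, (b s).1, (b s).2, cr_norm, normSq_eq_norm_sq, a]
  | k s => exact k s

theorem sq_rel (h : w ∈ act p l) (h' : w' ∈ act p l') (r : R A l w l' w' ε θ) :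
    sq (ee p t t' l w) = sq (ee p t t' l' w') := by
  unfold sq ee
  rw [XX_rel h h' r, yy_rel h h' r]

theorem gl_eq (h' : w' ∈ act p l') (r : R A l w l' w' ε θ) :
    gl p t t' l w = sq (ee p t t' l' w') := by
  obtain ⟨_, _, a, b⟩ := (exists_act p l w).choose_spec.choose_spec
  exact sq_rel a h' (b.symm.trans r)

theorem gl_inv : Inv A (gl p t t') := fun l w l' w' ε θ r => by
  obtain ⟨_, _, _, _, a, b⟩ := exists_act p l' w'
  rw [gl_eq a b, gl_eq a (r.trans b)]

theorem gl_cd (l : Fin A.n) : ContDiff ℝ ∞ (gl p t t' l) := contDiff_iff_contDiffAt.2 fun w => by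
  obtain ⟨l', w', ε, θ, a, r⟩ := exists_act p l w
  obtain ⟨τ, χ, -, b, -, rfl, c⟩ := r.nhds
  refine (sq_cd.contDiffAt.comp w ((ee_cd (t := t) (t' := t') a).comp w b)).congr_of_eventuallyEq ?_
  filter_upwards [c, b.continuousAt.eventually ((act_open l').mem_nhds a)] with z c d
  exact gl_eq d c

theorem gl_w (l : Fin A.n) (w : ℂ) : gl p t t' l w (some (.w l l)) = p.ρ l l w ^ 2 := by
  obtain ⟨l', w', ε, θ, a, r⟩ := exists_act p l w
  rw [gl_eq a r, p.ρi l r]
  exact oo_sq ..

theorem XX_b (h : w ∈ act p l) (c : Bool) :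
    XX p t t' l w (.b l c) = if c then (bf p l w).im else (bf p l w).re := by
  simp [XX, exr_eq (bx_dk p l c) (.refl l w), bx, act_b h]

theorem zh_ee (h : w ∈ act p l) {σ : ℝ} (hσ : A.kl l = true → σ = 1) :
    zh A l (XX p t t' l w, σ * yy p l w) = bc A l w := by
  have := (Q_pos p l w).ne'
  unfold zh bc
  simp only [XX_b h, bf, yy, κ]
  by_cases e : A.kl l = true
  · apply Complex.ext <;> simp [hσ e, e, this]
  · apply Complex.ext <;> simp [e]

omit [T2Space M] in
theorem Lone.act (h : Lone p l w) : w ∈ act p l := h.ρ.trans_ne one_ne_zero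

theorem Lone.yy (h : Lone p l w) (e : A.kl l = false) : yy p l w = 1 := by
  simp [DJ.yy, h.Q e, κ, e]

theorem Lone.XX (h : Lone p l w) (h0 : Lone p l 0) (e : A.kl l = false) :
    XX p t t' l w = XX p t t' l 0 + UU l (w ^ A.P l) := funext fun i => by
  have n := (A.P0 l).ne'
  have k : ∀ s, ik p l w s = ik p l 0 s := by
    rintro (_ | j)
    · rfl
    · rcases eq_or_ne j l with rfl | a
      · simp [ik, h.ρ, h0.ρ]
      · simp [ik, ρ_zero (h j a), ρ_zero (h0 j a)]
  cases i with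
  | w j j' => simp [DJ.XX, UU, h.oo, h0.oo]
  | b j c =>
    rcases eq_or_ne j l with rfl | a
    · cases c <;> simp [XX_b h.act, XX_b h0.act, UU, bf, e, n]
    · have : ∀ w, Lone p l w → exr A j (bx p j c) l w = 0 := fun w h =>
        exr_zero (bx_dk p j c) fun _ _ _ r => by simp [bx, h.b a r]
      simp [DJ.XX, UU, a, this w h, this 0 h0]
  | r s =>
    simp only [DJ.XX, UU, h.zf e, h0.zf e, Pi.add_apply]
    split_ifs with a <;> simp [a, pp, e, n]
  | i s j =>
    simp only [DJ.XX, UU, h.zf e, h0.zf e, Pi.add_apply, h.oo, h0.oo, Pi.single_apply]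
    by_cases a : s = some l <;> by_cases b : j = l <;> simp [a, b, pp, e, n]
  | g s =>
    simp only [DJ.XX, UU, h.zf e, h0.zf e, Pi.add_apply, k]
    split_ifs with a <;> simp [a, ik, h0.ρ]
  | k s => simp [DJ.XX, UU, k]

theorem exists_gt (p : Pou A) (t t' : Fin A.n → ℂ) (l : Fin A.n) : ∃ g : ℂ → Option (Ix A.n) → ℝ,
    ContDiff ℝ ∞ g ∧ ∀ w, g (bc A l w) = p.b l l w • gl p t t' l w := by
  have c := (p.bs l l).smul (gl_cd (p := p) (t := t) (t' := t') l)
  unfold bc
  split_ifs with e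
  · exact ⟨_, c, fun _ => rfl⟩
  have e : A.kl l = false := by simpa using e
  have i : ∀ z z', z ^ A.P l = z' ^ A.P l →
      p.b l l z • gl p t t' l z = p.b l l z' • gl p t t' l z' := fun z z' h => by
    obtain ⟨m, rfl⟩ := pow_dk e h
    rw [(p.bi l).dk, gl_inv.dk]
  rcases p.core l e with h | h
  · exact descent (A.P0 l) c i (contDiffAt_const (c := 0)) (h.mono fun z h => by simp [h])
  · refine descent (A.P0 l) c i (G := fun a => sq (XX p t t' l 0 + UU l a, 1))
      (sq_cd.comp ((contDiff_const.add (UU_cd l)).prodMk contDiff_const)).contDiffAt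
      (h.mono fun z (a : Lone p l z) => ?_)
    rw [act_b a.act, one_smul, gl_eq a.act (.refl l z), ee, a.XX h.self_of_nhds e, a.yy e]

theorem Su_chart {e : (Ix A.n → ℝ) × ℝ} (h : e ∈ Su p t t') (n : e.1 (.w l l) ≠ 0) :
    ∃ w σ, w ∈ act p l ∧ Sg σ ∧ (A.kl l = true → σ = 1) ∧ e = (XX p t t' l w, σ * yy p l w) := by
  obtain ⟨l', w', σ, a, b, rfl⟩ := h
  obtain ⟨w, ε, θ, c, r⟩ := act_rel (l := l') (w := w') (p := p) (l' := l) fun h => n (by
    simp [XX, oo_sq, h])
  obtain ⟨η, -, d, -, f, -⟩ := gauge (t := t) (t' := t') a c r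
  rw [XX_rel a c r, f, ← mul_assoc]
  by_cases k : A.kl l = true
  · rcases b.mul d with g | g
    · exact ⟨w, _, c, b.mul d, fun _ => g, rfl⟩
    · have r := R.deck l 1 w
      have c' : dk A l 1 w ∈ act p l := fun h => c ((p.ρi l r).trans h)
      refine ⟨_, 1, c', .inl rfl, fun _ => rfl, ?_⟩
      rw [← XX_rel c c' r, g, yy, yy, Q_dk, dk_one k]
      simp [κ, k]
  · exact ⟨w, _, c, b.mul d, fun h => absurd h k, rfl⟩

end Pool.Agent.Lib.MP_78bd4b_ag.DJ
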