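import Mathlib

/-! Definitions used by the statement. -/

noncomputable section

namespace Pool.Agent.Lib.MP_78bd4b_ag

open MvPolynomial Complex
open scoped Manifold ContDiff Topology Real ComplexConjugate

/-- the line times the open unit disc -/
def Cyl : Set (ℝ × ℂ) := {x | ‖x.2‖ < 1}

/-- `φ` induces a bijection of the solid torus onto its image, and the classes of `r` are the
level sets of `u ^ q * z ^ p` -/
def TorusModel {M : Type*} (r : M → M → Prop) (φ : ℝ × ℂ → M) : Prop :=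
  ∃ p q : ℤ, p ≠ 0 ∧ IsCoprime p q ∧ ∀ x ∈ Cyl, ∀ y ∈ Cyl,
    (φ x = φ y ↔ (∃ n : ℤ, y.1 = x.1 + n) ∧ y.2 = x.2) ∧
    (r (φ x) (φ y) ↔ exp (2 * π * I * x.1) ^ q * x.2 ^ p = exp (2 * π * I * y.1) ^ q * y.2 ^ p)

/-- `φ` induces a bijection of the solid Klein bottle onto its image, and the classes of `r` are
the images of the lines -/
def KleinModel {M : Type*} (r : M → M → Prop) (φ : ℝ × ℂ → M) : Prop :=
  ∀ x ∈ Cyl, ∀ y ∈ Cyl,
    (φ x = φ y ↔ ∃ n : ℤ, y.1 = x.1 + n ∧ y.2 = if Even n then x.2 else conj x.2) ∧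
    (r (φ x) (φ y) ↔ y.2 = x.2 ∨ y.2 = conj x.2)

/-- Seifert fibration -/
def IsSeifert (M : Type*) [TopologicalSpace M] [ChartedSpace (EuclideanSpace ℝ (Fin 3)) M] :
    Prop :=
  ∃ r : Setoid M, ∀ m : M, ∃ φ : ℝ × ℂ → M,
    IsLocalDiffeomorphOn 𝓘(ℝ, ℝ × ℂ) (𝓡 3) ∞ φ Cyl ∧ m ∈ φ '' Cyl ∧
    (∀ x ∈ Cyl, ∀ m', r (φ x) m' → m' ∈ φ '' Cyl) ∧ (TorusModel r φ ∨ KleinModel r φ)

/-- `x` is a nonsingular point of dimension `d` of the affine algebraic set `X` -/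
def SmoothPt {n : ℕ} (X : Set (Fin n → ℂ)) (d : ℕ) (x : Fin n → ℂ) : Prop :=
  ∃ c : ℕ, c + d = n ∧ ∃ f : Fin c → MvPolynomial (Fin n) ℂ,
    (∀ j, f j ∈ vanishingIdeal ℂ X) ∧
    LinearIndependent ℂ (fun j i => aeval x (pderiv i (f j))) ∧
    ∀ᶠ y in 𝓝 x, (∀ j, aeval y (f j) = 0) → y ∈ X

/-- the projective variety with affine cone `X` is dominated by a surface times a line -/
def Uniruled3 {n : ℕ} (X : Set (Fin n → ℂ)) : Prop :=
  ∃ (k : ℕ) (J : Ideal (MvPolynomial (Fin k) ℂ)) (R : Fin n → MvPolynomial (Option (Fin k)) ℂ),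
    J.IsPrime ∧ (∃ y ∈ zeroLocus ℂ J, SmoothPt (zeroLocus ℂ J) 2 y) ∧
    (∀ y ∈ zeroLocus ℂ J, ∀ t : ℂ, (fun i => aeval (fun o => o.elim t y) (R i)) ∈ X) ∧
    ∀ (f : MvPolynomial (Fin n) ℂ) (d : ℕ), f.IsHomogeneous d →
      (∀ y ∈ zeroLocus ℂ J, ∀ t : ℂ, aeval (fun i => aeval (fun o => o.elim t y) (R i)) f = 0) →
        f ∈ vanishingIdeal ℂ X

/-- the real homogeneous ideal `J` defines a nonsingular projective uniruled threefold -/
def UniruledThreefold {n : ℕ} (J : Ideal (MvPolynomial (Fin n) ℝ)) : Prop :=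
  (∀ f ∈ J, ∀ d, homogeneousComponent d f ∈ J) ∧
    (vanishingIdeal ℂ (zeroLocus ℂ J)).IsPrime ∧
    (∀ x ∈ zeroLocus ℂ J, x ≠ 0 → SmoothPt (zeroLocus ℂ J) 4 x) ∧
    Uniruled3 (zeroLocus ℂ J)

section

variable {E V M : Type*} [NormedAddCommGroup E] [NormedSpace ℝ E] [NormedAddCommGroup V]
  [NormedSpace ℝ V] [TopologicalSpace M] [ChartedSpace E M]

/-- the differential of `e` at `m` -/
def Dif (e : M → V) (m : M) : E →L[ℝ] V := mfderiv 𝓘(ℝ, E) 𝓘(ℝ, V) e m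

/-- the points of the real projective space of `V` which have a representative in `S` -/
def Cls (S : Set V) : Set (Quotient (projectivizationSetoid ℝ V)) :=
  Quotient.mk _ '' {v | v.1 ∈ S}

variable (E) in
/-- `e` induces a smooth injective immersion of `M` into projective space whose image is open in,
and is a connected component of, the projectivisation of the cone `X` -/
def OntoComponent (e : M → V) (X : Set V) : Prop :=
  ContMDiff 𝓘(ℝ, E) 𝓘(ℝ, V) ∞ e ∧ (∀ m, e m ≠ 0 ∧ e m ∈ X) ∧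
    (∀ m m' (t : ℝ), e m' = t • e m → m' = m) ∧
    (∀ m (u : E) (t : ℝ), Dif e m u = t • e m → u = 0) ∧
    (∀ m, ∀ᶠ y in 𝓝 (e m), y ∈ X → ∃ (m' : M) (t : ℝ), y = t • e m') ∧
    ∀ p ∈ Cls (Set.range e), connectedComponentIn (Cls X) p = Cls (Set.range e)

end

/-- `M` is diffeomorphic to a connected component of the real locus of a nonsingular projective
uniruled real threefold -/
def HasModel (M : Type*) [TopologicalSpace M] [ChartedSpace (EuclideanSpace ℝ (Fin 3)) M] :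
    Prop :=
  ∃ (n : ℕ) (J : Ideal (MvPolynomial (Fin n) ℝ)) (e : M → Fin n → ℝ),
    UniruledThreefold J ∧ OntoComponent (EuclideanSpace ℝ (Fin 3)) e (zeroLocus ℝ J)

end Pool.Agent.Lib.MP_78bd4b_ag
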