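import Pool.Agent.Lib.MP_78bd4b_ag.KitG

/-! Regular functions, charts and generic transversality. -/

noncomputable section

namespace Pool.Agent.Lib.MP_78bd4b_ag

open MvPolynomial Filter Function
open scoped Topology

variable {K : Subring ℂ} {I J : Type} {x : I → ℂ} {f g : (I → ℂ) → ℂ}

theorem Rg.poly (P : MvPolynomial I K) : Rg K x fun y => aeval y P :=
  ⟨P, 1, by simp, fun _ _ => by simp⟩

theorem Rg.const {c : ℂ} (h : c ∈ K) : Rg K x fun _ => c :=
  ⟨C ⟨c, h⟩, 1, by simp, fun _ _ => by simp; rfl⟩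

theorem Rg.coord (i : I) : Rg K x fun y => y i := ⟨X i, 1, by simp, fun _ _ => by simp⟩

theorem Rg.add (h : Rg K x f) (h' : Rg K x g) : Rg K x fun y => f y + g y := by
  obtain ⟨P, Q, a, b⟩ := h
  obtain ⟨P', Q', a', b'⟩ := h'
  refine ⟨P * Q' + P' * Q, Q * Q', by simp [a, a'], fun y c => ?_⟩
  simp only [map_mul, map_add, ne_eq, mul_eq_zero, not_or] at c ⊢
  rw [← b y c.1, ← b' y c.2]; ring

theorem Rg.mul (h : Rg K x f) (h' : Rg K x g) : Rg K x fun y => f y * g y := by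
  obtain ⟨P, Q, a, b⟩ := h
  obtain ⟨P', Q', a', b'⟩ := h'
  refine ⟨P * P', Q * Q', by simp [a, a'], fun y c => ?_⟩
  simp only [map_mul, ne_eq, mul_eq_zero, not_or] at c ⊢
  rw [← b y c.1, ← b' y c.2]; ring

theorem Rg.inv (h : Rg K x f) (h0 : f x ≠ 0) : Rg K x fun y => (f y)⁻¹ := by
  obtain ⟨P, Q, a, b⟩ := h
  refine ⟨Q * Q, P * Q, by simp [a, ← b x a, h0], fun y c => ?_⟩
  simp only [map_mul, ne_eq, mul_eq_zero, not_or] at c ⊢
  have := b y c.2
  have e : f y ≠ 0 := fun e => c.1 (by rw [← this, e, zero_mul])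
  rw [← this]; field_simp

theorem Rg.neg (h : Rg K x f) : Rg K x fun y => -f y := by
  simpa using (Rg.const (neg_mem K.one_mem)).mul h

theorem Rg.sub (h : Rg K x f) (h' : Rg K x g) : Rg K x fun y => f y - g y := by
  simpa only [sub_eq_add_neg] using h.add h'.neg

theorem Rg.div (h : Rg K x f) (h' : Rg K x g) (h0 : g x ≠ 0) : Rg K x fun y => f y / g y := by
  simpa only [div_eq_mul_inv] using h.mul (h'.inv h0)

theorem Rg.zero : Rg K x fun _ => 0 := .const K.zero_mem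

theorem Rg.one : Rg K x fun _ => 1 := .const K.one_mem

theorem Rg.pow (h : Rg K x f) (n : ℕ) : Rg K x fun y => f y ^ n := by
  induction n with
  | zero => simpa using Rg.one
  | succ n ih => simpa only [pow_succ] using ih.mul h

theorem Rg.zpow (h : Rg K x f) {n : ℤ} (h0 : n < 0 → f x ≠ 0) : Rg K x fun y => f y ^ n := by
  cases n with
  | ofNat n => simpa using h.pow n
  | negSucc n => simpa using (h.pow (n + 1)).inv (pow_ne_zero _ (h0 (Int.negSucc_lt_zero n)))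

theorem Rg.sum {ι : Type*} {s : Finset ι} {F : ι → (I → ℂ) → ℂ} (h : ∀ i, Rg K x (F i)) :
    Rg K x fun y => ∑ i ∈ s, F i y :=
  Finset.sum_fn s F ▸ Finset.sum_induction F (Rg K x) (fun _ _ => .add) .zero fun i _ => h i

theorem Rg.prod {ι : Type*} {s : Finset ι} {F : ι → (I → ℂ) → ℂ} (h : ∀ i, Rg K x (F i)) :
    Rg K x fun y => ∏ i ∈ s, F i y :=
  Finset.prod_fn s F ▸ Finset.prod_induction F (Rg K x) (fun _ _ => .mul) .one fun i _ => h i

theorem Rg.ite {p : Prop} [Decidable p] (h : Rg K x f) (h' : Rg K x g) :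
    Rg K x fun y => if p then f y else g y := by split_ifs <;> assumption

theorem Rg.mono {U : Type} [Fintype U] {u : (I → ℂ) → U → ℂ} {F : U → ℤ}
    (h : ∀ i, Rg K x (u · i)) (h0 : ∀ i, F i < 0 → u x i ≠ 0) : Rg K x fun y => mono (u y) F :=
  .prod fun i => (h i).zpow (h0 i)

theorem Rg.aeval {Φ : (I → ℂ) → J → ℂ} (hΦ : ∀ j, Rg K x (Φ · j)) (P : MvPolynomial J K) :
    Rg K x fun y => aeval (Φ y) P := by
  induction P using MvPolynomial.induction_on with
  | C a => simp only [algHom_C]; exact Rg.const a.2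
  | add _ _ a b => simpa using a.add b
  | mul_X _ i a => simpa using a.mul (hΦ i)

theorem Rg.comp {Φ : (I → ℂ) → J → ℂ} {f : (J → ℂ) → ℂ} (h : Rg K (Φ x) f)
    (hΦ : ∀ j, Rg K x (Φ · j)) : Rg K x fun y => f (Φ y) := by
  obtain ⟨P, Q, a, b⟩ := h
  obtain ⟨P1, Q1, a1, b1⟩ := Rg.aeval hΦ P
  obtain ⟨P2, Q2, a2, b2⟩ := Rg.aeval hΦ Q
  refine ⟨P1 * Q2 * Q2, P2 * Q1 * Q2, by simp [a1, a2, ← b2 x a2, a], fun y c => ?_⟩
  simp only [map_mul, ne_eq, mul_eq_zero, not_or] at c b1 b2 ⊢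
  have e : MvPolynomial.aeval (Φ y) Q ≠ 0 := fun e => c.1.1 (by rw [← b2 y c.2, e, zero_mul])
  rw [← b1 y c.1.2, ← b2 y c.2, ← b _ e]; ring

theorem pol_K (P : MvPolynomial I K) : Pol fun y : I → ℂ => aeval y P :=
  ⟨map (algebraMap K ℂ) P, fun y => (aeval_map_algebraMap ℂ y P).symm⟩

theorem Pol.rg (h : Pol f) : Rg ⊤ x f := by
  obtain ⟨P, e⟩ := h
  rw [funext e]
  clear e
  induction P using MvPolynomial.induction_on with
  | C a => simpa using Rg.const (Subring.mem_top a)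
  | add _ _ a b => simpa using a.add b
  | mul_X _ i a => simpa using a.mul (.coord i)

theorem Rg.frac (h : Rg K x f) : ∃ P Q : MvPolynomial I ℂ, MvPolynomial.aeval x Q ≠ 0 ∧
    ∀ y, MvPolynomial.aeval y Q ≠ 0 → f y * MvPolynomial.aeval y Q = MvPolynomial.aeval y P := by
  obtain ⟨P, Q, a, b⟩ := h
  obtain ⟨P', e⟩ := pol_K P
  obtain ⟨Q', e'⟩ := pol_K Q
  exact ⟨P', Q', e' x ▸ a, fun y => e y ▸ e' y ▸ b y⟩

theorem Rg.top (h : Rg K x f) : Rg ⊤ x f := by
  obtain ⟨P, Q, a, b⟩ := h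
  let ι : K →+* (⊤ : Subring ℂ) := Subring.inclusion le_top
  have e : ∀ (y : I → ℂ) (P : MvPolynomial I K),
      MvPolynomial.aeval y (map ι P) = MvPolynomial.aeval y P := fun y P => by
    rw [aeval_def, aeval_def, eval₂_map]; rfl
  exact ⟨map ι P, map ι Q, by rwa [e], fun y => by rw [e, e]; exact b y⟩

theorem Rg.ne (h : Rg K x f) (h0 : f x ≠ 0) : ∀ᶠ y in Zf x, f y ≠ 0 := by
  obtain ⟨P, Q, a, b⟩ := h.frac
  refine ⟨P * Q, by rw [map_mul, ← b x a]; exact mul_ne_zero (mul_ne_zero h0 a) a, fun y c e => ?_⟩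
  rw [map_mul] at c
  exact left_ne_zero_of_mul c (by rw [← b y (right_ne_zero_of_mul c), e, zero_mul])

theorem Zf.self {p : (I → ℂ) → Prop} (h : ∀ᶠ y in Zf x, p y) : p x :=
  let ⟨_, a, b⟩ := h; b x a

theorem Rg.tendsto {Φ : (I → ℂ) → J → ℂ} (hΦ : ∀ j, Rg ⊤ x (Φ · j)) :
    Tendsto Φ (Zf x) (Zf (Φ x)) := fun _ ⟨Q, a, b⟩ =>
  (((Pol.rg ⟨Q, fun _ => rfl⟩).comp hΦ).ne a).mono fun _ c => b _ c

theorem Rg.van {Z : Set (I → ℂ)} (h : Rg ⊤ x f) (e : ∀ᶠ y in Zf x, y ∈ Z → f y = 0) :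
    ∃ P ∈ vanishingIdeal ℂ Z, ∃ Q : MvPolynomial I ℂ, MvPolynomial.aeval x Q ≠ 0 ∧
      ∀ y, MvPolynomial.aeval y Q ≠ 0 → f y * MvPolynomial.aeval y Q = MvPolynomial.aeval y P := by
  obtain ⟨P, Q, a, b⟩ := h.frac
  obtain ⟨Q', a', b'⟩ := e
  refine ⟨P * (Q * Q'), fun y hy => ?_, Q * (Q * Q'), by simp only [map_mul]; positivity,
    fun y c => ?_⟩
  · by_cases c : MvPolynomial.aeval y (Q * Q') = 0
    · rw [map_mul, c, mul_zero]
    · rw [map_mul] at c
      rw [map_mul, ← b y (left_ne_zero_of_mul c), b' y (right_ne_zero_of_mul c) hy, zero_mul,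
        zero_mul]
  · rw [map_mul] at c
    rw [map_mul, map_mul _ P, ← b y (left_ne_zero_of_mul c), mul_assoc]

theorem Rg.cl {Z : Set (I → ℂ)} (hx : x ∈ zeroLocus ℂ (vanishingIdeal ℂ Z)) (h : Rg ⊤ x f)
    (h' : Rg ⊤ x g) (e : ∀ᶠ y in Zf x, y ∈ Z → f y = g y) : f x = g x := by
  obtain ⟨P, hP, Q, a, b⟩ := (h.sub h').van (e.mono fun y c hy => sub_eq_zero.2 (c hy))
  exact sub_eq_zero.1 ((mul_eq_zero.1 ((b x a).trans (hx P hP))).resolve_right a)

theorem Cl.of_rg {ι : Type*} {F G : ι → (I → ℂ) → ℂ} (h : ∀ i x, Rg ⊤ x (F i))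
    (h' : ∀ i x, Rg ⊤ x (G i)) : Cl {y | ∀ i, F i y = G i y} := fun _ hx i =>
  Rg.cl hx (h i _) (h' i _) (.of_forall fun _ hy => hy i)

section Pol

theorem Pol.const (c : ℂ) : Pol fun _ : I → ℂ => c := ⟨C c, fun _ => by simp⟩

theorem Pol.coord (i : I) : Pol fun y : I → ℂ => y i := ⟨X i, fun _ => by simp⟩

theorem Pol.add (h : Pol f) (h' : Pol g) : Pol fun y => f y + g y :=
  let ⟨P, a⟩ := h; let ⟨Q, b⟩ := h'; ⟨P + Q, fun y => by rw [map_add, ← a, ← b]⟩

theorem Pol.mul (h : Pol f) (h' : Pol g) : Pol fun y => f y * g y :=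
  let ⟨P, a⟩ := h; let ⟨Q, b⟩ := h'; ⟨P * Q, fun y => by rw [map_mul, ← a, ← b]⟩

theorem Pol.sub (h : Pol f) (h' : Pol g) : Pol fun y => f y - g y :=
  let ⟨P, a⟩ := h; let ⟨Q, b⟩ := h'; ⟨P - Q, fun y => by rw [map_sub, ← a, ← b]⟩

theorem Pol.pow (h : Pol f) (n : ℕ) : Pol fun y => f y ^ n :=
  let ⟨P, a⟩ := h; ⟨P ^ n, fun y => by rw [map_pow, ← a]⟩

theorem Pol.sum {ι : Type*} {s : Finset ι} {F : ι → (I → ℂ) → ℂ} (h : ∀ i, Pol (F i)) :
    Pol fun y => ∑ i ∈ s, F i y :=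
  Finset.sum_fn s F ▸ Finset.sum_induction F Pol (fun _ _ => .add) (.const 0) fun i _ => h i

theorem Pol.prod {ι : Type*} {s : Finset ι} {F : ι → (I → ℂ) → ℂ} (h : ∀ i, Pol (F i)) :
    Pol fun y => ∏ i ∈ s, F i y :=
  Finset.prod_fn s F ▸ Finset.prod_induction F Pol (fun _ _ => .mul) (.const 1) fun i _ => h i

theorem Pol.ite {p : Prop} [Decidable p] (h : Pol f) (h' : Pol g) :
    Pol fun y => if p then f y else g y := by split_ifs <;> assumption

theorem Pol.comp {Φ : (I → ℂ) → J → ℂ} {f : (J → ℂ) → ℂ} (h : Pol f) (hΦ : ∀ j, Pol (Φ · j)) :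
    Pol fun y => f (Φ y) := by
  obtain ⟨P, e⟩ := h
  simp only [e]
  clear e
  induction P using MvPolynomial.induction_on with
  | C a => simpa using Pol.const a
  | add _ _ a b => simpa using a.add b
  | mul_X _ i a => simpa using a.mul (hΦ i)

end Pol

variable [Fintype I]

theorem ana_poly {R : Type} [CommRing R] [Algebra R ℂ] (P : MvPolynomial I R) :
    AnalyticAt ℂ (fun y : I → ℂ => aeval y P) x := by
  induction P using MvPolynomial.induction_on with
  | C a => simpa using analyticAt_const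
  | add _ _ a b => simp only [map_add]; exact a.add b
  | mul_X _ i a =>
    simp only [map_mul, aeval_X]
    exact a.mul ((ContinuousLinearMap.proj i : (I → ℂ) →L[ℂ] ℂ).analyticAt x)

theorem nhds_le_Zf : 𝓝 x ≤ Zf x := fun _ ⟨Q, a, b⟩ =>
  mem_of_superset ((ana_poly Q).continuousAt.eventually_ne a) b

theorem Rg.ana (h : Rg K x f) : AnalyticAt ℂ f x := by
  obtain ⟨P, Q, a, b⟩ := h
  exact ((ana_poly P).div (ana_poly Q) a).congr (((ana_poly Q).continuousAt.eventually_ne a).mono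
    fun y c => (eq_div_of_mul_eq c (b y c)).symm)

theorem Rg.anaV [Fintype J] {Φ : (I → ℂ) → J → ℂ} (h : ∀ j, Rg K x (Φ · j)) :
    AnalyticAt ℂ Φ x := AnalyticAt.pi fun j => (h j).ana

theorem fd_frac {R : Type} [CommRing R] [Algebra R ℂ] {P Q : MvPolynomial I R}
    (h : DifferentiableAt ℂ f x) (a : aeval x Q ≠ 0)
    (b : ∀ y, aeval y Q ≠ 0 → f y * aeval y Q = aeval y P) (u : I → ℂ) :
    f x * fderiv ℂ (fun y => aeval y Q) x u + aeval x Q * fderiv ℂ f x u =
      fderiv ℂ (fun y => aeval y P) x u := by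
  rw [← EventuallyEq.fderiv_eq (((ana_poly Q).continuousAt.eventually_ne a).mono b),
    fderiv_fun_mul h (ana_poly Q).differentiableAt]
  rfl

theorem Rg.tan {Z : Set (I → ℂ)} (hx : x ∈ Z) (h : Rg ⊤ x f) (h' : Rg ⊤ x g)
    (e : ∀ᶠ y in Zf x, y ∈ Z → f y = g y) {u : I → ℂ} (hu : u ∈ Tan Z x) :
    fderiv ℂ f x u = fderiv ℂ g x u := by
  obtain ⟨P, hP, Q, a, b⟩ := (h.sub h').van (e.mono fun y c hy => sub_eq_zero.2 (c hy))
  have := fd_frac (h.sub h').ana.differentiableAt a b u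
  rw [hu P hP, Zf.self e hx, sub_self, zero_mul, zero_add, mul_eq_zero,
    fderiv_fun_sub h.ana.differentiableAt h'.ana.differentiableAt] at this
  exact sub_eq_zero.1 (this.resolve_left a)

theorem fd_apply [Fintype J] {Φ : (I → ℂ) → J → ℂ} (h : DifferentiableAt ℂ Φ x) (u : I → ℂ)
    (j : J) : fderiv ℂ Φ x u j = fderiv ℂ (Φ · j) x u := by
  rw [fderiv_apply h j]; rfl

theorem Reg.mem {Z : Set (I → ℂ)} {n : ℕ} (h : Reg Z n x) : x ∈ Z :=
  let ⟨_, _, a, b, _⟩ := h; a ▸ b.self_of_nhds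

theorem Reg.chart [Fintype J] {Z : Set (I → ℂ)} {Z' : Set (J → ℂ)} {x' : J → ℂ}
    {n : ℕ} (h : Reg Z' n x') {Φ : (J → ℂ) → I → ℂ} {Ψ : (I → ℂ) → J → ℂ} (e : Φ x' = x)
    (hΦ : ∀ i, Rg ⊤ x' (Φ · i)) (hΨ : ∀ j, Rg ⊤ x (Ψ · j))
    (h1 : ∀ᶠ w in Zf x', w ∈ Z' → Φ w ∈ Z ∧ Ψ (Φ w) = w)
    (h2 : ∀ᶠ y in Zf x, y ∈ Z → Ψ y ∈ Z' ∧ Φ (Ψ y) = y) : Reg Z n x := by
  obtain ⟨hx, e'⟩ := Zf.self h1 h.mem
  obtain ⟨φ, a, rfl, b, c, d⟩ := h
  subst e
  have A := Rg.anaV hΦ
  have B := Rg.anaV hΨ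
  have b' := (a.continuousAt.eventually (nhds_le_Zf h1)).mp (b.mono fun _ c d => d c)
  have D := fderiv_comp 0 A.differentiableAt a.differentiableAt
  refine ⟨Φ ∘ φ, A.comp a, rfl, b'.mono fun _ c => c.1, ?_, fun u hu => ?_⟩
  · have := fderiv_comp 0 (g := Ψ) (f := Φ ∘ φ) B.differentiableAt (A.comp a).differentiableAt
    rw [← EventuallyEq.fderiv_eq (f₁ := Ψ ∘ Φ ∘ φ) (b'.mono fun _ c => c.2), this] at c
    exact Injective.of_comp c
  · obtain ⟨w, hw⟩ := d (fderiv ℂ Ψ _ u) fun P hP => by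
      have := Rg.tan hx ((Pol.rg ⟨P, fun _ => rfl⟩).comp hΨ) .zero
        (h2.mono fun y c hy => hP _ (c hy).1) hu
      rw [fderiv_fun_comp _ (ana_poly P).differentiableAt B.differentiableAt, e'] at this
      simpa using this
    refine ⟨w, funext fun i => ?_⟩
    have := Rg.tan hx ((e'.symm ▸ hΦ i :).comp hΨ) (.coord i)
      (h2.mono fun y c hy => congrFun (c hy).2 i) hu
    rw [fderiv_fun_comp (g := (Φ · i)) _ (e'.symm ▸ (hΦ i).ana.differentiableAt :)
      B.differentiableAt, e'] at this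
    rw [D, ContinuousLinearMap.comp_apply, hw, fd_apply A.differentiableAt]
    exact this.trans (by rw [← fd_apply (Φ := fun y => y) differentiableAt_id]; simp)

theorem Rg.der (h : Rg K0 x f) (D : Derivation ℤ ℂ ℂ) :
    D (f x) = fderiv ℂ f x fun i => D (x i) := by
  have p : ∀ P : MvPolynomial I K0, D (MvPolynomial.aeval x P) =
      fderiv ℂ (fun y => MvPolynomial.aeval y P) x fun i => D (x i) := fun P => by
    induction P using MvPolynomial.induction_on with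
    | C a => simp only [algHom_C]; exact (a.2 D).trans (by simp)
    | add P Q a b =>
      simp only [map_add, a, b]
      rw [fderiv_fun_add (ana_poly P).differentiableAt (ana_poly Q).differentiableAt]
      rfl
    | mul_X P i a =>
      simp only [map_mul, aeval_X, D.leibniz, a]
      rw [fderiv_fun_mul (ana_poly P).differentiableAt (differentiableAt_apply i x),
        (hasFDerivAt_apply i x).fderiv]
      simp
  have A := h.ana.differentiableAt
  obtain ⟨P, Q, a, b⟩ := h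
  have := fd_frac A a b fun i => D (x i)
  rw [← p, ← p, ← b x a, D.leibniz] at this
  exact (mul_left_cancel₀ a (add_left_cancel this)).symm

section TR

variable {S T C : Type} [Fintype S] [Fintype T] [Fintype C] {σ : S → ℂ}
  {F : (S ⊕ I → ℂ) → T → ℂ}

omit [Fintype I] [Fintype S] [Fintype T] in
theorem Rg.slice (hF : ∀ t, Rg K (Sum.elim σ x) (F · t)) (t : T) :
    Rg ⊤ x fun y => F (Sum.elim σ y) t := (hF t).top.comp (Φ := fun y => Sum.elim σ y) fun j => by
  cases j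
  exacts [.const trivial, .coord _]

theorem tr (hσ : AlgebraicIndependent ℚ σ) (hF : ∀ t, Rg K0 (Sum.elim σ x) (F · t))
    (hs : ∀ τ, ∃ δ : S → ℂ, ∀ a : ℂ, F (Sum.elim (σ + a • δ) x) = F (Sum.elim σ x) + a • τ)
    (τ : T → ℂ) : ∃ D : Derivation ℤ ℂ ℂ, (fun t => D (F (Sum.elim σ x) t)) =
      τ + fderiv ℂ (fun y => F (Sum.elim σ y)) x fun i => D (x i) := by
  obtain ⟨δ, hδ⟩ := hs τ
  obtain ⟨D, hD⟩ := exists_der hσ δ
  have A := (Rg.anaV hF).differentiableAt.hasFDerivAt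
  have a : fderiv ℂ F (Sum.elim σ x) (Sum.elim δ 0) = τ := by
    have e : ∀ a : ℂ, Sum.elim σ x + a • Sum.elim δ 0 = Sum.elim (σ + a • δ) x := fun a => by
      funext j; cases j <;> simp
    have := A.hasLineDerivAt (Sum.elim δ 0)
    simp only [HasLineDerivAt, e, hδ] at this
    simpa using this.unique (((hasDerivAt_id (0 : ℂ)).smul_const τ).const_add _)
  have b : HasFDerivAt (fun y : I → ℂ => Sum.elim σ y) (ContinuousLinearMap.pi fun j =>
      Sum.elim (fun _ => 0) (fun i => .proj i) j : (I → ℂ) →L[ℂ] S ⊕ I → ℂ) x :=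
    hasFDerivAt_pi.2 fun j => by
      cases j
      exacts [hasFDerivAt_const .., hasFDerivAt_apply ..]
  refine ⟨D, funext fun t => ?_⟩
  rw [(hF t).der, ← fd_apply A.differentiableAt,
    show fderiv ℂ (fun y => F (Sum.elim σ y)) x = _ from (A.comp x b).fderiv, ← a,
    ContinuousLinearMap.comp_apply, ← map_add]
  refine congrArg (fderiv ℂ F _ · t) (funext fun j => ?_)
  cases j <;> simp [hD]

theorem rank_slice {c : C → I} (hc : Injective c) :
    Module.finrank ℂ (LinearMap.ker (LinearMap.funLeft ℂ ℂ c)) + Fintype.card C =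
      Fintype.card I := by
  have := LinearMap.finrank_range_add_finrank_ker (LinearMap.funLeft ℂ ℂ c)
  rw [LinearMap.range_eq_top.2 (LinearMap.funLeft_surjective_of_injective ℂ ℂ c hc)] at this
  simpa [add_comm] using this

theorem count_tr (hσ : AlgebraicIndependent ℚ σ) (F : (S ⊕ I → ℂ) → T → ℂ)
    (hF : ∀ t, Rg K0 (Sum.elim σ x) (F · t))
    (hs : ∀ τ, ∃ δ : S → ℂ, ∀ a : ℂ, F (Sum.elim (σ + a • δ) x) = F (Sum.elim σ x) + a • τ)
    {c : C → I} (hc : Injective c) (c0 : ∀ j, x (c j) ∈ K0) (W : Submodule ℂ (T → ℂ))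
    (hW : ∀ D : Derivation ℤ ℂ ℂ, (fun t => D (F (Sum.elim σ x) t)) ∈ W) :
    Fintype.card T + Fintype.card C ≤ Fintype.card I + Module.finrank ℂ W := by
  let N := LinearMap.ker (LinearMap.funLeft ℂ ℂ c)
  have := LinearMap.finrank_le_finrank_of_surjective (f := LinearMap.coprod
    (-(fderiv ℂ (fun y => F (Sum.elim σ y)) x).toLinearMap ∘ₗ N.subtype) W.subtype) fun τ => by
      obtain ⟨D, hD⟩ := tr hσ hF hs τ
      exact ⟨(⟨fun i => D (x i), funext fun j => c0 j D⟩, ⟨_, hW D⟩), by simp [hD]⟩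
  rw [Module.finrank_prod, Module.finrank_fintype_fun_eq_card] at this
  have : Module.finrank ℂ N + _ = _ := rank_slice hc
  omega

theorem reg_of_surj {G : (I → ℂ) → T → ℂ} (hG : ∀ t, Rg ⊤ x (G · t)) (h0 : G x = 0)
    (hs : Surjective (fderiv ℂ G x)) {n : ℕ} (hn : n + Fintype.card T = Fintype.card I) :
    Reg {y | G y = 0} n x := by
  have A := Rg.anaV hG
  set L := fderiv ℂ G x
  have r : Module.finrank ℂ (Fin n → ℂ) = Module.finrank ℂ L.ker := by
    have := LinearMap.finrank_range_add_finrank_ker L.toLinearMap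
    rw [LinearMap.range_eq_top.2 hs] at this
    simp only [finrank_top, Module.finrank_fintype_fun_eq_card, Fintype.card_fin] at this ⊢
    omega
  let e := ContinuousLinearEquiv.ofFinrankEq r
  obtain ⟨π, hπ⟩ := Submodule.ClosedComplemented.of_finiteDimensional L.ker
  let T' := L.equivProdOfSurjectiveOfIsCompl π (LinearMap.range_eq_top.2 hs)
    (LinearMap.range_eq_of_proj hπ) (LinearMap.isCompl_of_proj hπ)
  have B : ContDiffAt ℂ ⊤ (fun y => (G y, π (y - x))) x := A.contDiffAt.prodMk (by fun_prop)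
  have B' : HasFDerivAt (fun y => (G y, π (y - x))) (T' : _ →L[ℂ] _) x := by
    exact A.differentiableAt.hasFDerivAt.prodMk
      (π.hasFDerivAt.comp x ((hasFDerivAt_id x).sub_const x))
  have z : (G x, π (x - x)) = ((0 : T → ℂ), e 0) := by simp [h0]
  have c1 := B.to_localInverse B' (by simp)
  have c2 := (B.hasStrictFDerivAt' B' (by simp)).to_localInverse.hasFDerivAt
  have c3 := (B.hasStrictFDerivAt' B' (by simp)).eventually_right_inverse
  have c4 := B.localInverse_apply_image B' (by simp)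
  rw [z] at c1 c2 c3 c4
  let j : (Fin n → ℂ) →L[ℂ] (T → ℂ) × L.ker := .prod 0 e
  have d := (c2.comp 0 j.hasFDerivAt).fderiv
  refine ⟨B.localInverse B' (by simp) ∘ j, c1.analyticAt.comp (f := j) (j.analyticAt 0), c4,
    (j.continuous.continuousAt.eventually c3).mono fun w hw => congrArg Prod.fst hw, ?_,
    fun u hu => ?_⟩
  · exact d ▸ T'.symm.injective.comp fun a b h => e.injective (congrArg Prod.snd h)
  · have hu : L u = 0 := _root_.funext fun t => (fd_apply A.differentiableAt u t).trans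
      ((Rg.tan (Z := {y | G y = 0}) h0 (hG t) .zero (.of_forall fun y hy => congrFun hy t) hu).trans (by simp))
    refine ⟨e.symm (π u), ?_⟩
    refine d ▸ T'.symm_apply_eq.2 (Prod.ext hu.symm ?_)
    simp [j, T']

theorem reg_tr (hσ : AlgebraicIndependent ℚ σ) (F : (S ⊕ I → ℂ) → T → ℂ)
    (hF : ∀ t, Rg K0 (Sum.elim σ x) (F · t))
    (hs : ∀ τ, ∃ δ : S → ℂ, ∀ a : ℂ, F (Sum.elim (σ + a • δ) x) = a • τ)
    {c : C → I} (hc : Injective c) (c0 : ∀ j, x (c j) ∈ K0) {n : ℕ}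
    (hn : n + Fintype.card T + Fintype.card C = Fintype.card I) :
    Reg {y | (∀ j, y (c j) = x (c j)) ∧ F (Sum.elim σ y) = 0} n x := by
  have z : F (Sum.elim σ x) = 0 := by
    obtain ⟨δ, h⟩ := hs 0
    simpa using h 0
  have A := (Rg.anaV (Rg.slice hF)).differentiableAt.hasFDerivAt
  let G : (I → ℂ) → T ⊕ C → ℂ := fun y => Sum.elim (F (Sum.elim σ y)) fun j => y (c j) - x (c j)
  have g : ∀ t, Rg ⊤ x (G · t) := fun t => by
    cases t
    exacts [Rg.slice hF _, (Rg.coord _).sub (.const trivial)]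
  have e : ∀ u, fderiv ℂ G x u =
      Sum.elim (fderiv ℂ (fun y => F (Sum.elim σ y)) x u) (u ∘ c) := fun u => funext fun t => by
    rw [fd_apply (Rg.anaV g).differentiableAt]
    cases t with
    | inl t => exact (fd_apply A.differentiableAt u t).symm
    | inr j => exact congrArg (· u) ((hasFDerivAt_apply (𝕜 := ℂ) (c j) x).sub_const (x (c j))).fderiv
  convert reg_of_surj g (funext fun t => by cases t <;> simp [G, z]) (fun τ => ?_)
    (n := n) (by rw [Fintype.card_sum]; omega) using 3 with y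
  · simp [G, _root_.funext_iff, sub_eq_zero, and_comm]
  · obtain ⟨u, hu⟩ := LinearMap.funLeft_surjective_of_injective ℂ ℂ c hc (τ ∘ .inr)
    obtain ⟨D, hD⟩ := tr hσ hF (by simpa [z] using hs)
      (fderiv ℂ (fun y => F (Sum.elim σ y)) x u - τ ∘ .inl)
    refine ⟨u + fun i => D (x i), (e _).trans (funext fun t => ?_)⟩
    cases t with
    | inl t =>
      have := congrFun hD t
      simp only [z, Pi.zero_apply, map_zero, Pi.add_apply, Pi.sub_apply, comp_apply] at this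
      simp only [map_add, Sum.elim_inl, Pi.add_apply]
      linear_combination (-1 : ℂ) * this
    | inr j => simpa [show D (x (c j)) = 0 from c0 j D] using congrFun hu j

end TR

end Pool.Agent.Lib.MP_78bd4b_ag
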