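import Pool.Agent.Lib.MP_78bd4b_ag.Core

/-! Derivations of the complex numbers with prescribed values. -/

noncomputable section

namespace Pool.Agent.Lib.MP_78bd4b_ag

open MvPolynomial Function TrivSqZeroExt

theorem exists_der_basis {F t : Type} [Field F] [CharZero F] [Algebra F ℂ] {x : t → ℂ}
    (hx : IsTranscendenceBasis F x) (δ : t → ℂ) :
    ∃ D : Derivation ℤ ℂ ℂ, ∀ s, D (x s) = δ s := by
  let K := IntermediateField.adjoin F (Set.range x)
  have : Algebra.IsAlgebraic K ℂ := hx.isAlgebraic_field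
  let φ : MvPolynomial t F →ₐ[F] DualNumber ℂ := aeval fun s => inl (x s) + inr (δ s)
  have a : ∀ P, (φ P).fst = aeval x P := fun P =>
    congrArg (· P) (show (((fstHom ℂ ℂ ℂ).restrictScalars F).comp φ) = aeval x by
      ext s; simp [φ])
  have u : ∀ P : nonZeroDivisors (MvPolynomial t F), IsUnit (φ.toRingHom P) := fun P => by
    rw [isUnit_iff_isUnit_fst, isUnit_iff_ne_zero]
    change (φ P).fst ≠ 0
    rw [a]
    exact (map_ne_zero_iff _ hx.1).2 (nonZeroDivisors.coe_ne_zero P)
  let ψ : K →+* DualNumber ℂ := (IsLocalization.lift (S := FractionRing (MvPolynomial t F)) u).comp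
    hx.1.aevalEquivField.symm.toRingEquiv.toRingHom
  have b : ∀ P, ψ (hx.1.aevalEquivField (algebraMap _ _ P)) = φ P := fun P => by simp [ψ]
  have c : ∀ k : K, (ψ k).fst = k := fun k => by
    obtain ⟨q, rfl⟩ := hx.1.aevalEquivField.surjective k
    have : ((fstHom ℂ ℂ ℂ).toRingHom.comp ψ).comp hx.1.aevalEquivField.toRingEquiv.toRingHom =
        (algebraMap K ℂ).comp hx.1.aevalEquivField.toRingEquiv.toRingHom :=
      IsLocalization.ringHom_ext (nonZeroDivisors (MvPolynomial t F)) (RingHom.ext fun P =>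
        ((congrArg fst (b P)).trans (a P)).trans
          (hx.1.aevalEquivField_algebraMap_apply_coe P).symm)
    exact congrArg (· q) this
  let _ : Algebra K (DualNumber ℂ) := ψ.toAlgebra
  have : Algebra.FormallyEtale K ℂ := Algebra.FormallyEtale.of_isSeparable K ℂ
  let g : DualNumber ℂ →ₐ[K] ℂ := { (fstHom ℂ ℂ ℂ).toRingHom with commutes' := c }
  have n : IsNilpotent (RingHom.ker (g : DualNumber ℂ →+* ℂ)) := ⟨2, by
    rw [Ideal.zero_eq_bot, eq_bot_iff, Submodule.pow_succ, Submodule.pow_one]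
    refine Ideal.mul_le.2 ?_
    intro r hr s hs
    have hr : r.fst = 0 := hr
    have hs : s.fst = 0 := hs
    rw [Ideal.mem_bot]
    ext <;> simp [hr, hs]⟩
  let l := Algebra.FormallySmooth.liftOfSurjective (AlgHom.id K ℂ) g (fun z => ⟨inl z, rfl⟩) n
  have e : ∀ z, (l z).fst = z := fun z =>
    Algebra.FormallySmooth.liftOfSurjective_apply (AlgHom.id K ℂ) g _ n z
  refine ⟨Derivation.mk' (AddMonoidHom.toIntLinearMap
    ⟨⟨fun z => (l z).snd, by simp⟩, fun z w => by simp⟩) fun z w => ?_, fun s => ?_⟩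
  · simp [e, mul_comm]
  · have := l.commutes (hx.1.aevalEquivField (algebraMap (MvPolynomial t F) _ (X s)))
    change l (hx.1.aevalEquivField (algebraMap (MvPolynomial t F) _ (X s)) : K) = ψ _ at this
    rw [b, hx.1.aevalEquivField_algebraMap_apply_coe, aeval_X] at this
    change (l (x s)).snd = _
    simp [this, φ]

theorem exists_der {S : Type} {σ : S → ℂ} (hσ : AlgebraicIndependent ℚ σ) (δ : S → ℂ) :
    ∃ D : Derivation ℤ ℂ ℂ, ∀ s, D (σ s) = δ s := by
  obtain ⟨t, ht, h⟩ := exists_isTranscendenceBasis_superset hσ.to_subtype_range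
  obtain ⟨D, hD⟩ := exists_der_basis h fun b => extend σ δ 0 b
  exact ⟨D, fun s => (hD ⟨σ s, ht ⟨s, rfl⟩⟩).trans (hσ.injective.extend_apply ..)⟩

end Pool.Agent.Lib.MP_78bd4b_ag
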