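import Pool.Agent.Lib.MP_78bd4b_ag.Core

/-! The algebraic model. -/

noncomputable section

namespace Pool.Agent.Lib.MP_78bd4b_ag

open Complex Function

/-- the discrete data of the model -/
structure Pm where
  (Ix In L T Φ : Type)
  [fx : Fintype Ix] [fn : Fintype In] [fL : Fintype L] [fT : Fintype T] [fΦ : Fintype Φ]
  [dx : DecidableEq Ix] [dn : DecidableEq In] [dL : DecidableEq L] [dT : DecidableEq T]
  [dΦ : DecidableEq Φ]
  (p k : T → ℕ)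
  (d Dm b0 : ℕ)
  tor : Tor T p k b0
  p0 : ∀ t, 0 < p t
  kb : ∀ t, k t ≤ b0 ∧ p t ≤ b0
  b2 : 2 ≤ b0
  d0 : 0 < d
  cx : Fintype.card Ix = Fintype.card In + Fintype.card T + 1
  cΦ : Fintype.card Φ = Fintype.card T + 3
  hD : ∀ t, (p t + 1) * d ≤ Dm
  hD2 : 2 * d ≤ Dm

attribute [instance] Pm.fx Pm.fn Pm.fL Pm.fT Pm.fΦ Pm.dx Pm.dn Pm.dL Pm.dT Pm.dΦ

namespace Pm

variable (D : Pm)

/-- the coefficient functions -/
inductive Slot
  | v (i : D.In)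
  | A (i j : D.In)
  | B (f : D.Φ) (j j' : D.L)
  | qd (f : D.Φ) (j : Option D.L)
  | a (t : D.T) (j : D.Φ → Option D.L)
  | c (t : D.T)
  | g (t : D.T) (j : D.Φ → Option D.L)
  | h
  deriving Fintype, DecidableEq

/-- the degrees of the coefficient functions -/
def deg : D.Slot → ℕ
  | .qd _ _ => 0
  | .a t _ => (D.p t + 1) * D.d
  | _ => 2 * D.d

/-- the parameters -/
abbrev Par : Type := D.Slot × (Fin D.Dm → D.Ix)

variable {D}

/-- the coefficient functions with parameters `σ` -/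
def cf {R : Type} [CommRing R] (σ : D.Par → R) (x : D.Ix → R) (s : D.Slot) : R :=
  ∑ r, σ (s, r) * xm (D.deg s) r x

/-- multiplication of the odd coordinates by `c` -/
def tw {Φ L : Type} (c : ℂ) (q : Φ → Option L → ℂ) : Φ → Option L → ℂ :=
  fun f j => j.elim (q f none) fun j' => c * q f (some j')

/-- the monomials of degree one in each factor -/
def Qm {Φ L : Type} [Fintype Φ] (q : Φ → Option L → ℂ) (j : Φ → Option L) : ℂ := ∏ f, q f (j f)

/-- the base functions `a b c g h` -/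
def Xf (C : D.Slot → ℂ) (q : D.Φ → Option D.L → ℂ) : Bs D.T → ℂ :=
  Sum.elim (fun x => ![∑ j, C (.a x.1 j) * Qm (tw I q) j, ∑ j, C (.a x.1 j) * Qm (tw (-I) q) j,
    C (.c x.1), ∑ j, C (.g x.1 j) * Qm q j ^ 2] x.2) fun _ => C .h

/-- the equations of the base -/
structure Base (C : D.Slot → ℂ) (r : Fin 2 → D.In → ℂ) (q : D.Φ → Option D.L → ℂ) : Prop where
  e1 : ∃ μ : Fin 2 → ℂ, ∀ i, C (.v i) = ∑ b, μ b * r b i
  e2 : ∀ a, ∃ μ : Fin 2 → ℂ, ∀ i, ∑ j, C (.A i j) * r a j = ∑ b, μ b * r b i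
  e4 : ∀ f j j', (∑ i, C (.B f j i) * q f (some i)) * q f (some j') =
    (∑ i, C (.B f j' i) * q f (some i)) * q f (some j)
  e5 : ∀ f, C (.qd f none) * q f none ^ 2 = ∑ j, C (.qd f (some j)) * q f (some j) ^ 2

variable (D) in
/-- points upstairs -/
structure Pt where
  x : D.Ix → ℂ
  r : Fin 2 → D.In → ℂ
  q : D.Φ → Option D.L → ℂ
  ξ : D.tor.Mon → ℂ

/-- Pluecker coordinates -/
def pl {R In : Type} [CommRing R] (r : Fin 2 → In → R) (a : In × In) : R :=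
  r 0 a.1 * r 1 a.2 - r 0 a.2 * r 1 a.1

/-- the solutions -/
structure Sol (σ : D.Par → ℂ) (w : D.Pt) : Prop where
  base : Base (cf σ w.x) w.r w.q
  bin : Bin (om D.p D.tor.ex) (Sum.elim (Xf (cf σ w.x) w.q) w.ξ)
  x0 : w.x ≠ 0
  r0 : pl w.r ≠ 0
  q0 : ∀ f, w.q f ≠ 0
  ξ0 : w.ξ ≠ 0

variable (D)

/-- the largest degree of a monomial -/
def Kt : ℕ := Finset.univ.sup fun m => ∑ v, D.tor.ex m v

def Dx (m : D.tor.Mon) : ℕ := D.d * (D.Kt - ∑ v, D.tor.ex m v)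

def Dq (m : D.tor.Mon) : ℕ := D.Kt - ∑ t, (D.tor.ex m (.inl (t, 2)) + D.tor.ex m (.inl (t, 3)))

/-- the indices of the projective coordinates -/
abbrev Iy : Type := D.tor.Mon × (D.Ix × D.Ix) × (D.In × D.In) ×
  ((D.Φ → Option D.L) × (D.Φ → Option D.L))

variable {D}

/-- the projective coordinates -/
def Pj (w : D.Pt) (ι : D.Iy) : ℂ := w.ξ ι.1 * (w.x ι.2.1.1 ^ D.Dx ι.1 * w.x ι.2.1.2) *
  pl w.r ι.2.2.1 * (Qm w.q ι.2.2.2.1 ^ D.Dq ι.1 * Qm w.q ι.2.2.2.2)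

/-- the sign of a coordinate -/
def sgn (ι : D.Iy) : ℂ :=
  Qm (tw (-1) 1) ι.2.2.2.1 ^ D.Dq ι.1 * Qm (tw (-1) 1) ι.2.2.2.2

def bar (ι : D.Iy) : D.Iy := (D.tor.bar ι.1, ι.2)

open Classical in
/-- real coordinates, even and odd -/
def Lr (y : D.Iy → ℂ) : D.Iy ⊕ D.Iy → ℂ :=
  Sum.elim (fun ι => if sgn ι = 1 then y ι + y (bar ι) else -I * (y ι - y (bar ι)))
    fun ι => if sgn ι = 1 then -I * (y ι - y (bar ι)) else y ι + y (bar ι)

/-- the cone over the double cover of the model -/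
def Zt (σ : D.Par → ℝ) : Set (D.Iy ⊕ D.Iy → ℂ) :=
  {y | y = 0 ∨ ∃ w, Sol (fun s => (σ s : ℂ)) w ∧ y = Lr (Pj w)}

/-- the monomials at the point with coordinates `c`, `y` -/
def cox (c : Cv D.T → ℂ) (y : ℂ) (m : D.tor.Mon) : ℂ :=
  y ^ (D.tor.ex m (.inr true) + D.tor.ex m (.inr false) - 2) * ∏ v, c v ^ D.tor.ex m v

/-- the base functions at the point with coordinates `c`, `y` -/
def coxb (c : Cv D.T → ℂ) (y : ℂ) (b : Bs D.T) : ℂ :=
  y ^ (wb D.p b (.inr true) + wb D.p b (.inr false)) * ∏ v, c v ^ wb D.p b v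

end Pm

end Pool.Agent.Lib.MP_78bd4b_ag
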