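import Pool.Agent.Lib.MP_78bd4b_ag.Core

/-! Laurent monomials on affine toric varieties. -/

noncomputable section

namespace Pool.Agent.Lib.MP_78bd4b_ag

open Function

theorem zpow_sum' {ι : Type} {w : ℂ} (s : Finset ι) (a : ι → ℤ) (h : ∀ i, a i < 0 → w ≠ 0) :
    w ^ (∑ i ∈ s, a i) = ∏ i ∈ s, w ^ a i := by
  classical
  by_cases hw : w = 0
  · have h0 : ∀ i, 0 ≤ a i := fun i => not_lt.1 fun c => h i c hw
    lift a to ι → ℕ using h0
    simp only [← Nat.cast_sum, zpow_natCast, Finset.prod_pow_eq_pow_sum]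
  · induction s using Finset.induction_on with
    | empty => simp
    | insert i s hi ih => rw [Finset.sum_insert hi, Finset.prod_insert hi, zpow_add₀ hw, ih]

variable {U G J : Type} [Fintype U] [AddCommGroup G] [Fintype J] {wt : U → G} {u u' : U → ℂ}

theorem mono_ne {F : U → ℤ} (h : mono u F ≠ 0) {i : U} (hi : F i ≠ 0) : u i ≠ 0 := fun e =>
  h (Finset.prod_eq_zero (Finset.mem_univ i) (by rw [e, zero_zpow _ hi]))

theorem mul_neg_cases {a b : ℤ} (h : a * b < 0) : a < 0 ∨ b < 0 ∧ a ≠ 0 := by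
  rcases lt_trichotomy a 0 with c | c | c
  · exact .inl c
  · simp [c] at h
  · exact .inr ⟨neg_of_mul_neg_right h c.le, c.ne'⟩

theorem mono_mono {w : J → ℂ} {κ : J → U → ℤ} {F : U → ℤ} (h : ∀ j i, κ j i < 0 → w j ≠ 0)
    (hF : ∀ i, F i < 0 → ∀ j, κ j i ≠ 0 → w j ≠ 0) :
    mono (fun i => mono w fun j => κ j i) F = mono w fun j => ∑ i, κ j i * F i := by
  simp only [mono, ← Finset.prod_zpow, ← zpow_mul]
  rw [Finset.prod_comm]
  refine Finset.prod_congr rfl fun j _ => (zpow_sum' _ _ fun i c => ?_).symm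
  exact (mul_neg_cases c).elim (h j i) fun d => hF i d.1 j d.2

theorem bin_of_fun (κ : J → G →+ ℤ) (w : J → ℂ) (h : ∀ j i, κ j (wt i) < 0 → w j ≠ 0) :
    Bin wt fun i => mono w fun j => κ j (wt i) := by
  have a : ∀ f : U → ℕ, ∏ i, (mono w fun j => κ j (wt i)) ^ f i =
      mono w fun j => κ j (∑ i, f i • wt i) := fun f => by
    have := mono_mono (F := fun i => (f i : ℤ)) h fun i c => absurd c (by simp)
    simp only [map_sum, map_nsmul, nsmul_eq_mul, mul_comm (f _ : ℤ), ← this]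
    simp only [mono, zpow_natCast]
  intro f f' e
  rw [a, a, e]

theorem Bin.laurent (h : Bin wt u) {F F' : U → ℤ} (hF : ∀ i, F i < 0 → u i ≠ 0)
    (hF' : ∀ i, F' i < 0 → u i ≠ 0) (e : ∑ i, F i • wt i = ∑ i, F' i • wt i) :
    mono u F = mono u F' := by
  have a : ∀ F : U → ℤ, (∀ i, F i < 0 → u i ≠ 0) →
      mono u F * ∏ i, u i ^ (-F i).toNat = ∏ i, u i ^ (F i).toNat ∧
        ∏ i, u i ^ (-F i).toNat ≠ 0 := fun F hF => by
    refine ⟨?_, Finset.prod_ne_zero_iff.2 fun i _ => ?_⟩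
    · rw [mono, ← Finset.prod_mul_distrib]
      refine Finset.prod_congr rfl fun i _ => ?_
      rcases lt_or_ge (F i) 0 with c | c
      · rw [← zpow_natCast, ← zpow_add₀ (hF i c), ← zpow_natCast]; congr 1; omega
      · rw [Int.toNat_eq_zero.2 (by omega : -F i ≤ 0), pow_zero, mul_one, ← zpow_natCast]
        congr 1; omega
    · rcases lt_or_ge (F i) 0 with c | c
      · exact pow_ne_zero _ (hF i c)
      · rw [Int.toNat_eq_zero.2 (by omega : -F i ≤ 0), pow_zero]; exact one_ne_zero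
  obtain ⟨a1, a2⟩ := a F hF
  obtain ⟨b1, b2⟩ := a F' hF'
  have c := h (fun i => (F i).toNat + (-F' i).toNat) (fun i => (F' i).toNat + (-F i).toNat) (by
    have : ∀ i, ((F i).toNat + (-F' i).toNat) • wt i + F' i • wt i =
        ((F' i).toNat + (-F i).toNat) • wt i + F i • wt i := fun i => by
      rw [← natCast_zsmul, ← natCast_zsmul, ← add_zsmul, ← add_zsmul]; congr 1; omega
    have := Finset.sum_congr rfl fun i (_ : i ∈ Finset.univ) => this i
    rw [Finset.sum_add_distrib, Finset.sum_add_distrib, e] at this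
    exact add_right_cancel this)
  simp only [pow_add, Finset.prod_mul_distrib, ← a1, ← b1] at c
  exact mul_right_cancel₀ (mul_ne_zero a2 b2) (by linear_combination c)

theorem Bin.scale (h : Bin wt u) (φ : G →+ ℤ) {s : ℂ} (hs : s ≠ 0) :
    Bin wt fun i => s ^ φ (wt i) * u i := by
  have a : ∀ f : U → ℕ, ∏ i, (s ^ φ (wt i) * u i) ^ f i =
      s ^ φ (∑ i, f i • wt i) * ∏ i, u i ^ f i := fun f => by
    simp only [mul_pow, Finset.prod_mul_distrib, map_sum, zpow_sum' _ _ fun _ _ => hs, map_nsmul,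
      nsmul_eq_mul, mul_comm (f _ : ℤ), zpow_mul, zpow_natCast]
  intro f f' e
  rw [a, a, e, h f f' e]

theorem mono_single [DecidableEq U] (i : U) : mono u (Pi.single i 1) = u i := by
  rw [mono, Finset.prod_eq_single i] <;> simp +contextual

theorem sum_single_smul [DecidableEq U] (i : U) :
    ∑ i', (Pi.single i 1 : U → ℤ) i' • wt i' = wt i := by
  rw [Finset.sum_eq_single i (by simp +contextual) (by simp), Pi.single_eq_same, one_smul]

theorem TC.back [DecidableEq J] {κ : J → G →+ ℤ} {ν : J → U → ℤ} (h : TC wt u κ ν)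
    (hu : Bin wt u') (hn : ∀ i, u i ≠ 0 → u' i ≠ 0) (i : U) :
    (mono (fun j => mono u' (ν j)) fun j => κ j (wt i)) = u' i := by
  classical
  have a1 : ∀ i' j, ν j i' < 0 → u' i' ≠ 0 := fun i' j c => hn _ (h.adm j i' c)
  have a2 : ∀ j, κ j (wt i) < 0 → ∀ i', ν j i' ≠ 0 → u' i' ≠ 0 := fun j c i' d =>
    hn _ (mono_ne (h.pos j i c) d)
  rw [mono_mono (κ := fun i' j => ν j i') a1 a2, ← mono_single (u := u') i]
  refine hu.laurent (fun i' c => ?_) (fun i' c => absurd c (not_lt.2 ?_)) ?_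
  · obtain ⟨j, -, d⟩ := Finset.exists_lt_of_sum_lt (g := fun _ => 0)
      (c.trans_eq Finset.sum_const_zero.symm)
    exact (mul_neg_cases d).elim (a1 i' j) fun d => a2 j d.1 i' d.2
  · by_cases e : i' = i <;> simp [e]
  · rw [sum_single_smul]
    conv_rhs => rw [h.span i]
    simp only [Finset.sum_smul, Finset.smul_sum, smul_smul, mul_comm]
    exact Finset.sum_comm

theorem TC.forth [DecidableEq J] {κ : J → G →+ ℤ} {ν : J → U → ℤ} (h : TC wt u κ ν)
    (hu : Bin wt u) {w : J → ℂ} (hw : ∀ j, mono u (ν j) ≠ 0 → w j ≠ 0) (j : J) :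
    mono (fun i => mono w fun j' => κ j' (wt i)) (ν j) = w j := by
  rw [mono_mono (fun j' i c => hw _ (h.pos j' i c)) fun i c j' d => hw _ (mono_ne (F := fun j =>
    κ j (wt i)) (u := fun j => mono u (ν j)) (by rw [h.back hu fun _ a => a]; exact h.adm j i c) d),
    ← mono_single (u := w) j]
  congr 1
  funext j'
  have := h.dual j' j
  simp only [map_sum, map_zsmul, smul_eq_mul] at this
  simp only [mul_comm (κ j' _), this, Pi.single_apply]

/-- weights of Laurent monomials which are regular at `u`, with their values -/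
def Val (wt : U → G) (u : U → ℂ) (x : G) (c : ℂ) : Prop :=
  ∃ F : U → ℤ, (∀ i, F i < 0 → u i ≠ 0) ∧ ∑ i, F i • wt i = x ∧ mono u F = c

theorem Val.uniq (h : Bin wt u) {x : G} {c c' : ℂ} (a : Val wt u x c) (b : Val wt u x c') :
    c = c' := by
  obtain ⟨F, a1, a2, rfl⟩ := a
  obtain ⟨F', b1, b2, rfl⟩ := b
  exact h.laurent a1 b1 (a2.trans b2.symm)

theorem Val.gen (i : U) : Val wt u (wt i) (u i) := by
  classical
  refine ⟨Pi.single i 1, fun i' c => absurd c (not_lt.2 ?_), sum_single_smul i, mono_single i⟩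
  by_cases e : i' = i <;> simp [e]

theorem Val.zero : Val wt u 0 1 := ⟨0, by simp, by simp, by simp [mono]⟩

theorem Val.add {x y : G} {c d : ℂ} (a : Val wt u x c) (b : Val wt u y d) :
    Val wt u (x + y) (c * d) := by
  obtain ⟨F, a1, rfl, rfl⟩ := a
  obtain ⟨F', b1, rfl, rfl⟩ := b
  refine ⟨F + F', fun i c => ?_, by simp [add_smul, Finset.sum_add_distrib], ?_⟩
  · rcases lt_or_ge (F i) 0 with e | e
    · exact a1 i e
    · exact b1 i (by simp only [Pi.add_apply] at c; omega)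
  · simp only [mono, ← Finset.prod_mul_distrib]
    refine Finset.prod_congr rfl fun i _ => ?_
    have := zpow_sum' (w := u i) Finset.univ ![F i, F' i] (by
      rw [Fin.forall_fin_two]; exact ⟨a1 i, b1 i⟩)
    simpa using this

theorem Val.zsmul {x : G} {c : ℂ} (a : Val wt u x c) {n : ℤ} (hn : n < 0 → c ≠ 0) :
    Val wt u (n • x) (c ^ n) := by
  obtain ⟨F, a1, rfl, rfl⟩ := a
  refine ⟨fun i => F i * n, fun i c => ?_, ?_, ?_⟩
  · exact (mul_neg_cases c).elim (a1 i) fun d => mono_ne (hn d.1) d.2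
  · simp only [Finset.smul_sum, smul_smul, mul_comm]
  · simp only [mono, ← Finset.prod_zpow, zpow_mul]

variable (wt u) in
/-- regular at `u` -/
def Ad (x : G) : Prop := ∃ c, Val wt u x c

variable (wt u) in
/-- invertible at `u` -/
def Un (x : G) : Prop := ∃ c, c ≠ 0 ∧ Val wt u x c

variable (wt u) in
/-- vanishing at `u` -/
def Nu (x : G) : Prop := Val wt u x 0

theorem Un.ad {x : G} (h : Un wt u x) : Ad wt u x := let ⟨c, _, a⟩ := h; ⟨c, a⟩

theorem Ad.gen (i : U) : Ad wt u (wt i) := ⟨_, Val.gen i⟩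

theorem Un.gen {i : U} (h : u i ≠ 0) : Un wt u (wt i) := ⟨_, h, Val.gen i⟩

theorem Ad.zero : Ad wt u 0 := ⟨_, Val.zero⟩

theorem Ad.add {x y : G} (a : Ad wt u x) (b : Ad wt u y) : Ad wt u (x + y) :=
  let ⟨_, a⟩ := a; let ⟨_, b⟩ := b; ⟨_, a.add b⟩

theorem Ad.zsmul {x : G} (a : Ad wt u x) {n : ℤ} (hn : 0 ≤ n) : Ad wt u (n • x) :=
  let ⟨_, a⟩ := a; ⟨_, a.zsmul fun c => absurd c hn.not_gt⟩

theorem Un.zsmul {x : G} (a : Un wt u x) (n : ℤ) : Un wt u (n • x) :=
  let ⟨_, b, a⟩ := a; ⟨_, zpow_ne_zero _ b, a.zsmul fun _ => b⟩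

theorem Ad.sum {ι : Type} (s : Finset ι) {x : ι → G} (h : ∀ i, Ad wt u (x i)) :
    Ad wt u (∑ i ∈ s, x i) :=
  Finset.sum_induction x _ (fun _ _ => Ad.add) Ad.zero fun i _ => h i

theorem Ad.sub {x y : G} (a : Ad wt u (x + y)) (b : Un wt u y) : Ad wt u x := by
  simpa using a.add (b.zsmul (-1)).ad

theorem Ad.or {x : G} (a : Ad wt u x) : Un wt u x ∨ Nu wt u x := by
  obtain ⟨c, a⟩ := a
  by_cases e : c = 0
  · subst e; exact .inr a
  · exact .inl ⟨c, e, a⟩

theorem Nu.add {x y : G} (a : Nu wt u x) (b : Ad wt u y) : Nu wt u (x + y) := by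
  obtain ⟨c, b⟩ := b
  simpa [Nu] using Val.add a b

theorem Nu.zsmul {x : G} (a : Nu wt u x) {n : ℤ} (hn : 0 < n) : Nu wt u (n • x) := by
  have := Val.zsmul a (n := n) fun c => absurd c hn.not_gt
  rwa [zero_zpow _ hn.ne'] at this

theorem Nu.comb {x y : G} (a : Nu wt u x) (b : Nu wt u y) {m n : ℤ} (hm : 0 ≤ m) (hn : 0 ≤ n)
    (h : 0 < m + n) : Nu wt u (m • x + n • y) := by
  rcases hm.lt_or_eq with c | c
  · exact (a.zsmul c).add (Ad.zsmul ⟨_, b⟩ hn)
  · subst c; simpa using b.zsmul (n := n) (by omega)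

theorem Un.not_nu (h : Bin wt u) {x : G} (a : Un wt u x) : ¬ Nu wt u x := fun b =>
  let ⟨_, c, a⟩ := a; c (a.uniq h b)

/-- a chart from coordinates -/
theorem tc_of_coord [DecidableEq J] (h : Bin wt u) (Ψ : G →+ (J → ℤ)) (Θ : (J → ℤ) →+ G)
    (h1 : ∀ y, Ψ (Θ y) = y) (h2 : ∀ i, Θ (Ψ (wt i)) = wt i)
    (h3 : ∀ j, Ad wt u (Θ (Pi.single j 1)))
    (h4 : ∀ j i, Ψ (wt i) j < 0 → Un wt u (Θ (Pi.single j 1))) : ∃ κ ν, TC (J := J) wt u κ ν := by
  choose c ν a1 a2 a3 using h3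
  refine ⟨fun j => (Pi.evalAddMonoidHom _ j).comp Ψ, ν, a1, fun j j' => ?_, fun i => ?_,
    fun j i d e => (h4 j i d).not_nu h ⟨ν j, a1 j, a2 j, e⟩⟩
  · simp [a2, h1, Pi.single_apply]
  · simp only [a2, ← map_zsmul, ← map_sum]
    conv_lhs => rw [← h2 i]
    congr 1
    funext j
    simp [Pi.single_apply]

end Pool.Agent.Lib.MP_78bd4b_ag
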