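import Pool.Agent.Lib.MP_78bd4b_ag.MDefs
import Pool.Agent.Lib.MP_78bd4b_ag.Kit
import Pool.Agent.Lib.MP_78bd4b_ag.TorA

/-! Symmetries of the model. -/

noncomputable section

namespace Pool.Agent.Lib.MP_78bd4b_ag

open Complex Function Finset

theorem Bin.reindex {U G : Type} [Fintype U] [AddCommGroup G] {wt : U → G} {u : U → ℂ}
    (h : Bin wt u) {e : U → U} (he : Involutive e) (β : G →+ G) (hβ : ∀ i, wt (e i) = β (wt i)) :
    Bin wt (u ∘ e) := fun f f' H => by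
  have a : ∀ f : U → ℕ, ∑ i, (f ∘ e) i • wt i = β (∑ i, f i • wt i) := fun f => by
    rw [map_sum, ← Equiv.sum_comp he.toPerm]
    exact sum_congr rfl fun i _ => by simp [he i, hβ]
  have b : ∀ f : U → ℕ, ∏ i, (u ∘ e) i ^ f i = ∏ i, u i ^ (f ∘ e) i := fun f => by
    rw [← Equiv.prod_comp he.toPerm]
    exact prod_congr rfl fun i _ => by simp [he i]
  rw [b, b]
  exact h _ _ (by rw [a, a, H])

theorem Bin.star {U G : Type} [Fintype U] [AddCommGroup G] {wt : U → G} {u : U → ℂ}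
    (h : Bin wt u) : Bin wt (star u) := fun f f' H => by
  simpa using congrArg (starRingEnd ℂ) (h f f' H)

theorem xm_smul {Ix : Type} {D δ : ℕ} (h : δ ≤ D) (r : Fin D → Ix) (s : ℂ) (x : Ix → ℂ) :
    xm δ r (s • x) = s ^ δ * xm δ r x := by
  have : ∏ j : Fin D, (if (j : ℕ) < δ then s else 1) = s ^ δ := by
    rw [prod_ite, prod_const_one, mul_one, prod_const, Fin.card_filter_val_lt, min_eq_right h]
  rw [xm, xm, ← this, ← prod_mul_distrib]
  exact prod_congr rfl fun j _ => by split_ifs <;> simp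

theorem Cv.bar_bar {T : Type} : Involutive (Cv.bar (T := T)) := by
  rintro (⟨t, i⟩ | b)
  · fin_cases i <;> rfl
  · simp [Cv.bar]

/-- the exchange of `a` and `b` -/
def Bs.bar {T : Type} : Bs T → Bs T := Sum.map (fun x => (x.1, ![1, 0, 2, 3] x.2)) id

theorem Bs.bar_bar {T : Type} : Involutive (Bs.bar (T := T)) := by
  rintro (⟨t, i⟩ | b)
  · fin_cases i <;> rfl
  · rfl

theorem wb_bar {T : Type} [DecidableEq T] (p : T → ℕ) (b : Bs T) (v : Cv T) :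
    wb p b.bar v = wb p b v.bar := by
  rcases b with ⟨t, i⟩ | b <;> rcases v with ⟨t', j⟩ | v
  · fin_cases i <;> fin_cases j <;> rfl
  all_goals rfl

namespace Pm

variable {D : Pm} {σ : D.Par → ℂ} {w : D.Pt} {C : D.Slot → ℂ}

theorem deg_le (s : D.Slot) : D.deg s ≤ D.Dm := by
  cases s
  case qd => exact Nat.zero_le _
  case a => exact D.hD _
  all_goals exact D.hD2

theorem cf_smul (s : ℂ) (x : D.Ix → ℂ) (l : D.Slot) : cf σ (s • x) l = s ^ D.deg l * cf σ x l := by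
  rw [cf, cf, mul_sum]
  exact sum_congr rfl fun r _ => by rw [xm_smul (deg_le l), mul_left_comm]

section Q

variable {Φ L : Type} [Fintype Φ] (q : Φ → Option L → ℂ) (j : Φ → Option L)

omit [Fintype Φ] in
theorem tw_tw (c c' : ℂ) : tw c (tw c' q) = tw (c * c') q := by
  funext f j; cases j <;> simp [tw, mul_assoc]

omit [Fintype Φ] in
theorem tw_one : tw 1 q = q := by
  funext f j; cases j <;> simp [tw]

theorem Qm_tw (c : ℂ) : Qm (tw c q) j = Qm (tw c 1) j * Qm q j := by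
  rw [Qm, Qm, Qm, ← prod_mul_distrib]
  exact prod_congr rfl fun f _ => by cases j f <;> simp [tw]

theorem Qm_sq : Qm (tw (-1) 1) j ^ 2 = 1 := by
  rw [Qm, ← prod_pow]
  exact prod_eq_one fun f _ => by cases j f <;> simp [tw]

theorem Qm_smul (s : Φ → ℂ) : Qm (fun f => s f • q f) j = (∏ f, s f) * Qm q j := by
  simp [Qm, prod_mul_distrib]

theorem Qm_tw_smul (c : ℂ) (s : Φ → ℂ) :
    Qm (tw c fun f => s f • q f) j = (∏ f, s f) * Qm (tw c q) j := by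
  rw [Qm_tw, Qm_smul, Qm_tw q, mul_left_comm]

theorem Qm_star (c : ℂ) : Qm (tw c (star q)) j = star (Qm (tw (star c) q) j) := by
  rw [Qm, Qm, star_prod]
  exact prod_congr rfl fun f _ => by cases j f <;> simp [tw]

theorem Qm_upd [DecidableEq Φ] (h : ∀ f, q f (j f) = 1) (f : Φ) (i : Option L) :
    Qm q (update j f i) = q f i := by
  rw [Qm, prod_eq_single f (fun g _ e => by rw [update_of_ne e, h]) (by simp), update_self]

end Q

theorem bar_bar : Involutive D.tor.bar := fun m => D.tor.inj (by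
  rw [D.tor.bar_ex, D.tor.bar_ex, comp_assoc, Cv.bar_bar.comp_self, comp_id])

theorem Dx_bar (m : D.tor.Mon) : D.Dx (D.tor.bar m) = D.Dx m := by
  rw [Dx, Dx, D.tor.bar_ex]
  exact congrArg (fun n => D.d * (D.Kt - n)) (Equiv.sum_comp Cv.bar_bar.toPerm (D.tor.ex m))

theorem Dq_bar (m : D.tor.Mon) : D.Dq (D.tor.bar m) = D.Dq m := by
  rw [Dq, Dq, D.tor.bar_ex]
  exact congrArg (D.Kt - ·) (sum_congr rfl fun t _ => add_comm _ _)

theorem sgn_bar (ι : D.Iy) : sgn (bar ι) = sgn ι := by simp only [sgn, bar, Dq_bar]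

theorem sgn_pm (ι : D.Iy) : sgn ι = 1 ∨ sgn ι = -1 := sq_eq_one_iff.1 (by
  rw [sgn, mul_pow, ← pow_mul, mul_comm _ 2, pow_mul, Qm_sq, Qm_sq, one_pow, one_mul])

theorem bar_bar' (ι : D.Iy) : bar (bar ι) = ι := Prod.ext (bar_bar _) rfl

theorem bin_bar {X : Bs D.T → ℂ} {ξ : D.tor.Mon → ℂ} (h : Bin (om D.p D.tor.ex) (Sum.elim X ξ)) :
    Bin (om D.p D.tor.ex) (Sum.elim (X ∘ Bs.bar) (ξ ∘ D.tor.bar)) := by
  rw [← Sum.elim_comp_map]
  refine h.reindex (fun i => by cases i <;> simp [Bs.bar_bar _, bar_bar _])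
    (.prodMap (.mk' (· ∘ Cv.bar) fun _ _ => rfl) (.id _)) ?_
  rintro (b | m)
  · exact Prod.ext (funext fun v => congrArg _ (wb_bar ..)) rfl
  · exact Prod.ext (funext fun v => congrArg _ (congrFun (D.tor.bar_ex m) v)) rfl

/-- the reversal of the fibres -/
def Pt.tau (w : D.Pt) : D.Pt := ⟨w.x, w.r, tw (-1) w.q, w.ξ ∘ D.tor.bar⟩

/-- the real structure -/
def Pt.cnj (w : D.Pt) : D.Pt := ⟨star w.x, star w.r, star w.q, star (w.ξ ∘ D.tor.bar)⟩

theorem Sol.tau (h : Sol σ w) : Sol σ w.tau where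
  base := ⟨h.base.e1, h.base.e2, fun f j j' => by simpa [Pt.tau, tw] using h.base.e4 f j j',
    fun f => by simpa [Pt.tau, tw] using h.base.e5 f⟩
  bin := by
    have : Xf (cf σ w.x) (tw (-1) w.q) = Xf (cf σ w.x) w.q ∘ Bs.bar := by
      funext b
      rcases b with ⟨t, i⟩ | b
      · fin_cases i <;> simp [Xf, Bs.bar, tw_tw, Qm_tw w.q _ (-1), mul_pow, Qm_sq]
      · rfl
    exact this ▸ bin_bar h.bin
  x0 := h.x0
  r0 := h.r0
  q0 f e := h.q0 f (funext fun j => by have := congrFun e j; cases j <;> simpa [Pt.tau, tw] using this)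
  ξ0 e := h.ξ0 (by rw [← comp_id w.ξ, ← bar_bar.comp_self, ← comp_assoc]; exact congrArg (· ∘ _) e)

theorem Pj_tau (w : D.Pt) (ι : D.Iy) : Pj w.tau ι = sgn ι * Pj w (bar ι) := by
  simp only [Pj, Pt.tau, sgn, bar, Dx_bar, Dq_bar, Qm_tw w.q, mul_pow, comp_apply]
  ring

theorem cf_star {σ : D.Par → ℝ} (x : D.Ix → ℂ) :
    cf (fun s => (σ s : ℂ)) (star x) = star (cf (fun s => (σ s : ℂ)) x) := by
  funext s
  simp [cf, xm, apply_ite (starRingEnd ℂ)]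

theorem Sol.cnj {σ : D.Par → ℝ} (h : Sol (fun s => (σ s : ℂ)) w) :
    Sol (fun s => (σ s : ℂ)) w.cnj where
  base := by
    rw [Pt.cnj, cf_star]
    refine ⟨h.base.e1.elim fun μ e => ⟨star μ, fun i => ?_⟩, fun a => (h.base.e2 a).elim
      fun μ e => ⟨star μ, fun i => ?_⟩, fun f j j' => ?_, fun f => ?_⟩
    · simpa using congrArg (starRingEnd ℂ) (e i)
    · simpa using congrArg (starRingEnd ℂ) (e i)
    · simpa using congrArg (starRingEnd ℂ) (h.base.e4 f j j')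
    · simpa using congrArg (starRingEnd ℂ) (h.base.e5 f)
  bin := by
    have : Sum.elim (Xf (star (cf (fun s => (σ s : ℂ)) w.x)) (star w.q)) (star (w.ξ ∘ D.tor.bar)) =
        star (Sum.elim (Xf (cf (fun s => (σ s : ℂ)) w.x) w.q ∘ Bs.bar) (w.ξ ∘ D.tor.bar)) := by
      funext b
      rcases b with (⟨t, i⟩ | b) | m
      · fin_cases i <;> simp [Xf, Bs.bar, Qm_star, (by simp [Qm] : ∀ j, Qm (star w.q) j =
          star (Qm w.q j))]
      all_goals rfl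
    rw [Pt.cnj, cf_star, this]
    exact (bin_bar h.bin).star
  x0 := star_ne_zero.2 h.x0
  r0 e := h.r0 (funext fun a => by simpa [pl, Pt.cnj] using congrArg (starRingEnd ℂ) (congrFun e a))
  q0 f := star_ne_zero.2 (h.q0 f)
  ξ0 := star_ne_zero.2 h.tau.ξ0

theorem Pj_cnj (w : D.Pt) (ι : D.Iy) : Pj w.cnj ι = star (Pj w (bar ι)) := by
  simp [Pj, Pt.cnj, bar, Dx_bar, Dq_bar, pl, Qm]

theorem Lr_tau (w : D.Pt) :
    Lr (Pj w.tau) = Sum.elim (Lr (Pj w) ∘ .inl) (-Lr (Pj w) ∘ .inr) := by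
  funext i
  rcases i with ι | ι <;> rcases sgn_pm ι with e | e <;>
    simp [Lr, Pj_tau, sgn_bar, bar_bar', e, (by norm_num : (-1 : ℂ) ≠ 1)] <;> ring

theorem Lr_cnj (w : D.Pt) : Lr (Pj w.cnj) = star (Lr (Pj w)) := by
  funext i
  rcases i with ι | ι <;> by_cases e : sgn ι = 1 <;> simp [Lr, Pj_cnj, bar_bar', e] <;> ring

theorem Lr_smul (c : ℂ) (y : D.Iy → ℂ) : Lr (c • y) = c • Lr y := by
  funext i
  rcases i with ι | ι <;> by_cases e : sgn ι = 1 <;> simp [Lr, e] <;> ring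

open Classical in
/-- the inverse of `Lr` -/
def Li (Y : D.Iy ⊕ D.Iy → ℂ) (ι : D.Iy) : ℂ :=
  if sgn ι = 1 then 2⁻¹ * (Y (.inl ι) + I * Y (.inr ι)) else 2⁻¹ * (Y (.inr ι) + I * Y (.inl ι))

theorem Li_Lr (y : D.Iy → ℂ) : Li (Lr y) = y := by
  funext ι
  by_cases e : sgn ι = 1 <;> simp only [Li, Lr, e, Sum.elim_inl, Sum.elim_inr, if_true, if_false] <;>
    linear_combination (-2⁻¹ * (y ι - y (bar ι))) * I_mul_I

/-! ### The action of the cone torus -/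

variable (D) in
def φx : (Cv D.T → ℤ) × ℤ →+ ℤ := .mk' (fun g => D.d * ∑ v, g.1 v) fun a b => by
  simp [sum_add_distrib, mul_add]

variable (D) in
def φq : (Cv D.T → ℤ) × ℤ →+ ℤ := .mk' (fun g => ∑ t, (g.1 (.inl (t, 2)) + g.1 (.inl (t, 3))))
  fun a b => by simp only [Prod.fst_add, Pi.add_apply, sum_add_distrib]; ring

/-- rescaling -/
def Pt.sc (w : D.Pt) (a s : ℂ) (b : D.Φ → ℂ) : D.Pt :=
  ⟨s • w.x, w.r, fun f => b f • w.q f, fun m => a * (s ^ (D.d * ∑ v, D.tor.ex m v) *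
    ((∏ f, b f) ^ (∑ t, (D.tor.ex m (.inl (t, 2)) + D.tor.ex m (.inl (t, 3)))) * w.ξ m))⟩

theorem u_sc (w : D.Pt) (a s : ℂ) (b : D.Φ → ℂ) :
    Sum.elim (Xf (cf σ (w.sc a s b).x) (w.sc a s b).q) (w.sc a s b).ξ = fun i =>
      a ^ (om D.p D.tor.ex i).2 * (s ^ D.φx (om D.p D.tor.ex i) *
        ((∏ f, b f) ^ D.φq (om D.p D.tor.ex i) * Sum.elim (Xf (cf σ w.x) w.q) w.ξ i)) := by
  funext i
  rcases i with (⟨t, i⟩ | b) | m
  · have e1 : D.φx (om D.p D.tor.ex (.inl (.inl (t, i)))) =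
        (![(D.p t + 1) * D.d, (D.p t + 1) * D.d, 2 * D.d, 2 * D.d] i : ℕ) := by
      fin_cases i <;> simp [om, φx, wb, Fintype.sum_prod_type, sum_add_distrib, Fin.sum_univ_four,
        mul_comm, one_add_one_eq_two]
    have e2 : D.φq (om D.p D.tor.ex (.inl (.inl (t, i)))) = (![1, 1, 0, 2] i : ℕ) := by
      fin_cases i <;> simp [om, φq, wb, sum_add_distrib]
    rw [e1, e2, zpow_natCast, zpow_natCast]
    fin_cases i <;> simp [Pt.sc, Xf, om, cf_smul, deg, Qm_tw_smul, Qm_smul, mul_sum, mul_pow] <;>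
      exact sum_congr rfl fun _ _ => by ring
  · simp [Pt.sc, Xf, om, φx, φq, wb, cf_smul, deg]
    exact .inl (by rw [← zpow_natCast, mul_comm]; norm_cast)
  · simp only [Pt.sc, om, φx, φq, Sum.elim_inr, AddMonoidHom.mk'_apply, zpow_one]
    norm_cast

theorem Sol.sc (h : Sol σ w) {a s : ℂ} {b : D.Φ → ℂ} (ha : a ≠ 0) (hs : s ≠ 0) (hb : ∀ f, b f ≠ 0) :
    Sol σ (w.sc a s b) where
  base := by
    refine ⟨h.base.e1.elim fun μ e => ⟨s ^ (2 * D.d) • μ, fun i => ?_⟩, fun a => (h.base.e2 a).elim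
      fun μ e => ⟨s ^ (2 * D.d) • μ, fun i => ?_⟩, fun f j j' => ?_, fun f => ?_⟩
    · simp only [Pt.sc, cf_smul, deg, e, mul_sum, Pi.smul_apply, smul_eq_mul, mul_assoc]
    · simp only [Pt.sc, cf_smul, deg, Pi.smul_apply, smul_eq_mul, mul_assoc, ← mul_sum, e]
    · have : ∀ j, ∑ i, cf σ (s • w.x) (.B f j i) * (b f * w.q f (some i)) =
          s ^ (2 * D.d) * b f * ∑ i, cf σ w.x (.B f j i) * w.q f (some i) := fun j => by
        rw [mul_sum]; exact sum_congr rfl fun _ _ => by rw [cf_smul, deg]; ring; simp; simp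
      simp only [Pt.sc, Pi.smul_apply, smul_eq_mul, this]
      linear_combination s ^ (2 * D.d) * b f * b f * h.base.e4 f j j'
    · simp only [Pt.sc, cf_smul, deg, Pi.smul_apply, smul_eq_mul, pow_zero, one_mul, mul_pow,
        mul_left_comm _ (b f ^ 2), ← mul_sum, h.base.e5 f]
  bin := u_sc w a s b ▸ ((h.bin.scale D.φq (prod_ne_zero_iff.2 fun f _ => hb f)).scale D.φx
    hs).scale (.snd _ _) ha
  x0 := smul_ne_zero hs h.x0
  r0 := h.r0
  q0 f := smul_ne_zero (hb f) (h.q0 f)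
  ξ0 e := h.ξ0 (funext fun m => by simpa [Pt.sc, ha, hs, prod_eq_zero_iff, hb] using congrFun e m)

theorem le_Kt (m : D.tor.Mon) : ∑ v, D.tor.ex m v ≤ D.Kt :=
  le_sup (f := fun m => ∑ v, D.tor.ex m v) (mem_univ m)

theorem Pj_sc (w : D.Pt) (a s : ℂ) (b : D.Φ → ℂ) : Pj (w.sc a s b) =
    (a * s ^ (D.d * D.Kt + 1) * (∏ f, b f) ^ (D.Kt + 1)) • Pj w := by
  funext ι
  have e1 : D.d * D.Kt = D.d * ∑ v, D.tor.ex ι.1 v + D.Dx ι.1 := by
    rw [Dx, ← mul_add, Nat.add_sub_cancel' (le_Kt _)]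
  have e2 : D.Kt = ∑ t, (D.tor.ex ι.1 (.inl (t, 2)) + D.tor.ex ι.1 (.inl (t, 3))) + D.Dq ι.1 := by
    refine (Nat.add_sub_cancel' (le_trans ?_ (le_Kt ι.1))).symm
    rw [Fintype.sum_sum_type, Fintype.sum_prod_type]
    exact (sum_le_sum fun t _ => by rw [Fin.sum_univ_four]; omega).trans (Nat.le_add_right _ _)
  rw [e1, congrArg (fun n => (∏ f, b f) ^ (n + 1)) e2]
  simp only [Pj, Pt.sc, Qm_smul, Pi.smul_apply, smul_eq_mul]
  ring

/-! ### Normalised points -/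

/-- the chart with index `ι` -/
structure Nrm (ι : D.Iy) (w : D.Pt) : Prop where
  x : w.x ι.2.1.2 = 1
  r : ∀ a b, w.r a (![ι.2.2.1.1, ι.2.2.1.2] b) = if a = b then 1 else 0
  q : ∀ f, w.q f (ι.2.2.2.2 f) = 1

/-- indices of pure powers -/
def pur (ι : D.Iy) : D.Iy := (ι.1, (ι.2.1.2, ι.2.1.2), ι.2.2.1, (ι.2.2.2.2, ι.2.2.2.2))

theorem Sol.norm (h : Sol σ w) {ι : D.Iy} (h0 : Pj w (pur ι) ≠ 0) : ∃ w', Sol σ w' ∧ Nrm ι w' ∧
    Pj w' = Pj w ∧ (∀ i, Sum.elim (Xf (cf σ w.x) w.q) w.ξ i ≠ 0 →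
      Sum.elim (Xf (cf σ w'.x) w'.q) w'.ξ i ≠ 0) ∧ ∀ f j, w.q f j ≠ 0 → w'.q f j ≠ 0 := by
  obtain ⟨m, ⟨_, i⟩, ⟨a, b⟩, ⟨_, j⟩⟩ := ι
  simp only [Pj, pur, ne_eq, mul_eq_zero, not_or] at h0
  obtain ⟨⟨⟨-, -, hx⟩, hp⟩, -, hq⟩ := h0
  have hq := fun f => prod_ne_zero_iff.1 hq f (mem_univ f)
  set P := pl w.r (a, b) with hP
  let r' : Fin 2 → D.In → ℂ := ![fun c => pl w.r (c, b) / P, fun c => pl w.r (a, c) / P]
  have e : ∀ a' c, w.r a' c = ∑ b', w.r a' (![a, b] b') * r' b' c := fun a' c => by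
    fin_cases a' <;> simp [r'] <;> field_simp <;> simp only [hP, pl] <;> ring
  have e' : ∀ {u : D.In → ℂ}, (∃ μ : Fin 2 → ℂ, ∀ c, u c = ∑ b, μ b * w.r b c) →
      ∃ μ : Fin 2 → ℂ, ∀ c, u c = ∑ b, μ b * r' b c := fun ⟨μ, hμ⟩ =>
    ⟨fun b' => ∑ a', μ a' * w.r a' (![a, b] b'), fun c => by
      rw [hμ, sum_congr rfl fun a' _ => congrArg _ (e a' c)]; simp; ring⟩
  have p : ∀ c, pl r' c = P⁻¹ * pl w.r c := fun c => by
    simp [r', pl]; field_simp; simp only [hP, pl]; ring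
  have h1 : Sol σ { w with r := r' } := ⟨⟨e' h.base.e1, fun a' => e' ?_, h.base.e4, h.base.e5⟩,
    h.bin, h.x0, fun z => h.r0 (funext fun c => by simpa [p, hp] using congrFun z c), h.q0, h.ξ0⟩
  · have z : P * w.x i ^ (D.d * D.Kt + 1) * (∏ f, w.q f (j f)) ^ (D.Kt + 1) ≠ 0 := by
      simp [hp, hx, prod_eq_zero_iff, hq]
    refine ⟨_, h1.sc z (inv_ne_zero hx) fun f => inv_ne_zero (hq f), ⟨by simp [Pt.sc, hx],
      fun a' b' => ?_, fun f => by simp [Pt.sc, hq]⟩, ?_, fun c hc => ?_, fun f c hc => ?_⟩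
    · fin_cases a' <;> fin_cases b' <;> simp [Pt.sc, r', ← hP, hp] <;> simp [pl]
    · rw [Pj_sc]
      funext c
      have := prod_ne_zero_iff.2 fun f (_ : f ∈ univ) => hq f
      simp only [Pj, p, Pi.smul_apply, smul_eq_mul, prod_inv_distrib, inv_pow]
      field_simp
    · rw [u_sc]
      exact mul_ne_zero (zpow_ne_zero _ z) (mul_ne_zero (zpow_ne_zero _ (inv_ne_zero hx))
        (mul_ne_zero (zpow_ne_zero _ (prod_ne_zero_iff.2 fun f _ => inv_ne_zero (hq f))) hc))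
    · exact mul_ne_zero (inv_ne_zero (hq f)) hc
  · obtain ⟨μ, hμ⟩ := h.base.e2 0
    obtain ⟨ν, hν⟩ := h.base.e2 1
    have : ∀ α β : ℂ, ∃ μ : Fin 2 → ℂ, ∀ c, ∑ j, cf σ w.x (.A c j) * (α * w.r 0 j + β * w.r 1 j) =
        ∑ b, μ b * w.r b c := fun α β => ⟨α • μ + β • ν, fun c => by
      simp only [mul_add, sum_add_distrib, mul_left_comm _ α, mul_left_comm _ β, ← mul_sum, hμ, hν]
      simp; ring⟩
    revert a'
    refine Fin.forall_fin_two.2 ⟨?_, ?_⟩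
    · simpa only [show ∀ c, w.r 1 b / P * w.r 0 c + -w.r 0 b / P * w.r 1 c = r' 0 c from fun c => by
        simp [r', pl]; ring] using this (w.r 1 b / P) (-w.r 0 b / P)
    · simpa only [show ∀ c, -w.r 1 a / P * w.r 0 c + w.r 0 a / P * w.r 1 c = r' 1 c from fun c => by
        simp [r', pl]; ring] using this (-w.r 1 a / P) (w.r 0 a / P)

/-- the inverse of `Pj` on a chart -/
def Ps (ι : D.Iy) (y : D.Iy → ℂ) : D.Pt :=
  ⟨fun i => y (ι.1, (ι.2.1.2, i), (pur ι).2.2) / y (pur ι),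
    ![fun a => y (ι.1, (pur ι).2.1, (a, ι.2.2.1.2), (pur ι).2.2.2) / y (pur ι),
      fun a => y (ι.1, (pur ι).2.1, (ι.2.2.1.1, a), (pur ι).2.2.2) / y (pur ι)],
    fun f j => y (ι.1, (pur ι).2.1, ι.2.2.1, (ι.2.2.2.2, update ι.2.2.2.2 f j)) / y (pur ι),
    fun m => y (m, (pur ι).2)⟩

theorem Nrm.Qm {ι : D.Iy} (h : Nrm ι w) : Qm w.q ι.2.2.2.2 = 1 := prod_eq_one fun f _ => h.q f

theorem Nrm.pj {ι : D.Iy} (h : Nrm ι w) (m : D.tor.Mon) : Pj w (m, (pur ι).2) = w.ξ m := by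
  have a := h.r 0 0
  have b := h.r 0 1
  have c := h.r 1 1
  simp_all [Pj, pur, h.x, h.Qm, pl]

theorem Nrm.ps {ι : D.Iy} (h : Nrm ι w) (h0 : w.ξ ι.1 ≠ 0) : Ps ι (Pj w) = w := by
  have a := h.r 0 0
  have b := h.r 0 1
  have c := h.r 1 1
  have d := h.r 1 0
  have e : Pj w (pur ι) = w.ξ ι.1 := h.pj ι.1
  obtain ⟨x, r, q, ξ⟩ := w
  simp only [Ps, e, h.pj, Pt.mk.injEq, and_true]
  refine ⟨funext fun i => ?_, funext fun i => funext fun j => ?_, funext fun f => funext fun j => ?_⟩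
  · simp_all [Pj, pur, show x _ = _ from h.x, show Pm.Qm q _ = _ from h.Qm, pl]
  · fin_cases i <;> simp_all [Pj, pur, show x _ = _ from h.x, show Pm.Qm q _ = _ from h.Qm, pl]
  · simp_all [Pj, pur, show x _ = _ from h.x, show Pm.Qm q _ = _ from h.Qm, pl, Qm_upd q _ h.q]

theorem Sol.ps (h : Sol σ w) {ι : D.Iy} (h0 : Pj w (pur ι) ≠ 0) :
    Sol σ (Ps ι (Pj w)) ∧ Nrm ι (Ps ι (Pj w)) ∧ Pj (Ps ι (Pj w)) = Pj w := by
  obtain ⟨w', a, b, c, -⟩ := h.norm h0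
  rw [← c, b.ps (b.pj ι.1 ▸ c ▸ h0 :)]
  exact ⟨a, b, rfl⟩

end Pm

end Pool.Agent.Lib.MP_78bd4b_ag
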