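import Pool.Agent.Lib.MP_78bd4b_ag.ModA

/-! The model is closed; generic exclusions. -/

noncomputable section

namespace Pool.Agent.Lib.MP_78bd4b_ag

open Complex Function Finset Filter MvPolynomial

theorem Cl.emb {I J : Type} {Z : Set (I → ℂ)} (h : Cl Z) {Φ : (I → ℂ) → J → ℂ}
    {Ψ : (J → ℂ) → I → ℂ} (hΦ : ∀ x i, Rg ⊤ x (Φ · i)) (hΨ : ∀ x i, Rg ⊤ x (Ψ · i))
    (e : ∀ y ∈ Z, Ψ (Φ y) = y) : Cl (Φ '' Z) := fun y hy =>
  ⟨Ψ y, h fun P hP => Rg.cl hy ((Pol.rg ⟨P, fun _ => rfl⟩).comp (hΨ y)) .zero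
    (.of_forall fun _ ⟨z, a, b⟩ => by rw [← b, e z a]; exact hP z a),
    funext fun j => Rg.cl hy ((hΦ _ j).comp (hΨ y)) (.coord j)
      (.of_forall fun _ ⟨z, a, b⟩ => by rw [← b, e z a])⟩

theorem I_mem : I ∈ K0 := fun D => by
  have := D.leibniz I I
  rw [I_mul_I, map_neg, D.map_one_eq_zero, neg_zero, ← two_smul ℂ, smul_smul, eq_comm,
    smul_eq_zero] at this
  exact this.resolve_left (mul_ne_zero two_ne_zero I_ne_zero)

namespace Pm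

variable {D : Pm} {σ : D.Par → ℂ} {w : D.Pt}

section Rg

variable {K : Subring ℂ} {I' : Type} {x : I' → ℂ}

theorem rg_cf {σ : (I' → ℂ) → D.Par → ℂ} {X : (I' → ℂ) → D.Ix → ℂ} (hσ : ∀ s, Rg K x (σ · s))
    (hX : ∀ i, Rg K x (X · i)) (s : D.Slot) : Rg K x fun y => cf (σ y) (X y) s :=
  .sum fun _ => (hσ _).mul (.prod fun _ => (hX _).ite .one)

theorem rg_tw {Φ L : Type} {q : (I' → ℂ) → Φ → Option L → ℂ} (hq : ∀ f j, Rg K x (q · f j))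
    {c : ℂ} (hc : c ∈ K) (f : Φ) (j : Option L) : Rg K x fun y => tw c (q y) f j := by
  cases j
  exacts [hq _ _, (Rg.const hc).mul (hq _ _)]

theorem rg_Qm {Φ L : Type} [Fintype Φ] {q : (I' → ℂ) → Φ → Option L → ℂ}
    (hq : ∀ f j, Rg K x (q · f j)) (j : Φ → Option L) : Rg K x fun y => Qm (q y) j :=
  .prod fun _ => hq _ _

theorem rg_Xf (hI : I ∈ K) {C : (I' → ℂ) → D.Slot → ℂ} {q : (I' → ℂ) → D.Φ → Option D.L → ℂ}
    (hC : ∀ s, Rg K x (C · s)) (hq : ∀ f j, Rg K x (q · f j)) (b : Bs D.T) :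
    Rg K x fun y => Xf (C y) (q y) b := by
  rcases b with ⟨t, i⟩ | b
  · fin_cases i
    exacts [.sum fun _ => (hC _).mul (rg_Qm (rg_tw hq hI) _),
      .sum fun _ => (hC _).mul (rg_Qm (rg_tw hq (neg_mem hI)) _), hC _,
      .sum fun _ => (hC _).mul ((rg_Qm hq _).pow 2)]
  · exact hC _

/-- regular maps to the points upstairs -/
structure RgP (x : I' → ℂ) (W : (I' → ℂ) → D.Pt) : Prop where
  hx : ∀ i, Rg ⊤ x fun y => (W y).x i
  hr : ∀ a i, Rg ⊤ x fun y => (W y).r a i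
  hq : ∀ f j, Rg ⊤ x fun y => (W y).q f j
  hξ : ∀ m, Rg ⊤ x fun y => (W y).ξ m

variable {W : (I' → ℂ) → D.Pt}

theorem RgP.cf (h : RgP x W) (σ : D.Par → ℂ) (s : D.Slot) : Rg ⊤ x fun y => cf σ (W y).x s :=
  rg_cf (σ := fun _ => σ) (X := fun y => (W y).x) (fun _ => .const (Subring.mem_top _)) h.hx s

theorem RgP.u (h : RgP x W) (σ : D.Par → ℂ) (i : Bs D.T ⊕ D.tor.Mon) :
    Rg ⊤ x fun y => Sum.elim (Xf (Pm.cf σ (W y).x) (W y).q) (W y).ξ i := by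
  cases i
  exacts [rg_Xf (Subring.mem_top _) (h.cf σ) h.hq _, h.hξ _]

theorem RgP.pj (h : RgP x W) (ι : D.Iy) : Rg ⊤ x fun y => Pj (W y) ι :=
  (((h.hξ _).mul (((h.hx _).pow _).mul (h.hx _))).mul (((h.hr _ _).mul (h.hr _ _)).sub
    ((h.hr _ _).mul (h.hr _ _)))).mul (((rg_Qm h.hq _).pow _).mul (rg_Qm h.hq _))

theorem rgP_ps {ι : D.Iy} {y : D.Iy → ℂ} (h : y (pur ι) ≠ 0) : RgP y (Ps ι) :=
  ⟨fun _ => (Rg.coord _).div (.coord _) h, Fin.forall_fin_two.2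
    ⟨fun _ => (Rg.coord _).div (.coord _) h, fun _ => (Rg.coord _).div (.coord _) h⟩,
    fun _ _ => (Rg.coord _).div (.coord _) h, fun _ => .coord _⟩

theorem rg_Lr (y : D.Iy → ℂ) (i : D.Iy ⊕ D.Iy) : Rg ⊤ y (Lr · i) := by
  have a := fun ι : D.Iy => (Rg.coord (K := ⊤) (x := y) ι).add (.coord (bar ι))
  have b := fun ι : D.Iy => (Rg.const (K := ⊤) (x := y) (c := -I) (Subring.mem_top _)).mul
    ((Rg.coord ι).sub (.coord (bar ι)))
  cases i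
  exacts [(a _).ite (b _), (b _).ite (a _)]

theorem rg_Li (y : D.Iy ⊕ D.Iy → ℂ) (i : D.Iy) : Rg ⊤ y (Li · i) :=
  have a := fun i j => (Rg.const (x := y) (Subring.mem_top 2⁻¹)).mul ((Rg.coord i).add
    ((Rg.const (Subring.mem_top I)).mul (.coord j)))
  (a _ _).ite (a _ _)

end Rg

/-- the cone in the monomial coordinates -/
def Z1 (σ : D.Par → ℂ) : Set (D.Iy → ℂ) := {y | y = 0 ∨ ∃ w, Sol σ w ∧ y = Pj w}

theorem Zt_eq (σ : D.Par → ℝ) : Zt σ = Lr '' Z1 fun s => (σ s : ℂ) := by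
  have z : Lr (0 : D.Iy → ℂ) = 0 := by simpa using Lr_smul 0 (0 : D.Iy → ℂ)
  ext Y
  constructor
  · rintro (rfl | ⟨w, a, rfl⟩)
    exacts [⟨0, .inl rfl, z⟩, ⟨_, .inr ⟨w, a, rfl⟩, rfl⟩]
  · rintro ⟨_, rfl | ⟨w, a, rfl⟩, rfl⟩
    exacts [.inl z, .inr ⟨w, a, rfl⟩]

theorem Z1.ps {ι : D.Iy} {y : D.Iy → ℂ} (h : y ∈ Z1 σ) (h0 : y (pur ι) ≠ 0) :
    Sol σ (Ps ι y) ∧ Nrm ι (Ps ι y) ∧ Pj (Ps ι y) = y := by
  obtain rfl | ⟨w, a, rfl⟩ := h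
  exacts [(h0 rfl).elim, a.ps h0]

theorem Z1.ev {ι : D.Iy} {y : D.Iy → ℂ} (h0 : y (pur ι) ≠ 0) : ∀ᶠ y in Zf y, y ∈ Z1 σ →
    Sol σ (Ps ι y) ∧ Nrm ι (Ps ι y) ∧ Pj (Ps ι y) = y :=
  ((Rg.coord (K := ⊤) (pur ι)).ne h0).mono fun _ d e => Z1.ps e d

theorem Nrm.pl {ι : D.Iy} (h : Nrm ι w) : pl w.r ι.2.2.1 = 1 := by
  have a := h.r 0 0
  have b := h.r 0 1
  have c := h.r 1 1
  simp_all [Pm.pl]

theorem Nrm.span {ι : D.Iy} (h : Nrm ι w) {u : D.In → ℂ}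
    (e : ∃ μ : Fin 2 → ℂ, ∀ i, u i = ∑ b, μ b * w.r b i) (i : D.In) :
    u i = ∑ b, u (![ι.2.2.1.1, ι.2.2.1.2] b) * w.r b i := by
  obtain ⟨μ, e⟩ := e
  rw [e]
  exact sum_congr rfl fun b _ => by simp [e, h.r]

theorem pur_ne {y : D.Iy → ℂ} (hy : y ∈ zeroLocus ℂ (vanishingIdeal ℂ (Z1 σ))) {ι : D.Iy}
    (h : y ι ≠ 0) : y (pur ι) ≠ 0 := by
  obtain ⟨m, ⟨i, i'⟩, ab, j, j'⟩ := ι
  have a := Rg.cl hy ((Rg.coord (m, (i, i'), ab, j, j')).pow (D.Dx m + 1))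
    (((Rg.coord (m, (i, i), ab, j, j')).pow (D.Dx m)).mul (.coord (m, (i', i'), ab, j, j')))
    (.of_forall (by
      rintro _ (rfl | ⟨w, -, rfl⟩)
      · simp
      · simp only [Pj]; ring))
  have b := Rg.cl hy ((Rg.coord (m, (i', i'), ab, j, j')).pow (D.Dq m + 1))
    (((Rg.coord (m, (i', i'), ab, j, j)).pow (D.Dq m)).mul (.coord (m, (i', i'), ab, j', j')))
    (.of_forall (by
      rintro _ (rfl | ⟨w, -, rfl⟩)
      · simp
      · simp only [Pj]; ring))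
  exact right_ne_zero_of_mul (b ▸ pow_ne_zero _ (right_ne_zero_of_mul (a ▸ pow_ne_zero _ h)))

theorem cl_Z1 : Cl (Z1 σ) := fun y hy => by
  refine (eq_or_ne y 0).imp_right fun h => ?_
  obtain ⟨ι, h⟩ := Function.ne_iff.1 h
  have h := pur_ne hy h
  have R := rgP_ps h
  have K : ∀ F G : D.Pt → ℂ, (∀ {W : (D.Iy → ℂ) → D.Pt}, RgP y W →
      Rg ⊤ y (fun y => F (W y)) ∧ Rg ⊤ y fun y => G (W y)) →
      (∀ w, Sol σ w → Nrm ι w → F w = G w) → F (Ps ι y) = G (Ps ι y) := fun F G a c =>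
    Rg.cl hy (a R).1 (a R).2 ((Z1.ev h).mono fun _ d e => c _ (d e).1 (d e).2.1)
  have n : Nrm ι (Ps ι y) := ⟨K (fun w => w.x _) (fun _ => 1) (fun R => ⟨R.hx _, .one⟩)
    fun _ _ c => c.x, fun a b => K (fun w => w.r _ _) (fun _ => _)
      (fun R => ⟨R.hr _ _, .const (Subring.mem_top _)⟩) fun _ _ c => c.r a b,
    fun f => K (fun w => w.q _ _) (fun _ => 1) (fun R => ⟨R.hq _ _, .one⟩) fun _ _ c => c.q f⟩
  let ab := ![ι.2.2.1.1, ι.2.2.1.2]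
  have e1 := fun i => K (fun w => cf σ w.x (.v i)) (fun w => ∑ b, cf σ w.x (.v (ab b)) * w.r b i)
    (fun R => ⟨R.cf σ _, .sum fun b => (R.cf σ _).mul (R.hr b i)⟩) fun w c d => d.span c.base.e1 i
  have e2 := fun a i => K (fun w => ∑ j, cf σ w.x (.A i j) * w.r a j)
    (fun w => ∑ b, (∑ j, cf σ w.x (.A (ab b) j) * w.r a j) * w.r b i)
    (fun R => ⟨.sum fun j => (R.cf σ _).mul (R.hr a j), .sum fun b =>
      (Rg.sum fun j => (R.cf σ _).mul (R.hr a j)).mul (R.hr b i)⟩)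
    fun w c d => d.span (c.base.e2 a) i
  have e4 := fun f j j' => K
    (fun w => (∑ i, cf σ w.x (.B f j i) * w.q f (some i)) * w.q f (some j'))
    (fun w => (∑ i, cf σ w.x (.B f j' i) * w.q f (some i)) * w.q f (some j))
    (fun R => ⟨(Rg.sum fun i => (R.cf σ _).mul (R.hq f _)).mul (R.hq _ _),
      (Rg.sum fun i => (R.cf σ _).mul (R.hq f _)).mul (R.hq _ _)⟩) fun w c _ => c.base.e4 f j j'
  have e5 := fun f => K (fun w => cf σ w.x (.qd f none) * w.q f none ^ 2)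
    (fun w => ∑ j, cf σ w.x (.qd f (some j)) * w.q f (some j) ^ 2)
    (fun R => ⟨(R.cf σ _).mul ((R.hq _ _).pow 2), .sum fun j => (R.cf σ _).mul ((R.hq _ _).pow 2)⟩)
    fun w c _ => c.base.e5 f
  have e6 := fun f f' e => K (fun w => ∏ i, Sum.elim (Xf (cf σ w.x) w.q) w.ξ i ^ f i)
    (fun w => ∏ i, Sum.elim (Xf (cf σ w.x) w.q) w.ξ i ^ f' i)
    (fun R => ⟨.prod fun i => (R.u σ i).pow _, .prod fun i => (R.u σ i).pow _⟩)
    fun w c _ => c.bin f f' e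
  have e7 : Pj (Ps ι y) = y := by
    funext c
    have := Rg.cl hy (R.pj c) (.coord c) ((Z1.ev h).mono fun _ d e => congrFun (d e).2.2 c)
    exact this
  generalize Ps ι y = w at *
  exact ⟨w, ⟨⟨⟨_, e1⟩, fun a => ⟨_, e2 a⟩, e4, e5⟩, e6,
    fun e => one_ne_zero (n.x.symm.trans (congrFun e _)),
    fun e => one_ne_zero (n.pl.symm.trans (congrFun e _)),
    fun f e => one_ne_zero ((n.q f).symm.trans (congrFun e _)),
    fun e => h (e7 ▸ (n.pj ι.1).trans (congrFun e _))⟩, e7.symm⟩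

/-! ### The equations in free coordinates -/

variable (D) in
/-- the free coordinates `x r q lam mu nu` -/
abbrev I1 : Type :=
  D.Ix ⊕ (Fin 2 × D.In) ⊕ (D.Φ × Option D.L) ⊕ (Fin 2 × Fin 2) ⊕ Fin 2 ⊕ D.Φ

variable (D) in
/-- the equations of the base -/
abbrev T0 : Type := D.In ⊕ (Fin 2 × D.In) ⊕ (D.Φ × D.L) ⊕ D.Φ

variable (D) in
/-- the normalised coordinates -/
abbrev Cs : Type := Unit ⊕ (Fin 2 × Fin 2) ⊕ D.Φ

def gx (y : D.I1 → ℂ) (i : D.Ix) : ℂ := y (.inl i)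

def gr (y : D.I1 → ℂ) (a : Fin 2) (i : D.In) : ℂ := y (.inr (.inl (a, i)))

def gq (y : D.I1 → ℂ) (f : D.Φ) (j : Option D.L) : ℂ := y (.inr (.inr (.inl (f, j))))

/-- the linear part of the equations -/
def El (C : D.Slot → ℂ) (r : Fin 2 → D.In → ℂ) (q : D.Φ → Option D.L → ℂ) : D.T0 → ℂ :=
  Sum.elim (fun i => C (.v i)) (Sum.elim (fun a => ∑ j, C (.A a.2 j) * r a.1 j) (Sum.elim
    (fun a => ∑ i, C (.B a.1 a.2 i) * q a.1 (some i)) fun f =>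
      C (.qd f none) * q f none ^ 2 - ∑ j, C (.qd f (some j)) * q f (some j) ^ 2))

/-- the terms with the multipliers -/
def Em (y : D.I1 → ℂ) : D.T0 → ℂ :=
  Sum.elim (fun i => ∑ b, y (.inr (.inr (.inr (.inr (.inl b))))) * gr y b i) (Sum.elim
    (fun a => ∑ b, y (.inr (.inr (.inr (.inl (a.1, b))))) * gr y b a.2) (Sum.elim
    (fun a => y (.inr (.inr (.inr (.inr (.inr a.1))))) * gq y a.1 (some a.2)) fun _ => 0))

/-- the free coordinates of a normalised point -/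
def mk1 (σ : D.Par → ℂ) (ab : D.In × D.In) (j : D.Φ → D.L) (w : D.Pt) : D.I1 → ℂ :=
  Sum.elim w.x (Sum.elim (fun a => w.r a.1 a.2) (Sum.elim (fun a => w.q a.1 a.2) (Sum.elim
    (fun a => El (cf σ w.x) w.r w.q (.inr (.inl (a.1, ![ab.1, ab.2] a.2)))) (Sum.elim
    (fun b => cf σ w.x (.v (![ab.1, ab.2] b))) fun f =>
      El (cf σ w.x) w.r w.q (.inr (.inr (.inl (f, j f))))))))

/-- the positions of the normalised coordinates -/
def cs (ι : D.Iy) : D.Cs → D.I1 := Sum.elim (fun _ => .inl ι.2.1.2) (Sum.elim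
  (fun a => .inr (.inl (a.1, ![ι.2.2.1.1, ι.2.2.1.2] a.2))) fun f =>
    .inr (.inr (.inl (f, ι.2.2.2.2 f))))

variable {ι : D.Iy} {j : D.Φ → D.L}

theorem Nrm.ne (h : Nrm ι w) : ι.2.2.1.1 ≠ ι.2.2.1.2 := fun e => by
  have a := h.r 0 0
  have b := h.r 0 1
  simp_all

theorem Nrm.inj (h : Nrm ι w) : Injective (cs ι) := by
  have := h.ne
  rintro (_ | ⟨a, b⟩ | f) (_ | ⟨a', b'⟩ | f') e <;> simp [cs] at e ⊢
  · refine ⟨e.1, ?_⟩
    fin_cases b <;> fin_cases b' <;> simp_all [eq_comm]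
  · exact e.1

theorem Nrm.K0 (h : Nrm ι w) (c : D.Cs) : mk1 σ ι.2.2.1 j w (cs ι c) ∈ K0 := by
  rcases c with _ | ⟨a, b⟩ | f
  · exact (h.x.symm ▸ one_mem _ : w.x _ ∈ MP_78bd4b_ag.K0)
  · change w.r _ _ ∈ _
    rw [h.r]
    split_ifs
    exacts [one_mem _, zero_mem _]
  · exact ((h.q f).symm ▸ one_mem _ : w.q f _ ∈ MP_78bd4b_ag.K0)

theorem nrm_of {y : D.I1 → ℂ} (h : Nrm ι w) (e : ∀ c, y (cs ι c) = mk1 σ ι.2.2.1 j w (cs ι c))
    (ξ : D.tor.Mon → ℂ) : Nrm ι ⟨gx y, gr y, gq y, ξ⟩ :=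
  ⟨(e (.inl ())).trans h.x, fun a b => (e (.inr (.inl (a, b)))).trans (h.r a b),
    fun f => (e (.inr (.inr f))).trans (h.q f)⟩

theorem Nrm.cs_eq {w' : D.Pt} (h : Nrm ι w) (h' : Nrm ι w') (c : D.Cs) :
    mk1 σ ι.2.2.1 j w' (cs ι c) = mk1 σ ι.2.2.1 j w (cs ι c) := by
  rcases c with _ | ⟨a, b⟩ | f
  exacts [h'.x.trans h.x.symm, (h'.r a b).trans (h.r a b).symm, (h'.q f).trans (h.q f).symm]

theorem base_of {C : D.Slot → ℂ} {y : D.I1 → ℂ} (e : El C (gr y) (gq y) = Em y) :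
    Base C (gr y) (gq y) :=
  ⟨⟨fun b => y (.inr (.inr (.inr (.inr (.inl b))))), fun i => congrFun e (.inl i)⟩,
    fun a => ⟨fun b => y (.inr (.inr (.inr (.inl (a, b))))), fun i =>
      congrFun e (.inr (.inl (a, i)))⟩,
    fun f a b => by
      have e1 := congrFun e (.inr (.inr (.inl (f, a))))
      have e2 := congrFun e (.inr (.inr (.inl (f, b))))
      simp only [El, Em, Sum.elim_inr, Sum.elim_inl] at e1 e2
      rw [e1, e2]; ring,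
    fun f => sub_eq_zero.1 (congrFun e (.inr (.inr (.inr f))))⟩

theorem Nrm.q1 (h : Nrm ι w) (hj : ι.2.2.2.2 = some ∘ j) (f : D.Φ) : w.q f (some (j f)) = 1 := by
  have := h.q f
  rwa [hj] at this

theorem Nrm.el (h : Nrm ι w) (hj : ι.2.2.2.2 = some ∘ j) (b : Base (cf σ w.x) w.r w.q) :
    El (cf σ w.x) w.r w.q = Em (mk1 σ ι.2.2.1 j w) := by
  funext t
  rcases t with i | ⟨a, i⟩ | ⟨f, i⟩ | f
  · exact h.span b.e1 i
  · exact h.span (b.e2 a) i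
  · have := b.e4 f i (j f)
    rwa [h.q1 hj, mul_one] at this
  · exact sub_eq_zero.2 (b.e5 f)

theorem mk1_eq {y : D.I1 → ℂ} {ξ : D.tor.Mon → ℂ} (h : Nrm ι ⟨gx y, gr y, gq y, ξ⟩)
    (hj : ι.2.2.2.2 = some ∘ j) (e : El (cf σ (gx y)) (gr y) (gq y) = Em y) :
    mk1 σ ι.2.2.1 j ⟨gx y, gr y, gq y, ξ⟩ = y := by
  have r : ∀ a b, gr y a _ = _ := h.r
  funext t
  rcases t with i | a | a | ⟨a, b⟩ | b | f
  iterate 3 rfl
  · simp only [mk1, e, Em, r, Sum.elim_inr, Sum.elim_inl]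
    simp
  · exact (congrFun e (.inl _)).trans (by simp only [Em, r, Sum.elim_inl]; simp)
  · simp [mk1, e, Em, show gq y f (some (j f)) = 1 from h.q1 hj f]

end Pm

end Pool.Agent.Lib.MP_78bd4b_ag
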