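import Pool.Agent.Lib.MP_78bd4b_ag.ModB

/-! Transversality for generic parameters. -/

noncomputable section

namespace Pool.Agent.Lib.MP_78bd4b_ag

open Complex Function Finset Filter MvPolynomial

namespace Pm

variable {D : Pm} {σ : D.Par → ℂ} {w : D.Pt} {ι : D.Iy} {j : D.Φ → D.L}

theorem cf_lin (σ δ : D.Par → ℂ) (a : ℂ) (x : D.Ix → ℂ) :
    cf (σ + a • δ) x = cf σ x + a • cf δ x := by
  funext s
  simp [cf, add_mul, sum_add_distrib, mul_sum, mul_assoc]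

theorem cf_surj {x : D.Ix → ℂ} {i : D.Ix} (h : x i = 1) (C : D.Slot → ℂ) : ∃ δ, cf δ x = C :=
  ⟨fun s => if s.2 = fun _ => i then C s.1 else 0, funext fun s => by simp [cf, xm, h]⟩

theorem El_lin (C C' : D.Slot → ℂ) (a : ℂ) (r : Fin 2 → D.In → ℂ) (q : D.Φ → Option D.L → ℂ) :
    El (C + a • C') r q = El C r q + a • El C' r q := by
  funext t
  rcases t with i | i | i | f <;> simp [El, add_mul, sum_add_distrib, mul_sum, mul_assoc, mul_sub]
  ring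

theorem Xf_lin (C C' : D.Slot → ℂ) (a : ℂ) (q : D.Φ → Option D.L → ℂ) :
    Xf (C + a • C') q = Xf C q + a • Xf C' q := by
  funext b
  rcases b with ⟨t, i⟩ | b
  · fin_cases i <;> simp [Xf, add_mul, sum_add_distrib, mul_sum, mul_assoc]
  · rfl

theorem Qm_tw_upd {q : D.Φ → Option D.L → ℂ} (h : ∀ f, q f (some (j f)) = 1) (c : ℂ) (f : D.Φ)
    (o : Option D.L) :
    Qm (tw c q) (update (some ∘ j) f o) = tw c q f o * c ^ (univ.erase f).card := by
  rw [Qm, ← mul_prod_erase _ _ (mem_univ f), update_self, ← prod_const]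
  exact congrArg _ (prod_congr rfl fun g e => by simp [update_of_ne (ne_of_mem_erase e), tw, h])

theorem Nrm.surj (h : Nrm ι w) (hj : ι.2.2.2.2 = some ∘ j) (f0 : D.Φ) (τ : D.T0 → ℂ)
    (τ' : Bs D.T → ℂ) : ∃ C, El C w.r w.q = τ ∧ (w.q f0 none ≠ 0 → Xf C w.q = τ') := by
  have q := h.q1 hj
  let n := Fintype.card D.Φ - 1
  let A t := τ' (.inl (t, 0)) / I ^ n
  let B t := τ' (.inl (t, 1)) / (-I) ^ n
  refine ⟨fun s => match s with
    | .v i => τ (.inl i)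
    | .A i l => ∑ a, if l = ![ι.2.2.1.1, ι.2.2.1.2] a then τ (.inr (.inl (a, i))) else 0
    | .B f l i => if i = j f then τ (.inr (.inr (.inl (f, l)))) else 0
    | .qd f l => if l = some (j f) then -τ (.inr (.inr (.inr f))) else 0
    | .a t J => (if J = update (some ∘ j) f0 (some (j f0)) then (A t - B t) / (2 * I) else 0) +
        if J = update (some ∘ j) f0 none then (A t + B t) / (2 * w.q f0 none) else 0
    | .c t => τ' (.inl (t, 2))
    | .g t J => if J = ι.2.2.2.2 then τ' (.inl (t, 3)) else 0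
    | .h => τ' (.inr ()), funext fun t => ?_, fun z => funext fun b => ?_⟩
  · rcases t with i | ⟨a, i⟩ | ⟨f, l⟩ | f
    · rfl
    · simp only [El, Sum.elim_inr, Sum.elim_inl, sum_mul, ite_mul, zero_mul]
      rw [sum_comm]
      simp only [sum_ite_eq', mem_univ, if_true, h.r]
      simp
    · simp [El, q]
    · simp [El, q]
  · rcases b with ⟨t, i⟩ | b
    · fin_cases i
      · simp only [Xf, add_mul, ite_mul, zero_mul, sum_add_distrib, sum_ite_eq', Qm_tw_upd q]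
        simp [tw, q, A, n]
        field_simp
        ring
      · simp only [Xf, add_mul, ite_mul, zero_mul, sum_add_distrib, sum_ite_eq', Qm_tw_upd q]
        simp [tw, q, B, n]
        field_simp
        ring
      · rfl
      · simp [Xf, h.Qm]
    · rfl

section Fq

variable {J Ω : Type} {G : (Bs D.T ⊕ J → ℂ) → Ω → ℂ} {v : J → ℂ}

/-- all the equations -/
def Fq (G : (Bs D.T ⊕ J → ℂ) → Ω → ℂ) (z : D.Par ⊕ D.I1 ⊕ J → ℂ) : D.T0 ⊕ Ω → ℂ :=
  Sum.elim (El (cf (z ∘ .inl) (gx (z ∘ .inr ∘ .inl))) (gr (z ∘ .inr ∘ .inl))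
    (gq (z ∘ .inr ∘ .inl)) - Em (z ∘ .inr ∘ .inl)) (G (Sum.elim (Xf (cf (z ∘ .inl)
      (gx (z ∘ .inr ∘ .inl))) (gq (z ∘ .inr ∘ .inl))) (z ∘ .inr ∘ .inr)))

theorem rg_El {K : Subring ℂ} {I' : Type} {x : I' → ℂ} {C : (I' → ℂ) → D.Slot → ℂ}
    {r : (I' → ℂ) → Fin 2 → D.In → ℂ} {q : (I' → ℂ) → D.Φ → Option D.L → ℂ}
    (hC : ∀ s, Rg K x (C · s)) (hr : ∀ a i, Rg K x (r · a i)) (hq : ∀ f j, Rg K x (q · f j))
    (t : D.T0) : Rg K x fun y => El (C y) (r y) (q y) t := by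
  rcases t with i | i | i | f
  exacts [hC _, .sum fun _ => (hC _).mul (hr _ _), .sum fun _ => (hC _).mul (hq _ _),
    ((hC _).mul ((hq _ _).pow 2)).sub (.sum fun _ => (hC _).mul ((hq _ _).pow 2))]

theorem rg_Em {K : Subring ℂ} {I' : Type} {x : I' → ℂ} {Y : (I' → ℂ) → D.I1 → ℂ}
    (h : ∀ i, Rg K x (Y · i)) (t : D.T0) : Rg K x fun y => Em (Y y) t := by
  rcases t with i | i | i | f <;> simp only [Em, Sum.elim_inl, Sum.elim_inr, gr, gq]
  exacts [.sum fun _ => (h _).mul (h _), .sum fun _ => (h _).mul (h _), (h _).mul (h _), .zero]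

theorem rg_Fq {y : D.I1 → ℂ}
    (hG : ∀ ω, Rg K0 (Sum.elim (Xf (cf σ (gx y)) (gq y)) v) (G · ω)) (t : D.T0 ⊕ Ω) :
    Rg K0 (Sum.elim σ (Sum.elim y v)) (Fq G · t) := by
  have c := rg_cf (K := K0) (x := Sum.elim σ (Sum.elim y v)) (σ := fun z => z ∘ .inl)
    (X := fun z => gx (z ∘ .inr ∘ .inl)) (fun _ => .coord _) fun _ => .coord _
  have q : ∀ f o, Rg K0 (Sum.elim σ (Sum.elim y v)) fun z => gq (z ∘ .inr ∘ .inl) f o :=
    fun _ _ => .coord _
  rcases t with t | t <;> simp only [Fq, Sum.elim_inl, Sum.elim_inr, Pi.sub_apply]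
  · refine Rg.sub (rg_El c (fun _ _ => ?_) q t) (rg_Em (fun _ => ?_) t) <;> exact .coord _
  · refine Rg.comp (f := (G · t)) (Φ := fun z : D.Par ⊕ D.I1 ⊕ J → ℂ => Sum.elim (Xf (cf (z ∘ .inl)
      (gx (z ∘ .inr ∘ .inl))) (gq (z ∘ .inr ∘ .inl))) (z ∘ .inr ∘ .inr)) (hG t) fun i => ?_
    cases i
    exacts [rg_Xf I_mem c q _, .coord _]

theorem Fq_surj (h : Nrm ι w) (hj : ι.2.2.2.2 = some ∘ j) (b : Base (cf σ w.x) w.r w.q)
    (hG : ∀ τ τ0, ∃ C, El C w.r w.q = τ0 ∧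
      ∀ a : ℂ, G (Sum.elim (Xf (cf σ w.x) w.q + a • Xf C w.q) v) = a • τ) (τ : D.T0 ⊕ Ω → ℂ) :
    ∃ δ : D.Par → ℂ, ∀ a : ℂ,
      Fq G (Sum.elim (σ + a • δ) (Sum.elim (mk1 σ ι.2.2.1 j w) v)) = a • τ := by
  obtain ⟨C, e, e'⟩ := hG (τ ∘ .inr) (τ ∘ .inl)
  obtain ⟨δ, rfl⟩ := cf_surj h.x C
  refine ⟨δ, fun a => ?_⟩
  change Sum.elim (El (cf (σ + a • δ) w.x) w.r w.q - Em (mk1 σ ι.2.2.1 j w))
    (G (Sum.elim (Xf (cf (σ + a • δ) w.x) w.q) v)) = _
  rw [cf_lin, El_lin, Xf_lin, e, e', ← h.el hj b, add_sub_cancel_left]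
  exact funext fun t => by cases t <;> rfl

theorem card_I1 :
    Fintype.card D.I1 = Fintype.card D.T0 + Fintype.card D.Cs + Fintype.card D.T + 2 := by
  simp [D.cx]
  ring

theorem cnt [Fintype J] [Fintype Ω] (hσ : AlgebraicIndependent ℚ σ) (h : Nrm ι w)
    (hj : ι.2.2.2.2 = some ∘ j) (b : Base (cf σ w.x) w.r w.q)
    (hr : ∀ ω, Rg K0 (Sum.elim (Xf (cf σ w.x) w.q) v) (G · ω))
    (hG : ∀ τ τ0, ∃ C, El C w.r w.q = τ0 ∧
      ∀ a : ℂ, G (Sum.elim (Xf (cf σ w.x) w.q + a • Xf C w.q) v) = a • τ)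
    {C : Type} [Fintype C] {c : D.Cs ⊕ C → D.I1} (hc : Injective c)
    (c0 : ∀ i, mk1 σ ι.2.2.1 j w (c i) ∈ K0) :
    Fintype.card Ω + Fintype.card C ≤ Fintype.card D.T + 2 + Fintype.card J := by
  have s := Fq_surj h hj b hG
  have z : Fq G (Sum.elim σ (Sum.elim (mk1 σ ι.2.2.1 j w) v)) = 0 := by
    simpa using (s 0).choose_spec 0
  have := count_tr hσ (Fq G) (rg_Fq (y := mk1 σ ι.2.2.1 j w) hr)
    (fun τ => (s τ).imp fun δ e a => by rw [e, z, zero_add]) (Sum.inl_injective.comp hc) c0 ⊥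
    fun _ => by rw [z]; exact funext fun _ => map_zero _
  rw [finrank_bot, Fintype.card_sum, Fintype.card_sum (β := C), Fintype.card_sum (β := J),
    card_I1] at this
  omega

/-- the model in free coordinates -/
def Yv (σ : D.Par → ℂ) (ι : D.Iy) (G : (J → ℂ) → Bs D.T → ℂ) : Set (D.I1 ⊕ J → ℂ) :=
  {y | Nrm ι ⟨gx (y ∘ .inl), gr (y ∘ .inl), gq (y ∘ .inl), 0⟩ ∧
    El (cf σ (gx (y ∘ .inl))) (gr (y ∘ .inl)) (gq (y ∘ .inl)) = Em (y ∘ .inl) ∧
    Xf (cf σ (gx (y ∘ .inl))) (gq (y ∘ .inl)) = G (y ∘ .inr)}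

theorem reg_Yv [Fintype J] (hσ : AlgebraicIndependent ℚ σ) (h : Nrm ι w)
    (hj : ι.2.2.2.2 = some ∘ j) (b : Base (cf σ w.x) w.r w.q) {f0 : D.Φ} (h0 : w.q f0 none ≠ 0)
    {G : (J → ℂ) → Bs D.T → ℂ} (hr : ∀ i, Rg K0 v (G · i)) (e : Xf (cf σ w.x) w.q = G v) {n : ℕ}
    (hn : n + 3 * Fintype.card D.T = Fintype.card J + 1) :
    Reg (Yv σ ι G) n (Sum.elim (mk1 σ ι.2.2.1 j w) v) := by
  let G' (z : Bs D.T ⊕ J → ℂ) := z ∘ .inl - G (z ∘ .inr)
  have a := rg_Fq (G := G') (σ := σ) (y := mk1 σ ι.2.2.1 j w) (v := v) fun i => (Rg.coord _).sub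
    (Rg.comp (f := (G · i)) (Φ := fun z : Bs D.T ⊕ J → ℂ => z ∘ .inr) (hr i) fun _ => .coord _)
  have b := Fq_surj (G := G') (v := v) h hj b fun τ τ0 => (h.surj hj f0 τ0 τ).imp fun C c =>
    ⟨c.1, fun a => by rw [c.2 h0, e]; exact add_sub_cancel_left ..⟩
  have := reg_tr (n := n) hσ (Fq G') a b (Sum.inl_injective.comp h.inj) h.K0 (by
      rw [Fintype.card_sum, Fintype.card_sum (β := J), card_I1]; simp; omega)
  refine (Set.ext fun y => ?_ : _ = Yv σ ι G) ▸ this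
  refine and_congr ⟨fun c => nrm_of (σ := σ) (j := j) h c 0, fun c i =>
    Eq.trans ?_ (h.cs_eq (σ := σ) (j := j) c i)⟩ ?_
  · rcases i with _ | _ | _ <;> rfl
  rw [Fq, funext_iff, Sum.forall]
  exact and_congr (funext_iff.symm.trans sub_eq_zero) (funext_iff.symm.trans sub_eq_zero)

end Fq

theorem Sol.chart (hσ : AlgebraicIndependent ℚ σ) (h : Sol σ w) : ∃ (ι : D.Iy) (j : D.Φ → D.L)
    (w' : D.Pt), ι.2.2.2.2 = some ∘ j ∧ Sol σ w' ∧ Nrm ι w' ∧ Pj w' = Pj w ∧ w'.ξ ι.1 ≠ 0 ∧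
      ∀ i, Sum.elim (Xf (cf σ w.x) w.q) w.ξ i ≠ 0 → Sum.elim (Xf (cf σ w'.x) w'.q) w'.ξ i ≠ 0 := by
  obtain ⟨i, hi⟩ := Function.ne_iff.1 h.x0
  obtain ⟨ab, hab⟩ := Function.ne_iff.1 h.r0
  obtain ⟨m, hm⟩ := Function.ne_iff.1 h.ξ0
  have : ∀ f, ∃ l, w.q f (some l) ≠ 0 := fun f => by
    by_contra! c
    obtain ⟨d, hd⟩ := exists_der hσ 1
    have e := h.base.e5 f
    simp only [c, zero_pow two_ne_zero, mul_zero, sum_const_zero, mul_eq_zero, pow_eq_zero_iff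
      two_ne_zero] at e
    refine h.q0 f (funext fun o => o.rec (e.resolve_left fun e => ?_) c)
    have : Nonempty D.Ix := ⟨i⟩
    have := congrArg d e
    simp [cf, deg, xm, hd] at this
  choose j hj using this
  obtain ⟨w', a, b, c, d, -⟩ := h.norm (ι := (m, (i, i), ab, some ∘ j, some ∘ j)) (by
    have : Qm w.q (some ∘ j) ≠ 0 := prod_ne_zero_iff.2 fun f _ => hj f
    simp_all [Pj, pur])
  exact ⟨_, j, w', rfl, a, b, c, d (.inr m) hm, d⟩

theorem Nrm.x1 (hσ : AlgebraicIndependent ℚ σ) (h : Nrm ι w) (hj : ι.2.2.2.2 = some ∘ j)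
    (b : Base (cf σ w.x) w.r w.q) : ∃ f, w.q f none ≠ 0 := by
  by_contra! c
  obtain ⟨f0⟩ : Nonempty D.Φ := Fintype.card_pos_iff.1 (by rw [D.cΦ]; omega)
  have := cnt (G := fun _ => 0) (v := (0 : Empty → ℂ)) (Ω := Empty) hσ h hj b (·.elim)
    (fun τ τ0 => (h.surj hj f0 τ0 0).imp fun _ e => ⟨e.1, fun _ => funext (·.elim)⟩)
    (c := Sum.elim (cs ι) fun f => .inr (.inr (.inl (f, none))))
    (h.inj.sumElim (fun _ _ e => by simpa using e) (by
      rintro (_ | _ | _) f <;> simp [cs, hj])) (by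
      rintro (i | f)
      exacts [h.K0 i, ((c f).symm ▸ zero_mem _ : w.q f none ∈ MP_78bd4b_ag.K0)])
  simp [D.cΦ] at this

theorem Sol.rel (h : Sol σ w) (t : D.T) : Xf (cf σ w.x) w.q (.inl (t, 0)) *
    Xf (cf σ w.x) w.q (.inl (t, 1)) = Xf (cf σ w.x) w.q (.inl (t, 2)) ^ D.p t *
      Xf (cf σ w.x) w.q (.inl (t, 3)) := by
  have g := fun i => Val.gen (wt := om D.p D.tor.ex) (u := Sum.elim (Xf (cf σ w.x) w.q) w.ξ)
    (.inl (.inl (t, i)))
  have := ((g 2).zsmul (n := D.p t) (by simp)).add (g 3)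
  rw [(?_ : _ + _ = _ + _)] at this
  · simpa using ((g 0).add (g 1)).uniq h.bin this
  · refine Prod.ext (funext fun v => ?_) (by simp [om])
    rcases v with ⟨t', i⟩ | v
    · by_cases e : t = t' <;> fin_cases i <;> simp [om, wb, e]
    · simp [om, wb]

theorem Nrm.x2 (hσ : AlgebraicIndependent ℚ σ) (h : Nrm ι w) (hj : ι.2.2.2.2 = some ∘ j)
    (s : Sol σ w) : NonEx (Xf (cf σ w.x) w.q) := by
  obtain ⟨f0, h0⟩ := h.x1 hσ hj s.base
  have r := s.rel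
  generalize hX : Xf (cf σ w.x) w.q = X at r
  have key : ∀ e : Fin 3 → Bs D.T, Injective e → (∀ i, X (e i) = 0) →
      (∀ i t k, e i = .inl (t, k) → k ≠ 0 ∧ X (.inl (t, 0)) = 0) → False := fun e e1 e2 e3 => by
    classical
    have := cnt (v := (0 : Empty → ℂ)) (Ω := D.T ⊕ Fin 3) (C := Empty) (G := fun z => Sum.elim
      (fun t => if X (.inl (t, 0)) = 0 then z (.inl (.inl (t, 0))) else z (.inl (.inl (t, 0))) *
        z (.inl (.inl (t, 1))) - z (.inl (.inl (t, 2))) ^ D.p t * z (.inl (.inl (t, 3))))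
      fun i => z (.inl (e i))) hσ h hj s.base (by
        rintro (t | i)
        exacts [(Rg.coord _).ite (((Rg.coord _).mul (.coord _)).sub (((Rg.coord _).pow _).mul
          (.coord _))), .coord _])
      (fun τ τ0 => (h.surj hj f0 τ0 (extend e (τ ∘ .inr) 0 + Sum.elim (fun x =>
        if X (.inl (x.1, 0)) = 0 then (if x.2 = 0 then τ (.inl x.1) else 0) else
          if x.2 = 1 then τ (.inl x.1) / X (.inl (x.1, 0)) else 0) 0)).imp fun _ c =>
        ⟨c.1, fun a => ?_⟩) (c := Sum.elim (cs ι) Empty.elim)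
      (h.inj.sumElim (·.elim) fun _ => (·.elim)) (by
        rintro (i | i)
        exacts [h.K0 i, i.elim])
    · simp at this
    rw [c.2 h0, hX]
    have n : ∀ t k, k = 0 ∨ X (.inl (t, 0)) ≠ 0 → extend e (τ ∘ .inr) 0 (.inl (t, k)) = 0 :=
      fun t k c => extend_apply' _ _ _ fun ⟨i, d⟩ => c.elim (e3 i t k d).1 (· (e3 i t k d).2)
    funext ω
    rcases ω with t | i
    · by_cases d : X (.inl (t, 0)) = 0
      · simp [d, n]
      · simp [d, n, mul_add, r]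
        field_simp
    · have : ∀ b, e i = b → Sum.elim (fun x : D.T × Fin 4 =>
          if X (.inl (x.1, 0)) = 0 then (if x.2 = 0 then τ (.inl x.1) else 0) else
            if x.2 = 1 then τ (.inl x.1) / X (.inl (x.1, 0)) else 0) 0 b = 0 := by
        rintro (⟨t, k⟩ | _) d
        exacts [by simp [e3 i t k d], rfl]
      simp [e2, e1.extend_apply, this _ rfl]
  intro t ⟨a, b, c⟩
  have k := fun x (h1 : .inl (t, 1) ≠ x) (h2 : .inl (t, 2) ≠ x) (h3 : X x = 0)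
      (h4 : ∀ t k, x = .inl (t, k) → k ≠ 0 ∧ X (.inl (t, 0)) = 0) =>
    key ![.inl (t, 1), .inl (t, 2), x] (fun i i' => by
      fin_cases i <;> fin_cases i' <;> simp [h1, h2, h1.symm, h2.symm])
      (fun i => by fin_cases i <;> assumption) fun i => by
        fin_cases i
        iterate 2 rintro _ _ ⟨⟩; exact ⟨by simp, a⟩
        exact h4
  refine ⟨fun d => k _ (by simp) (by simp) d ?_, fun d => k _ (by simp) (by simp) d (by simp),
    fun t' d => by_contra fun e => k (.inl (t', 1)) (by simp [Ne.symm e]) (by simp) d.2.1 ?_⟩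
  · rintro _ _ ⟨⟩
    exact ⟨by simp, a⟩
  · rintro _ _ ⟨⟩
    exact ⟨by simp, d.1⟩

end Pm

end Pool.Agent.Lib.MP_78bd4b_ag
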