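import Pool.Agent.Lib.MP_78bd4b_ag.ModC

/-! The model is a nonsingular real cone. -/

noncomputable section

namespace Pool.Agent.Lib.MP_78bd4b_ag

open Complex Function Finset Filter MvPolynomial

theorem Rg.inr {K : Subring ℂ} {I J : Type} {v : J → ℂ} {f : (J → ℂ) → ℂ} (h : Rg K v f)
    (a : I → ℂ) : Rg K (Sum.elim a v) fun y => f (y ∘ .inr) :=
  Rg.comp (x := Sum.elim a v) (Φ := fun y => y ∘ .inr) h fun _ => .coord _

namespace Pm

variable {D : Pm} {σ : D.Par → ℂ} {w : D.Pt} {ι : D.Iy} {j : D.Φ → D.L}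

theorem RgP.mk1 {I' : Type} {x : I' → ℂ} {W : (I' → ℂ) → D.Pt} (h : RgP x W) (ab : D.In × D.In)
    (i : D.I1) : Rg ⊤ x fun y => mk1 σ ab j (W y) i := by
  have := rg_El (h.cf σ) h.hr h.hq
  rcases i with i | a | a | a | b | f <;> simp only [Pm.mk1, Sum.elim_inl, Sum.elim_inr]
  exacts [h.hx _, h.hr _ _, h.hq _ _, this _, h.cf σ _, this _]

theorem Nrm.sol (h : Nrm ι w) (b : Base (cf σ w.x) w.r w.q)
    (c : Bin (om D.p D.tor.ex) (Sum.elim (Xf (cf σ w.x) w.q) w.ξ)) (d : w.ξ ι.1 ≠ 0) : Sol σ w :=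
  ⟨b, c, fun e => one_ne_zero (h.x.symm.trans (congrFun e _)),
    fun e => one_ne_zero (h.pl.symm.trans (congrFun e _)),
    fun f e => one_ne_zero ((h.q f).symm.trans (congrFun e _)), fun e => d (congrFun e _)⟩

theorem Sol.reg (hσ : AlgebraicIndependent ℚ σ) (h : Sol σ w) : Reg (Z1 σ) 4 (Pj w) := by
  obtain ⟨ι, j, w, hj, h, n, e, hm, -⟩ := h.chart hσ
  rw [← e]
  clear e
  obtain ⟨κ, ν, tc⟩ := D.tor.tc _ h.bin ⟨_, hm⟩ (n.x2 hσ hj h)
  obtain ⟨f0, h0⟩ := n.x1 hσ hj h.base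
  let u (w : D.Pt) := Sum.elim (Xf (cf σ w.x) w.q) w.ξ
  let wt := om D.p D.tor.ex
  let M (z : (D.T × Fin 3) ⊕ Fin 3 → ℂ) (i) := mono z fun l => κ l (wt i)
  let v (w : D.Pt) (l) := mono (u w) (ν l)
  have e0 : M (v w) = u w := funext (tc.back h.bin fun _ a => a)
  have hM : ∀ i, Rg K0 (v w) (M · i) := fun i =>
    .mono (fun _ => .coord _) fun l => tc.pos l i
  let W (y : D.I1 ⊕ (D.T × Fin 3) ⊕ Fin 3 → ℂ) : D.Pt :=
    ⟨gx (y ∘ .inl), gr (y ∘ .inl), gq (y ∘ .inl), fun m => M (y ∘ .inr) (.inr m)⟩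
  have hW : RgP (Sum.elim (mk1 σ ι.2.2.1 j w) (v w)) W := ⟨fun _ => .coord _, fun _ _ => .coord _,
    fun _ _ => .coord _, fun m => (hM (.inr m)).top.inr _⟩
  have e1 : W (Sum.elim (mk1 σ ι.2.2.1 j w) (v w)) = w :=
    congrArg (Pt.mk w.x w.r w.q) (congrArg (· ∘ Sum.inr) e0)
  have p0 : Pj w (pur ι) ≠ 0 := (n.pj ι.1).symm ▸ hm
  have hP := rgP_ps p0
  refine (reg_Yv hσ n hj h.base h0 (G := fun z b => M z (.inl b)) (fun _ => hM _)
    (congrArg (· ∘ Sum.inl) e0.symm) (by simp; omega)).chart (Φ := fun y => Pj (W y))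
    (Ψ := fun y => Sum.elim (mk1 σ ι.2.2.1 j (Ps ι y)) (v (Ps ι y))) (congrArg _ e1) hW.pj
    (fun i => ?_) ?_ ?_
  · cases i
    · exact hP.mk1 _ _
    · exact .mono (hP.u σ) fun i => by rw [n.ps hm]; exact tc.adm _ i
  · filter_upwards [(hW.hξ ι.1).ne (by rw [e1]; exact hm), eventually_all.2 fun l =>
      eventually_imp_distrib_left.2 fun a : v w l ≠ 0 =>
        (Rg.coord (K := ⊤) (x := Sum.elim (mk1 σ ι.2.2.1 j w) (v w)) (.inr l)).ne a]
      with y a b ⟨c, d, e⟩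
    have c : Nrm ι (W y) := ⟨c.x, c.r, c.q⟩
    have f : u (W y) = M (y ∘ .inr) := funext fun i => by
      cases i
      exacts [congrFun e _, rfl]
    refine ⟨.inr ⟨_, c.sol (base_of d) ?_ a, rfl⟩, ?_⟩
    · exact (f.symm ▸ bin_of_fun κ _ fun l i c => b l (tc.pos l i c) : Bin wt (u (W y)))
    · rw [c.ps a, mk1_eq c hj d, show v (W y) = y ∘ .inr from funext fun l => by
        simp only [v, f]; exact tc.forth h.bin b l, Sum.elim_comp_inl_inr]
  · filter_upwards [Z1.ev (σ := σ) p0, eventually_all.2 fun i =>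
      eventually_imp_distrib_left.2 fun a : u w i ≠ 0 =>
        (hP.u σ i).ne (by rw [n.ps hm]; exact a)] with y a b c
    obtain ⟨c, d, e⟩ := a c
    have f : M (v (Ps ι y)) = u (Ps ι y) := funext (tc.back c.bin b)
    exact ⟨⟨⟨d.x, d.r, d.q⟩, d.el hj c.base, congrArg (· ∘ Sum.inl) f.symm⟩,
      (congrArg Pj (congrArg (Pt.mk _ _ _) (congrArg (· ∘ Sum.inr) f))).trans e⟩

theorem Sol.free (hσ : AlgebraicIndependent ℚ σ) (h : Sol σ w) {ε : ℂ} (hε : ε ≠ 0) :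
    Lr (Pj w.tau) ≠ ε • Lr (Pj w) := fun e => by
  have e := congrArg Li e
  rw [← Lr_smul, Li_Lr, Li_Lr, funext_iff] at e
  simp only [Pj_tau] at e
  obtain ⟨ι, j, w, hj, h, n, e', hm, -⟩ := h.chart hσ
  obtain ⟨f0, h0⟩ := n.x1 hσ hj h.base
  rw [← e'] at e
  have a := fun o => e (ι.1, (pur ι).2.1, ι.2.2.1, ι.2.2.2.2, update (some ∘ j) f0 o)
  have q := fun o => Qm_upd w.q (some ∘ j) (n.q1 hj) f0 o
  have a1 := a none
  have a2 := a (some (j f0))
  simp only [Pj, bar, pur, sgn, n.x, n.pl, n.Qm, q, n.q1 hj, Pi.smul_apply, smul_eq_mul,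
    Qm_tw_upd (q := 1) fun _ => rfl, tw, Option.elim, Pi.one_apply, one_pow, mul_one,
    one_mul] at a1 a2
  exact mul_ne_zero (mul_ne_zero hε hm) h0 (by linear_combination (-a1 - w.q f0 none * a2) / 2)

theorem cone4 (D : Pm) {σ : D.Par → ℝ} (hσ : AlgebraicIndependent ℚ fun s => (σ s : ℂ)) :
    Cone4 (Pm.Zt σ) where
  cl := Zt_eq σ ▸ cl_Z1.emb rg_Lr rg_Li fun y _ => Li_Lr y
  smul c := by
    rintro _ (rfl | ⟨w, h, rfl⟩)
    · exact .inl (smul_zero _)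
    · refine (eq_or_ne c 0).imp (fun e => by rw [e, zero_smul]) fun e => ⟨_, h.sc e one_ne_zero
        fun _ => one_ne_zero, ?_⟩
      rw [Pj_sc, Lr_smul]
      simp
  star := by
    rintro _ (rfl | ⟨w, h, rfl⟩)
    exacts [.inl (star_zero _), .inr ⟨_, h.cnj, (Lr_cnj w).symm⟩]
  flip := by
    rintro _ (rfl | ⟨w, h, rfl⟩)
    exacts [.inl (funext fun i => by cases i <;> simp), .inr ⟨_, h.tau, (Lr_tau w).symm⟩]
  free := by
    rintro _ (rfl | ⟨w, h, rfl⟩) z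
    · exact (z rfl).elim
    refine ⟨fun e => h.free hσ (ε := -1) (by simp) ?_, fun e => h.free hσ one_ne_zero ?_⟩ <;>
      rw [Lr_tau] <;> funext i <;> rcases i with i | i <;> simp [show Lr _ _ = 0 from congrFun e i]
  reg := by
    rintro _ (rfl | ⟨w, h, rfl⟩) z
    · exact (z rfl).elim
    rw [Zt_eq]
    exact (h.reg hσ).chart rfl (rg_Lr _) (rg_Li _)
      (.of_forall fun y a => ⟨⟨y, a, rfl⟩, Li_Lr y⟩)
      (.of_forall fun _ ⟨y, a, b⟩ => by rw [← b, Li_Lr]; exact ⟨a, rfl⟩)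

theorem cox_bin (D : Pm) (c : Cv D.T → ℂ) (y : ℂ) :
    Bin (om D.p D.tor.ex) (Sum.elim (Pm.coxb c y) (Pm.cox c y)) := by
  let κ : Option (Cv D.T) → (Cv D.T → ℤ) × ℤ →+ ℤ := fun o => o.elim
    (.mk' (fun g => g.1 (.inr true) + g.1 (.inr false) - 2 * g.2) fun a b => by simp; ring)
    fun v => .mk' (fun g => g.1 v) fun _ _ => rfl
  have := bin_of_fun (wt := om D.p D.tor.ex) κ (fun o => o.elim y c) fun o i e => absurd e (by
    rcases o with _ | v <;> rcases i with b | m <;> simp [κ, om]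
    · positivity
    · have := D.tor.two m
      omega)
  refine (funext fun i => ?_ : _ = Sum.elim _ _) ▸ this
  rcases i with b | m
  · simp [κ, om, mono, coxb, ← zpow_natCast]
  · simp [κ, om, mono, cox, ← zpow_natCast, D.tor.two m]

end Pm

end Pool.Agent.Lib.MP_78bd4b_ag
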