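import Pool.Agent.Lib.MP_78bd4b_ag.ModD

/-! The model is swept out by rational curves. -/

noncomputable section

namespace Pool.Agent.Lib.MP_78bd4b_ag

open Complex Function Finset Filter MvPolynomial
open scoped Topology

theorem Val.sum {U G ι : Type} [Fintype U] [AddCommGroup G] {wt : U → G} {u : U → ℂ}
    (s : Finset ι) {x : ι → G} {c : ι → ℂ} (h : ∀ i, Val wt u (x i) (c i)) :
    Val wt u (∑ i ∈ s, x i) (∏ i ∈ s, c i) := by
  induction s using Finset.cons_induction with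
  | empty => exact Val.zero
  | cons a s _ ih => rw [sum_cons, prod_cons]; exact (h a).add ih

theorem Bin.mul {U G : Type} [Fintype U] [AddCommGroup G] {wt : U → G} {u u' : U → ℂ}
    (h : Bin wt u) (h' : Bin wt u') : Bin wt fun i => u i * u' i := fun f f' e => by
  simp only [mul_pow, prod_mul_distrib, h f f' e, h' f f' e]

namespace Pm

variable {D : Pm} {σ : D.Par → ℂ} {w : D.Pt} {ι : D.Iy} {j : D.Φ → D.L}

variable (D) in
/-- the coordinates `w g1 g2 β` -/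
abbrev Jr : Type := (D.T × Fin 3) ⊕ Unit

/-- the point with `z = 1`, `α = 1` -/
def cv (v : D.Jr → ℂ) : Cv D.T → ℂ := Sum.elim (fun x =>
  ![1, v (.inl (x.1, 0)), v (.inl (x.1, 1)), v (.inl (x.1, 2))] x.2) fun b =>
    if b then 1 else v (.inr ())

/-- its coordinates in terms of the base functions -/
def vc (X : Bs D.T → ℂ) : D.Jr → ℂ := Sum.elim (fun x => ![X (.inl (x.1, 2)), X (.inl (x.1, 0)),
  X (.inl (x.1, 1)) / X (.inl (x.1, 2)) ^ D.p x.1] x.2) fun _ => X (.inr ())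

theorem prod_cv (v : D.Jr → ℂ) (n : Cv D.T → ℕ) : ∏ x, cv v x ^ n x = (∏ t, v (.inl (t, 0)) ^
    n (.inl (t, 1)) * v (.inl (t, 1)) ^ n (.inl (t, 2)) * v (.inl (t, 2)) ^ n (.inl (t, 3))) *
      v (.inr ()) ^ n (.inr false) := by
  simp [cv, Fintype.prod_prod_type, Fin.prod_univ_four]

theorem coxb_cv (v : D.Jr → ℂ) : coxb (cv v) 1 = Sum.elim (fun x => ![v (.inl (x.1, 1)),
    v (.inl (x.1, 0)) ^ D.p x.1 * v (.inl (x.1, 2)), v (.inl (x.1, 0)),
    v (.inl (x.1, 1)) * v (.inl (x.1, 2))] x.2) fun _ => v (.inr ()) := by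
  funext b
  rw [coxb, prod_cv]
  rcases b with ⟨t, i⟩ | b
  · rw [prod_eq_single t (fun t' _ e => by simp [wb, e.symm]) (by simp)]
    fin_cases i <;> simp [wb]
  · simp [wb]

theorem pol_cv (x : Cv D.T) : Pol (cv (D := D) · x) := by
  rcases x with ⟨t, i⟩ | b
  · fin_cases i
    exacts [.const 1, .coord _, .coord _, .coord _]
  · exact (Pol.const 1).ite (.coord _)

theorem rg_coxb (K : Subring ℂ) (v : D.Jr → ℂ) (b : Bs D.T) : Rg K v fun v => coxb (cv v) 1 b := by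
  simp only [coxb_cv]
  rcases b with ⟨t, i⟩ | b
  · fin_cases i
    exacts [.coord _, ((Rg.coord _).pow _).mul (.coord _), .coord _, (Rg.coord _).mul (.coord _)]
  · exact .coord _

theorem cl_Yv : Cl (Yv σ ι fun v => coxb (cv v) 1) := fun y hy => by
  have R : RgP (D := D) y fun y => ⟨gx (y ∘ .inl), gr (y ∘ .inl), gq (y ∘ .inl), 0⟩ :=
    ⟨fun _ => .coord _, fun _ _ => .coord _, fun _ _ => .coord _, fun _ => .zero⟩
  have a := Rg.cl hy (R.hx _) .one (.of_forall fun _ c => c.1.x)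
  have b := fun a b => Rg.cl hy (R.hr _ _) (.const (Subring.mem_top _))
    (.of_forall fun _ c => c.1.r a b)
  have c := fun f => Rg.cl hy (R.hq _ _) .one (.of_forall fun _ c => c.1.q f)
  have d := fun t => Rg.cl hy (rg_El (R.cf σ) R.hr R.hq t)
    (rg_Em (Y := fun y => y ∘ .inl) (fun _ => .coord _) t) (.of_forall fun _ c => congrFun c.2.1 t)
  have e := fun t => Rg.cl hy (R.u σ (.inl t)) (Rg.comp (x := y) (Φ := fun y => y ∘ .inr)
    (rg_coxb ⊤ _ t) fun _ => .coord _) (.of_forall fun _ c => congrFun c.2.2 t)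
  exact ⟨⟨a, b, c⟩, funext d, funext e⟩

theorem be_le (m : D.tor.Mon) : D.tor.ex m (.inr false) ≤ D.Kt :=
  (single_le_sum (f := D.tor.ex m) (fun _ _ => Nat.zero_le _) (mem_univ _)).trans (le_Kt m)

/-- the rational curves -/
def Wr (a : ℂ) (q : Option (D.I1 ⊕ D.Jr) → ℂ) : D.Pt :=
  ⟨gx ((q ∘ some) ∘ .inl), gr ((q ∘ some) ∘ .inl), gq ((q ∘ some) ∘ .inl), fun m =>
    a * (q none ^ (D.tor.ex m (.inr true) + (D.Kt - D.tor.ex m (.inr false))) *
      cox (cv ((q ∘ some) ∘ .inr)) 1 m)⟩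

theorem Pj_Wr (a : ℂ) (q : Option (D.I1 ⊕ D.Jr) → ℂ) : Pj (Wr a q) = a • Pj (Wr 1 q) := by
  funext i
  simp only [Pj, Wr, Pi.smul_apply, smul_eq_mul]
  ring

theorem pol_ξ (m : D.tor.Mon) : Pol fun q => (Wr 1 q).ξ m :=
  (Pol.const 1).mul (((Pol.coord _).pow _).mul ((Pol.const _).mul (.prod fun x =>
    (Pol.comp (Φ := fun q : Option (D.I1 ⊕ D.Jr) → ℂ => (q ∘ some) ∘ .inr) (pol_cv x)
      fun _ => .coord _).pow _)))

theorem pol_R (i : D.Iy ⊕ D.Iy) : Pol fun q => Lr (Pj (Wr 1 q)) i := by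
  have p : ∀ ι : D.Iy, Pol fun q => Pj (Wr 1 q) ι := fun ι =>
    (((pol_ξ _).mul (((Pol.coord _).pow _).mul (.coord _))).mul (((Pol.coord _).mul (.coord _)).sub
      ((Pol.coord _).mul (.coord _)))).mul (((Pol.prod fun _ => .coord _).pow _).mul
        (.prod fun _ => .coord _))
  have a := fun ι => (p ι).add (p (bar ι))
  have b := fun ι => (Pol.const (-I)).mul ((p ι).sub (p (bar ι)))
  cases i
  exacts [(a _).ite (b _), (b _).ite (a _)]

theorem Wr_mem {σ : D.Par → ℝ} {q : Option (D.I1 ⊕ D.Jr) → ℂ}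
    (h : q ∘ some ∈ Yv (fun s => (σ s : ℂ)) ι fun v => coxb (cv v) 1) :
    Lr (Pj (Wr 1 q)) ∈ Zt σ := by
  have n : Nrm ι (Wr 1 q) := ⟨h.1.x, h.1.r, h.1.q⟩
  have b := base_of h.2.1
  rw [Zt_eq]
  refine ⟨_, (eq_or_ne (Wr 1 q).ξ 0).imp (fun e => funext fun i => by simp [Pj, e]) fun e =>
    ⟨Wr 1 q, ⟨b, ?_, fun e => one_ne_zero (n.x.symm.trans (congrFun e _)),
      fun e => one_ne_zero (n.pl.symm.trans (congrFun e _)),
      fun f e => one_ne_zero ((n.q f).symm.trans (congrFun e _)), e⟩, rfl⟩, rfl⟩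
  let κ : Unit → (Cv D.T → ℤ) × ℤ →+ ℤ := fun _ =>
    .mk' (fun g => g.1 (.inr true) + (D.Kt * g.2 - g.1 (.inr false))) fun a b => by simp; ring
  have := (bin_of_fun (wt := om D.p D.tor.ex) κ (fun _ => q none) fun _ i e => absurd e (by
    rcases i with (b | b) | m <;> simp [κ, om, wb]
    have := be_le m
    omega)).mul (D.cox_bin (cv ((q ∘ some) ∘ .inr)) 1)
  refine (funext fun i => ?_ : _ = Sum.elim _ _) ▸ this
  rcases i with b | m
  · refine Eq.trans ?_ ((one_mul _).trans (congrFun h.2.2 b).symm)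
    refine congrArg (· * _) ?_
    rcases b with b | b <;> simp [κ, om, wb, mono]
  · simp only [mono, κ, om, Wr, Sum.elim_inr, AddMonoidHom.mk'_apply, mul_one, one_mul, univ_unique,
      prod_singleton, ← Nat.cast_sub (be_le m), ← Nat.cast_add, zpow_natCast]

section

variable {m1 m2 : D.tor.Mon} (h1 : D.tor.ex m1 = Sum.elim (fun _ => 0) fun _ => 1)
  (h2 : D.tor.ex m2 = Sum.elim (fun x => if x.2 = 1 then D.k x.1 else 0) fun b => if b then 2 else 1)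

/-- the parameter on the curve -/
def Hs (m1 m2 : D.tor.Mon) (u : Bs D.T ⊕ D.tor.Mon → ℂ) : ℂ :=
  u (.inr m2) / (u (.inr m1) * ∏ t, u (.inl (.inl (t, 2))) ^ D.k t)

/-- the inverse of the parametrisation -/
def Hr (σ : D.Par → ℂ) (ab : D.In × D.In) (j : D.Φ → D.L) (m1 m2 : D.tor.Mon) (w : D.Pt) :
    ℂ × (Option (D.I1 ⊕ D.Jr) → ℂ) :=
  (w.ξ m1 / (Hs m1 m2 (Sum.elim (Xf (cf σ w.x) w.q) w.ξ) ^ D.Kt * Xf (cf σ w.x) w.q (.inr ())),
    fun o => o.elim (Hs m1 m2 (Sum.elim (Xf (cf σ w.x) w.q) w.ξ))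
      (Sum.elim (mk1 σ ab j w) (vc (Xf (cf σ w.x) w.q))))

include h1 h2

theorem Hr_Wr (hj : ι.2.2.2.2 = some ∘ j) {a : ℂ} {q : Option (D.I1 ⊕ D.Jr) → ℂ}
    (h : q ∘ some ∈ Yv σ ι fun v => coxb (cv v) 1) (ha : a ≠ 0) (hs : q none ≠ 0)
    (hw : ∀ t, q (some (.inr (.inl (t, 0)))) ≠ 0) (hb : q (some (.inr (.inr ()))) ≠ 0) :
    Hr σ ι.2.2.1 j m1 m2 (Wr a q) = (a, q) := by
  have k : 1 ≤ D.Kt := by simpa [h1] using be_le m1
  have e : Xf (cf σ (Wr a q).x) (Wr a q).q = _ := h.2.2.trans (coxb_cv _)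
  have e1 : (Wr a q).ξ m1 = a * q none ^ D.Kt * q (some (.inr (.inr ()))) := by
    simp only [Wr, cox, prod_cv]
    simp [h1, Nat.add_sub_cancel' k, mul_assoc]
  have e2 : (Wr a q).ξ m2 = (Wr a q).ξ m1 * (∏ t, q (some (.inr (.inl (t, 0)))) ^ D.k t) *
      q none := by
    rw [e1]
    simp only [Wr, cox, prod_cv]
    simp [h2, show 2 + (D.Kt - 1) = D.Kt + 1 by omega]
    ring
  have e3 : Hs m1 m2 (Sum.elim (Xf (cf σ (Wr a q).x) (Wr a q).q) (Wr a q).ξ) = q none := by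
    simp only [Hs, e, e2, Sum.elim_inl, Sum.elim_inr]
    exact mul_div_cancel_left₀ _ (by simp [e1, ha, hs, hb, hw, prod_eq_zero_iff])
  rw [Hr, e3, e1, e]
  refine Prod.ext (by simp; field_simp) (funext fun o => ?_)
  rcases o with _ | i | ⟨t, i⟩ | i
  · rfl
  · exact congrFun (mk1_eq (ξ := (Wr a q).ξ) ⟨h.1.x, h.1.r, h.1.q⟩ hj h.2.1) i
  · fin_cases i <;> simp [vc, hw]
  · rfl

theorem Wr_Hr (h : Sol σ w) (a1 : w.ξ m1 ≠ 0) (a2 : w.ξ m2 ≠ 0)
    (hc : ∀ t, Xf (cf σ w.x) w.q (.inl (t, 2)) ≠ 0) (hh : Xf (cf σ w.x) w.q (.inr ()) ≠ 0)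
    (ab : D.In × D.In) : Wr (Hr σ ab j m1 m2 w).1 (Hr σ ab j m1 m2 w).2 = w := by
  refine congrArg (Pt.mk w.x w.r w.q) (funext fun m => ?_)
  have g := Val.gen (wt := om D.p D.tor.ex) (u := Sum.elim (Xf (cf σ w.x) w.q) w.ξ)
  have s := (g (.inr m2)).add (((g (.inr m1)).add (Val.sum univ fun t =>
    (g (.inl (.inl (t, 2)))).zsmul (n := D.k t) fun _ => hc t)).zsmul (n := -1) fun _ =>
      mul_ne_zero a1 (prod_ne_zero_iff.2 fun t _ => zpow_ne_zero _ (hc t)))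
  have s0 : Hs m1 m2 (Sum.elim (Xf (cf σ w.x) w.q) w.ξ) ≠ 0 :=
    div_ne_zero a2 (mul_ne_zero a1 (prod_ne_zero_iff.2 fun t _ => pow_ne_zero _ (hc t)))
  simp only [zpow_natCast, zpow_neg_one, ← div_eq_mul_inv] at s
  have := ((((g (.inr m1)).add ((g (.inl (.inr ()))).zsmul (n := -1) fun _ => hh)).add
    (s.zsmul (n := we (D.tor.ex m)) fun _ => s0)).add (Val.sum univ fun t =>
      (((g (.inl (.inl (t, 2)))).zsmul (n := D.tor.ex m (.inl (t, 1))) (by simp)).add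
        ((g (.inl (.inl (t, 0)))).zsmul (n := D.tor.ex m (.inl (t, 2))) (by simp))).add
        (((g (.inl (.inl (t, 1)))).add ((g (.inl (.inl (t, 2)))).zsmul (n := -D.p t)
          fun _ => hc t)).zsmul (n := D.tor.ex m (.inl (t, 3))) (by simp)))).add
    ((g (.inl (.inr ()))).zsmul (n := D.tor.ex m (.inr false)) (by simp))
  rw [(?_ : _ + _ = om D.p D.tor.ex (.inr m))] at this
  · refine Eq.trans ?_ (this.uniq h.bin (g _))
    change _ = _ * Hs m1 m2 _ ^ _ * _ * _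
    simp only [Hr, cox, prod_cv, Option.elim, comp_apply, Sum.elim_inr, Sum.elim_inl, vc, we,
      zpow_natCast, zpow_neg, zpow_sub₀ s0, pow_add, pow_sub₀ _ s0 (be_le m), div_eq_mul_inv,
      Matrix.cons_val, one_pow, one_mul]
    field_simp
  · have G := D.tor.gau m
    refine Prod.ext (funext fun v => ?_) (by simp [om, Prod.snd_sum])
    rcases v with ⟨t, i⟩ | b
    · have := G t
      fin_cases i <;> simp [om, Prod.fst_sum, wb, h1, h2, sum_add_distrib]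
      linarith
    · cases b <;> simp [om, Prod.fst_sum, wb, h1, h2, we]
      ring

end

theorem ruled (D : Pm) {σ : D.Par → ℝ} (hσ : AlgebraicIndependent ℚ fun s => (σ s : ℂ))
    {w : D.Pt} (hw : Pm.Sol (fun s => (σ s : ℂ)) w) {c : Cv D.T → ℂ} {y : ℂ} (y0 : y ≠ 0)
    (hz : ∀ t, c (.inl (t, 0)) ≠ 0 ∧ c (.inl (t, 1)) ≠ 0) (ha : ∀ b, c (.inr b) ≠ 0)
    (hX : Pm.Xf (Pm.cf (fun s => (σ s : ℂ)) w.x) w.q = Pm.coxb c y) (hξ : w.ξ = Pm.cox c y) :
    Ruled (Pm.Zt σ) (Pm.Lr (Pm.Pj w)) := by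
  have b2 := D.b2
  obtain ⟨m1, h1⟩ := D.tor.mg (Sum.elim (fun _ => 0) fun _ => 1) (fun t => by simp [we]) (by simp) (by
    rintro (_ | _) <;> simp; omega)
  obtain ⟨m2, h2⟩ := D.tor.mg (Sum.elim (fun x => if x.2 = 1 then D.k x.1 else 0) fun b =>
    if b then 2 else 1) (fun t => by simp [we]) (by simp) (by
      rintro (⟨t, i⟩ | b) <;> simp only [Sum.elim_inl, Sum.elim_inr] <;> split_ifs
      exacts [(D.kb t).1, by omega, b2, by omega])
  obtain ⟨ι, j, w', hj, h, n, e, hm, nz⟩ := hw.chart hσ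
  rw [hX, hξ] at nz
  have p : ∀ n : Cv D.T → ℕ, (∀ t, n (.inl (t, 2)) = 0 ∧ n (.inl (t, 3)) = 0) → ∀ k : ℕ,
      y ^ k * ∏ v, c v ^ n v ≠ 0 := fun n a k => mul_ne_zero (pow_ne_zero _ y0)
    (prod_ne_zero_iff.2 fun v _ => by
      rcases v with ⟨t, i⟩ | b
      · fin_cases i <;> simp [hz, a]
      · simp [ha])
  have a1 : w'.ξ m1 ≠ 0 := nz (.inr m1) (p _ (by simp [h1]) _)
  have a2 : w'.ξ m2 ≠ 0 := nz (.inr m2) (p _ (by simp [h2]) _)
  have hc := fun t => nz (.inl (.inl (t, 2))) (p _ (by simp [wb]) _)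
  have hh := nz (.inl (.inr ())) (p _ (by simp [wb]) _)
  simp only [Sum.elim_inl] at hc hh
  rw [← e]
  clear nz p hX hξ e hw
  obtain ⟨f0, h0⟩ := n.x1 hσ hj h.base
  set σ' : D.Par → ℂ := fun s => σ s
  have r := reg_Yv hσ n hj h.base h0 (v := vc (Xf (cf σ' w'.x) w'.q)) (rg_coxb K0 _) (by
    rw [coxb_cv]
    funext b
    rcases b with ⟨t, i⟩ | b
    · have := hc t
      fin_cases i <;> simp [vc] <;> field_simp
      linear_combination -h.rel t
    · rfl) (n := 2) (by simp; omega)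
  have e := Wr_Hr (j := j) h1 h2 h a1 a2 hc hh ι.2.2.1
  have s0 : Hs m1 m2 (Sum.elim (Xf (cf σ' w'.x) w'.q) w'.ξ) ≠ 0 :=
    div_ne_zero a2 (mul_ne_zero a1 (prod_ne_zero_iff.2 fun t _ => pow_ne_zero _ (hc t)))
  refine ⟨_, inferInstance, _, fun q => Lr (Pj (Wr 1 q)), Hr σ' ι.2.2.1 j m1 m2 w',
    fun y => Hr σ' ι.2.2.1 j m1 m2 (Ps ι (Li y)), cl_Yv, r.mem, r, pol_R, fun q => Wr_mem,
    by rw [← Lr_smul, ← Pj_Wr, e], ?_, ?_⟩
  · have R := rgP_ps (ι := ι) (y := Li (Lr (Pj w'))) (by rw [Li_Lr]; exact (n.pj ι.1).symm ▸ hm)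
    have L := rg_Li (Lr (Pj w'))
    have R : RgP (Lr (Pj w')) fun y => Ps ι (Li y) := ⟨fun i => (R.hx i).comp L,
      fun a i => (R.hr a i).comp L, fun a i => (R.hq a i).comp L, fun a => (R.hξ a).comp L⟩
    have z : Ps ι (Li (Lr (Pj w'))) = w' := by rw [Li_Lr, n.ps hm]
    have S : Rg ⊤ (Lr (Pj w')) fun y => Hs m1 m2 (Sum.elim (Xf (cf σ' (Ps ι (Li y)).x)
        (Ps ι (Li y)).q) (Ps ι (Li y)).ξ) := (R.u σ' _).div ((R.u σ' _).mul (.prod fun t =>
      (R.u σ' _).pow _)) (by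
        rw [z]; exact mul_ne_zero a1 (prod_ne_zero_iff.2 fun t _ => pow_ne_zero _ (hc t)))
    refine ((R.hξ m1).div ((S.pow _).mul (R.u σ' (.inl (.inr ())))) (by
      rw [z]; exact mul_ne_zero (pow_ne_zero _ s0) hh)).ana.differentiableAt.prodMk
      (Rg.anaV (K := ⊤) fun o => ?_).differentiableAt
    rcases o with _ | i | ⟨t, i⟩ | i
    · exact S
    · exact R.mk1 _ i
    · fin_cases i
      exacts [R.u σ' (.inl (.inl (t, 2))), R.u σ' (.inl (.inl (t, 0))),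
        (R.u σ' (.inl (.inl (t, 1)))).div ((R.u σ' (.inl (.inl (t, 2)))).pow _)
          (by rw [z]; exact pow_ne_zero _ (hc t))]
    · exact R.u σ' (.inl (.inr ()))
  · have x : ∀ a q, (Wr a q).ξ ι.1 = a * (Wr 1 q).ξ ι.1 := fun _ _ => by simp [Wr]
    filter_upwards [(continuousAt_fst.mul ((pol_ξ ι.1).rg.ana.continuousAt.comp
      continuousAt_snd)).eventually_ne (y := 0) (by rw [← e, x] at hm; exact hm),
      eventually_all.2 fun o => eventually_imp_distrib_left.2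
        fun a : (Hr σ' ι.2.2.1 j m1 m2 w').2 o ≠ 0 =>
        ((continuous_apply o).comp continuous_snd).continuousAt.eventually_ne a] with q a b d
    rw [← Lr_smul, ← Pj_Wr, Li_Lr, Nrm.ps (w := Wr q.1 q.2) ⟨d.1.x, d.1.r, d.1.q⟩ (by rw [x]; exact a)]
    exact Hr_Wr h1 h2 hj d (left_ne_zero_of_mul a) (b _ s0) (fun t => b _ (hc t)) (b _ hh)

end Pm

end Pool.Agent.Lib.MP_78bd4b_ag
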