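import Pool.Agent.Lib.MP_78bd4b_ag.Pack4

/-! Job Q: from a cone with a free involution to a uniruled model. -/

noncomputable section

namespace Pool.Agent.Lib.MP_78bd4b_ag

open MvPolynomial Filter Function Module Pk
open scoped Topology Manifold ContDiff

theorem Pk.ruled_uni {A B : Type} [Fintype A] [Fintype B] {Z : Set (A ⊕ B → ℂ)} (hZ : Cone4 Z)
    {n : ℕ} (σ : (A × A) ⊕ (B × B) ≃ Fin n) (hs : ∀ c : ℂ, ∀ y ∈ ri σ (sq2 '' Z),
      c • y ∈ ri σ (sq2 '' Z)) {y0 : A ⊕ B → ℂ} (hy : y0 ∈ Z) (y00 : y0 ≠ 0) (hR : Ruled Z y0) :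
    Uniruled3 (zeroLocus ℂ (pI (ri σ (sq2 '' Z)) (sq2 y0 ∘ σ.symm))) := by
  obtain ⟨J, _, Y, R, ⟨c0, q0⟩, H, hY, -, hr, hP, hRZ, e0, hH, hinv⟩ := hR
  choose P hP using hP
  replace hP : ∀ i y, R y i = aeval y (P i) := hP
  let τ := Fintype.equivFin J
  have hr' := hr
  obtain ⟨φ, ha, eφ, hφ, hi, -⟩ := hr'
  let R2 : Fin n → MvPolynomial (Option (Fin (Fintype.card J))) ℂ :=
    sq2 (fun i => rename (Option.map τ) (P i)) ∘ σ.symm
  have eR : ∀ (t : ℂ) (y : Fin (Fintype.card J) → ℂ), (fun i => aeval (fun o => o.elim t y) (R2 i)) =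
      sq2 (R fun o => o.elim t (y ∘ τ)) ∘ σ.symm := by
    intro t y
    have h1 : ∀ i, aeval (fun o : Option (Fin (Fintype.card J)) => o.elim t y)
        (rename (Option.map τ) (P i)) = R (fun o => o.elim t (y ∘ τ)) i := fun i => by
      rw [aeval_rename, hP]
      congr 2
      funext o
      cases o <;> rfl
    funext i
    simp only [R2, comp_apply]
    cases σ.symm i <;> simp only [sq2, Sum.elim_inl, Sum.elim_inr, map_mul, h1]
  have ec : ∀ y : J → ℂ, (y ∘ τ.symm) ∘ τ = y := fun y => funext fun i => by simp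
  have es : ∀ y : (A × A) ⊕ (B × B) → ℂ, (y ∘ σ.symm) ∘ σ = y := fun y => funext fun i => by simp
  have c00 : c0 ≠ 0 := by
    rintro rfl
    exact y00 (by simpa using e0)
  let η : ℂ × ℂ × (Fin 2 → ℂ) → ℂ × (Option J → ℂ) := fun w => (w.1, fun o => o.elim w.2.1 (φ w.2.2))
  let w0 : ℂ × ℂ × (Fin 2 → ℂ) := (c0, q0 none, 0)
  have η0 : η w0 = (c0, q0) := by
    refine Prod.ext rfl (funext fun o => ?_)
    cases o with
    | none => rfl
    | some j => exact congrFun eφ j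
  have aφ : AnalyticAt ℂ (fun w : ℂ × ℂ × (Fin 2 → ℂ) => φ w.2.2) w0 :=
    AnalyticAt.comp (g := φ) (f := fun w : ℂ × ℂ × (Fin 2 → ℂ) => w.2.2) ha
      (analyticAt_snd.comp analyticAt_snd)
  have aη2 : ∀ o, AnalyticAt ℂ (fun w => (η w).2 o) w0 := fun o => by
    cases o with
    | none => exact analyticAt_fst.comp analyticAt_snd
    | some j => exact analyticAt_pi_iff.1 aφ j
  have aη : AnalyticAt ℂ η w0 := analyticAt_fst.prod (analyticAt_pi_iff.2 aη2)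
  let G0 : ℂ × ℂ × (Fin 2 → ℂ) → A ⊕ B → ℂ := fun w => (η w).1 • R (η w).2
  have aG : AnalyticAt ℂ G0 w0 := analyticAt_fst.smul (analyticAt_pi_iff.2 fun i => by
    simp only [hP]
    exact AnalyticAt.aeval_mvPolynomial aη2 _)
  have G00 : G0 w0 = y0 := by
    simp only [G0, η0]
    exact e0.symm
  have t2 : Tendsto (fun w : ℂ × ℂ × (Fin 2 → ℂ) => w.2.2) (𝓝 w0) (𝓝 0) :=
    (continuous_snd.comp continuous_snd).tendsto w0
  have inj0 : Injective (fderiv ℂ G0 w0) := by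
    rw [injective_iff_map_eq_zero]
    intro v hv
    let T : (ℂ × (Option J → ℂ)) →L[ℂ] ℂ × ℂ × (J → ℂ) := (ContinuousLinearMap.fst ℂ _ _).prod
      (((ContinuousLinearMap.proj none).comp (ContinuousLinearMap.snd ℂ _ _)).prod
        ((cmp some).comp (ContinuousLinearMap.snd ℂ _ _)))
    have h1 : HasFDerivAt (T ∘ H ∘ G0) (T.comp ((fderiv ℂ H y0).comp (fderiv ℂ G0 w0))) w0 :=
      T.hasFDerivAt.comp w0 ((G00.symm ▸ hH.hasFDerivAt :
        HasFDerivAt H (fderiv ℂ H y0) (G0 w0)).comp w0 aG.differentiableAt.hasFDerivAt)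
    have h2 : HasFDerivAt (fun w : ℂ × ℂ × (Fin 2 → ℂ) => (w.1, w.2.1, φ w.2.2))
        ((ContinuousLinearMap.fst ℂ _ _).prod
          (((ContinuousLinearMap.fst ℂ _ _).comp (ContinuousLinearMap.snd ℂ _ _)).prod
          ((fderiv ℂ φ 0).comp
            ((ContinuousLinearMap.snd ℂ _ _).comp (ContinuousLinearMap.snd ℂ _ _))))) w0 :=
      hasFDerivAt_fst.prodMk ((hasFDerivAt_fst.comp w0 hasFDerivAt_snd).prodMk
        (HasFDerivAt.comp w0 (g := φ) (f := fun w : ℂ × ℂ × (Fin 2 → ℂ) => w.2.2)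
          ha.differentiableAt.hasFDerivAt (hasFDerivAt_snd.comp w0 hasFDerivAt_snd)))
    have h3 : (fun w : ℂ × ℂ × (Fin 2 → ℂ) => (w.1, w.2.1, φ w.2.2)) =ᶠ[𝓝 w0] T ∘ H ∘ G0 := by
      have t1 : Tendsto η (𝓝 w0) (𝓝 (c0, q0)) := η0 ▸ aη.continuousAt.tendsto
      filter_upwards [t1.eventually hinv, t2.eventually hφ] with w a b
      simp only [comp_apply, G0, a b]
      rfl
    have h4 := congrArg (fun L : (ℂ × ℂ × (Fin 2 → ℂ)) →L[ℂ] ℂ × ℂ × (J → ℂ) => L v)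
      (h2.unique (h1.congr_of_eventuallyEq h3))
    simp only [ContinuousLinearMap.comp_apply, hv, map_zero, ContinuousLinearMap.prod_apply,
      Prod.mk_eq_zero, ContinuousLinearMap.coe_fst', ContinuousLinearMap.coe_snd'] at h4
    exact Prod.ext h4.1 (Prod.ext h4.2.1 ((injective_iff_map_eq_zero _).1 hi _ h4.2.2))
  obtain ⟨f1, f2⟩ := hZ.free y0 hy y00
  have hG : HasStrictFDerivAt (fun w => cmp σ.symm (sq2 (G0 w)))
      ((cmp σ.symm).comp ((dsq y0).comp (fderiv ℂ G0 w0))) w0 := by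
    have h1 := (sq2_ana (G0 w0)).hasStrictFDerivAt
    rw [(sq2_has _).fderiv] at h1
    have h2 := h1.comp w0 aG.hasStrictFDerivAt
    rw [G00] at h2
    exact (cmp σ.symm).hasStrictFDerivAt.comp w0 h2
  refine uniruled_of hs (ri_reg σ (quot_reg hZ hy y00)) (ri_cl τ hY) (ri_reg τ hr) R2
    (fun y hy t => ?_) (c0 := c0 * c0) (t0 := q0 none) (mul_ne_zero c00 c00) ?_ (by simp) hG
    (by rw [G00]; rfl) ?_ ?_
  · rw [eR]
    show (_ ∘ σ.symm) ∘ σ ∈ sq2 '' Z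
    rw [es]
    exact ⟨_, hRZ (fun o => o.elim t (y ∘ τ)) hy, rfl⟩
  · have h1 : (fun o : Option J => o.elim (q0 none) (q0 ∘ some)) = q0 := funext fun o => by
      cases o <;> rfl
    rw [eR, ec, h1, e0, sq2_smul]
    rfl
  · refine Injective.comp (g := cmp σ.symm) (fun a b h => ?_) ((dsq_inj f1 f2).comp inj0)
    rw [← es a, ← es b]
    exact congrArg (· ∘ σ) h
  · have t3 : Tendsto (fun w : ℂ × ℂ × (Fin 2 → ℂ) => cmp τ.symm (φ w.2.2)) (𝓝 w0)
        (𝓝 ((q0 ∘ some) ∘ τ.symm)) := by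
      have := ((cmp τ.symm).continuous.tendsto _).comp aφ.continuousAt.tendsto
      rwa [show φ w0.2.2 = q0 ∘ some from eφ] at this
    filter_upwards [t3.eventually (near_comp (ri τ Y) _), t2.eventually hφ] with w a b
    refine ⟨w.1 * w.1, w.2.1, _, a (show (φ w.2.2 ∘ τ.symm) ∘ τ ∈ Y by rwa [ec]), ?_⟩
    rw [eR, show cmp τ.symm (φ w.2.2) ∘ τ = φ w.2.2 from ec _]
    simp only [G0, sq2_smul]
    rfl

theorem pack {A B : Type} [Fintype A] [Fintype B] {Z : Set (A ⊕ B → ℂ)} (hZ : Cone4 Z)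
    {M : Type*} [TopologicalSpace M] [ChartedSpace (EuclideanSpace ℝ (Fin 3)) M]
    [ConnectedSpace M] [IsManifold (𝓡 3) ∞ M] {e : M → (A × A) ⊕ (B × B) → ℝ}
    (sm : ContMDiff (𝓡 3) 𝓘(ℝ, (A × A) ⊕ (B × B) → ℝ) ∞ e)
    (mem : ∀ m, ∃ y ∈ Z, ∀ i, (e m i : ℂ) = sq2 y i)
    (Λ : ((A × A) ⊕ (B × B) → ℝ) →ₗ[ℝ] ℝ) (hΛ : ∀ m, Λ (e m) = 1) (inj : Injective e)
    (imm : ∀ m, Injective (mfderiv (𝓡 3) 𝓘(ℝ, (A × A) ⊕ (B × B) → ℝ) e m))
    (m0 : M) {y0 : A ⊕ B → ℂ} (h0 : ∀ i, (e m0 i : ℂ) = sq2 y0 i) (hy : y0 ∈ Z)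
    (hR : Ruled Z y0) : HasUniruledModel M := by
  let σ := Fintype.equivFin ((A × A) ⊕ (B × B))
  let T : ((A × A) ⊕ (B × B) → ℝ) ≃L[ℝ] Fin (Fintype.card ((A × A) ⊕ (B × B))) → ℝ :=
    (LinearEquiv.funCongrLeft ℝ ℝ σ.symm).toContinuousLinearEquiv
  have hT : ∀ x, T x = x ∘ σ.symm := fun _ => rfl
  have es : ∀ y : (A × A) ⊕ (B × B) → ℂ, (y ∘ σ.symm) ∘ σ = y := fun y => funext fun i => by simp
  have hs : ∀ c : ℂ, ∀ y ∈ ri σ (sq2 '' Z), c • y ∈ ri σ (sq2 '' Z) := by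
    rintro c y ⟨z, hz, ez⟩
    obtain ⟨a, rfl⟩ := IsAlgClosed.exists_eq_mul_self c
    exact ⟨a • z, hZ.smul a z hz, by rw [sq2_smul, ez]; rfl⟩
  have y00 : y0 ≠ 0 := by
    rintro rfl
    have : e m0 = 0 := funext fun i => by
      have := h0 i
      cases i <;> simpa [sq2] using this
    simpa [this] using hΛ m0
  refine model_of (ri_cl σ (quot_cl hZ)) hs ?_ ?_ (e := T ∘ e)
    (T.toContinuousLinearMap.contMDiff.comp sm) (fun m => ?_) (Λ.comp T.symm.toContinuousLinearMap.toLinearMap)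
    (fun m => by simpa using hΛ m) (T.injective.comp inj) (fun m => ?_) m0 ?_
  · rintro y ⟨z, hz, ez⟩
    exact ⟨star z, hZ.star z hz, by rw [sq2_star, ez]; rfl⟩
  · rintro y ⟨z, hz, ez⟩ y0
    have h1 : y = sq2 z ∘ σ.symm := funext fun i => by simp [ez]
    rw [h1]
    refine ri_reg σ (quot_reg hZ hz ?_)
    rintro rfl
    refine y0 (h1.trans (funext fun i => ?_))
    simp only [comp_apply]
    cases σ.symm i <;> simp [sq2]
  · obtain ⟨y, hy, ey⟩ := mem m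
    exact ⟨y, hy, funext fun i => by simp [hT, ey]⟩
  · have h1 := (T.toContinuousLinearMap.hasMFDerivAt.comp m
      (sm.mdifferentiableAt (x := m) (by simp)).hasMFDerivAt).mfderiv
    erw [h1]
    exact T.injective.comp (imm m)
  · have h1 : algebraMap ℝ ℂ ∘ (T ∘ e) m0 = sq2 y0 ∘ σ.symm := funext fun i => by simp [hT, h0]
    rw [h1]
    exact ruled_uni hZ σ hs hy y00 hR

end Pool.Agent.Lib.MP_78bd4b_ag
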