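import Pool.Agent.Lib.MP_78bd4b_ag.Core

/-! Job Q, part 1: the open mapping lemma and local parametrisations. -/

noncomputable section

namespace Pool.Agent.Lib.MP_78bd4b_ag.Pk

open MvPolynomial Filter Function Module
open scoped Topology

section Open

variable {𝕜 E H D : Type*} [RCLike 𝕜] [NormedAddCommGroup E] [NormedSpace 𝕜 E]
  [FiniteDimensional 𝕜 E] [NormedAddCommGroup H] [NormedSpace 𝕜 H] [FiniteDimensional 𝕜 H]
  [NormedAddCommGroup D] [NormedSpace 𝕜 D]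

omit [FiniteDimensional 𝕜 E] in
theorem left_inv {F' : E →L[𝕜] H} (hi : Injective F') : ∃ L : H →L[𝕜] E, ∀ u, L (F' u) = u := by
  obtain ⟨L, hL⟩ := LinearMap.exists_leftInverse_of_injective (F' : E →ₗ[𝕜] H)
    (LinearMap.ker_eq_bot.2 hi)
  exact ⟨LinearMap.toContinuousLinearMap L, fun u => LinearMap.congr_fun hL u⟩

omit [FiniteDimensional 𝕜 E] [FiniteDimensional 𝕜 H] in
theorem strict_id {F : E → H} {F' : E →L[𝕜] H} {x : E} (h : HasStrictFDerivAt F F' x)
    {L : H →L[𝕜] E} (hL : ∀ u, L (F' u) = u) :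
    HasStrictFDerivAt (L ∘ F) (ContinuousLinearEquiv.refl 𝕜 E : E →L[𝕜] E) x := by
  have h1 := L.hasStrictFDerivAt.comp x h
  have h2 : L.comp F' = (ContinuousLinearEquiv.refl 𝕜 E : E →L[𝕜] E) :=
    ContinuousLinearMap.ext fun u => hL u
  rw [h2] at h1
  exact h1

theorem loc_inj {F : E → H} {F' : E →L[𝕜] H} {x : E} (h : HasStrictFDerivAt F F' x)
    (hi : Injective F') : ∃ s ∈ 𝓝 x, Set.InjOn F s := by
  have := FiniteDimensional.complete 𝕜 E
  obtain ⟨L, hL⟩ := left_inv hi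
  have h1 := strict_id h hL
  refine ⟨_, h1.eventually_left_inverse, fun a ha b hb e => ?_⟩
  simp only [Set.mem_ofPred_eq, comp_apply] at ha hb
  rw [← ha, ← hb, e]

theorem open_lemma [FiniteDimensional 𝕜 D] {F : E → H} {F' : E →L[𝕜] H} {x : E}
    (hF : HasStrictFDerivAt F F' x) {G : D → E} {G' : D →L[𝕜] E} {w0 : D}
    (hG : HasStrictFDerivAt G G' w0) (e : G w0 = x) (h0 : ∀ᶠ w in 𝓝 w0, F (G w) = 0)
    (hi : Injective G') (hk : ∀ u, F' u = 0 → ∃ w, G' w = u) {s : Set D} (hs : s ∈ 𝓝 w0) :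
    ∀ᶠ y in 𝓝 x, F y = 0 → ∃ w ∈ s, G w = y := by
  have := FiniteDimensional.complete 𝕜 D
  obtain ⟨L, hL⟩ := left_inv hi
  have h1 := strict_id hG hL
  obtain ⟨U, hU, hinj⟩ := loc_inj (hF.prodMk L.hasStrictFDerivAt) (by
    rw [injective_iff_map_eq_zero]
    intro u hu
    simp only [ContinuousLinearMap.prod_apply, Prod.mk_eq_zero] at hu
    obtain ⟨w, rfl⟩ := hk u hu.1
    rw [hL] at hu
    rw [hu.2, map_zero])
  have hc : Tendsto G (𝓝 w0) (𝓝 x) := e ▸ hG.continuousAt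
  have h2 : (L ∘ G) '' (s ∩ {w | F (G w) = 0} ∩ G ⁻¹' U) ∈ 𝓝 (L x) := by
    have := h1.map_nhds_eq_of_equiv
    rw [comp_apply, e] at this
    rw [← this]
    exact image_mem_map (inter_mem (inter_mem hs h0) (hc hU))
  filter_upwards [L.continuous.continuousAt h2, hU] with y hy hyU hy0
  obtain ⟨w, ⟨⟨a, b⟩, c⟩, d⟩ := hy
  refine ⟨w, a, hinj c hyU ?_⟩
  simp only [Prod.mk.injEq]
  exact ⟨by rw [hy0]; exact b, d⟩

end Open

variable {I : Type} [Fintype I]

theorem ana (f : MvPolynomial I ℂ) (x : I → ℂ) : AnalyticAt ℂ (fun y : I → ℂ => aeval y f) x :=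
  AnalyticAt.aeval_mvPolynomial
    (fun i => (ContinuousLinearMap.proj (R := ℂ) (φ := fun _ : I => ℂ) i).analyticAt x) f

/-- the differential of a polynomial at `x` -/
def dv (x : I → ℂ) : MvPolynomial I ℂ →ₗ[ℂ] Dual ℂ (I → ℂ) where
  toFun f := ∑ i, aeval x (pderiv i f) • LinearMap.proj (R := ℂ) (φ := fun _ : I => ℂ) i
  map_add' p q := by simp only [map_add, add_smul, Finset.sum_add_distrib]
  map_smul' c p := by simp [Finset.smul_sum, mul_smul]

theorem dv_apply (x : I → ℂ) (f : MvPolynomial I ℂ) (u : I → ℂ) :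
    dv x f u = ∑ i, aeval x (pderiv i f) * u i := by
  simp [dv]

theorem dv_mul (x : I → ℂ) (f g : MvPolynomial I ℂ) (u : I → ℂ) :
    dv x (f * g) u = aeval x f * dv x g u + aeval x g * dv x f u := by
  simp [dv_apply, Finset.sum_add_distrib, add_mul, Finset.mul_sum, mul_assoc]

theorem dv_X (x : I → ℂ) (i : I) (u : I → ℂ) : dv x (X i) u = u i := by
  classical
  simp [dv_apply, Pi.single_apply, apply_ite (aeval x)]

theorem dv_C (x : I → ℂ) (c : ℂ) (u : I → ℂ) : dv x (C c) u = 0 := by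
  simp [dv_apply]

theorem hasF (f : MvPolynomial I ℂ) (x : I → ℂ) : HasFDerivAt (fun y : I → ℂ => aeval y f)
    (LinearMap.toContinuousLinearMap (dv x f)) x := by
  induction f using MvPolynomial.induction_on with
  | C a =>
    simp only [aeval_C]
    exact (hasFDerivAt_const _ x).congr_fderiv (ContinuousLinearMap.ext fun u => (dv_C x a u).symm)
  | add p q hp hq =>
    simp only [map_add]
    exact hp.add hq
  | mul_X p i hp =>
    have h := hp.mul (ContinuousLinearMap.proj (R := ℂ) (φ := fun _ : I => ℂ) i).hasFDerivAt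
    simp only [map_mul, aeval_X]
    refine HasFDerivAt.congr_fderiv h (ContinuousLinearMap.ext fun u => ?_)
    simp [dv_mul, dv_X]

theorem fd_eq (x : I → ℂ) (f : MvPolynomial I ℂ) (u : I → ℂ) :
    fderiv ℂ (fun y : I → ℂ => aeval y f) x u = dv x f u := by
  rw [(hasF f x).fderiv]
  rfl

variable {Z : Set (I → ℂ)} {x : I → ℂ}

theorem mem_tan {u : I → ℂ} : u ∈ Tan Z x ↔ ∀ f ∈ vanishingIdeal ℂ Z, dv x f u = 0 := by
  constructor
  · intro h f hf
    rw [← fd_eq]; exact h f hf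
  · intro h f hf
    rw [fd_eq]; exact h f hf

/-- the chain rule for a polynomial after a map -/
theorem chain {D : Type*} [NormedAddCommGroup D] [NormedSpace ℂ D] {G : D → I → ℂ}
    {G' : D →L[ℂ] I → ℂ} {w0 : D} (hG : HasFDerivAt G G' w0) (f : MvPolynomial I ℂ) (w : D) :
    fderiv ℂ (fun w => aeval (G w) f) w0 w = dv (G w0) f (G' w) := by
  have h := ((ana f (G w0)).differentiableAt.hasFDerivAt.comp w0 hG).fderiv
  rw [← fd_eq]
  exact congrArg (fun L : D →L[ℂ] ℂ => L w) h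

theorem tan_of {D : Type*} [NormedAddCommGroup D] [NormedSpace ℂ D] {G : D → I → ℂ}
    {G' : D →L[ℂ] I → ℂ} {w0 : D} (hG : HasFDerivAt G G' w0) (hZ : ∀ᶠ w in 𝓝 w0, G w ∈ Z)
    (w : D) : G' w ∈ Tan Z (G w0) := by
  rw [mem_tan]
  intro f hf
  rw [← chain hG]
  have : (fun w => aeval (G w) f) =ᶠ[𝓝 w0] fun _ => (0 : ℂ) := hZ.mono fun w hw => hf _ hw
  rw [this.fderiv_eq]
  simp

/-- the conormal space -/
def con (Z : Set (I → ℂ)) (x : I → ℂ) : Submodule ℂ (Dual ℂ (I → ℂ)) :=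
  ((vanishingIdeal ℂ Z).restrictScalars ℂ).map (dv x)

theorem tan_eq : Tan Z x = (con Z x).dualCoannihilator := by
  refine Submodule.ext fun u => ?_
  rw [mem_tan, Submodule.mem_dualCoannihilator]
  constructor
  · rintro h _ ⟨f, hf, rfl⟩
    exact h f hf
  · intro h f hf
    exact h _ ⟨f, hf, rfl⟩

theorem ann_tan {l : Dual ℂ (I → ℂ)} (h : ∀ u ∈ Tan Z x, l u = 0) :
    ∃ f ∈ vanishingIdeal ℂ Z, dv x f = l := by
  have : l ∈ (con Z x).dualCoannihilator.dualAnnihilator := by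
    rw [← tan_eq, Submodule.mem_dualAnnihilator]
    exact h
  rw [Subspace.dualCoannihilator_dualAnnihilator_eq] at this
  exact this

theorem exists_eqs (Z : Set (I → ℂ)) (x : I → ℂ) : ∃ c : ℕ,
    c + finrank ℂ (Tan Z x) = Fintype.card I ∧ ∃ f : Fin c → MvPolynomial I ℂ,
      (∀ j, f j ∈ vanishingIdeal ℂ Z) ∧ LinearIndependent ℂ (fun j => dv x (f j)) ∧
      ∀ u, (∀ j, dv x (f j) u = 0) → u ∈ Tan Z x := by
  let b := Module.finBasis ℂ (con Z x)
  have h : ∀ j, ∃ f ∈ vanishingIdeal ℂ Z, dv x f = b j := fun j => (b j).2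
  choose f hf e using h
  refine ⟨finrank ℂ (con Z x), ?_, f, hf, ?_, fun u hu => ?_⟩
  · rw [tan_eq, Subspace.finrank_add_finrank_dualCoannihilator_eq]
    simp
  · simp only [e]
    exact b.linearIndependent.map' (con Z x).subtype (Submodule.ker_subtype _)
  · rw [tan_eq, Submodule.mem_dualCoannihilator]
    intro l hl
    have h1 := congrArg (fun t : con Z x => (t : Dual ℂ (I → ℂ)) u) (b.sum_repr ⟨l, hl⟩)
    simp only [e] at hu
    simp only [Submodule.coe_sum, Submodule.coe_smul, LinearMap.coe_sum, Finset.sum_apply,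
      LinearMap.smul_apply, hu, smul_zero, Finset.sum_const_zero] at h1
    exact h1.symm

theorem param_eqs {c : ℕ} {f : Fin c → MvPolynomial I ℂ} (hf : ∀ j, f j ∈ vanishingIdeal ℂ Z)
    (hk : ∀ u, (∀ j, dv x (f j) u = 0) → u ∈ Tan Z x) {D : Type*} [NormedAddCommGroup D]
    [NormedSpace ℂ D] [FiniteDimensional ℂ D] {G : D → I → ℂ} {G' : D →L[ℂ] I → ℂ} {w0 : D}
    (hG : HasStrictFDerivAt G G' w0) (e : G w0 = x) (hZ : ∀ᶠ w in 𝓝 w0, G w ∈ Z)
    (hi : Injective G') (hd : finrank ℂ (Tan Z x) = finrank ℂ D) {s : Set D} (hs : s ∈ 𝓝 w0) :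
    ∀ᶠ y in 𝓝 x, (∀ j, aeval y (f j) = 0) → ∃ w ∈ s, G w = y := by
  have hF : HasStrictFDerivAt (fun y : I → ℂ => fun j => aeval y (f j))
      (ContinuousLinearMap.pi fun j => fderiv ℂ (fun y : I → ℂ => aeval y (f j)) x) x :=
    hasStrictFDerivAt_pi.2 fun j => (ana (f j) x).hasStrictFDerivAt
  have hr : LinearMap.range (G' : D →ₗ[ℂ] I → ℂ) = Tan Z x := by
    refine Submodule.eq_of_le_of_finrank_eq ?_ ?_
    · rintro _ ⟨w, rfl⟩
      exact e ▸ tan_of hG.hasFDerivAt hZ w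
    · rw [hd, LinearMap.finrank_range_of_inj hi]
  refine (open_lemma hF hG e (hZ.mono fun w hw => funext fun j => hf j _ hw) hi
    (fun u hu => ?_) hs).mono fun y hy h0 => hy (funext h0)
  have : u ∈ Tan Z x := hk u fun j => by
    rw [← fd_eq]; exact congrFun hu j
  rw [← hr] at this
  exact this

theorem reg_finrank {d : ℕ} (h : Reg Z d x) : finrank ℂ (Tan Z x) = d := by
  obtain ⟨φ, ha, e, hZ, hi, hT⟩ := h
  have hr : LinearMap.range (fderiv ℂ φ 0 : (Fin d → ℂ) →ₗ[ℂ] I → ℂ) = Tan Z x := by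
    refine le_antisymm ?_ fun u hu => hT u hu
    rintro _ ⟨w, rfl⟩
    exact e ▸ tan_of ha.differentiableAt.hasFDerivAt hZ w
  rw [← hr, LinearMap.finrank_range_of_inj hi]
  simp

theorem reg_param {d : ℕ} (h : Reg Z d x) {D : Type*} [NormedAddCommGroup D]
    [NormedSpace ℂ D] [FiniteDimensional ℂ D] {G : D → I → ℂ} {G' : D →L[ℂ] I → ℂ} {w0 : D}
    (hG : HasStrictFDerivAt G G' w0) (e : G w0 = x) (hZ : ∀ᶠ w in 𝓝 w0, G w ∈ Z)
    (hi : Injective G') (hd : finrank ℂ D = d) {s : Set D} (hs : s ∈ 𝓝 w0) :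
    ∀ᶠ y in 𝓝 x, y ∈ Z → ∃ w ∈ s, G w = y := by
  obtain ⟨c, -, f, hf, -, hk⟩ := exists_eqs Z x
  filter_upwards [param_eqs hf hk hG e hZ hi ((reg_finrank h).trans hd.symm) hs] with y hy hyZ
  exact hy fun j => hf j y hyZ

theorem reg_smooth {n d : ℕ} {Z : Set (Fin n → ℂ)} {x : Fin n → ℂ} (h : Reg Z d x) :
    SmoothPt Z d x := by
  obtain ⟨c, hc, f, hf, hl, hk⟩ := exists_eqs Z x
  have hd := reg_finrank h
  obtain ⟨φ, ha, e, hZ, hi, hT⟩ := h
  refine ⟨c, by simpa [hd] using hc, f, hf, ?_, ?_⟩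
  · let T : (Fin n → ℂ) →ₗ[ℂ] Dual ℂ (Fin n → ℂ) :=
      { toFun := fun v => ∑ i, v i • LinearMap.proj (R := ℂ) (φ := fun _ : Fin n => ℂ) i
        map_add' := fun p q => by simp only [Pi.add_apply, add_smul, Finset.sum_add_distrib]
        map_smul' := fun c p => by simp [Finset.smul_sum, mul_smul] }
    exact LinearIndependent.of_comp T hl
  · filter_upwards [param_eqs hf hk ha.hasStrictFDerivAt e hZ hi (by simp [hd]) hZ] with y hy h0
    obtain ⟨w, hw, rfl⟩ := hy h0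
    exact hw

end Pool.Agent.Lib.MP_78bd4b_ag.Pk
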