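import Pool.Agent.Lib.MP_78bd4b_ag.Pack1

/-! Job Q, part 2: the irreducible component through a nonsingular point. -/

noncomputable section

namespace Pool.Agent.Lib.MP_78bd4b_ag.Pk

open MvPolynomial Filter Function Module Asymptotics
open scoped Topology

variable {I : Type} [Fintype I] {Z : Set (I → ℂ)} {x : I → ℂ} {d : ℕ}

/-- the polynomials which vanish on `Z` near `x` -/
def pI (Z : Set (I → ℂ)) (x : I → ℂ) : Ideal (MvPolynomial I ℂ) where
  carrier := {f | ∀ᶠ y in 𝓝 x, y ∈ Z → aeval y f = 0}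
  add_mem' a b := by
    filter_upwards [a, b] with y a b h
    rw [map_add, a h, b h, add_zero]
  zero_mem' := .of_forall fun _ _ => map_zero _
  smul_mem' c _ a := by
    filter_upwards [a] with y a h
    rw [smul_eq_mul, map_mul, a h, mul_zero]

omit [Fintype I] in
theorem mem_pI {f : MvPolynomial I ℂ} : f ∈ pI Z x ↔ ∀ᶠ y in 𝓝 x, y ∈ Z → aeval y f = 0 := .rfl

omit [Fintype I] in
theorem van_le_pI : vanishingIdeal ℂ Z ≤ pI Z x := fun _ hf => .of_forall fun y hy => hf y hy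

omit [Fintype I] in
theorem self_mem (hx : x ∈ Z) : x ∈ zeroLocus ℂ (pI Z x) := fun _ hf =>
  (mem_pI.1 hf).self_of_nhds hx

theorem reg_mem (h : Reg Z d x) : x ∈ Z := by
  obtain ⟨φ, -, e, hZ, -⟩ := h
  exact e ▸ hZ.self_of_nhds

theorem pI_prime (h : Reg Z d x) : (pI Z x).IsPrime := by
  have h' := h
  obtain ⟨φ, ha, e, hZ, hi, -⟩ := h'
  have key : ∀ f : MvPolynomial I ℂ, (∀ᶠ w in 𝓝 0, aeval (φ w) f = 0) → f ∈ pI Z x := by
    intro f hf
    filter_upwards [reg_param h ha.hasStrictFDerivAt e hZ hi (by simp) hf] with y hy hyZ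
    obtain ⟨w, hw, rfl⟩ := hy hyZ
    exact hw
  refine ⟨fun ht => ?_, fun {f g} hfg => ?_⟩
  · have : (1 : MvPolynomial I ℂ) ∈ pI Z x := ht ▸ Submodule.mem_top
    simpa using self_mem (reg_mem h) 1 this
  · have hc : Tendsto φ (𝓝 0) (𝓝 x) := e ▸ ha.continuousAt
    have h1 : ∀ᶠ w in 𝓝 0, AnalyticAt ℂ φ w ∧ aeval (φ w) f * aeval (φ w) g = 0 := by
      filter_upwards [ha.eventually_analyticAt, hc.eventually (mem_pI.1 hfg), hZ] with w a b c
      exact ⟨a, by rw [← map_mul]; exact b c⟩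
    obtain ⟨r, r0, hr⟩ := Metric.eventually_nhds_iff_ball.1 h1
    by_cases h2 : ∀ w ∈ Metric.ball (0 : Fin d → ℂ) r, aeval (φ w) f = 0
    · exact .inl (key f (eventually_of_mem (Metric.ball_mem_nhds _ r0) h2))
    · push Not at h2
      obtain ⟨w, hw, hne⟩ := h2
      have an : ∀ k : MvPolynomial I ℂ, AnalyticOnNhd ℂ (fun w => aeval (φ w) k)
          (Metric.ball (0 : Fin d → ℂ) r) := fun k w hw => (ana k (φ w)).comp (hr w hw).1
      have h3 : (fun w => aeval (φ w) g) =ᶠ[𝓝 w] 0 := by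
        filter_upwards [(an f w hw).continuousAt.eventually_ne hne,
          Metric.isOpen_ball.mem_nhds hw] with v a b
        exact (mul_eq_zero.1 (hr v b).2).resolve_left a
      have h4 := (an g).eqOn_zero_of_preconnected_of_eventuallyEq_zero
        (convex_ball _ _).isPreconnected hw h3
      exact .inr (key g (eventually_of_mem (Metric.ball_mem_nhds _ r0) h4))

theorem near_comp (Z : Set (I → ℂ)) (x : I → ℂ) :
    ∀ᶠ y in 𝓝 x, y ∈ Z → y ∈ zeroLocus ℂ (pI Z x) := by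
  obtain ⟨S, hS⟩ := (IsNoetherian.noetherian (pI Z x) : (pI Z x).FG)
  have h : ∀ᶠ y in 𝓝 x, ∀ f ∈ S, y ∈ Z → aeval y f = 0 :=
    (eventually_all_finset S).2 fun f hf => mem_pI.1 (hS ▸ Ideal.subset_span hf)
  filter_upwards [h] with y hy hyZ
  rw [← hS]
  erw [zeroLocus_span]
  exact fun f hf => hy f hf hyZ

theorem van_comp : vanishingIdeal ℂ (zeroLocus ℂ (pI Z x)) = pI Z x :=
  le_antisymm (fun _ hf => (near_comp Z x).mono fun y hy hyZ => hf y (hy hyZ))
    (le_vanishingIdeal_zeroLocus _)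

omit [Fintype I] in
theorem comp_sub (hZ : Cl Z) : zeroLocus ℂ (pI Z x) ⊆ Z := fun _ hy =>
  hZ (zeroLocus_anti_mono van_le_pI hy)

/-- the polynomial of degree one with differential `l` -/
def lin (x : I → ℂ) (l : Dual ℂ (I → ℂ)) : MvPolynomial I ℂ :=
  open Classical in ∑ i, C (l (Pi.single i 1)) * (X i - C (x i))

theorem dual_sum [DecidableEq I] (l : Dual ℂ (I → ℂ)) (u : I → ℂ) :
    l u = ∑ i, l (Pi.single i 1) * u i := by
  rw [LinearMap.pi_apply_eq_sum_univ]
  refine Finset.sum_congr rfl fun i _ => ?_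
  rw [smul_eq_mul, mul_comm]
  congr 2
  funext j
  simp [Pi.single_apply, eq_comm]

theorem aeval_lin (l : Dual ℂ (I → ℂ)) (y : I → ℂ) : aeval y (lin x l) = l (y - x) := by
  classical
  rw [dual_sum l]
  simp [lin]

theorem dv_lin (l : Dual ℂ (I → ℂ)) : dv x (lin x l) = l := by
  classical
  refine LinearMap.ext fun u => ?_
  rw [dual_sum l]
  simp [lin, dv_mul, dv_C, dv_X]

theorem lin_mem (l : Dual ℂ (I → ℂ)) : lin x l ∈ vanishingIdeal ℂ {x} := by
  rw [mem_vanishingIdeal_singleton_iff, aeval_lin, sub_self, map_zero]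

theorem taylor (f : MvPolynomial I ℂ) :
    f - C (aeval x f) - lin x (dv x f) ∈ vanishingIdeal ℂ {x} ^ 2 := by
  induction f using MvPolynomial.induction_on with
  | C a =>
    have : C a - C (aeval x (C a : MvPolynomial I ℂ)) - lin x (dv x (C a)) = 0 :=
      MvPolynomial.funext fun y => by
        simp only [← aeval_eq_eval, map_sub, aeval_lin, dv_C]
        simp
    rw [this]
    exact zero_mem _
  | add p q hp hq =>
    have : p + q - C (aeval x (p + q)) - lin x (dv x (p + q)) =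
        (p - C (aeval x p) - lin x (dv x p)) + (q - C (aeval x q) - lin x (dv x q)) :=
      MvPolynomial.funext fun y => by
        simp only [← aeval_eq_eval, map_sub, map_add, aeval_lin, LinearMap.add_apply]
        ring
    rw [this]
    exact add_mem hp hq
  | mul_X p i hp =>
    have : p * X i - C (aeval x (p * X i)) - lin x (dv x (p * X i)) =
        X i * (p - C (aeval x p) - lin x (dv x p)) + (X i - C (x i)) * lin x (dv x p) :=
      MvPolynomial.funext fun y => by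
        simp only [← aeval_eq_eval, map_sub, map_add, map_mul, aeval_lin, dv_mul, dv_X, aeval_X,
          aeval_C, Algebra.algebraMap_self, RingHom.id_apply]
        ring
    rw [this]
    refine add_mem (Ideal.mul_mem_left _ _ hp) ?_
    rw [sq]
    exact Ideal.mul_mem_mul (by simp) (lin_mem _)

/-- `h` is a homogeneous function of degree `N` of the coordinates `L` -/
def Hg (x : I → ℂ) (L : (I → ℂ) →L[ℂ] Fin d → ℂ) (N : ℕ) (h : MvPolynomial I ℂ) : Prop :=
  ∃ P : (Fin d → ℂ) → ℂ, (∀ (c : ℂ) s, P (c • s) = c ^ N * P s) ∧ ∀ y, aeval y h = P (L (y - x))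

theorem lead (hx : x ∈ Z) {L : (I → ℂ) →L[ℂ] Fin d → ℂ} {φ' : (Fin d → ℂ) →L[ℂ] I → ℂ}
    (hT : ∀ u ∈ Tan Z x, φ' (L u) = u) (N : ℕ) : ∀ h ∈ vanishingIdeal ℂ {x} ^ N,
      ∃ h0 ∈ vanishingIdeal ℂ {x} ^ N, Hg x L N h0 ∧
        h - h0 ∈ vanishingIdeal ℂ Z ⊔ vanishingIdeal ℂ {x} ^ (N + 1) := by
  induction N with
  | zero =>
    intro h _
    refine ⟨C (aeval x h), by simp, ⟨fun _ => aeval x h, by simp, by simp⟩,
      Ideal.mem_sup_right ?_⟩
    simp
  | succ N ih =>
    intro h hh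
    rw [pow_succ] at hh
    refine Submodule.mul_induction_on hh (fun a ha b hb => ?_) ?_
    · obtain ⟨a0, m0, ⟨P, hP, eP⟩, r0⟩ := ih a ha
      let l : Dual ℂ (I → ℂ) := (dv x b).comp ((φ'.comp L : _ →L[ℂ] _) : _ →ₗ[ℂ] _)
      obtain ⟨f, hf, e⟩ := ann_tan (Z := Z) (x := x) (l := dv x b - l) fun u hu => by
        simp [l, hT u hu]
      have hb0 : b - lin x l ∈ vanishingIdeal ℂ Z ⊔ vanishingIdeal ℂ {x} ^ 2 := by
        have := taylor (x := x) (b - lin x l - f)
        have h2 : dv x (b - lin x l - f) = 0 := by rw [map_sub, map_sub, dv_lin, e, sub_self]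
        have h3 : aeval x (b - lin x l - f) = 0 := by
          rw [map_sub, map_sub, hf x hx, (mem_vanishingIdeal_singleton_iff _ _).1 hb,
            (mem_vanishingIdeal_singleton_iff _ _).1 (lin_mem l), sub_zero, sub_zero]
        rw [h2, h3] at this
        have h1 : b - lin x l = f + (b - lin x l - f - C 0 - lin x 0) := by
          simp [lin]
        rw [h1]
        exact add_mem (Ideal.mem_sup_left hf) (Ideal.mem_sup_right this)
      refine ⟨a0 * lin x l, ?_, ⟨fun s => P s * dv x b (φ' s), fun c s => ?_, fun y => ?_⟩, ?_⟩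
      · rw [pow_succ]
        exact Ideal.mul_mem_mul m0 (lin_mem l)
      · simp only [hP, map_smul, smul_eq_mul]
        ring
      · rw [map_mul, eP, aeval_lin]
        rfl
      · have h1 : a * b - a0 * lin x l = a * (b - lin x l) + (a - a0) * lin x l := by ring
        rw [h1]
        refine add_mem ?_ ?_
        · have := Ideal.mul_mem_mul ha hb0
          rw [Ideal.mul_sup, ← pow_add] at this
          exact (sup_le_sup_right Ideal.mul_le_right _ : _ ≤ vanishingIdeal ℂ Z ⊔ _) this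
        · have := Ideal.mul_mem_mul r0 (lin_mem (x := x) l)
          rw [Ideal.sup_mul, ← pow_succ] at this
          exact (sup_le_sup_right Ideal.mul_le_left _ : _ ≤ vanishingIdeal ℂ Z ⊔ _) this
    · rintro a b ⟨a0, m0, ⟨P, hP, eP⟩, r0⟩ ⟨b0, m1, ⟨Q, hQ, eQ⟩, r1⟩
      refine ⟨a0 + b0, add_mem m0 m1, ⟨fun s => P s + Q s, fun c s => ?_, fun y => ?_⟩, ?_⟩
      · simp only [hP, hQ, mul_add]
      · rw [map_add, eP, eQ]
      · have h1 : a + b - (a0 + b0) = (a - a0) + (b - b0) := by ring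
        rw [h1]
        exact add_mem r0 r1

theorem order {γ : (Fin d → ℂ) → I → ℂ} (hγ : DifferentiableAt ℂ γ 0) (e : γ 0 = x) (N : ℕ) :
    ∀ h ∈ vanishingIdeal ℂ {x} ^ N,
      (fun s => aeval (γ s) h) =O[𝓝 0] fun s : Fin d → ℂ => ‖s‖ ^ N := by
  have hd : ∀ h : MvPolynomial I ℂ, DifferentiableAt ℂ (fun s => aeval (γ s) h) 0 := fun h =>
    (ana h (γ 0)).differentiableAt.comp 0 hγ
  induction N with
  | zero =>
    intro h _
    simpa using (hd h).continuousAt.isBigO_one ℝ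
  | succ N ih =>
    intro h hh
    rw [pow_succ] at hh
    refine Submodule.mul_induction_on hh (fun a ha b hb => ?_) fun a b ha hb => ?_
    · have h1 := (hd b).isBigO_sub
      simp only [e, (mem_vanishingIdeal_singleton_iff _ _).1 hb, sub_zero] at h1
      simp only [map_mul, pow_succ]
      exact (ih a ha).mul h1.norm_right
    · simp only [map_add]
      exact ha.add hb

theorem hom_zero {P : (Fin d → ℂ) → ℂ} {N : ℕ} (hP : ∀ (c : ℂ) s, P (c • s) = c ^ N * P s)
    (h : P =O[𝓝 0] fun s : Fin d → ℂ => ‖s‖ ^ (N + 1)) (s : Fin d → ℂ) : P s = 0 := by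
  obtain ⟨K, hK⟩ := h.bound
  have h1 : Tendsto (fun c : ℂ => c • s) (𝓝[≠] 0) (𝓝 0) := by
    have : Tendsto (fun c : ℂ => c • s) (𝓝 0) (𝓝 ((0 : ℂ) • s)) :=
      (continuous_id.smul continuous_const).tendsto 0
    rw [zero_smul] at this
    exact this.mono_left nhdsWithin_le_nhds
  have h2 : Tendsto (fun c : ℂ => K * ‖s‖ ^ (N + 1) * ‖c‖) (𝓝[≠] 0) (𝓝 0) := by
    have : Tendsto (fun c : ℂ => K * ‖s‖ ^ (N + 1) * ‖c‖) (𝓝 0)
        (𝓝 (K * ‖s‖ ^ (N + 1) * ‖(0 : ℂ)‖)) := (continuous_const.mul continuous_norm).tendsto 0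
    rw [norm_zero, mul_zero] at this
    exact this.mono_left nhdsWithin_le_nhds
  refine norm_le_zero_iff.1 (ge_of_tendsto h2 ?_)
  filter_upwards [h1.eventually hK, self_mem_nhdsWithin] with c hc c0
  have c1 : 0 < ‖c‖ ^ N := pow_pos (norm_pos_iff.2 c0) N
  rw [hP, norm_mul, norm_pow, norm_pow, norm_norm, norm_smul] at hc
  refine le_of_mul_le_mul_left (hc.trans_eq ?_) c1
  ring

theorem pI_pow (h : Reg Z d x) {f : MvPolynomial I ℂ} (hf : f ∈ pI Z x) (N : ℕ) :
    f ∈ vanishingIdeal ℂ Z ⊔ vanishingIdeal ℂ {x} ^ N := by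
  obtain ⟨φ, ha, e, hZ, hi, hT⟩ := h
  obtain ⟨L, hL⟩ := left_inv hi
  have h1 := strict_id (ha.hasStrictFDerivAt.sub_const x) hL
  have e0 : (L ∘ fun w => φ w - x) 0 = 0 := by simp [e]
  let ψ := h1.localInverse _ _ _
  have p0 : ψ 0 = 0 := by
    have := h1.localInverse_apply_image
    rwa [e0] at this
  have p1 : DifferentiableAt ℂ ψ 0 := by
    have := h1.to_localInverse.hasFDerivAt.differentiableAt
    rwa [e0] at this
  have p2 : ∀ᶠ s in 𝓝 0, L (φ (ψ s) - x) = s := by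
    have := h1.eventually_right_inverse
    rwa [e0] at this
  have p3 : Tendsto ψ (𝓝 0) (𝓝 0) := by
    have := p1.continuousAt.tendsto
    rwa [p0] at this
  have g1 : DifferentiableAt ℂ (fun s => φ (ψ s)) 0 :=
    DifferentiableAt.comp 0 (g := φ) (p0.symm ▸ ha.differentiableAt) p1
  have g0 : φ (ψ 0) = x := by rw [p0, e]
  have g2 : ∀ᶠ s in 𝓝 0, aeval (φ (ψ s)) f = 0 := by
    have : Tendsto (fun s => φ (ψ s)) (𝓝 0) (𝓝 x) := g0 ▸ g1.continuousAt.tendsto
    filter_upwards [this.eventually (mem_pI.1 hf), p3.eventually hZ] with s a b using a b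
  induction N with
  | zero => simp
  | succ N ih =>
    obtain ⟨i, hi, r, hr, e1⟩ := Submodule.mem_sup.1 ih
    obtain ⟨h0, -, ⟨P, hP, eP⟩, r0⟩ := lead (e ▸ hZ.self_of_nhds : x ∈ Z) (L := L) (φ' := fderiv ℂ φ 0) (fun u hu => by
      obtain ⟨w, rfl⟩ := hT u hu
      rw [hL]) N r hr
    obtain ⟨i', hi', r', hr', e2⟩ := Submodule.mem_sup.1 r0
    have h2 : P =O[𝓝 0] fun s : Fin d → ℂ => ‖s‖ ^ (N + 1) := by
      refine EventuallyEq.trans_isBigO ?_ (order g1 g0 (N + 1) r' hr').neg_left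
      filter_upwards [g2, p2, p3.eventually hZ] with s a b c
      have h3 : h0 = f - i - i' - r' := by linear_combination e1 + e2
      rw [← b, ← eP, b, h3, map_sub, map_sub, map_sub, a, hi _ c, hi' _ c]
      ring
    have h3 : h0 = 0 := MvPolynomial.funext fun y => by
      rw [← aeval_eq_eval, eP, hom_zero hP h2, map_zero]
    have h4 : f = (i + i') + r' := by linear_combination -e1 - e2 + h3
    rw [h4]
    exact add_mem (Ideal.mem_sup_left (add_mem hi hi')) (Ideal.mem_sup_right hr')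

theorem pI_le (h : Reg Z d x) {q : Ideal (MvPolynomial I ℂ)} (hq : q.IsPrime)
    (h1 : vanishingIdeal ℂ Z ≤ q) (h2 : x ∈ zeroLocus ℂ q) : pI Z x ≤ q := by
  intro f hf
  have hm : (vanishingIdeal ℂ {x}).map (Ideal.Quotient.mk q) ≠ ⊤ := by
    intro ht
    have h3 := congrArg (Ideal.comap (Ideal.Quotient.mk q)) ht
    rw [Ideal.comap_map_of_surjective _ Ideal.Quotient.mk_surjective, Ideal.comap_top,
      ← RingHom.ker_eq_comap_bot, Ideal.mk_ker, sup_eq_left.2, Ideal.eq_top_iff_one] at h3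
    · simp at h3
    · intro g hg
      exact (mem_vanishingIdeal_singleton_iff _ _).2 (h2 g hg)
  have h4 := Ideal.iInf_pow_eq_bot_of_isDomain _ hm
  rw [← Ideal.Quotient.eq_zero_iff_mem, ← Ideal.mem_bot, ← h4, Ideal.mem_iInf]
  intro N
  obtain ⟨i, hi, r, hr, e⟩ := Submodule.mem_sup.1 (pI_pow h hf N)
  rw [← e, map_add, Ideal.Quotient.eq_zero_iff_mem.2 (h1 hi), zero_add, ← Ideal.map_pow]
  exact Ideal.mem_map_of_mem _ hr

theorem pI_eq {x0 : I → ℂ} {d0 : ℕ} (h0 : Reg Z d0 x0) (h : Reg Z d x)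
    (hx : x ∈ zeroLocus ℂ (pI Z x0)) : pI Z x = pI Z x0 := by
  have h1 := pI_le h (pI_prime h0) van_le_pI hx
  exact le_antisymm h1 (pI_le h0 (pI_prime h) van_le_pI
    (zeroLocus_anti_mono h1 (self_mem (reg_mem h0))))

theorem reg_comp (hZ : Cl Z) (h : Reg Z d x) : Reg (zeroLocus ℂ (pI Z x)) d x := by
  obtain ⟨φ, ha, e, hφ, hi, hT⟩ := h
  refine ⟨φ, ha, e, ?_, hi, fun u hu => hT u fun f hf =>
    hu f (vanishingIdeal_anti_mono (comp_sub hZ) hf)⟩
  have hc : Tendsto φ (𝓝 0) (𝓝 x) := e ▸ ha.continuousAt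
  filter_upwards [hc.eventually (near_comp Z x), hφ] with w a b using a b

end Pool.Agent.Lib.MP_78bd4b_ag.Pk
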