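import Pool.Agent.Lib.MP_78bd4b_ag.Pack2

/-! Job Q, part 3: change of indices and the quotient by the two signs. -/

noncomputable section

namespace Pool.Agent.Lib.MP_78bd4b_ag.Pk

open MvPolynomial Filter Function Module
open scoped Topology

theorem reg_push {I I' : Type} [Fintype I] [Fintype I'] {Z : Set (I → ℂ)} {Z' : Set (I' → ℂ)}
    {x : I → ℂ} {d : ℕ} (h : Reg Z d x) {Θ : (I → ℂ) → I' → ℂ} (ha : AnalyticAt ℂ Θ x)
    {Θ' : (I → ℂ) →L[ℂ] I' → ℂ} (hd : HasFDerivAt Θ Θ' x) (hi : Injective Θ')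
    (hZ : ∀ y ∈ Z, Θ y ∈ Z') (hT : ∀ u ∈ Tan Z' (Θ x), ∃ v ∈ Tan Z x, Θ' v = u) :
    Reg Z' d (Θ x) := by
  obtain ⟨φ, a, e, b, c, f⟩ := h
  subst e
  have h1 : fderiv ℂ (Θ ∘ φ) 0 = Θ'.comp (fderiv ℂ φ 0) :=
    (hd.comp 0 a.differentiableAt.hasFDerivAt).fderiv
  refine ⟨Θ ∘ φ, ha.comp a, rfl, b.mono fun w hw => hZ _ hw, ?_, fun u hu => ?_⟩
  · rw [h1]
    exact hi.comp c
  · obtain ⟨v, hv, rfl⟩ := hT u hu
    obtain ⟨w, rfl⟩ := f v hv
    exact ⟨w, by rw [h1]; rfl⟩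

section Ri

variable {I I' : Type} (σ : I ≃ I') {Z : Set (I → ℂ)}

/-- change of indices -/
def ri (Z : Set (I → ℂ)) : Set (I' → ℂ) := {x | x ∘ σ ∈ Z}

theorem ri_van {f : MvPolynomial I ℂ} (hf : f ∈ vanishingIdeal ℂ Z) :
    rename σ f ∈ vanishingIdeal ℂ (ri σ Z) := fun y hy => by
  rw [aeval_rename]; exact hf _ hy

theorem ri_cl (h : Cl Z) : Cl (ri σ Z) := fun x hx => h fun f hf => by
  rw [← aeval_rename]; exact hx _ (ri_van σ hf)

/-- composition with a map of indices -/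
def cmp {I I' : Type} (s : I → I') : (I' → ℂ) →L[ℂ] I → ℂ :=
  ContinuousLinearMap.pi fun i => ContinuousLinearMap.proj (s i)

theorem ri_reg [Fintype I] [Fintype I'] {x : I → ℂ} {d : ℕ} (h : Reg Z d x) :
    Reg (ri σ Z) d (x ∘ σ.symm) := by
  have e : ∀ y : I → ℂ, (y ∘ σ.symm) ∘ σ = y := fun y => funext fun i => by simp
  refine reg_push h (Θ := cmp σ.symm) ((cmp σ.symm).analyticAt x) (cmp σ.symm).hasFDerivAt
    (fun a b h => ?_) (fun y hy => ?_) fun u hu => ⟨u ∘ σ, mem_tan.2 fun f hf => ?_, ?_⟩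
  · rw [← e a, ← e b]
    exact congrArg (· ∘ σ) h
  · show (y ∘ σ.symm) ∘ σ ∈ Z
    rwa [e]
  · have h1 := chain (cmp σ).hasFDerivAt (w0 := x ∘ σ.symm) f u
    have h2 : (fun w : I' → ℂ => aeval (cmp σ w) f) = fun w => aeval w (rename σ f) :=
      funext fun w => by
        rw [aeval_rename]
        rfl
    rw [h2, fd_eq, show cmp σ (x ∘ σ.symm) = x from e x] at h1
    exact h1.symm.trans (mem_tan.1 hu _ (ri_van σ hf))
  · exact funext fun i => congrArg u (σ.apply_symm_apply i)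

end Ri

theorem rank_one {A : Type} {x : A × A → ℂ} (h1 : ∀ i j, x (i, j) = x (j, i))
    (h2 : ∀ i j k l, x (i, j) * x (k, l) = x (i, l) * x (k, j)) :
    ∃ a : A → ℂ, ∀ i : A × A, x i = a i.1 * a i.2 := by
  by_cases h : ∃ o, x (o, o) ≠ 0
  · obtain ⟨o, ho⟩ := h
    obtain ⟨c, hc⟩ := IsAlgClosed.exists_eq_mul_self (x (o, o))
    have c0 : c ≠ 0 := by
      rintro rfl
      simp [ho] at hc
    refine ⟨fun i => x (i, o) / c, fun ⟨i, j⟩ => ?_⟩
    have := h2 i j o o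
    rw [hc, h1 o j] at this
    field_simp
    linear_combination this
  · push Not at h
    refine ⟨0, fun ⟨i, j⟩ => ?_⟩
    have := h2 i j j i
    rw [h i, h1 j i] at this
    simpa using this

theorem rank_one_tan {A : Type} {a : A → ℂ} (ha : a ≠ 0) {u : A × A → ℂ}
    (h1 : ∀ i j, u (i, j) = u (j, i))
    (h2 : ∀ i j k l, a i * a j * u (k, l) + a k * a l * u (i, j) =
      a i * a l * u (k, j) + a k * a j * u (i, l)) :
    ∃ v : A → ℂ, ∀ i : A × A, a i.1 * v i.2 + a i.2 * v i.1 = u i := by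
  obtain ⟨o, ho⟩ := Function.ne_iff.1 ha
  replace ho : a o ≠ 0 := ho
  refine ⟨fun i => u (i, o) / a o - a i * u (o, o) / (2 * a o ^ 2), fun ⟨i, j⟩ => ?_⟩
  have := h2 i j o o
  rw [h1 o j] at this
  field_simp
  linear_combination -2 * this

theorem rank_one_inj {A : Type} {a : A → ℂ} (ha : a ≠ 0) {v : A → ℂ}
    (h : ∀ i j, a i * v j + a j * v i = 0) (i : A) : v i = 0 := by
  obtain ⟨o, ho⟩ := Function.ne_iff.1 ha
  replace ho : a o ≠ 0 := ho
  have h1 : v o = 0 := by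
    refine (mul_eq_zero.1 (?_ : a o * v o = 0)).resolve_left ho
    linear_combination h o o / 2
  refine (mul_eq_zero.1 (?_ : a o * v i = 0)).resolve_left ho
  linear_combination h o i - a i * h1

variable {A B : Type}

/-- the action of the signs -/
def sg (s t : ℂ) : (A ⊕ B → ℂ) →L[ℂ] A ⊕ B → ℂ :=
  ContinuousLinearMap.pi fun i => Sum.elim (fun _ => s) (fun _ => t) i • ContinuousLinearMap.proj i

theorem sg_l (s t : ℂ) (y : A ⊕ B → ℂ) (a : A) : sg s t y (.inl a) = s * y (.inl a) := rfl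

theorem sg_r (s t : ℂ) (y : A ⊕ B → ℂ) (b : B) : sg s t y (.inr b) = t * y (.inr b) := rfl

theorem sg_one (y : A ⊕ B → ℂ) : sg 1 1 y = y := funext fun i => by
  cases i <;> simp [sg_l, sg_r]

/-- the sum over the group of signs -/
def rey (f : MvPolynomial (A ⊕ B) ℂ) (y : A ⊕ B → ℂ) : ℂ := aeval (sg 1 1 y) f +
  aeval (sg 1 (-1) y) f + aeval (sg (-1) 1 y) f + aeval (sg (-1) (-1) y) f

/-- polynomials in the invariants -/
def Iv (h : (A ⊕ B → ℂ) → ℂ) : Prop :=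
  ∃ F : MvPolynomial ((A × A) ⊕ (B × B)) ℂ, ∀ y, h y = aeval (sq2 y) F

theorem Iv.of {h h' : (A ⊕ B → ℂ) → ℂ} (a : Iv h) (e : ∀ y, h' y = h y) : Iv h' := by
  obtain ⟨F, hF⟩ := a
  exact ⟨F, fun y => (e y).trans (hF y)⟩

theorem Iv.add {h h' : (A ⊕ B → ℂ) → ℂ} (a : Iv h) (b : Iv h') : Iv fun y => h y + h' y := by
  obtain ⟨F, hF⟩ := a
  obtain ⟨G, hG⟩ := b
  exact ⟨F + G, fun y => by rw [map_add, ← hF, ← hG]⟩

theorem Iv.mul {h : (A ⊕ B → ℂ) → ℂ} (a : Iv h) (i : (A × A) ⊕ (B × B)) :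
    Iv fun y => sq2 y i * h y := by
  obtain ⟨F, hF⟩ := a
  exact ⟨X i * F, fun y => by rw [map_mul, aeval_X, ← hF]⟩

theorem iv_const (c : ℂ) : Iv fun _ : A ⊕ B → ℂ => c := ⟨C c, fun _ => by simp⟩

theorem iv_aux (f : MvPolynomial (A ⊕ B) ℂ) : Iv (rey f) ∧ (∀ a, Iv (rey (X (.inl a) * f))) ∧
    (∀ b, Iv (rey (X (.inr b) * f))) ∧ ∀ a b, Iv (rey (X (.inl a) * X (.inr b) * f)) := by
  induction f using MvPolynomial.induction_on with
  | C c =>
    refine ⟨(iv_const (4 * c)).of fun y => ?_, fun a => (iv_const 0).of fun y => ?_,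
      fun a => (iv_const 0).of fun y => ?_, fun a b => (iv_const 0).of fun y => ?_⟩ <;>
    · simp only [rey, map_mul, aeval_X, aeval_C, sg_l, sg_r, Algebra.algebraMap_self,
        RingHom.id_apply]
      ring
  | add p q hp hq =>
    refine ⟨(hp.1.add hq.1).of fun y => ?_, fun a => ((hp.2.1 a).add (hq.2.1 a)).of fun y => ?_,
      fun a => ((hp.2.2.1 a).add (hq.2.2.1 a)).of fun y => ?_,
      fun a b => ((hp.2.2.2 a b).add (hq.2.2.2 a b)).of fun y => ?_⟩ <;>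
    · simp only [rey, map_mul, map_add]
      ring
  | mul_X p i hp =>
    rcases i with i | i
    · refine ⟨(hp.2.1 i).of fun y => ?_, fun a => (hp.1.mul (.inl (a, i))).of fun y => ?_,
        fun b => (hp.2.2.2 i b).of fun y => ?_,
        fun a b => ((hp.2.2.1 b).mul (.inl (a, i))).of fun y => ?_⟩ <;>
      · simp only [rey, map_mul, aeval_X, sg_l, sg_r, sq2, Sum.elim_inl]
        ring
    · refine ⟨(hp.2.2.1 i).of fun y => ?_, fun a => (hp.2.2.2 a i).of fun y => ?_,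
        fun b => (hp.1.mul (.inr (b, i))).of fun y => ?_,
        fun a b => ((hp.2.1 a).mul (.inr (b, i))).of fun y => ?_⟩ <;>
      · simp only [rey, map_mul, aeval_X, sg_l, sg_r, sq2, Sum.elim_inr]
        ring

theorem sel_l {y : A ⊕ B → ℂ} (h : y ∘ .inl ≠ 0) :
    ∃ k : MvPolynomial (A ⊕ B) ℂ, ∀ s t, aeval (sg s t y) k = 1 + s := by
  obtain ⟨o, ho⟩ := Function.ne_iff.1 h
  replace ho : y (.inl o) ≠ 0 := ho
  exact ⟨1 + C (y (.inl o))⁻¹ * X (.inl o), fun s t => by simp [sg_l]; field_simp⟩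

theorem sel_r {y : A ⊕ B → ℂ} (h : y ∘ .inr ≠ 0) :
    ∃ k : MvPolynomial (A ⊕ B) ℂ, ∀ s t, aeval (sg s t y) k = 1 + t := by
  obtain ⟨o, ho⟩ := Function.ne_iff.1 h
  replace ho : y (.inr o) ≠ 0 := ho
  exact ⟨1 + C (y (.inr o))⁻¹ * X (.inr o), fun s t => by simp [sg_r]; field_simp⟩

theorem sel (y : A ⊕ B → ℂ) :
    ∃ k : MvPolynomial (A ⊕ B) ℂ, ∀ f, rey (k * f) y = 4 * aeval y f := by
  have hl : y ∘ .inl = 0 → ∀ t, sg (-1) t y = sg 1 t y := fun h t => funext fun i => by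
    cases i with
    | inl a => rw [sg_l, sg_l, show y (.inl a) = 0 from congrFun h a, mul_zero, mul_zero]
    | inr b => rfl
  have hr : y ∘ .inr = 0 → ∀ s, sg s (-1) y = sg s 1 y := fun h s => funext fun i => by
    cases i with
    | inl a => rfl
    | inr b => rw [sg_r, sg_r, show y (.inr b) = 0 from congrFun h b, mul_zero, mul_zero]
  by_cases h1 : y ∘ .inl = 0 <;> by_cases h2 : y ∘ .inr = 0
  · refine ⟨1, fun f => ?_⟩
    rw [rey, hl h1, hl h1, hr h2, sg_one, one_mul]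
    ring
  · obtain ⟨k, hk⟩ := sel_r h2
    refine ⟨k, fun f => ?_⟩
    simp only [rey, map_mul, hk]
    rw [hl h1, sg_one]
    ring
  · obtain ⟨k, hk⟩ := sel_l h1
    refine ⟨k, fun f => ?_⟩
    simp only [rey, map_mul, hk]
    rw [hr h2, sg_one]
    ring
  · obtain ⟨k, hk⟩ := sel_l h1
    obtain ⟨k', hk'⟩ := sel_r h2
    refine ⟨k * k', fun f => ?_⟩
    simp only [rey, map_mul, hk, hk']
    rw [sg_one]
    ring

/-- the differential of the quotient map -/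
def dsq (y : A ⊕ B → ℂ) : (A ⊕ B → ℂ) →L[ℂ] (A × A) ⊕ (B × B) → ℂ :=
  ContinuousLinearMap.pi (Sum.elim
    (fun i => y (.inl i.1) • ContinuousLinearMap.proj (.inl i.2) +
      y (.inl i.2) • ContinuousLinearMap.proj (.inl i.1))
    fun i => y (.inr i.1) • ContinuousLinearMap.proj (.inr i.2) +
      y (.inr i.2) • ContinuousLinearMap.proj (.inr i.1))

theorem dsq_inj {y : A ⊕ B → ℂ} (h1 : y ∘ .inl ≠ 0) (h2 : y ∘ .inr ≠ 0) : Injective (dsq y) := by
  rw [injective_iff_map_eq_zero]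
  intro v hv
  funext i
  cases i with
  | inl a => exact rank_one_inj h1 (v := v ∘ .inl) (fun i j => congrFun hv (.inl (i, j))) a
  | inr a => exact rank_one_inj h2 (v := v ∘ .inr) (fun i j => congrFun hv (.inr (i, j))) a

theorem sq2_smul (c : ℂ) (y : A ⊕ B → ℂ) : sq2 (c • y) = (c * c) • sq2 y := funext fun i => by
  cases i <;> simp [sq2] <;> ring

theorem sq2_star (y : A ⊕ B → ℂ) : sq2 (star y) = star (sq2 y) := funext fun i => by
  cases i <;> simp [sq2]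

theorem rel_mem {Z : Set (A ⊕ B → ℂ)} :
    (∀ i j, X (.inl (i, j)) - X (.inl (j, i)) ∈ vanishingIdeal ℂ (sq2 '' Z)) ∧
    (∀ i j k l, X (.inl (i, j)) * X (.inl (k, l)) - X (.inl (i, l)) * X (.inl (k, j)) ∈
      vanishingIdeal ℂ (sq2 '' Z)) ∧
    (∀ i j, X (.inr (i, j)) - X (.inr (j, i)) ∈ vanishingIdeal ℂ (sq2 '' Z)) ∧
    (∀ i j k l, X (.inr (i, j)) * X (.inr (k, l)) - X (.inr (i, l)) * X (.inr (k, j)) ∈
      vanishingIdeal ℂ (sq2 '' Z)) := by
  refine ⟨fun i j => ?_, fun i j k l => ?_, fun i j => ?_, fun i j k l => ?_⟩ <;>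
  · rintro _ ⟨y, -, rfl⟩
    simp only [map_sub, map_mul, aeval_X, sq2, Sum.elim_inl, Sum.elim_inr]
    ring

variable [Fintype A] [Fintype B] {Z : Set (A ⊕ B → ℂ)}

theorem sq2_ana (y : A ⊕ B → ℂ) : AnalyticAt ℂ (sq2 : (A ⊕ B → ℂ) → _) y := by
  have h := fun i => (ContinuousLinearMap.proj (R := ℂ) (φ := fun _ : A ⊕ B => ℂ) i).analyticAt y
  refine analyticAt_pi_iff.2 fun i => ?_
  cases i <;> exact (h _).mul (h _)

theorem sq2_has (y : A ⊕ B → ℂ) : HasFDerivAt (sq2 : (A ⊕ B → ℂ) → _) (dsq y) y := by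
  have h := fun i =>
    (ContinuousLinearMap.proj (R := ℂ) (φ := fun _ : A ⊕ B => ℂ) i).hasFDerivAt (x := y)
  refine hasFDerivAt_pi.2 fun i => ?_
  cases i <;> exact (h _).mul (h _)

theorem sg_mem (hZ : Cone4 Z) {y : A ⊕ B → ℂ} (hy : y ∈ Z) :
    sg 1 1 y ∈ Z ∧ sg 1 (-1) y ∈ Z ∧ sg (-1) 1 y ∈ Z ∧ sg (-1) (-1) y ∈ Z := by
  have h1 : sg 1 (-1) y = Sum.elim (y ∘ .inl) (-y ∘ .inr) := funext fun i => by
    cases i <;> simp [sg_l, sg_r]
  have h2 : sg (-1) 1 y = (-1 : ℂ) • Sum.elim (y ∘ .inl) (-y ∘ .inr) := funext fun i => by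
    cases i <;> simp [sg_l, sg_r]
  have h3 : sg (-1) (-1) y = (-1 : ℂ) • y := funext fun i => by
    cases i <;> simp [sg_l, sg_r]
  rw [sg_one, h1, h2, h3]
  exact ⟨hy, hZ.flip y hy, hZ.smul _ _ (hZ.flip y hy), hZ.smul _ _ hy⟩

theorem descend (hZ : Cone4 Z) {f : MvPolynomial (A ⊕ B) ℂ} (hf : f ∈ vanishingIdeal ℂ Z) :
    ∃ F ∈ vanishingIdeal ℂ (sq2 '' Z), ∀ y, rey f y = aeval (sq2 y) F := by
  obtain ⟨F, hF⟩ := (iv_aux f).1
  refine ⟨F, ?_, hF⟩
  rintro _ ⟨y, hy, rfl⟩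
  obtain ⟨a, b, c, d⟩ := sg_mem hZ hy
  rw [← hF, rey, hf _ a, hf _ b, hf _ c, hf _ d]
  ring

theorem quot_cl (hZ : Cone4 Z) : Cl (sq2 '' Z) := by
  intro x hx
  obtain ⟨r1, r2, r3, r4⟩ := rel_mem (Z := Z)
  obtain ⟨a, ha⟩ := rank_one (x := x ∘ .inl) (fun i j => by simpa [sub_eq_zero] using hx _ (r1 i j))
    fun i j k l => by simpa [sub_eq_zero] using hx _ (r2 i j k l)
  obtain ⟨b, hb⟩ := rank_one (x := x ∘ .inr) (fun i j => by simpa [sub_eq_zero] using hx _ (r3 i j))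
    fun i j k l => by simpa [sub_eq_zero] using hx _ (r4 i j k l)
  have e : sq2 (Sum.elim a b) = x := funext fun i => by
    cases i with
    | inl i => exact (ha i).symm
    | inr i => exact (hb i).symm
  refine ⟨_, hZ.cl fun f hf => ?_, e⟩
  obtain ⟨k, hk⟩ := sel (Sum.elim a b)
  obtain ⟨F, h1, h2⟩ := descend hZ (Ideal.mul_mem_left _ k hf)
  have := hk f
  rw [h2, e, hx F h1] at this
  simpa using this

theorem quot_reg (hZ : Cone4 Z) {y : A ⊕ B → ℂ} (hy : y ∈ Z) (y0 : y ≠ 0) :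
    Reg (sq2 '' Z) 4 (sq2 y) := by
  obtain ⟨h1, h2⟩ := hZ.free y hy y0
  refine reg_push (hZ.reg y hy y0) (sq2_ana y) (sq2_has y) (dsq_inj h1 h2)
    (fun z hz => ⟨z, hz, rfl⟩) fun u hu => ?_
  rw [mem_tan] at hu
  obtain ⟨r1, r2, r3, r4⟩ := rel_mem (Z := Z)
  obtain ⟨a, ha⟩ := rank_one_tan h1 (u := u ∘ .inl)
    (fun i j => by simpa [sub_eq_zero, dv_X] using hu _ (r1 i j))
    fun i j k l => by simpa [sub_eq_zero, dv_X, dv_mul, sq2] using hu _ (r2 i j k l)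
  obtain ⟨b, hb⟩ := rank_one_tan h2 (u := u ∘ .inr)
    (fun i j => by simpa [sub_eq_zero, dv_X] using hu _ (r3 i j))
    fun i j k l => by simpa [sub_eq_zero, dv_X, dv_mul, sq2] using hu _ (r4 i j k l)
  have e : dsq y (Sum.elim a b) = u := funext fun i => by
    cases i with
    | inl i => exact ha i
    | inr i => exact hb i
  refine ⟨_, mem_tan.2 fun f hf => ?_, e⟩
  obtain ⟨k, hk⟩ := sel_l h1
  obtain ⟨k', hk'⟩ := sel_r h2
  obtain ⟨F, h3, h4⟩ := descend hZ (Ideal.mul_mem_left _ (k * k') hf)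
  have h5 := chain (sq2_has y) F (Sum.elim a b)
  rw [e, hu F h3, ← show rey (k * k' * f) = _ from funext h4] at h5
  have h6 : ∀ s t : ℂ, HasFDerivAt (fun z : A ⊕ B → ℂ => aeval (sg s t z) (k * k' * f))
      ((LinearMap.toContinuousLinearMap (dv (sg s t y) (k * k' * f))).comp (sg s t)) y :=
    fun s t => (hasF (k * k' * f) (sg s t y)).comp y (sg s t).hasFDerivAt
  have h7 : HasFDerivAt (rey (k * k' * f)) _ y :=
    (((h6 1 1).add (h6 1 (-1))).add (h6 (-1) 1)).add (h6 (-1) (-1))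
  obtain ⟨m1, m2, m3, m4⟩ := sg_mem hZ hy
  rw [h7.fderiv] at h5
  simp only [add_apply, ContinuousLinearMap.comp_apply,
    LinearMap.coe_toContinuousLinearMap', dv_mul _ (k * k'), map_mul, hk, hk', hf _ m1, hf _ m2,
    hf _ m3, hf _ m4] at h5
  rw [sg_one, sg_one] at h5
  linear_combination h5 / 4

end Pool.Agent.Lib.MP_78bd4b_ag.Pk
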