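import Pool.Agent.Lib.MP_78bd4b_ag.Pack3

/-! Job Q, part 4: cones, real structure, uniruledness. -/

noncomputable section

namespace Pool.Agent.Lib.MP_78bd4b_ag.Pk

open MvPolynomial Filter Function Module
open scoped Topology Manifold ContDiff

theorem ana_zero {g : ℂ → ℂ} (hg : ∀ t, AnalyticAt ℂ g t) {t0 : ℂ} (h : ∀ᶠ t in 𝓝 t0, g t = 0)
    (t : ℂ) : g t = 0 :=
  AnalyticOnNhd.eqOn_zero_of_preconnected_of_eventuallyEq_zero (U := Set.univ) (fun t _ => hg t)
    isPreconnected_univ (Set.mem_univ t0) h (Set.mem_univ t)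

theorem hom_smul {I k : Type} [Field k] [Algebra k ℂ] {f : MvPolynomial I k} {d : ℕ}
    (hf : f.IsHomogeneous d) (c : ℂ) (y : I → ℂ) : aeval (c • y) f = c ^ d * aeval y f := by
  rw [aeval_def, aeval_def, eval₂_eq, eval₂_eq, Finset.mul_sum]
  refine Finset.sum_congr rfl fun m hm => ?_
  have : m.degree = d := by
    by_contra h
    exact mem_support_iff.1 hm (hf.coeff_eq_zero h)
  simp only [Pi.smul_apply, smul_eq_mul, mul_pow, Finset.prod_mul_distrib,
    Finset.prod_pow_eq_pow_sum]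
  rw [← Finsupp.degree_apply, this]
  ring

theorem hom_mem {I k : Type} [Field k] [Algebra k ℂ] {Z : Set (I → ℂ)}
    (hs : ∀ c : ℂ, ∀ y ∈ Z, c • y ∈ Z) {f : MvPolynomial I k} (hf : f ∈ vanishingIdeal k Z)
    (d : ℕ) : homogeneousComponent d f ∈ vanishingIdeal k Z := by
  intro y hy
  by_cases hd : f.totalDegree < d
  · rw [homogeneousComponent_eq_zero _ _ hd, map_zero]
  have h : (∑ i ∈ Finset.range (f.totalDegree + 1),
      Polynomial.monomial i (aeval y (homogeneousComponent i f)) : Polynomial ℂ) = 0 := by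
    refine Polynomial.funext fun c => ?_
    have h1 := hf _ (hs c y hy)
    rw [← sum_homogeneousComponent f, map_sum] at h1
    simp only [hom_smul (homogeneousComponent_isHomogeneous _ _)] at h1
    rw [Polynomial.eval_finsetSum, Polynomial.eval_zero, ← h1]
    exact Finset.sum_congr rfl fun i _ => by rw [Polynomial.eval_monomial, mul_comm]
  have h2 := congrArg (Polynomial.coeff · d) h
  simp only [Polynomial.finsetSum_coeff, Polynomial.coeff_monomial, Finset.sum_ite_eq',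
    Finset.mem_range, Polynomial.coeff_zero] at h2
  rwa [if_pos (by omega)] at h2

theorem re_im {I : Type} (f : MvPolynomial I ℂ) : ∃ g h : MvPolynomial I ℝ,
    ∀ y : I → ℂ, aeval y f = aeval y g + Complex.I * aeval y h := by
  induction f using MvPolynomial.induction_on with
  | C a => exact ⟨C a.re, C a.im, fun y => by simp [mul_comm Complex.I]⟩
  | add p q hp hq =>
    obtain ⟨g, h, e⟩ := hp
    obtain ⟨g', h', e'⟩ := hq
    exact ⟨g + g', h + h', fun y => by simp only [map_add, e, e']; ring⟩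
  | mul_X p i hp =>
    obtain ⟨g, h, e⟩ := hp
    exact ⟨g * X i, h * X i, fun y => by simp only [map_mul, e, aeval_X]; ring⟩

theorem aeval_star {I : Type} (g : MvPolynomial I ℝ) (y : I → ℂ) :
    aeval (star y) g = star (aeval y g) := by
  induction g using MvPolynomial.induction_on with
  | C a => simp
  | add p q hp hq => simp only [map_add, hp, hq, star_add]
  | mul_X p i hp => simp only [map_mul, hp, aeval_X, star_mul', Pi.star_apply]

variable {I : Type} [Fintype I] {Z : Set (I → ℂ)} {x0 : I → ℂ}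

theorem comp_smul (hs : ∀ c : ℂ, ∀ y ∈ Z, c • y ∈ Z) (c : ℂ) (x : I → ℂ)
    (hx : x ∈ zeroLocus ℂ (pI Z x0)) : c • x ∈ zeroLocus ℂ (pI Z x0) := by
  intro f hf
  have e : ∀ y : I → ℂ,
      aeval y (aeval (fun i => C c * X i : I → MvPolynomial I ℂ) f) = aeval (c • y) f := by
    intro y
    rw [← AlgHom.comp_apply, comp_aeval]
    congr 2
    funext i
    simp
  rw [← e]
  refine hx _ (mem_pI.2 ?_)
  have hc : Tendsto (fun q : (I → ℂ) × ℂ => q.2 • q.1) (𝓝 (x0, 1)) (𝓝 x0) := by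
    have h1 : Continuous fun q : (I → ℂ) × ℂ => q.2 • q.1 := continuous_snd.smul continuous_fst
    exact h1.tendsto' _ _ (one_smul _ _)
  filter_upwards [(hc.eventually (mem_pI.1 hf)).curry_nhds] with y hy hyZ
  rw [e]
  exact ana_zero (g := fun t => aeval (t • y) f) (fun t => (ana f _).comp (f := fun t : ℂ => t • y)
    (analyticAt_id.smul analyticAt_const)) (hy.mono fun t ht => ht (hs t y hyZ)) c

omit [Fintype I] in
theorem real_comp (hst : ∀ y ∈ Z, star y ∈ Z) (h0 : star x0 = x0) :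
    zeroLocus ℂ (vanishingIdeal ℝ (zeroLocus ℂ (pI Z x0))) = zeroLocus ℂ (pI Z x0) := by
  refine Set.Subset.antisymm (fun x hx f hf => ?_) (zeroLocus_vanishingIdeal_le _)
  obtain ⟨g, h, e⟩ := re_im f
  have hc : Tendsto (star : (I → ℂ) → I → ℂ) (𝓝 x0) (𝓝 x0) := by
    have := (continuous_star : Continuous (star : (I → ℂ) → I → ℂ)).tendsto x0
    rwa [h0] at this
  have h1 : ∀ᶠ y in 𝓝 x0, y ∈ Z → aeval y g = 0 ∧ aeval y h = 0 := by
    filter_upwards [mem_pI.1 hf, hc.eventually (mem_pI.1 hf)] with y a b hy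
    have a1 := a hy
    have b1 := congrArg star (b (hst y hy))
    rw [e] at a1
    rw [e, aeval_star, aeval_star, star_add, star_mul', star_star, star_star, star_zero,
      Complex.star_def, Complex.conj_I] at b1
    refine ⟨by linear_combination (a1 + b1) / 2, ?_⟩
    refine (mul_eq_zero.1 (?_ : Complex.I * _ = 0)).resolve_left Complex.I_ne_zero
    linear_combination (a1 - b1) / 2
  have h2 : ∀ k : MvPolynomial I ℝ, (∀ᶠ y in 𝓝 x0, y ∈ Z → aeval y k = 0) → aeval x k = 0 := by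
    intro k hk
    refine hx k fun y hy => ?_
    rw [← aeval_map_algebraMap ℂ]
    refine hy _ (hk.mono fun z hz hz' => ?_)
    rw [aeval_map_algebraMap]
    exact hz hz'
  rw [e, h2 g (h1.mono fun y a b => (a b).1), h2 h (h1.mono fun y a b => (a b).2), mul_zero,
    add_zero]

omit [Fintype I] in
theorem closed_locus (p : Ideal (MvPolynomial I ℂ)) : IsClosed (zeroLocus ℂ p) := by
  have : zeroLocus ℂ p = ⋂ f ∈ p, {x : I → ℂ | aeval x f = 0} := by
    refine Set.ext fun x => ?_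
    simp only [mem_zeroLocus_iff, Set.mem_iInter, Set.mem_ofPred_eq]
  rw [this]
  exact isClosed_biInter fun f _ => isClosed_eq (continuous_eval f) continuous_const

theorem real_rank {V : Submodule ℂ (I → ℂ)} {K : Submodule ℝ (I → ℝ)}
    (h : ∀ u ∈ K, algebraMap ℝ ℂ ∘ u ∈ V) : finrank ℝ K ≤ finrank ℂ V := by
  let b := Module.finBasis ℝ K
  have h1 : LinearIndependent ℝ fun j => (b j : I → ℝ) :=
    b.linearIndependent.map' K.subtype (Submodule.ker_subtype _)
  have h2 := (linearIndependent_algebraMap_comp_iff (S := ℂ)).2 h1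
  have h3 : LinearIndependent ℂ fun j => (⟨_, h _ (b j).2⟩ : V) :=
    LinearIndependent.of_comp V.subtype h2
  simpa using h3.fintype_card_le_finrank

theorem real_param {d : ℕ} {x : I → ℝ} (h : Reg Z d (algebraMap ℝ ℂ ∘ x)) {D : Type*}
    [NormedAddCommGroup D] [NormedSpace ℝ D] [FiniteDimensional ℝ D] {G : D → I → ℝ}
    {G' : D →L[ℝ] I → ℝ} {w0 : D} (hG : HasStrictFDerivAt G G' w0) (e : G w0 = x)
    (hZ : ∀ w, algebraMap ℝ ℂ ∘ G w ∈ Z) (hi : Injective G') (hd : finrank ℝ D = d) :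
    ∀ᶠ y in 𝓝 x, algebraMap ℝ ℂ ∘ y ∈ Z → ∃ w, G w = y := by
  obtain ⟨c, -, f, hf, -, hk⟩ := exists_eqs Z (algebraMap ℝ ℂ ∘ x)
  let ι : (I → ℝ) →L[ℝ] I → ℂ :=
    ContinuousLinearMap.pi fun i => Complex.ofRealCLM.comp (ContinuousLinearMap.proj i)
  have hι : ∀ y, ι y = algebraMap ℝ ℂ ∘ y := fun _ => rfl
  let F' : (I → ℝ) →L[ℝ] Fin c → ℂ := ContinuousLinearMap.pi fun j =>
    ((fderiv ℂ (fun y : I → ℂ => aeval y (f j)) (ι x)).restrictScalars ℝ).comp ι
  have hF : HasStrictFDerivAt (fun y : I → ℝ => fun j => aeval (ι y) (f j)) F' x :=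
    hasStrictFDerivAt_pi.2 fun j =>
      ((ana (f j) (ι x)).hasStrictFDerivAt.restrictScalars ℝ).comp x ι.hasStrictFDerivAt
  have h0 : ∀ w, (fun j => aeval (ι (G w)) (f j)) = 0 := fun w => funext fun j => hf j _ (hZ w)
  have hr : LinearMap.range (G' : D →ₗ[ℝ] I → ℝ) = LinearMap.ker (F' : (I → ℝ) →ₗ[ℝ] Fin c → ℂ) := by
    refine Submodule.eq_of_le_of_finrank_le ?_ ?_
    · rintro _ ⟨w, rfl⟩
      have h1 := (e ▸ hF.hasFDerivAt).comp w0 hG.hasFDerivAt
      have h2 : ((fun y : I → ℝ => fun j => aeval (ι y) (f j)) ∘ G) = fun _ => 0 := funext h0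
      rw [h2] at h1
      exact congrArg (fun L : D →L[ℝ] Fin c → ℂ => L w) (h1.unique (hasFDerivAt_const _ _))
    · rw [LinearMap.finrank_range_of_inj hi, hd, ← reg_finrank h]
      refine real_rank fun u hu => hk _ fun j => ?_
      rw [← fd_eq]
      exact congrFun hu j
  filter_upwards [open_lemma hF hG e (.of_forall h0) hi (fun u hu => by
    have : u ∈ LinearMap.ker (F' : (I → ℝ) →ₗ[ℝ] Fin c → ℂ) := hu
    rw [← hr] at this
    exact this) univ_mem] with y hy hyZ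
  obtain ⟨w, -, hw⟩ := hy (funext fun j => hf j _ hyZ)
  exact ⟨w, hw⟩

/-- the family of curves -/
def sw {n k : ℕ} (R : Fin n → MvPolynomial (Option (Fin k)) ℂ) (q : (Fin k → ℂ) × ℂ) :
    Fin n → ℂ := fun i => aeval (fun o : Option (Fin k) => o.elim q.2 q.1) (R i)

theorem sw_ana {n k : ℕ} (R : Fin n → MvPolynomial (Option (Fin k)) ℂ) (q : (Fin k → ℂ) × ℂ) :
    AnalyticAt ℂ (sw R) q :=
  analyticAt_pi_iff.2 fun i => AnalyticAt.aeval_mvPolynomial (fun o => by
    cases o with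
    | none => exact analyticAt_snd
    | some j => exact analyticAt_pi_iff.1 analyticAt_fst j) _

theorem uniruled_of {n k : ℕ} {W : Set (Fin n → ℂ)} (hs : ∀ c : ℂ, ∀ y ∈ W, c • y ∈ W)
    {x0 : Fin n → ℂ} (h : Reg W 4 x0) {Y : Set (Fin k → ℂ)} (hY : Cl Y) {y1 : Fin k → ℂ}
    (hr : Reg Y 2 y1) (R : Fin n → MvPolynomial (Option (Fin k)) ℂ)
    (hR : ∀ y ∈ Y, ∀ t : ℂ, (fun i => aeval (fun o => o.elim t y) (R i)) ∈ W) {c0 t0 : ℂ}
    (hc : c0 ≠ 0) (e : x0 = c0 • fun i => aeval (fun o => o.elim t0 y1) (R i))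
    {D : Type*} [NormedAddCommGroup D] [NormedSpace ℂ D] [FiniteDimensional ℂ D]
    (hD : finrank ℂ D = 4) {G : D → Fin n → ℂ} {G' : D →L[ℂ] Fin n → ℂ} {w0 : D}
    (hG : HasStrictFDerivAt G G' w0) (e' : G w0 = x0) (hi : Injective G')
    (hw : ∀ᶠ w in 𝓝 w0, ∃ c t : ℂ, ∃ y ∈ zeroLocus ℂ (pI Y y1),
      G w = c • fun i => aeval (fun o => o.elim t y) (R i)) :
    Uniruled3 (zeroLocus ℂ (pI W x0)) := by
  refine ⟨k, pI Y y1, R, pI_prime hr, ⟨y1, self_mem (reg_mem hr), reg_smooth (reg_comp hY hr)⟩,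
    fun y hy t f hf => ?_, fun f d hf h0 => ?_⟩
  · have e1 : ∀ y : Fin k → ℂ, aeval y (aeval (fun i => aeval
        (fun o : Option (Fin k) => o.elim (C t) X : _ → MvPolynomial (Fin k) ℂ) (R i)) f) =
        aeval (fun i => aeval (fun o => o.elim t y) (R i)) f := by
      intro y
      rw [← AlgHom.comp_apply, comp_aeval]
      congr 2
      funext i
      rw [← AlgHom.comp_apply, comp_aeval]
      congr 2
      funext o
      cases o <;> simp
    rw [← e1]
    refine hy _ (mem_pI.2 ?_)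
    have h1 : Tendsto (fun q => c0 • sw R q) (𝓝 (y1, t0)) (𝓝 x0) := by
      rw [e]
      exact ((sw_ana R (y1, t0)).continuousAt.const_smul c0).tendsto
    filter_upwards [(h1.eventually (near_comp W x0)).curry_nhds] with z hz hzY
    rw [e1]
    have h2 : ∀ t, AnalyticAt ℂ (fun t : ℂ => aeval (sw R (z, t)) f) t := fun t => by
      have h3 : AnalyticAt ℂ (fun t : ℂ => (z, t)) t := analyticAt_const.prod analyticAt_id
      have h4 : AnalyticAt ℂ (fun t : ℂ => sw R (z, t)) t := (sw_ana R (z, t)).comp h3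
      exact (ana f (sw R (z, t))).comp (f := fun t : ℂ => sw R (z, t)) h4
    refine ana_zero h2 (hz.mono fun t ht => ?_) t
    have h2 := comp_smul hs c0⁻¹ _ (ht (hs c0 _ (hR z hzY t)))
    rw [inv_smul_smul₀ hc] at h2
    exact h2 f hf
  · rw [van_comp]
    have h1 : ∀ᶠ w in 𝓝 w0, G w ∈ W ∧ aeval (G w) f = 0 := hw.mono fun w ⟨c, t, y, hy, e⟩ => by
      rw [e, hom_smul hf, h0 y hy t, mul_zero]
      exact ⟨hs c _ (hR y (comp_sub hY hy) t), rfl⟩
    filter_upwards [reg_param h hG e' (h1.mono fun w a => a.1) hi hD h1] with y hy hyW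
    obtain ⟨w, hw, rfl⟩ := hy hyW
    exact hw.2

theorem model_of {n : ℕ} {W : Set (Fin n → ℂ)} (hW : Cl W) (hs : ∀ c : ℂ, ∀ y ∈ W, c • y ∈ W)
    (hst : ∀ y ∈ W, star y ∈ W) (hr : ∀ y ∈ W, y ≠ 0 → Reg W 4 y)
    {M : Type*} [TopologicalSpace M] [ChartedSpace (EuclideanSpace ℝ (Fin 3)) M]
    [ConnectedSpace M] {e : M → Fin n → ℝ} (sm : ContMDiff (𝓡 3) 𝓘(ℝ, Fin n → ℝ) ∞ e)
    (mem : ∀ m, algebraMap ℝ ℂ ∘ e m ∈ W) (Λ : (Fin n → ℝ) →ₗ[ℝ] ℝ) (hΛ : ∀ m, Λ (e m) = 1)
    (inj : Injective e) (imm : ∀ m, Injective (mfderiv (𝓡 3) 𝓘(ℝ, Fin n → ℝ) e m)) (m0 : M)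
    (hU : Uniruled3 (zeroLocus ℂ (pI W (algebraMap ℝ ℂ ∘ e m0)))) : HasUniruledModel M := by
  have ne0 : ∀ m, e m ≠ 0 := fun m h => by simpa [h] using hΛ m
  have ne1 : ∀ m, algebraMap ℝ ℂ ∘ e m ≠ 0 := fun m h => ne0 m (funext fun i => by
    simpa using congrFun h i)
  have r0 := fun m => hr _ (mem m) (ne1 m)
  set x0 := algebraMap ℝ ℂ ∘ e m0 with hx0
  have hJ := real_comp (x0 := x0) hst (funext fun i => by simp [hx0])
  have hc : Continuous fun m => algebraMap ℝ ℂ ∘ e m :=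
    continuous_pi fun i => Complex.continuous_ofReal.comp ((continuous_apply i).comp sm.continuous)
  have all : ∀ m, algebraMap ℝ ℂ ∘ e m ∈ zeroLocus ℂ (pI W x0) := by
    have h1 : IsClopen {m | algebraMap ℝ ℂ ∘ e m ∈ zeroLocus ℂ (pI W x0)} := by
      refine ⟨(closed_locus _).preimage hc, isOpen_iff_mem_nhds.2 fun m hm => ?_⟩
      have h2 := near_comp W (algebraMap ℝ ℂ ∘ e m)
      rw [pI_eq (r0 m0) (r0 m) hm] at h2
      exact ((hc.tendsto m).eventually h2).mono fun m' h => h (mem m')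
    exact fun m => (h1.eq_univ ⟨m0, self_mem (mem m0)⟩).ge (Set.mem_univ m)
  have tr : ∀ m u (t : ℝ), mfderiv (𝓡 3) 𝓘(ℝ, Fin n → ℝ) e m u = t • e m → t = 0 ∧ u = 0 := by
    intro m u t h
    have h1 := (LinearMap.toContinuousLinearMap Λ).hasMFDerivAt.comp m
      (sm.mdifferentiableAt (x := m) (by simp)).hasMFDerivAt
    have h2 : (LinearMap.toContinuousLinearMap Λ) ∘ e = fun _ => 1 := funext hΛ
    have h3 := h1.mfderiv
    rw [h2, mfderiv_const] at h3
    have h4 : (0 : ℝ) = Λ (mfderiv (𝓡 3) 𝓘(ℝ, Fin n → ℝ) e m u) :=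
      congrArg (fun L : EuclideanSpace ℝ (Fin 3) →L[ℝ] ℝ => L u) h3
    rw [h] at h4
    erw [map_smul] at h4
    rw [hΛ, smul_eq_mul, mul_one] at h4
    refine ⟨h4.symm, imm m ?_⟩
    rw [h, ← h4, map_zero]
    exact zero_smul _ _
  refine ⟨n, vanishingIdeal ℝ (zeroLocus ℂ (pI W x0)), e,
    fun f hf d => hom_mem (comp_smul hs) hf d, ?_, ?_, hJ.symm ▸ hU, sm,
    fun m => ⟨ne0 m, fun g hg => ?_⟩, fun m m' t h => ?_, fun m u t h => (tr m u t h).2,
    fun m => ?_⟩
  · rw [hJ, van_comp]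
    exact pI_prime (r0 m0)
  · rw [hJ]
    intro x hx x1
    have h1 := hr x (comp_sub hW hx) x1
    rw [← pI_eq (r0 m0) h1 hx]
    exact reg_smooth (reg_comp hW h1)
  · exact (aeval_algebraMap_eq_zero_iff ℂ _ _).1 (hg _ (all m))
  · have h1 := hΛ m'
    rw [h, map_smul, hΛ, smul_eq_mul, mul_one] at h1
    rw [h1, one_smul] at h
    exact inj h
  · let c := extChartAt (𝓡 3) m
    have g1 : ContDiffAt ℝ ∞ (e ∘ c.symm) (c m) := by
      have := (contMDiffAt_iff.1 (sm m)).2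
      simpa [contDiffWithinAt_univ, c] using this
    have g2 : mfderiv (𝓡 3) 𝓘(ℝ, Fin n → ℝ) e m = fderiv ℝ (e ∘ c.symm) (c m) := by
      rw [(sm.mdifferentiableAt (x := m) (by simp)).mfderiv]
      simp [writtenInExtChartAt, c]
    have g3 : (e ∘ c.symm) (c m) = e m := by simp [c]
    have g5 : HasStrictFDerivAt (fun q : ℝ × EuclideanSpace ℝ (Fin 3) => (e ∘ c.symm) q.2)
        ((fderiv ℝ (e ∘ c.symm) (c m)).comp (ContinuousLinearMap.snd ℝ _ _)) (1, c m) :=
      (g1.hasStrictFDerivAt (by simp)).comp ((1 : ℝ), c m) hasStrictFDerivAt_snd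
    have g4 : HasStrictFDerivAt (fun q : ℝ × EuclideanSpace ℝ (Fin 3) => q.1 • (e ∘ c.symm) q.2)
        _ (1, c m) := (hasStrictFDerivAt_fst (𝕜 := ℝ) (p := ((1 : ℝ), c m))).smul g5
    filter_upwards [real_param (r0 m) g4 (by rw [g3, one_smul]) (fun w => by
      have : algebraMap ℝ ℂ ∘ (w.1 • (e ∘ c.symm) w.2) =
          (w.1 : ℂ) • (algebraMap ℝ ℂ ∘ e (c.symm w.2)) := funext fun i => by simp
      rw [this]
      exact hs _ _ (mem _)) (by
        rw [injective_iff_map_eq_zero]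
        rintro ⟨t, u⟩ hu
        obtain ⟨a, b⟩ := tr m u (-t) (by
          have h1 : fderiv ℝ (e ∘ c.symm) (c m) u + t • (e ∘ c.symm) (c m) = 0 := by
            simpa using hu
          rw [g3] at h1
          rw [g2, neg_smul]
          exact eq_neg_of_add_eq_zero_left h1)
        exact Prod.ext (neg_eq_zero.1 a) b) (by simp)] with y hy hyJ
    obtain ⟨w, hw⟩ := hy (comp_sub hW (hJ.le fun g hg =>
      (aeval_algebraMap_eq_zero_iff ℂ _ _).2 (hyJ g hg)))
    exact ⟨_, _, hw.symm⟩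

end Pool.Agent.Lib.MP_78bd4b_ag.Pk
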