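import Pool.Agent.Lib.MP_78bd4b_ag.Pert3

/-! Equivariant perturbation of a family of solutions and stability of the embedding. -/

noncomputable section

namespace Pool.Agent.Lib.MP_78bd4b_ag

open Filter Function Set Metric
open scoped ContDiff Topology

theorem pert_glue {M P E H V : Type*} [TopologicalSpace M] [CompactSpace M]
    [NormedAddCommGroup P] [NormedSpace ℝ P] [FiniteDimensional ℝ P]
    [NormedAddCommGroup E] [NormedSpace ℝ E] [FiniteDimensional ℝ E]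
    [NormedAddCommGroup H] [NormedSpace ℝ H] [FiniteDimensional ℝ H]
    [NormedAddCommGroup V] [NormedSpace ℝ V] [FiniteDimensional ℝ V]
    {N : E → ℝ} (hN : Euc N) (N0 : ∀ e, N e = 0 → e = 0)
    {F0 : E → H} (hF0 : ContDiff ℝ ∞ F0) {Θ : E → V} (hΘ : ContDiff ℝ ∞ Θ) (G : Set (E → E))
    (hG : ∀ g ∈ G, IsLinearMap ℝ g ∧ (∀ e, N (g e) = N e) ∧ (∀ e, Θ (g e) = Θ e) ∧
      ∀ e, F0 (g e) = 0 ↔ F0 e = 0)
    (Lf : M → E → Prop) (h0 : ∀ m e, Lf m e → F0 e = 0 ∧ Surjective (fderiv ℝ F0 e))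
    (h1 : ∀ m e e', Lf m e → Lf m e' → ∃ g ∈ G, e' = g e)
    (h2 : ∀ m e m' e', Lf m e → Lf m' e' → Θ e = Θ e' → m = m')
    (Ψ : Set (P → M)) (hΨ : ∀ ψ ∈ Ψ, Continuous ψ ∧ IsOpenMap ψ)
    (h3 : ∀ m, ∃ ψ ∈ Ψ, ∃ (w0 : P) (s : P → E), ψ w0 = m ∧
      (∀ᶠ w in 𝓝 w0, ContDiffAt ℝ ∞ s w ∧ Lf (ψ w) (s w)) ∧ Injective (fderiv ℝ (Θ ∘ s) w0))
    {ε : ℝ} (hε : 0 < ε) :
    ∃ K : Set E, IsCompact K ∧ ∃ η > 0, ∀ F : E → H, ContDiff ℝ ∞ F →
      (∀ g ∈ G, ∀ e, F (g e) = 0 ↔ F e = 0) →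
      (∀ e ∈ K, ‖F e - F0 e‖ ≤ η ∧ ‖fderiv ℝ F e - fderiv ℝ F0 e‖ ≤ η) →
      ∃ W : M → E, (∀ m, F (W m) = 0) ∧ (∀ m, ∃ e, Lf m e ∧ ‖W m - e‖ ≤ ε) ∧
        Injective (Θ ∘ W) ∧ ∀ m, ∃ ψ ∈ Ψ, ∃ w, ψ w = m ∧ ContDiffAt ℝ ∞ ((Θ ∘ W) ∘ ψ) w ∧
          Injective (fderiv ℝ ((Θ ∘ W) ∘ ψ) w) := by
  obtain ⟨b, sy, hb⟩ := pt_form hN N0
  have bp : ∀ e, 0 ≤ b e e := fun e => (hb e).1 ▸ (hb e).2
  have b0 : ∀ e, b e e = 0 → e = 0 := fun e h => N0 e ((hb e).1.trans h)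
  choose ψ ψΨ w0 s e0 hs hT using h3
  have loc := fun m => pt_chart bp b0 hF0 hΘ (Q := fun w => Lf (ψ m w) (s m w))
    ((hs m).mono fun w hw => ⟨hw.1, (h0 _ _ hw.2).1, (h0 _ _ hw.2).2, hw.2⟩) (hT m)
  choose r r0 lf K hK ρ ρ0 loc using loc
  have θe : ∀ m e, Lf m e → Θ (s m (w0 m)) = Θ e := fun m e h => by
    obtain ⟨g, hg, rfl⟩ := h1 m _ e (by simpa [e0] using (hs m).self_of_nhds.2) h
    exact ((hG g hg).2.2.1 _).symm
  have l0 : ∀ m, Lf m (s m (w0 m)) := fun m => by simpa [e0] using (hs m).self_of_nhds.2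
  have θc : Continuous fun m => Θ (s m (w0 m)) := continuous_iff_continuousAt.2 fun m => by
    have a : 𝓝 m ≤ map (ψ m) (𝓝 (w0 m)) := by
      have := (hΨ _ (ψΨ m)).2.nhds_le (w0 m)
      rwa [e0] at this
    refine Tendsto.mono_left ?_ a
    rw [tendsto_map'_iff]
    refine (hΘ.continuous.continuousAt.comp (hs m).self_of_nhds.1.continuousAt).tendsto.congr' ?_
    filter_upwards [hs m] with w hw
    exact (θe _ _ hw.2).symm
  have op : ∀ m, IsOpen (ψ m '' ball (w0 m) (r m)) := fun m => (hΨ _ (ψΨ m)).2 _ isOpen_ball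
  obtain ⟨t, ht⟩ := isCompact_univ.elim_finite_subcover _ op
    fun m _ => mem_iUnion.2 ⟨m, w0 m, mem_ball_self (r0 m), e0 m⟩
  have cov : ∀ m, ∃ i : t, ∃ w ∈ ball (w0 i) (r i), ψ i w = m := fun m => by
    obtain ⟨i, hi, h⟩ := mem_iUnion₂.1 (ht (mem_univ m))
    exact ⟨⟨i, hi⟩, h⟩
  have cS : IsClosed (⋂ i : t, ((ψ i '' ball (w0 i) (r i)) ×ˢ (ψ i '' ball (w0 i) (r i)))ᶜ) :=
    isClosed_iInter fun i => ((op i).prod (op i)).isClosed_compl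
  obtain ⟨κ, κ0, hκ⟩ := cS.isCompact.exists_forall_le' (a := 0)
    (f := fun x : M × M => ‖Θ (s x.1 (w0 x.1)) - Θ (s x.2 (w0 x.2))‖)
    ((θc.comp continuous_fst).sub (θc.comp continuous_snd)).norm.continuousOn fun x hx => by
      refine norm_pos_iff.2 (sub_ne_zero.2 fun h => ?_)
      obtain ⟨i, hi⟩ := cov x.1
      exact mem_iInter.1 hx i ⟨hi, h2 _ _ _ _ (l0 _) (l0 _) h ▸ hi⟩
  obtain ⟨a, a0, ha⟩ := pt_pos_le (fun i : t => ρ i) fun i => ρ0 i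
  have m0 : 0 < min a (min ε (κ / 3)) := by positivity
  choose η η0 loc using fun i : t => loc i _ m0
  obtain ⟨η1, η10, hη⟩ := pt_pos_le η η0
  refine ⟨⋃ i : t, K i, isCompact_iUnion fun i => hK i, η1, η10, fun F hF gF cl => ?_⟩
  have loc' := fun i : t => loc i F hF fun e he =>
    (cl e (mem_iUnion.2 ⟨i, he⟩)).imp (·.trans (hη i)) (·.trans (hη i))
  choose U v hv inj using loc'
  choose i w hw e1 using cov
  have lw : ∀ m, Lf m (s (i m) (w m)) := fun m => by simpa [e1] using lf _ _ (hw m)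
  have key : ∀ (j : t), ∀ w' ∈ ball (w0 j) (r j), ∀ m, ψ j w' = m →
      Θ (s (i m) (w m) + v (i m) (w m)) = Θ (s j w' + v j w') := by
    intro j w' hw' m e
    have l' : Lf m (s j w') := e ▸ lf j w' hw'
    obtain ⟨g, hg, eg⟩ := h1 m _ _ (lw m) l'
    obtain ⟨g1, g2, g3, g4⟩ := hG g hg
    have gN : ∀ e, b (g e) (g e) = b e e := fun e => by rw [← (hb _).1, ← (hb _).1, g2]
    obtain ⟨p1, p2, -, -, p5, -⟩ := hv (i m) (w m) (hw m)
    obtain ⟨q1, q2, -, -, q5, -⟩ := hv j w' hw'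
    have := U j w' hw' (g (v (i m) (w m))) (v j w')
      (eg ▸ p1.map sy b0 hF0 g1 gN g4 (h0 _ _ (lw m)).1 (eg ▸ (h0 _ _ l').2)) q1
      (by rw [gN]; exact p2.trans ((min_le_left _ _).trans (ha j)))
      (q2.trans ((min_le_left _ _).trans (ha j)))
      (by rw [eg, ← g1.map_add]; exact (gF g hg _).2 p5) q5
    rw [← this, eg, ← g1.map_add, g3]
  refine ⟨fun m => s (i m) (w m) + v (i m) (w m), fun m => (hv _ _ (hw m)).2.2.2.2.1,
    fun m => ⟨_, lw m, ?_⟩, fun m m' e => ?_, fun m => ⟨ψ (i m), ψΨ _, w m, e1 m, ?_⟩⟩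
  · rw [add_sub_cancel_left]
    exact (hv _ _ (hw m)).2.2.1.trans ((min_le_right _ _).trans (min_le_left _ _))
  · have c : ∀ m, ‖Θ (s (i m) (w m) + v (i m) (w m)) - Θ (s m (w0 m))‖ ≤ κ / 3 := fun m => by
      rw [θe m _ (lw m)]
      exact (hv _ _ (hw m)).2.2.2.1.trans ((min_le_right _ _).trans (min_le_right _ _))
    by_contra ne
    have := hκ (m, m') (mem_iInter.2 fun j ⟨⟨x, hx, ex⟩, ⟨x', hx', ex'⟩⟩ => ne (by
      have := inj j hx hx' ((key j x hx m ex).symm.trans (e.trans (key j x' hx' m' ex')))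
      exact ex.symm.trans (this ▸ ex')))
    have c1 := c m
    have c2 := c m'
    simp only [comp_apply] at e
    rw [e, norm_sub_rev] at c1
    linarith [norm_sub_le_norm_sub_add_norm_sub (Θ (s m (w0 m)))
      (Θ (s (i m') (w m') + v (i m') (w m'))) (Θ (s m' (w0 m')))]
  · have eq : (Θ ∘ fun m => s (i m) (w m) + v (i m) (w m)) ∘ ψ (i m) =ᶠ[𝓝 (w m)]
        fun w' => Θ (s (i m) w' + v (i m) w') := by
      filter_upwards [isOpen_ball.mem_nhds (hw m)] with w' hw'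
      exact key (i m) w' hw' _ rfl
    rw [eq.fderiv_eq]
    exact ⟨(hv _ _ (hw m)).2.2.2.2.2.1.congr_of_eventuallyEq eq, (hv _ _ (hw m)).2.2.2.2.2.2⟩

end Pool.Agent.Lib.MP_78bd4b_ag
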