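import Pool.Agent.Lib.MP_78bd4b_ag.Core

/-! Euclidean forms and the basic calculus lemmas for the perturbation argument. -/

noncomputable section

namespace Pool.Agent.Lib.MP_78bd4b_ag

open Filter Function Set Metric
open scoped ContDiff Topology

theorem Euc.sq {E : Type*} [AddCommGroup E] [Module ℝ E] {f : E → ℝ} (h : IsLinearMap ℝ f) :
    Euc fun e => f e ^ 2 := by
  refine ⟨(LinearMap.mul ℝ ℝ).compl₁₂ (h.mk' f) (h.mk' f), fun e e' => ?_, fun e => ⟨?_, ?_⟩⟩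
  · simp [mul_comm]
  · simp [pow_two]
  · positivity

theorem Euc.add {E : Type*} [AddCommGroup E] [Module ℝ E] {N N' : E → ℝ} (h : Euc N)
    (h' : Euc N') : Euc fun e => N e + N' e := by
  obtain ⟨β, s, p⟩ := h
  obtain ⟨β', s', p'⟩ := h'
  refine ⟨β + β', fun e e' => ?_, fun e => ⟨?_, add_nonneg (p e).2 (p' e).2⟩⟩
  · simp only [LinearMap.add_apply]; rw [s, s']
  · simp only [LinearMap.add_apply]; rw [(p e).1, (p' e).1]

theorem Euc.normSq {E : Type*} [AddCommGroup E] [Module ℝ E] {f : E → ℂ} (h : IsLinearMap ℝ f) :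
    Euc fun e => Complex.normSq (f e) := by
  have a : IsLinearMap ℝ fun e => (f e).re :=
    ⟨fun x y => by rw [h.map_add, Complex.add_re], fun c x => by rw [h.map_smul]; simp⟩
  have b : IsLinearMap ℝ fun e => (f e).im :=
    ⟨fun x y => by rw [h.map_add, Complex.add_im], fun c x => by rw [h.map_smul]; simp⟩
  have e : (fun e => Complex.normSq (f e)) = fun e => (f e).re ^ 2 + (f e).im ^ 2 := by
    funext e; rw [Complex.normSq_apply]; ring
  rw [e]
  exact (Euc.sq a).add (Euc.sq b)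

theorem Euc.sum {E ι : Type*} [AddCommGroup E] [Module ℝ E] [Fintype ι] {N : ι → E → ℝ}
    (h : ∀ i, Euc (N i)) : Euc fun e => ∑ i, N i e := by
  choose β s p using h
  refine ⟨∑ i, β i, fun e e' => ?_, fun e => ⟨?_, Finset.sum_nonneg fun i _ => (p i e).2⟩⟩
  · simp only [LinearMap.sum_apply]; exact Finset.sum_congr rfl fun i _ => s i e e'
  · simp only [LinearMap.sum_apply]; exact Finset.sum_congr rfl fun i _ => (p i e).1

theorem pt_pos_le {ι : Type*} [Finite ι] (f : ι → ℝ) (h : ∀ i, 0 < f i) :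
    ∃ a > 0, ∀ i, a ≤ f i := by
  have : ∀ᶠ a in 𝓝[>] (0 : ℝ), ∀ i, a ≤ f i :=
    eventually_all.2 fun i => nhdsWithin_le_nhds (Iic_mem_nhds (h i))
  obtain ⟨a, h1, h2⟩ := (this.and self_mem_nhdsWithin).exists
  exact ⟨a, h2, h1⟩

section
variable {X Y Z E H : Type*} [NormedAddCommGroup X] [NormedSpace ℝ X]
  [NormedAddCommGroup Y] [NormedSpace ℝ Y] [NormedAddCommGroup Z] [NormedSpace ℝ Z]
  [NormedAddCommGroup E] [NormedSpace ℝ E] [NormedAddCommGroup H] [NormedSpace ℝ H]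

theorem pt_equiv [FiniteDimensional ℝ X] [FiniteDimensional ℝ Y] {L : X →L[ℝ] Y}
    (hi : Injective L) (hd : Module.finrank ℝ X = Module.finrank ℝ Y) :
    ∃ e : X ≃L[ℝ] Y, (e : X →L[ℝ] Y) = L :=
  ⟨(LinearMap.linearEquivOfInjective (L : X →ₗ[ℝ] Y) hi hd).toContinuousLinearEquiv,
    ContinuousLinearMap.ext fun _ => rfl⟩

theorem pt_anti [FiniteDimensional ℝ X] {L : X →L[ℝ] Y} (hi : Injective L) :
    ∃ k > 0, ∀ u, ‖u‖ ≤ k * ‖L u‖ := by
  obtain ⟨k, k0, hk⟩ := (L : X →ₗ[ℝ] Y).exists_antilipschitzWith (LinearMap.ker_eq_bot.2 hi)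
  exact ⟨k, by exact_mod_cast k0, fun u => by simpa using hk.le_mul_dist u 0⟩

/-- stability of embeddings of convex sets -/
theorem pt_stab {f : X → Y} {L : X →L[ℝ] Y} {s : Set X} (hs : Convex ℝ s) {k c : ℝ}
    (k0 : 0 < k) (hk : ∀ u, ‖u‖ ≤ k * ‖L u‖) (hc : k * c ≤ 1 / 2)
    (hf : ∀ x ∈ s, DifferentiableAt ℝ f x ∧ ‖fderiv ℝ f x - L‖ ≤ c) :
    InjOn f s ∧ ∀ x ∈ s, Injective (fderiv ℝ f x) := by
  have key : ∀ u, ‖L u‖ ≤ c * ‖u‖ → u = 0 := fun u hu => by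
    have h1 := hk u
    have h2 : k * ‖L u‖ ≤ k * c * ‖u‖ := by rw [mul_assoc]; gcongr
    have h3 : k * c * ‖u‖ ≤ 1 / 2 * ‖u‖ := by gcongr
    exact norm_eq_zero.1 (by linarith [norm_nonneg u])
  refine ⟨fun x hx y hy e => ?_, fun x hx => (injective_iff_map_eq_zero _).2 fun u hu => ?_⟩
  · have := hs.norm_image_sub_le_of_norm_fderiv_le' (fun x hx => (hf x hx).1)
      (fun x hx => (hf x hx).2) hx hy
    rw [e, sub_self, zero_sub, norm_neg] at this
    exact (sub_eq_zero.1 (key _ this)).symm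
  · refine key u ?_
    have := (fderiv ℝ f x - L).le_of_opNorm_le (hf x hx).2 u
    rwa [sub_apply, hu, zero_sub, norm_neg] at this

theorem pt_pair {a : X → Y} {Φ : X → E} {F0 : E → H} {x0 : X} (ha : ContDiffAt ℝ 1 a x0)
    (hΦ : ContDiffAt ℝ 1 Φ x0) (hF0 : ContDiff ℝ 1 F0) {c : ℝ} (c0 : 0 < c) :
    ∃ η > 0, ∀ᶠ x in 𝓝 x0, ∀ F : E → H, Differentiable ℝ F →
      ‖fderiv ℝ F (Φ x) - fderiv ℝ F0 (Φ x)‖ ≤ η →
      DifferentiableAt ℝ (fun x => (a x, F (Φ x))) x ∧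
      ‖fderiv ℝ (fun x => (a x, F (Φ x))) x - fderiv ℝ (fun x => (a x, F0 (Φ x))) x0‖ ≤ c := by
  have h0 : ContDiffAt ℝ 1 (fun x => (a x, F0 (Φ x))) x0 :=
    ha.prodMk (hF0.contDiffAt.comp x0 hΦ)
  set C := ‖fderiv ℝ Φ x0‖ + 1 with hC
  have C0 : 0 < C := by positivity
  have e1 : ∀ᶠ x in 𝓝 x0, ‖fderiv ℝ Φ x‖ ≤ C :=
    (hΦ.continuousAt_fderiv one_ne_zero).norm.eventually (Iic_mem_nhds (by simp [hC]))
  have e2 : ∀ᶠ x in 𝓝 x0, dist (fderiv ℝ (fun x => (a x, F0 (Φ x))) x)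
      (fderiv ℝ (fun x => (a x, F0 (Φ x))) x0) < c / 2 :=
    Metric.tendsto_nhds.1 (h0.continuousAt_fderiv one_ne_zero) _ (by positivity)
  refine ⟨c / 2 / C, by positivity, ?_⟩
  filter_upwards [e1, e2, ha.eventually (by simp), hΦ.eventually (by simp)] with x h1 h2 h3 h4
    F hF hη
  have da := (h3.differentiableAt one_ne_zero).hasFDerivAt
  have dΦ := (h4.differentiableAt one_ne_zero).hasFDerivAt
  have d1 := da.prodMk ((hF (Φ x)).hasFDerivAt.comp x dΦ)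
  have d0 := da.prodMk ((hF0.differentiable one_ne_zero (Φ x)).hasFDerivAt.comp x dΦ)
  refine ⟨d1.differentiableAt, ?_⟩
  have h5 : ‖fderiv ℝ (fun x => (a x, F (Φ x))) x - fderiv ℝ (fun x => (a x, F0 (Φ x))) x‖
      ≤ c / 2 := by
    have q1 := d1.fderiv
    have q0 := d0.fderiv
    simp only [comp_apply] at q1 q0
    rw [q1, q0]
    refine ContinuousLinearMap.opNorm_le_bound _ (by positivity) fun u => ?_
    have : ((fderiv ℝ a x).prod ((fderiv ℝ F (Φ x)).comp (fderiv ℝ Φ x)) -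
        (fderiv ℝ a x).prod ((fderiv ℝ F0 (Φ x)).comp (fderiv ℝ Φ x))) u =
        (0, (fderiv ℝ F (Φ x) - fderiv ℝ F0 (Φ x)) (fderiv ℝ Φ x u)) := by simp
    rw [this, Prod.norm_mk, norm_zero, max_eq_right (norm_nonneg _)]
    calc _ ≤ c / 2 / C * ‖fderiv ℝ Φ x u‖ := ContinuousLinearMap.le_of_opNorm_le _ hη _
      _ ≤ c / 2 / C * (C * ‖u‖) := by
        gcongr; exact ContinuousLinearMap.le_of_opNorm_le _ h1 _
      _ = c / 2 * ‖u‖ := by field_simp
  rw [dist_eq_norm] at h2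
  calc _ ≤ _ := norm_sub_le_norm_sub_add_norm_sub _ (fderiv ℝ (fun x => (a x, F0 (Φ x))) x) _
    _ ≤ c := by linarith

/-- the kernel of the derivative only depends on the zero set -/
theorem pt_ker [CompleteSpace E] [FiniteDimensional ℝ H] {f1 : E → H} {f0 : E → Z} {e : E}
    {D1 : E →L[ℝ] H} {D0 : E →L[ℝ] Z} (h1 : HasStrictFDerivAt f1 D1 e) (s1 : Surjective D1)
    (h0 : HasFDerivAt f0 D0 e) (z1 : f1 e = 0) (hz : ∀ x, f1 x = 0 → f0 x = 0) {u : E}
    (hu : D1 u = 0) : D0 u = 0 := by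
  have hr : D1.range = ⊤ := LinearMap.range_eq_top.2 s1
  have a := (h1.to_implicitFunction hr).hasFDerivAt
  have b := h1.implicitFunction_apply_image hr
  have c := (h1.map_implicitFunction_eq hr).curry_nhds.self_of_nhds
  have h0' : HasFDerivAt f0 D0 (h1.implicitFunction f1 D1 hr (f1 e) 0) := by rwa [b]
  have d := h0'.comp 0 a
  have d0 : HasFDerivAt (f0 ∘ h1.implicitFunction f1 D1 hr (f1 e))
      (0 : D1.ker →L[ℝ] Z) 0 := by
    refine (hasFDerivAt_const (0 : Z) _).congr_of_eventuallyEq ?_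
    filter_upwards [c] with y hy
    exact hz _ (hy.trans z1)
  exact DFunLike.congr_fun (d.unique d0) ⟨u, hu⟩

end

end Pool.Agent.Lib.MP_78bd4b_ag
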