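import Pool.Agent.Lib.MP_78bd4b_ag.Pert1

/-! The local perturbation lemma with parameters. -/

noncomputable section

namespace Pool.Agent.Lib.MP_78bd4b_ag

open Filter Function Set Metric
open scoped ContDiff Topology NNReal

variable {P Λ E H V : Type*} [NormedAddCommGroup P] [NormedSpace ℝ P] [FiniteDimensional ℝ P]
  [NormedAddCommGroup Λ] [NormedSpace ℝ Λ] [FiniteDimensional ℝ Λ]
  [NormedAddCommGroup E] [NormedSpace ℝ E]
  [NormedAddCommGroup H] [NormedSpace ℝ H] [FiniteDimensional ℝ H]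
  [NormedAddCommGroup V] [NormedSpace ℝ V]

theorem pt_onto {X Y : Type*} [NormedAddCommGroup X] [NormedSpace ℝ X] [CompleteSpace X]
    [NormedAddCommGroup Y] [NormedSpace ℝ Y] {f : X → Y} (L : X ≃L[ℝ] Y) {s : Set X}
    (hs : Convex ℝ s) {k c : ℝ} (k0 : 0 < k) (c0 : 0 ≤ c) (hk : ∀ u, ‖u‖ ≤ k * ‖L u‖)
    (hc : k * c ≤ 1 / 2)
    (hf : ∀ x ∈ s, DifferentiableAt ℝ f x ∧ ‖fderiv ℝ f x - (L : X →L[ℝ] Y)‖ ≤ c)
    {b : X} {ε : ℝ} (ε0 : 0 ≤ ε) (hb : closedBall b ε ⊆ s) {y : Y} (hy : ‖y - f b‖ ≤ c * ε) :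
    ∃ x ∈ closedBall b ε, f x = y := by
  have ap : ApproximatesLinearOn f (L : X →L[ℝ] Y) s ⟨c, c0⟩ := fun x hx y hy =>
    hs.norm_image_sub_le_of_norm_fderiv_le' (fun x hx => (hf x hx).1) (fun x hx => (hf x hx).2)
      hy hx
  let R : (L : X →L[ℝ] Y).NonlinearRightInverse :=
    ⟨L.symm, ⟨k, k0.le⟩, fun y => (hk (L.symm y)).trans_eq (by rw [L.apply_symm_apply]; rfl),
      fun y => by simp⟩
  refine ap.surjOn_closedBall_of_nonlinearRightInverse R ε0 hb ?_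
  rw [mem_closedBall_iff_norm]
  refine hy.trans (mul_le_mul_of_nonneg_right ?_ ε0)
  change c ≤ k⁻¹ - c
  have : c * 2 ≤ k⁻¹ := by
    rw [← one_div, le_div_iff₀ k0]; linarith
  linarith

theorem pt_loc (hd : Module.finrank ℝ Λ = Module.finrank ℝ H) {Φ : P × Λ → E} {w0 : P}
    (hΦ : ∀ᶠ x in 𝓝 (w0, (0 : Λ)), ContDiffAt ℝ ∞ Φ x) {F0 : E → H} (hF0 : ContDiff ℝ ∞ F0)
    {Θ : E → V} (hΘ : ContDiff ℝ ∞ Θ) (hz : ∀ᶠ w in 𝓝 w0, F0 (Φ (w, 0)) = 0)
    (hB : ∀ μ, fderiv ℝ F0 (Φ (w0, 0)) (fderiv ℝ Φ (w0, 0) (0, μ)) = 0 → μ = 0)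
    (hT : Injective (fderiv ℝ (fun w => Θ (Φ (w, 0))) w0)) :
    ∀ᶠ r in 𝓝[>] (0 : ℝ), ∃ K : Set E, IsCompact K ∧ ∀ ε > 0, ∃ η > 0, ∀ F : E → H,
      ContDiff ℝ ∞ F → (∀ e ∈ K, ‖F e - F0 e‖ ≤ η ∧ ‖fderiv ℝ F e - fderiv ℝ F0 e‖ ≤ η) →
      (∀ w ∈ ball w0 r, ∀ l l' : Λ, ‖l‖ ≤ r → ‖l'‖ ≤ r → F (Φ (w, l)) = 0 → F (Φ (w, l')) = 0 →
        l = l') ∧
      ∃ lam : P → Λ, (∀ w ∈ ball w0 r, ‖lam w‖ ≤ ε ∧ F (Φ (w, lam w)) = 0 ∧
        ContDiffAt ℝ ∞ (fun w => Θ (Φ (w, lam w))) w ∧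
        Injective (fderiv ℝ (fun w => Θ (Φ (w, lam w))) w)) ∧
        InjOn (fun w => Θ (Φ (w, lam w))) (ball w0 r) := by
  have one : (1 : WithTop ℕ∞) ≤ ∞ := by simp
  have top0 : (∞ : WithTop ℕ∞) ≠ 0 := by simp
  have Φ1 : ContDiffAt ℝ 1 Φ (w0, 0) := hΦ.self_of_nhds.of_le one
  have dΦ := (Φ1.differentiableAt one_ne_zero).hasFDerivAt
  have dF := (hF0.differentiable top0 (Φ (w0, 0))).hasFDerivAt
  have dΘ := (hΘ.differentiable top0 (Φ (w0, 0))).hasFDerivAt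
  have inl : HasFDerivAt (fun w : P => (w, (0 : Λ))) (ContinuousLinearMap.inl ℝ P Λ) w0 :=
    hasFDerivAt_prodMk_left w0 0
  have k1 : ∀ u, fderiv ℝ F0 (Φ (w0, 0)) (fderiv ℝ Φ (w0, 0) (u, 0)) = 0 := fun u => by
    have a := (dF.comp (w0, (0 : Λ)) dΦ).comp w0 inl
    have b : HasFDerivAt ((F0 ∘ Φ) ∘ fun w : P => (w, (0 : Λ))) (0 : P →L[ℝ] H) w0 :=
      (hasFDerivAt_const (0 : H) _).congr_of_eventuallyEq hz
    exact DFunLike.congr_fun (a.unique b) u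
  have k2 : ∀ u μ, fderiv ℝ F0 (Φ (w0, 0)) (fderiv ℝ Φ (w0, 0) (u, μ)) = 0 → μ = 0 :=
    fun u μ h => hB μ (by
      have : ((u, μ) : P × Λ) = (u, 0) + (0, μ) := by simp
      rwa [this, map_add, map_add, k1, zero_add] at h)
  have iG : Injective (fderiv ℝ (fun x : P × Λ => (x.1, F0 (Φ x))) (w0, 0)) := by
    have q := (hasFDerivAt_fst.prodMk (dF.comp (w0, (0 : Λ)) dΦ)).fderiv
    simp only [comp_apply] at q
    rw [q, injective_iff_map_eq_zero]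
    rintro ⟨u, μ⟩ h
    have h1 := congrArg Prod.fst h
    exact Prod.ext h1 (k2 u μ (congrArg Prod.snd h))
  have iJ : Injective (fderiv ℝ (fun x : P × Λ => (Θ (Φ x), F0 (Φ x))) (w0, 0)) := by
    have q := ((dΘ.comp (w0, (0 : Λ)) dΦ).prodMk (dF.comp (w0, (0 : Λ)) dΦ)).fderiv
    simp only [comp_apply] at q
    rw [q, injective_iff_map_eq_zero]
    rintro ⟨u, μ⟩ h
    obtain rfl := k2 u μ (congrArg Prod.snd h)
    have a := ((dΘ.comp (w0, (0 : Λ)) dΦ).comp w0 inl).fderiv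
    simp only [comp_def] at a
    refine Prod.ext ((injective_iff_map_eq_zero _).1 hT u ?_) rfl
    rw [a]
    exact congrArg Prod.fst h
  have hd' : Module.finrank ℝ (P × Λ) = Module.finrank ℝ (P × H) := by
    rw [Module.finrank_prod, Module.finrank_prod, hd]
  obtain ⟨LG, hLG⟩ := pt_equiv iG hd'
  obtain ⟨kG, kG0, hkG⟩ := pt_anti iG
  obtain ⟨kJ, kJ0, hkJ⟩ := pt_anti iJ
  have cG0 : 0 < 1 / 2 / kG := by positivity
  have cJ0 : 0 < 1 / 2 / kJ := by positivity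
  have cG : kG * (1 / 2 / kG) ≤ 1 / 2 := le_of_eq (by field_simp)
  have cJ : kJ * (1 / 2 / kJ) ≤ 1 / 2 := le_of_eq (by field_simp)
  obtain ⟨ηG, ηG0, eG⟩ := pt_pair (a := Prod.fst) contDiffAt_fst Φ1 (hF0.of_le one) cG0
  obtain ⟨ηJ, ηJ0, eJ⟩ := pt_pair (a := fun x => Θ (Φ x))
    ((hΘ.of_le one).contDiffAt.comp _ Φ1) Φ1 (hF0.of_le one) cJ0
  obtain ⟨R, R0, hR⟩ := Metric.eventually_nhds_iff_ball.1
    (hΦ.and (eG.and (eJ.and (continuous_fst.continuousAt.tendsto.eventually hz))))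
  filter_upwards [Ioo_mem_nhdsGT (show (0 : ℝ) < R / 2 by positivity)] with r ⟨r0, rR⟩
  have sub : closedBall ((w0, 0) : P × Λ) (2 * r) ⊆ ball (w0, 0) R :=
    closedBall_subset_ball (by linarith)
  have mem : ∀ w ∈ ball w0 r, ∀ l : Λ, ‖l‖ ≤ r → (w, l) ∈ ball ((w0, 0) : P × Λ) (2 * r) := by
    intro w hw l hl
    rw [← ball_prod_same]
    exact ⟨ball_subset_ball (by linarith) hw, mem_ball_zero_iff.2 (by linarith)⟩
  refine ⟨Φ '' closedBall (w0, 0) (2 * r), (isCompact_closedBall _ _).image_of_continuousOn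
    fun x hx => (hR x (sub hx)).1.continuousAt.continuousWithinAt, fun ε ε0 => ?_⟩
  have m0 : 0 < min ε r := lt_min ε0 r0
  refine ⟨min (min ηG ηJ) (1 / 2 / kG * min ε r), by positivity, fun F hF cl => ?_⟩
  have dF' := hF.differentiable top0
  have cl' := fun x (hx : x ∈ ball ((w0, 0) : P × Λ) (2 * r)) =>
    cl _ (mem_image_of_mem Φ (ball_subset_closedBall hx))
  have hR' := fun x (hx : x ∈ ball ((w0, 0) : P × Λ) (2 * r)) =>
    hR x (sub (ball_subset_closedBall hx))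
  have hG := fun x hx => (hR' x hx).2.1 F dF'
    ((cl' x hx).2.trans ((min_le_left _ _).trans (min_le_left _ _)))
  have hJ := fun x hx => (hR' x hx).2.2.1 F dF'
    ((cl' x hx).2.trans ((min_le_left _ _).trans (min_le_right _ _)))
  obtain ⟨G1, G2⟩ := pt_stab (convex_ball _ _) kG0 hkG cG hG
  obtain ⟨J1, J2⟩ := pt_stab (convex_ball _ _) kJ0 hkJ cJ hJ
  have ex : ∀ w ∈ ball w0 r, ∃ l : Λ, ‖l‖ ≤ min ε r ∧ F (Φ (w, l)) = 0 := by
    intro w hw
    have h0 := mem w hw 0 (by simpa using r0.le)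
    obtain ⟨x, hx, e⟩ := pt_onto LG (convex_ball _ _) kG0 cG0.le (by rw [← hLG] at hkG; exact hkG)
      cG (by rw [hLG]; exact hG) (b := (w, 0)) m0.le (y := (w, 0))
      (closedBall_subset_ball' (by
        have : dist ((w, 0) : P × Λ) (w0, 0) < r := by simpa using hw
        linarith [min_le_right ε r])) (by
        have := (cl' _ h0).1
        rw [(hR' _ h0).2.2.2, sub_zero] at this
        simpa using this.trans (min_le_right _ _))
    obtain ⟨x1, x2⟩ := x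
    obtain rfl : x1 = w := congrArg Prod.fst e
    exact ⟨x2, by simpa using hx, congrArg Prod.snd e⟩
  choose! lam l1 l2 using ex
  have lm := fun w hw => mem w hw (lam w) ((l1 w hw).trans (min_le_right _ _))
  refine ⟨fun w hw l l' a a' b b' => congrArg Prod.snd (G1 (mem w hw l a) (mem w hw l' a')
    (Prod.ext rfl (b.trans b'.symm))), lam, fun w hw => ?_, fun w hw w' hw' e =>
    congrArg Prod.fst (J1 (lm w hw) (lm w' hw') (Prod.ext e ((l2 w hw).trans (l2 w' hw').symm)))⟩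
  have sΦ := (hR' _ (lm w hw)).1
  have sG : ContDiffAt ℝ ∞ (fun x : P × Λ => (x.1, F (Φ x))) (w, lam w) :=
    contDiffAt_fst.prodMk (hF.contDiffAt.comp _ sΦ)
  obtain ⟨L, hL⟩ := pt_equiv (G2 _ (lm w hw)) hd'
  have dG : HasFDerivAt (fun x : P × Λ => (x.1, F (Φ x))) (L : P × Λ →L[ℝ] P × H) (w, lam w) :=
    hL ▸ (hG _ (lm w hw)).1.hasFDerivAt
  have sI := sG.to_localInverse dG top0
  have vI := sG.localInverse_apply_image dG top0
  have rI : ∀ᶠ y in 𝓝 ((w, F (Φ (w, lam w))) : P × H), ((sG.localInverse dG top0 y).1,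
      F (Φ (sG.localInverse dG top0 y))) = y :=
    (sG.hasStrictFDerivAt' dG top0).eventually_right_inverse
  simp only [l2 w hw] at sI vI rI
  have ci : ContDiffAt ℝ ∞ (fun w' : P => (w', (0 : H))) w := by fun_prop
  have sI' := sI.comp w ci
  have eq : (fun w' => (w', lam w')) =ᶠ[𝓝 w] sG.localInverse dG top0 ∘ fun w' => (w', 0) := by
    have b : ∀ᶠ w' in 𝓝 w, sG.localInverse dG top0 (w', 0) ∈ ball ((w0, 0) : P × Λ) (2 * r) :=
      sI'.continuousAt.eventually (isOpen_ball.mem_nhds (by rw [comp_apply, vI]; exact lm w hw))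
    filter_upwards [b, ci.continuousAt.tendsto.eventually rI, isOpen_ball.mem_nhds hw]
      with w' b1 b2 b3
    have b4 : (w', F (Φ (w', lam w'))) = (w', 0) := by rw [l2 w' b3]
    exact G1 (lm w' b3) b1 (b4.trans b2.symm)
  have sσ : ContDiffAt ℝ ∞ (fun w' => (w', lam w')) w := sI'.congr_of_eventuallyEq eq
  have sT : ContDiffAt ℝ ∞ (fun w => Θ (Φ (w, lam w))) w :=
    hΘ.contDiffAt.comp w (ContDiffAt.comp (g := Φ) w sΦ sσ)
  refine ⟨(l1 w hw).trans (min_le_left _ _), l2 w hw, sT,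
    (injective_iff_map_eq_zero _).2 fun u hu => ?_⟩
  have dσ := (sσ.differentiableAt top0).hasFDerivAt
  have a := HasFDerivAt.comp (g := fun x => (Θ (Φ x), F (Φ x))) w (hJ _ (lm w hw)).1.hasFDerivAt dσ
  have b : HasFDerivAt ((fun x => (Θ (Φ x), F (Φ x))) ∘ fun w' => (w', lam w')) _ w :=
    ((sT.differentiableAt top0).hasFDerivAt.prodMk
      (hasFDerivAt_const (0 : H) w)).congr_of_eventuallyEq (by
      filter_upwards [isOpen_ball.mem_nhds hw] with w' b3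
      exact Prod.ext rfl (l2 w' b3))
  have c : fderiv ℝ (fun w' => (w', lam w')) w u = 0 := by
    refine (injective_iff_map_eq_zero _).1 (J2 _ (lm w hw)) _ ?_
    exact (DFunLike.congr_fun (a.unique b) u).trans (Prod.ext hu rfl)
  have d0 := hasFDerivAt_fst.comp w dσ
  have d := DFunLike.congr_fun (d0.unique (hasFDerivAt_id w)) u
  exact d.symm.trans (congrArg Prod.fst c)

end Pool.Agent.Lib.MP_78bd4b_ag
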