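import Pool.Agent.Lib.MP_78bd4b_ag.Pert2

/-! The perturbation lemma on one chart, with normal slices. -/

noncomputable section

namespace Pool.Agent.Lib.MP_78bd4b_ag

open Filter Function Set Metric
open scoped ContDiff Topology

variable {P E H V : Type*} [NormedAddCommGroup P] [NormedSpace ℝ P] [FiniteDimensional ℝ P]
  [NormedAddCommGroup E] [NormedSpace ℝ E] [FiniteDimensional ℝ E]
  [NormedAddCommGroup H] [NormedSpace ℝ H] [FiniteDimensional ℝ H]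
  [NormedAddCommGroup V] [NormedSpace ℝ V]

theorem pt_dual (X : Type*) [NormedAddCommGroup X] [NormedSpace ℝ X] [FiniteDimensional ℝ X] :
    Module.finrank ℝ (X →L[ℝ] ℝ) = Module.finrank ℝ X := by
  rw [← (LinearMap.toContinuousLinearMap (𝕜 := ℝ) (E := X) (F' := ℝ)).finrank_eq]
  exact Subspace.dual_finrank_eq

theorem pt_form {N : E → ℝ} (hN : Euc N) (N0 : ∀ e, N e = 0 → e = 0) :
    ∃ b : E ≃L[ℝ] (E →L[ℝ] ℝ), (∀ e e', b e e' = b e' e) ∧ ∀ e, N e = b e e ∧ 0 ≤ N e := by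
  obtain ⟨β, s, p⟩ := hN
  obtain ⟨b, hb⟩ := pt_equiv (L := LinearMap.toContinuousLinearMap
    ((LinearMap.toContinuousLinearMap : (E →ₗ[ℝ] ℝ) ≃ₗ[ℝ] E →L[ℝ] ℝ).toLinearMap ∘ₗ β))
    ((injective_iff_map_eq_zero _).2 fun e he =>
      N0 e ((p e).1.trans (DFunLike.congr_fun he e))) (pt_dual E).symm
  have : ∀ e e', b e e' = β e e' := fun e e' =>
    DFunLike.congr_fun (DFunLike.congr_fun hb e) e'
  exact ⟨b, fun e e' => by rw [this, this, s], fun e => by rw [this]; exact p e⟩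

/-- `v` is normal to the zero set of `F0` at `e` -/
def Nor (b : E ≃L[ℝ] (E →L[ℝ] ℝ)) (F0 : E → H) (e v : E) : Prop :=
  ∀ u, fderiv ℝ F0 e u = 0 → b v u = 0

omit [FiniteDimensional ℝ E] in
theorem Nor.ex {b : E ≃L[ℝ] (E →L[ℝ] ℝ)} {F0 : E → H} {e v : E} (h : Nor b F0 e v)
    (hs : Surjective (fderiv ℝ F0 e)) :
    ∃ l : H →L[ℝ] ℝ, v = b.symm (l.comp (fderiv ℝ F0 e)) := by
  obtain ⟨R, hR⟩ := (fderiv ℝ F0 e : E →ₗ[ℝ] H).exists_rightInverse_of_surjective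
    (LinearMap.range_eq_top.2 hs)
  refine ⟨(b v).comp (LinearMap.toContinuousLinearMap R), ?_⟩
  rw [ContinuousLinearEquiv.eq_symm_apply]
  refine ContinuousLinearMap.ext fun u => ?_
  have h1 : fderiv ℝ F0 e (R (fderiv ℝ F0 e u)) = fderiv ℝ F0 e u := DFunLike.congr_fun hR _
  have := h (u - R (fderiv ℝ F0 e u)) (by rw [map_sub, h1, sub_self])
  rw [map_sub, sub_eq_zero] at this
  exact this

theorem Nor.map {b : E ≃L[ℝ] (E →L[ℝ] ℝ)} (sy : ∀ e e', b e e' = b e' e)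
    (b0 : ∀ e, b e e = 0 → e = 0) {F0 : E → H} (hF0 : ContDiff ℝ ∞ F0) {g : E → E}
    (hg : IsLinearMap ℝ g) (gN : ∀ e, b (g e) (g e) = b e e) (gz : ∀ e, F0 (g e) = 0 ↔ F0 e = 0)
    {e v : E} (z : F0 e = 0) (hs : Surjective (fderiv ℝ F0 (g e))) (h : Nor b F0 e v) :
    Nor b F0 (g e) (g v) := by
  have top0 : (∞ : WithTop ℕ∞) ≠ 0 := by simp
  have gi : Injective (hg.mk' g) := (injective_iff_map_eq_zero _).2 fun x hx =>
    b0 x (by rw [← gN, show g x = 0 from hx, map_zero (b 0)])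
  have gs : Surjective g := LinearMap.surjective_of_injective gi
  intro u' hu'
  obtain ⟨u, rfl⟩ := gs u'
  have a : HasStrictFDerivAt g (LinearMap.toContinuousLinearMap (hg.mk' g)) e :=
    (LinearMap.toContinuousLinearMap (hg.mk' g)).hasStrictFDerivAt
  have c := pt_ker ((hF0.contDiffAt.hasStrictFDerivAt top0).comp e a) (hs.comp gs)
    (hF0.differentiable top0 e).hasFDerivAt ((gz e).2 z) (fun x hx => (gz x).1 hx) hu'
  have d := gN (v + u)
  simp only [hg.map_add, map_add, add_apply, gN] at d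
  have := h u c
  linarith [sy (g v) (g u), sy v u]

omit [FiniteDimensional ℝ E] in
theorem pt_chart {b : E ≃L[ℝ] (E →L[ℝ] ℝ)} (bp : ∀ e, 0 ≤ b e e)
    (b0 : ∀ e, b e e = 0 → e = 0) {F0 : E → H} (hF0 : ContDiff ℝ ∞ F0) {Θ : E → V}
    (hΘ : ContDiff ℝ ∞ Θ) {s : P → E} {w0 : P} {Q : P → Prop}
    (hs : ∀ᶠ w in 𝓝 w0, ContDiffAt ℝ ∞ s w ∧ F0 (s w) = 0 ∧ Surjective (fderiv ℝ F0 (s w)) ∧ Q w)
    (hT : Injective (fderiv ℝ (Θ ∘ s) w0)) :
    ∃ r > 0, (∀ w ∈ ball w0 r, Q w) ∧ ∃ K : Set E, IsCompact K ∧ ∃ ρ > 0, ∀ ε > 0, ∃ η > 0,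
      ∀ F : E → H, ContDiff ℝ ∞ F →
      (∀ e ∈ K, ‖F e - F0 e‖ ≤ η ∧ ‖fderiv ℝ F e - fderiv ℝ F0 e‖ ≤ η) →
      (∀ w ∈ ball w0 r, ∀ v v', Nor b F0 (s w) v → Nor b F0 (s w) v' → b v v ≤ ρ → b v' v' ≤ ρ →
        F (s w + v) = 0 → F (s w + v') = 0 → v = v') ∧
      ∃ v : P → E, (∀ w ∈ ball w0 r, Nor b F0 (s w) (v w) ∧ b (v w) (v w) ≤ ε ∧ ‖v w‖ ≤ ε ∧
        ‖Θ (s w + v w) - Θ (s w)‖ ≤ ε ∧ F (s w + v w) = 0 ∧
        ContDiffAt ℝ ∞ (fun w => Θ (s w + v w)) w ∧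
        Injective (fderiv ℝ (fun w => Θ (s w + v w)) w)) ∧
        InjOn (fun w => Θ (s w + v w)) (ball w0 r) := by
  have top0 : (∞ : WithTop ℕ∞) ≠ 0 := by simp
  let A : P × (H →L[ℝ] ℝ) → E := fun x => b.symm (x.2.comp (fderiv ℝ F0 (s x.1)))
  have sD : ContDiff ℝ ∞ (fderiv ℝ F0) := hF0.fderiv_right (m := ∞) (by simp)
  have sA : ∀ x : P × (H →L[ℝ] ℝ), ContDiffAt ℝ ∞ s x.1 → ContDiffAt ℝ ∞ A x := fun x hx =>
    b.symm.contDiff.contDiffAt.comp x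
      (contDiffAt_snd.clm_comp (sD.contDiffAt.comp x (hx.comp x contDiffAt_fst)))
  have A0 : ∀ w, A (w, 0) = 0 := fun w => by simp [A]
  have bA : ∀ w l u, b (A (w, l)) u = l (fderiv ℝ F0 (s w) u) := fun w l u => by simp [A]
  have Ai : ∀ w l, Surjective (fderiv ℝ F0 (s w)) → b (A (w, l)) (A (w, l)) = 0 → l = 0 := by
    intro w l h1 h2
    refine ContinuousLinearMap.ext fun y => ?_
    obtain ⟨u, rfl⟩ := h1 y
    rw [← bA, b0 _ h2]; simp
  have sΦ : ∀ᶠ x in 𝓝 (w0, (0 : H →L[ℝ] ℝ)), ContDiffAt ℝ ∞ (fun x => s x.1 + A x) x := by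
    filter_upwards [continuous_fst.continuousAt.tendsto.eventually hs] with x hx
    exact (hx.1.comp x contDiffAt_fst).add (sA x hx.1)
  have L := pt_loc (pt_dual H) sΦ hF0 hΘ (by filter_upwards [hs] with w hw; simpa [A0] using hw.2.1)
    (fun μ h => by
      have a := (sΦ.self_of_nhds.differentiableAt top0).hasFDerivAt.comp (0 : H →L[ℝ] ℝ)
        (hasFDerivAt_prodMk_right w0 0)
      have c := (((b.symm : (E →L[ℝ] ℝ) →L[ℝ] E).comp ((ContinuousLinearMap.compL ℝ E H ℝ).flip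
        (fderiv ℝ F0 (s w0)))).hasFDerivAt (x := 0)).const_add (s w0)
      have d : fderiv ℝ (fun x => s x.1 + A x) (w0, 0) (0, μ) = A (w0, μ) :=
        DFunLike.congr_fun (a.unique c) μ
      simp only [d, A0, add_zero] at h
      exact Ai w0 μ hs.self_of_nhds.2.2.1 (by rw [bA, h, map_zero]))
    (by simpa only [A0, add_zero, comp_def] using hT)
  obtain ⟨R, R0, hR⟩ := Metric.eventually_nhds_iff_ball.1 hs
  obtain ⟨r, ⟨K, hK, L⟩, r0, rR⟩ := (L.and (Ioo_mem_nhdsGT R0)).exists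
  have hr := fun w (hw : w ∈ closedBall w0 r) => hR w (closedBall_subset_ball rR hw)
  have cq : ∀ x : P × (H →L[ℝ] ℝ), x.1 ∈ closedBall w0 r →
      ContinuousAt (fun x => b (A x) (A x)) x := fun x hx =>
    (b.continuous.continuousAt.comp (sA x (hr _ hx).1).continuousAt).clm_apply
      (sA x (hr _ hx).1).continuousAt
  obtain ⟨ρ, ρ0, hρ⟩ := ((isCompact_closedBall w0 r).prod
    (isCompact_sphere (0 : H →L[ℝ] ℝ) r)).exists_forall_le' (a := 0)
    (fun x hx => (cq x hx.1).continuousWithinAt) fun x hx => (bp _).lt_of_ne' fun h => by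
      have := hx.2
      rw [Ai x.1 x.2 (hr _ hx.1).2.2.1 h, mem_sphere, dist_self] at this
      exact r0.ne this
  have lo : ∀ w ∈ closedBall w0 r, ∀ l, b (A (w, l)) (A (w, l)) ≤ ρ / 2 → ‖l‖ ≤ r := by
    intro w hw l hl
    by_contra h
    rw [not_le] at h
    have l0 : 0 < ‖l‖ := r0.trans h
    have t0 : 0 < r / ‖l‖ := by positivity
    have t1 : r / ‖l‖ ≤ 1 := (div_le_one l0).2 h.le
    have := hρ (w, (r / ‖l‖) • l) ⟨hw, by
      rw [mem_sphere_zero_iff_norm, norm_smul, Real.norm_of_nonneg t0.le]; field_simp⟩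
    have e : A (w, (r / ‖l‖) • l) = (r / ‖l‖) • A (w, l) := by
      simp [A, ContinuousLinearMap.smul_comp]
    simp only [e, map_smul, smul_apply, smul_eq_mul] at this
    have h3 := bp (A (w, l))
    have h4 : r / ‖l‖ * (r / ‖l‖ * b (A (w, l)) (A (w, l))) ≤ 1 * (1 * b (A (w, l)) (A (w, l))) := by
      gcongr
    linarith
  refine ⟨r, r0, fun w hw => (hr w (ball_subset_closedBall hw)).2.2.2, K, hK, ρ / 2,
    by positivity, fun ε ε0 => ?_⟩
  have tube : ∀ᶠ l in 𝓝 (0 : H →L[ℝ] ℝ), ∀ w ∈ closedBall w0 r, b (A (w, l)) (A (w, l)) ≤ ε ∧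
      ‖A (w, l)‖ ≤ ε ∧ ‖Θ (s w + A (w, l)) - Θ (s w)‖ ≤ ε := by
    refine (isCompact_closedBall w0 r).eventually_forall_of_forall_eventually fun w hw => ?_
    have sw : Tendsto (Prod.swap : (H →L[ℝ] ℝ) × P → _) (𝓝 (0, w)) (𝓝 (w, 0)) :=
      continuous_swap.continuousAt
    have cA := (sA (w, 0) (hr w hw).1).continuousAt
    have cs : ContinuousAt (fun x : P × (H →L[ℝ] ℝ) => s x.1) (w, 0) :=
      ContinuousAt.comp (g := s) (hr w hw).1.continuousAt continuousAt_fst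
    have c3 := ((hΘ.continuous.continuousAt.comp (cs.add cA)).sub
      (hΘ.continuous.continuousAt.comp cs)).norm
    exact sw.eventually (((cq (w, 0) hw).eventually (Iic_mem_nhds (by simpa [A0] using ε0))).and
      ((cA.norm.eventually (Iic_mem_nhds (by simpa [A0] using ε0))).and
        (c3.eventually (Iic_mem_nhds (by simpa [A0] using ε0)))))
  obtain ⟨δ, δ0, hδ⟩ := Metric.eventually_nhds_iff_ball.1 tube
  obtain ⟨η, η0, L⟩ := L (δ / 2) (by positivity)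
  refine ⟨η, η0, fun F hF cl => ?_⟩
  obtain ⟨U, lam, h1, h2⟩ := L F hF cl
  refine ⟨fun w hw v v' n n' q q' z z' => ?_, fun w => A (w, lam w), fun w hw => ?_, h2⟩
  · have hw' := ball_subset_closedBall hw
    obtain ⟨l, rfl⟩ := n.ex (hr w hw').2.2.1
    obtain ⟨l', rfl⟩ := n'.ex (hr w hw').2.2.1
    rw [U w hw l l' (lo w hw' l q) (lo w hw' l' q') z z']
  · obtain ⟨a1, a2, a3, a4⟩ := h1 w hw
    obtain ⟨c1, c2, c3⟩ := hδ (lam w) (mem_ball_zero_iff.2 (by linarith)) w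
      (ball_subset_closedBall hw)
    exact ⟨fun u hu => by rw [bA, hu, map_zero], c1, c2, c3, a2, a3, a4⟩

end Pool.Agent.Lib.MP_78bd4b_ag
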