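import Pool.Agent.Lib.MP_78bd4b_ag.TorF

/-! The existence of the set of monomials. -/

noncomputable section

namespace Pool.Agent.Lib.MP_78bd4b_ag

open Function Matrix

set_option linter.unusedSectionVars false

theorem dickson {ι : Type} [Fintype ι] (S : Set (ι → ℕ)) :
    ∃ b : ℕ, ∀ n ∈ S, ∃ m ∈ S, m ≤ n ∧ ∀ v, m v ≤ b := by
  have f : {m | Minimal (· ∈ S) m}.Finite :=
    WellQuasiOrderedLE.finite_of_isAntichain (setOfPred_minimal_antichain _)
  obtain ⟨b, hb⟩ := (f.image fun m => ∑ v, m v).bddAbove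
  refine ⟨b, fun n hn => ?_⟩
  obtain ⟨m, a, c⟩ := exists_minimal_le_of_wellFoundedLT (· ∈ S) n hn
  exact ⟨m, c.1, a, fun v => (Finset.single_le_sum (fun _ _ => Nat.zero_le _)
    (Finset.mem_univ v)).trans (hb ⟨m, c, rfl⟩)⟩

theorem exists_tor (T : Type) [Fintype T] [DecidableEq T] (p k : T → ℕ) (p0 : ∀ t, 0 < p t)
    (cop : ∀ t, Nat.Coprime (k t) (p t)) (b0 : ℕ) : Nonempty (Tor T p k b0) := by
  classical
  obtain ⟨B, hB⟩ := Finite.exists_le fun t => (p t : ℤ) + k t
  set K := 6 * |B| ^ 3 with hK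
  have K0 : 0 ≤ K := by positivity
  obtain ⟨C, hC⟩ := Finite.exists_le fun t => K * p t ^ 3 + K
  have P0 : (0 : ℤ) < ∏ t, (p t : ℤ) := Finset.prod_pos fun t _ => by exact_mod_cast p0 t
  set m0 := (∏ t, (p t : ℤ)) * (|C| + b0 + 3) with hm0
  have m1 : |C| + b0 + 3 ≤ m0 := le_mul_of_one_le_left (by positivity) P0
  have c0 := abs_nonneg C
  have c1 := le_abs_self C
  let up : (Cv T → ℕ) → GG T := fun n => (fun v => n v, 1)
  choose b hb using fun e : ℤ => dickson {n | Good p k K m0 (up n) ∧ ev (up n) = e}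
  obtain ⟨Kb, hKb⟩ := ((Set.finite_Icc (-m0) m0).image fun e => b e + b0).bddAbove
  let Mon := {n // Good p k K m0 (up n) ∧ ∀ v, n v ≤ Kb}
  have : Finite Mon := (Set.finite_Iic fun _ : Cv T => Kb).subset fun n h => h.2
  let _ : Fintype Mon := .ofFinite _
  have eb : ∀ n, ev (up (n ∘ Cv.bar)) = -ev (up n) := fun n => by simp [ev, up, Cv.bar]
  have hG : ∀ i, Good p k K m0 (om p (Subtype.val : Mon → _) i) := by
    rintro (i | i)
    exacts [good_bs p0 K0 i, i.2.1]
  refine ⟨{
    Mon := Mon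
    ex := Subtype.val
    inj := Subtype.val_injective
    gau := fun m t => by have := m.2.1.gau t; simp only [up, ev, we] at this ⊢; linarith
    two := fun m => by have := m.2.1.two; simp only [up] at this; omega
    bar := fun m => ⟨m.1 ∘ Cv.bar, ?_, fun v => m.2.2 _⟩
    bar_ex := fun m => rfl
    mg := fun n g t l => ⟨⟨n, ?_, fun v => (l v).trans
      (le_add_self.trans (hKb ⟨0, ⟨by omega, by omega⟩, rfl⟩))⟩, rfl⟩
    tc := fun u hu ⟨m, hm⟩ ne => ?_ }⟩
  · have g := m.2.1
    refine ⟨fun v => g.nn _, g.n0, (add_comm _ _).trans_ge g.two, eb _ ▸ g.hi, ?_, fun t => ?_,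
      fun t => eb _ ▸ g.s2 t, fun t => ?_⟩
    · rw [eb, sub_neg_eq_add]; exact g.lo
    · have := g.gau t
      rw [eb]
      simp [up, Cv.bar] at this ⊢
      linarith
    · rw [eb, neg_neg]; exact g.s1 t
  · have a := l (.inr true)
    have a' := l (.inr false)
    have e : ev (up n) = (n (.inr true) : ℤ) - n (.inr false) := rfl
    refine ⟨fun v => Nat.cast_nonneg _, zero_le_one, by simp only [up]; omega,
      by simp only [e, up]; omega, by simp only [e, up]; omega, fun t => ?_, fun t => ?_,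
      fun t => ?_⟩
    · have := g t; simp only [up, ev, we] at this ⊢; linarith
    all_goals
      have := hC t
      exact .of_mid K0 (Nat.isCoprime_iff_coprime.2 (cop t)) (Nat.cast_nonneg _)
        (Nat.cast_nonneg _) zero_le_one (by simp only [e, up]; omega)
  have h1 : ∀ x, Good p k K m0 x → x.2 = 1 → Ad (om p (Subtype.val : Mon → _)) u x := by
    rintro ⟨x, _⟩ g rfl
    lift x to Cv T → ℕ using g.nn
    obtain ⟨n, ⟨gn, en⟩, le, bd⟩ := hb _ x ⟨g, rfl⟩
    have lo := g.lo
    have hi := g.hi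
    let n' : Mon := ⟨n, gn, fun v => (bd v).trans (le_self_add.trans
      (hKb ⟨_, ⟨by simp only at lo; linarith, by simp only at hi; linarith⟩, rfl⟩))⟩
    have d := (good_zero (k := k) (m0 := m0) p0 K0 (x := up x - up n)
      (fun v => by simpa [up] using le v) (by simp [up])
      (by simp only [ev, up] at en ⊢; simp; linarith) fun t => by
        have a := g.gau t
        have b := gn.gau t
        rw [en] at b
        simp only [up] at b ⊢
        simp
        linear_combination a - b).ad0 (ex := (Subtype.val : Mon → _)) (u := u) (by simp [up])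
    have := d.add (y := up n) (Ad.gen (wt := om p Subtype.val) (Sum.inr n'))
    rwa [sub_add_cancel] at this
  have fr : ∀ t, ∃ f, ¬ Spc (u ∘ .inl) t → u (.inl (.inl (t, bi f 0))) ≠ 0 := fun t => by
    by_contra h
    push Not at h
    exact (h 0).1 ⟨(h 1).2, (h 2).2, (h 0).2⟩
  choose φ hφ using fr
  by_cases s : ∃ t, Spc (u ∘ .inl) t
  · obtain ⟨t0, s⟩ := s
    obtain ⟨a1, a2, a3⟩ := ne t0 s
    have := hB t0
    have := le_abs_self B
    have := hC t0
    exact tc_special (φ := update φ t0 1) (B := |B|) p0 K0 hu hG h1 (by omega) (by omega) le_rfl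
      (cop t0) ((Finset.dvd_prod_of_mem _ (Finset.mem_univ t0)).mul_right _) (by omega) (by simp)
      (fun t e => by rw [update_of_ne e]; exact hφ t fun c => e (a3 t c)) a1 a2 hm
  · exact tc_plain p0 K0 (by omega) hu hG h1 (fun t => hφ t fun c => s ⟨t, c⟩) hm

end Pool.Agent.Lib.MP_78bd4b_ag
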