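import Pool.Agent.Lib.MP_78bd4b_ag.Real5
import Pool.Agent.Lib.MP_78bd4b_ag.ModE
import Pool.Agent.Lib.MP_78bd4b_ag.Pack
import Pool.Agent.Lib.MP_78bd4b_ag.AtlasA
import Pool.Agent.Lib.MP_78bd4b_ag.TorG

/-! The uniruled model. -/

noncomputable section

namespace Pool.Agent.Lib.MP_78bd4b_ag

open MvPolynomial Complex Filter Function Set Pm
open scoped Manifold ContDiff Topology Real ComplexConjugate Matrix

set_option synthInstance.maxSize 1024

namespace RJ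

theorem c1_pi {P R ι : Type} [NormedAddCommGroup P] [NormedSpace ℝ P] [NormedAddCommGroup R]
    [NormedSpace ℝ R] [Fintype ι] {f g : P → ι → ℝ} (hf : Differentiable ℝ f)
    (hg : Differentiable ℝ g) {η : ℝ} (hη : 0 ≤ η) {e : P × R} (h : ∀ s, ‖g e.1 s - f e.1 s‖ ≤ η ∧
      ‖fderiv ℝ (g · s) e.1 - fderiv ℝ (f · s) e.1‖ ≤ η) : ‖g e.1 - f e.1‖ ≤ η ∧
      ‖fderiv ℝ (fun e : P × R => g e.1) e - fderiv ℝ (fun e : P × R => f e.1) e‖ ≤ η := by
  refine ⟨(pi_norm_le_iff_of_nonneg hη).2 fun s => (h s).1, ?_⟩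
  have a : HasFDerivAt (fun e : P × R => g e.1) _ e := (hg e.1).hasFDerivAt.comp e hasFDerivAt_fst
  have b : HasFDerivAt (fun e : P × R => f e.1) _ e := (hf e.1).hasFDerivAt.comp e hasFDerivAt_fst
  rw [a.fderiv, b.fderiv]
  refine ContinuousLinearMap.opNorm_le_bound _ hη fun u =>
    (pi_norm_le_iff_of_nonneg (by positivity)).2 fun s => ?_
  have := (ContinuousLinearMap.le_of_opNorm_le _ (h s).2 u.1).trans
    (mul_le_mul_of_nonneg_left (norm_fst_le u) hη)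
  rwa [fderiv_apply (hg _), fderiv_apply (hf _)] at this

theorem eval_cd {I X : Type} [Fintype I] [NormedAddCommGroup X] [NormedSpace ℝ X]
    (Q : MvPolynomial (Option I) ℝ) {f : X → I → ℝ} {g : X → ℝ} (hf : ContDiff ℝ ∞ f)
    (hg : ContDiff ℝ ∞ g) : ContDiff ℝ ∞ fun p => eval (fun o => o.elim (g p) (f p)) Q :=
  (AnalyticOnNhd.eval_mvPolynomial Q).contDiff.comp (contDiff_pi.2 fun o => by
    cases o
    exacts [hg, contDiff_pi.1 hf _])

variable {D : Pm} {d : ℕ} {hd : 0 < d}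

/-- the coefficients of the algebraic system -/
def Cs (i0 ih : D.Ix) (Q : D.Slot → MvPolynomial (Option D.Ix) ℝ) (σ : (wd D d hd).Par → ℝ)
    (p : (D.Ix → ℝ) × ℝ) (s : D.Slot) : ℝ :=
  cf σ (update p.1 i0 1) (ls d hd s) -
    eval (fun o => o.elim (update p.1 i0 1 ih) (update p.1 i0 1)) (Q s) +
    eval (fun o => o.elim (update p.1 i0 1 ih - cf σ (update p.1 i0 1) (ls d hd .h) + p.2 ^ 2) p.1)
      (Q s)

variable {i0 ih : D.Ix} {Q : D.Slot → MvPolynomial (Option D.Ix) ℝ}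

theorem Cs_cd : ContDiff ℝ ∞ fun p : ((wd D d hd).Par → ℝ) × E D => Cs i0 ih Q p.1 p.2.1 := by
  have a : ContDiff ℝ ∞ fun p : ((wd D d hd).Par → ℝ) × E D => update p.2.1.1 i0 1 :=
    contDiff_pi.2 fun i => by simp only [update_apply]; split_ifs <;> fun_prop
  have b : ∀ s, ContDiff ℝ ∞ fun p : ((wd D d hd).Par → ℝ) × E D =>
      cf p.1 (update p.2.1.1 i0 1) s := fun s => ContDiff.sum fun r _ => ContDiff.mul (by fun_prop)
    (contDiff_prod fun j _ => by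
      split_ifs
      exacts [contDiff_pi.1 a _, contDiff_const])
  have c : ContDiff ℝ ∞ fun p : ((wd D d hd).Par → ℝ) × E D => p.2.1.2 ^ 2 := by fun_prop
  have f : ContDiff ℝ ∞ fun p : ((wd D d hd).Par → ℝ) × E D => p.2.1.1 := by fun_prop
  unfold Cs
  exact contDiff_pi.2 fun s => ((b _).sub (eval_cd _ a (contDiff_pi.1 a ih))).add
    (eval_cd _ f (((contDiff_pi.1 a ih).sub (b _)).add c))

theorem Cs_sol {σ : (wd D d hd).Par → ℝ} {e : E D} (hQ : Q .h = X (some ih))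
    (h : Eqs i0 e (Cs i0 ih Q σ e.1)) : Eqs i0 e fun s => cf σ e.x (ls d hd s) := by
  have a : update e.1.1 i0 1 = e.1.1 := update_eq_self_iff.2 h.x.symm
  have b : e.1.2 ^ 2 = cf σ e.1.1 (ls d hd .h) := by simpa [Cs, a, hQ] using h.y
  have : Cs i0 ih Q σ e.1 = fun s => cf σ e.x (ls d hd s) := funext fun s => by simp [Cs, a, b]
  exact this ▸ h

theorem exists_par (hQ : Q .h = X (some ih)) (hq : ∀ f j, Q (.qd f j) = 1) :
    ∃ (d : ℕ) (hd : 0 < d) (σ : (wd D d hd).Par → ℝ), ∀ p s,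
      Cs i0 ih Q σ p s = eval (fun o => o.elim (p.2 ^ 2) p.1) (Q s) := by
  let R := fun s => rename (fun o : Option D.Ix => o.elim ih id) (Q s)
  obtain ⟨d, h0, h1⟩ : ∃ d, 0 < d ∧ ∀ s, (R s).totalDegree ≤ d :=
    ⟨(∑ s, (R s).totalDegree) + 1, Nat.succ_pos _, fun s => Nat.le_succ_of_le
      (Finset.single_le_sum (f := fun s => (R s).totalDegree) (fun _ _ => Nat.zero_le _)
        (Finset.mem_univ s))⟩
  choose c hc using fun s : (wd D d h0).Slot => xm_span i0 (D := (wd D d h0).Dm)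
    (δ := (wd D d h0).deg s) (by
      cases s
      case qd => exact Nat.zero_le _
      case a => exact (wd D d h0).hD _
      all_goals exact (wd D d h0).hD2) (R (sl s)) (by
      cases s
      case qd => simp [R, sl, hq]
      case a => exact (h1 _).trans (Nat.le_mul_of_pos_left _ (Nat.succ_pos _))
      all_goals exact (h1 _).trans (Nat.le_mul_of_pos_left _ two_pos))
  refine ⟨d, h0, fun p => c p.1 p.2, fun p s => ?_⟩
  have : ∀ s, cf (D := wd D d h0) (fun p => c p.1 p.2) (update p.1 i0 1) (ls d h0 s) =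
      eval (fun o => o.elim (update p.1 i0 1 ih) (update p.1 i0 1)) (Q s) := fun s => by
    rw [cf, hc _ _ (update_self ..), sl_ls, eval_rename]
    exact congrArg (MvPolynomial.eval · (Q s)) (_root_.funext fun o => by cases o <;> rfl)
  simp [Cs, this, hQ]

theorem model {M : Type*} [TopologicalSpace M] [ChartedSpace (EuclideanSpace ℝ (Fin 3)) M]
    [CompactSpace M] [ConnectedSpace M] [IsManifold (𝓡 3) ∞ M] (A : Dat M) :
    HasUniruledModel M := by
  obtain ⟨τ⟩ := exists_tor A.T A.p A.k A.p0 A.cop (bd A)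
  obtain ⟨l0, w0, a0, y0, z0⟩ := A.reg
  obtain ⟨ε, ⟨e1, e2⟩, e0⟩ := (((eventually_lt_nhds (norm_pos_iff.2 y0)).and (eventually_all.2
    fun t => eventually_lt_nhds (norm_pos_iff.2 (z0 t)))).filter_mono
      (nhdsWithin_le_nhds (s := Ioi 0)) |>.and self_mem_nhdsWithin).exists
  have inv : ∀ {C : _ → (mk A τ).Slot → ℝ}, (∀ x y, C (x, -y) = C (x, y)) → ∀ g, Sym (j0 τ) g →
      ∀ e, Sys (j0 τ) (g e, C (g e).1) = 0 ↔ Sys (j0 τ) (e, C e.1) = 0 := fun {C} h g s e => by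
    have : C (g e).1 = C e.1 := by
      rcases s.y e with a | a
      · rw [Prod.ext (s.x e) a]
      · rw [show (g e).1 = (e.x, -e.y) from Prod.ext (s.x e) a, h]
    rw [this, sys_iff, sys_iff, s.eqs]
  obtain ⟨K, hK, η, hη, main⟩ := pert_glue Nn_euc Nn_zero (F0_cd (τ := τ)) (Θ_cd 0)
    {g | Sym (j0 τ) g} (fun g s => ⟨s.lin, s.N, s.Θ 0, inv c0_ev g s⟩) (Lf τ)
    (fun m e ⟨l, θ, w, r, a, _, c, b⟩ => b ▸ ⟨sys_iff.2 (lift_eqs a c), F0_surj a c⟩)
    (fun m e e' => Lf.sym) (fun m e m' e' => Lf.inj) (range A.ψ)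
    (fun ψ ⟨l, b⟩ => b ▸ ⟨(A.loc l).contMDiff.continuous, (A.loc l).isOpenMap⟩) exists_sec e0
  have cc := contDiff_pi.2 (c0_cd (τ := τ))
  obtain ⟨η', hη', h1⟩ := c1_comp ((sys_cd (j0 τ)).of_le (by simp))
    ((cc.comp contDiff_fst).of_le (by simp)) hK (half_pos hη)
  have : ∀ s, ∃ Q : MvPolynomial (Option (mk A τ).Ix) ℝ, (∀ e ∈ Prod.fst '' K,
      ‖eval (fun o => o.elim (e.2 ^ 2) e.1) Q - c0 τ e s‖ ≤ η' ∧
      ‖fderiv ℝ (fun e : ((mk A τ).Ix → ℝ) × ℝ => eval (fun o => o.elim (e.2 ^ 2) e.1) Q) e -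
        fderiv ℝ (c0 τ · s) e‖ ≤ η') ∧ (s = .h → Q = X (some (.inr (.inr true)))) ∧
      ∀ f j, s = .qd f j → Q = 1 := fun s => by
    obtain ⟨Q, h⟩ := weier_even ((c0_cd s).of_le (by simp)) (fun x y => congrFun (c0_ev x y) s)
      (hK.image continuous_fst) hη'
    cases s
    case qd => exact ⟨1, fun e _ => by simp [c0, hη'.le], nofun, fun _ _ _ => rfl⟩
    case h => exact ⟨_, fun e _ => by simp [c0, hη'.le], fun _ => rfl, nofun⟩
    all_goals exact ⟨Q, h, nofun, nofun⟩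
  choose Q q1 q2 q3 using this
  obtain ⟨d, hd, σ1, h2⟩ := exists_par (i0 := j0 τ) (q2 _ rfl) fun f j => q3 _ f j rfl
  have sm := (sys_cd (j0 τ)).comp (contDiff_snd.prodMk
    (Cs_cd (hd := hd) (i0 := j0 τ) (ih := .inr (.inr true)) (Q := Q)))
  obtain ⟨σ, hσ, h3⟩ := ((freq_indep σ1).and_eventually
    (c1_par (sm.of_le (by simp)) σ1 hK (half_pos hη))).exists
  have cq : Differentiable ℝ fun (p : ((mk A τ).Ix → ℝ) × ℝ) s =>
      eval (fun o => o.elim (p.2 ^ 2) p.1) (Q s) := differentiable_pi.2 fun s =>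
    (eval_cd (Q s) contDiff_fst (contDiff_snd.pow 2)).differentiable (by simp)
  obtain ⟨W, w1, w2, w3, w4⟩ := main (fun e => Sys (j0 τ) (e, Cs (j0 τ) (.inr (.inr true)) Q σ e.1))
    (sm.comp (contDiff_const.prodMk contDiff_id)) (inv fun x y => funext fun s => by simp [Cs])
    fun e he => by
      have a := h1 _ (cq.comp differentiable_fst) (fun e he => c1_pi
        (cc.differentiable (by simp)) cq hη'.le fun s => q1 s _ ⟨e, he, rfl⟩) e he
      have b := h3 e he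
      simp only [Function.comp_def, funext₂ h2] at a b
      exact ⟨(norm_sub_le_norm_sub_add_norm_sub _ _ _).trans ((add_le_add b.1 a.1).trans_eq
        (add_halves η)), (norm_sub_le_norm_sub_add_norm_sub _ _ _).trans
        ((add_le_add b.2 a.2).trans_eq (add_halves η))⟩
  have q := fun m => Cs_sol (q2 _ rfl) (sys_iff.1 (w1 m))
  have up' : Θ d ∘ W = up (j0 τ) d ∘ Θ 0 ∘ W := funext fun m => (up_Θ (q m).nrm d).symm
  have dn' : Θ 0 ∘ W = dn (j0 τ) ∘ Θ d ∘ W := funext fun m => (dn_Θ (q m).nrm d).symm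
  have gl : ∀ m, ContMDiffAt (𝓡 3) 𝓘(ℝ, V (mk A τ)) ∞ (Θ d ∘ W) m ∧
      Injective (mfderiv (𝓡 3) 𝓘(ℝ, V (mk A τ)) (Θ d ∘ W) m) := fun m => by
    obtain ⟨_, ⟨l, rfl⟩, x, rfl, a, b⟩ := w4 m
    have c : ContDiffAt ℝ ∞ ((Θ d ∘ W) ∘ A.ψ l) x := up' ▸ (up_cd _ d).contDiffAt.comp x a
    refine glue_mfd (A.loc l) c (Injective.of_comp (f := dn (j0 τ)) ?_)
    have f : HasFDerivAt ((dn (j0 τ) ∘ Θ d ∘ W) ∘ A.ψ l) _ x :=
      (dn (j0 τ)).hasFDerivAt.comp x (c.differentiableAt (by simp)).hasFDerivAt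
    rwa [dn', f.fderiv] at b
  have cast : ∀ m i, ((Θ d ∘ W) m i : ℂ) = sq2 (Lr (Pj (cp d hd (W m)))) i := fun m i => by
    rcases i with i | i <;> simp [Θ, sq2, Lr_cp]
  obtain ⟨e, he, hn⟩ := w2 (A.ψ l0 (0, w0))
  obtain ⟨r, hr⟩ := frame_loc (S := fun _ : ℝ => SS A (A.X l0 w0, A.y l0 w0)) (w0 := 0)
    (.of_forall fun _ => ⟨fun _ _ => contDiffAt_const, SS_psd _, SS_rk a0⟩)
  obtain ⟨g, s, rfl⟩ := Lf.sym ⟨l0, 0, w0, _, a0, rfl, hr.self_of_nhds.2, rfl⟩ he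
  refine pack ((wd (mk A τ) d hd).cone4 hσ) (fun m => (gl m).1)
    (fun m => ⟨_, .inr ⟨_, (sol (q m)).2, rfl⟩, cast m⟩) (fn (j0 τ) (m0 _) (j0 τ) (nn _)).toLinearMap
    (fun m => (fn_x (q m).nrm d _).trans (q m).x) (Injective.of_comp (dn' ▸ w3))
    (fun m => (gl m).2) _ (cast (A.ψ l0 (0, w0))) (.inr ⟨_, (sol (q _)).2, rfl⟩)
    (Pm.ruled _ hσ (sol (q _)).2 (ofReal_ne_zero.2 fun h => ?_) (fun t => ?_) (fun b => ?_)
      (sol (q _)).1 rfl)
  · have := (norm_snd_le _).trans ((norm_fst_le _).trans hn)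
    rw [Prod.fst_sub, Prod.snd_sub, show (W _).1.2 = 0 from h, zero_sub, norm_neg] at this
    refine (this.trans_lt e1).ne ?_
    rcases s.y (lift τ l0 0 w0 (r 0)) with a | a
    · exact congrArg norm a
    · exact (congrArg norm a).trans (norm_neg _)
  · have : (W (A.ψ l0 (0, w0))).z t ≠ 0 := fun h => by
      have := (norm_le_pi_norm _ t).trans ((norm_fst_le _).trans ((norm_snd_le _).trans
        ((norm_snd_le _).trans ((norm_snd_le _).trans hn))))
      change ‖(W _).z t - (g _).z t‖ ≤ ε at this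
      rw [h, zero_sub, norm_neg] at this
      exact (this.trans_lt (e2 t)).ne (s.z _ t)
    simpa [cv] using this
  · have : (W (A.ψ l0 (0, w0))).a ≠ 0 := normSq_pos.1 ((q _).a ▸ one_pos)
    cases b <;> simpa [cv] using this

end RJ

theorem model_of_dat {M : Type*} [TopologicalSpace M] [ChartedSpace (EuclideanSpace ℝ (Fin 3)) M]
    [CompactSpace M] [ConnectedSpace M] [IsManifold (𝓡 3) ∞ M] (A : Dat M) :
    HasUniruledModel M := RJ.model A

end Pool.Agent.Lib.MP_78bd4b_ag
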