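import Pool.Agent.Lib.MP_78bd4b_ag.MDefs
import Pool.Agent.Lib.MP_78bd4b_ag.Data1

/-! The real Cox space, its equations and its invariant coordinates. -/

noncomputable section

namespace Pool.Agent.Lib.MP_78bd4b_ag.RJ

open Complex Filter Function Set Pm DJ
open scoped ContDiff Topology Real ComplexConjugate Matrix

/-- the real Cox space -/
abbrev E (D : Pm) : Type :=
  ((D.Ix → ℝ) × ℝ) × ((Fin 2 → D.In → ℝ) × (Fin 2 → Fin 2 → ℝ) × (Fin 2 → ℝ)) ×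
    ((D.Φ → D.L → ℝ) × (D.Φ → ℝ)) × (D.T → ℂ) × (D.T → ℂ) × ℂ

/-- the values of the equations -/
abbrev H (D : Pm) : Type :=
  (ℝ × ℝ × ℝ) × ((D.In → ℝ) × (Fin 2 → D.In → ℝ) × ℝ × ℝ × ℝ) ×
    ((D.Φ → D.L → ℝ) × (D.Φ → ℝ)) × (D.T → ℂ) × (D.T → ℝ) × (D.T → ℝ)

/-- the invariant coordinates -/
abbrev V (D : Pm) : Type := (D.Iy × D.Iy) ⊕ (D.Iy × D.Iy) → ℝ

variable {D : Pm}

namespace E
variable (e : E D)
@[simp] abbrev x := e.1.1
@[simp] abbrev y := e.1.2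
@[simp] abbrev r := e.2.1.1
@[simp] abbrev lam := e.2.1.2.1
@[simp] abbrev mu := e.2.1.2.2
@[simp] abbrev o := e.2.2.1.1
@[simp] abbrev nu := e.2.2.1.2
@[simp] abbrev z := e.2.2.2.1
@[simp] abbrev g := e.2.2.2.2.1
@[simp] abbrev a := e.2.2.2.2.2
end E

def qc (o : D.Φ → D.L → ℝ) : D.Φ → Option D.L → ℂ := fun f j => j.elim 1 fun j => o f j

def Qr (o : D.Φ → D.L → ℝ) (j : D.Φ → Option D.L) : ℝ := ∏ f, (j f).elim 1 (o f)

/-- the equations with given coefficients -/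
def Sys (i0 : D.Ix) (p : E D × (D.Slot → ℝ)) : H D :=
  ((p.1.x i0 - 1, p.1.y ^ 2 - p.2 .h, normSq p.1.a - 1),
   (fun i => p.2 (.v i) - ∑ b, p.1.mu b * p.1.r b i,
    fun a i => ∑ j, p.2 (.A i j) * p.1.r a j - ∑ b, p.1.lam a b * p.1.r b i,
    p.1.r 0 ⬝ᵥ p.1.r 0 - 1, p.1.r 0 ⬝ᵥ p.1.r 1, p.1.r 1 ⬝ᵥ p.1.r 1 - 1),
   (fun f j => ∑ i, p.2 (.B f j i) * p.1.o f i - p.1.nu f * p.1.o f j,
    fun f => p.2 (.qd f none) - ∑ j, p.2 (.qd f (some j)) * p.1.o f j ^ 2),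
   fun t => p.1.z t ^ D.p t * p.1.g t - ∑ j, p.2 (.a t j) * Qm (tw I (qc p.1.o)) j,
   fun t => normSq (p.1.z t) - p.2 (.c t),
   fun t => normSq (p.1.g t) - ∑ j, p.2 (.g t j) * Qr p.1.o j ^ 2)

/-- the equations, one by one -/
structure Eqs (i0 : D.Ix) (e : E D) (C : D.Slot → ℝ) : Prop where
  x : e.x i0 = 1
  y : e.y ^ 2 = C .h
  a : normSq e.a = 1
  v : ∀ i, C (.v i) = ∑ b, e.mu b * e.r b i
  A : ∀ a i, ∑ j, C (.A i j) * e.r a j = ∑ b, e.lam a b * e.r b i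
  r : ∀ a b, e.r a ⬝ᵥ e.r b = if a = b then 1 else 0
  B : ∀ f j, ∑ i, C (.B f j i) * e.o f i = e.nu f * e.o f j
  q : ∀ f, C (.qd f none) = ∑ j, C (.qd f (some j)) * e.o f j ^ 2
  zg : ∀ t, e.z t ^ D.p t * e.g t = ∑ j, C (.a t j) * Qm (tw I (qc e.o)) j
  z : ∀ t, normSq (e.z t) = C (.c t)
  g : ∀ t, normSq (e.g t) = ∑ j, C (.g t j) * Qr e.o j ^ 2

variable {i0 : D.Ix} {e : E D} {C : D.Slot → ℝ}

theorem sys_iff : Sys i0 (e, C) = 0 ↔ Eqs i0 e C := by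
  simp only [Sys, Prod.mk_eq_zero, funext_iff, Pi.zero_apply, sub_eq_zero]
  refine ⟨fun ⟨⟨a, b, c⟩, ⟨d, f, g1, g2, g3⟩, ⟨h, i⟩, j, k, l⟩ => ⟨a, b, c, d, f, ?_, h, i, j, k, l⟩,
    fun h => ⟨⟨h.x, h.y, h.a⟩, ⟨h.v, h.A, h.r 0 0, h.r 0 1, h.r 1 1⟩, ⟨h.B, h.q⟩, h.zg, h.z, h.g⟩⟩
  simp [Fin.forall_fin_two, g1, g2, g3, dotProduct_comm (e.r 1) (e.r 0)]

theorem normSq_cd : ContDiff ℝ ∞ normSq := by
  simpa only [← normSq_eq_norm_sq] using contDiff_norm_sq ℝ (E := ℂ) (n := ∞)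

@[local fun_prop]
theorem normSq_cd' {X : Type} [NormedAddCommGroup X] [NormedSpace ℝ X] {f : X → ℂ}
    (h : ContDiff ℝ ∞ f) : ContDiff ℝ ∞ fun x => normSq (f x) := normSq_cd.comp h

@[local fun_prop]
theorem ofReal_cd : ContDiff ℝ ∞ ofReal := ofRealCLM.contDiff

@[local fun_prop]
theorem Qr_cd (j : D.Φ → Option D.L) : ContDiff ℝ ∞ (Qr · j) := contDiff_prod fun f _ => by
  cases j f <;> simp only [Option.elim] <;> fun_prop

theorem Qm_cd (c : ℂ) (j : D.Φ → Option D.L) : ContDiff ℝ ∞ fun o => Qm (tw c (qc o)) j :=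
  contDiff_prod fun f _ => by
    cases j f <;> simp only [tw, qc, Option.elim] <;> fun_prop

theorem sys_cd (i0 : D.Ix) : ContDiff ℝ ∞ (Sys i0) := by
  have a : ∀ j, ContDiff ℝ ∞ fun p : E D × (D.Slot → ℝ) => Qm (tw I (qc p.1.o)) j := fun j =>
    (Qm_cd I j).comp (f := fun p : E D × (D.Slot → ℝ) => p.1.o) (by fun_prop)
  unfold Sys dotProduct
  refine .prodMk (by fun_prop) (.prodMk (by fun_prop) (.prodMk (by fun_prop) (.prodMk ?_
    (by fun_prop))))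
  exact contDiff_pi.2 fun t => ContDiff.sub (by fun_prop)
    (ContDiff.sum fun j _ => ContDiff.mul (by fun_prop) (a j))

theorem Qm_qc (o : D.Φ → D.L → ℝ) (j : D.Φ → Option D.L) : Qm (qc o) j = Qr o j := by
  rw [Qm, Qr, ofReal_prod]
  exact Finset.prod_congr rfl fun f _ => by cases j f <;> simp [qc]

/-- the parity of a monomial -/
def sr (j : D.Φ → Option D.L) : ℝ := Qr (fun _ _ => -1) j

theorem sr_sg (j : D.Φ → Option D.L) : Sg (sr j) :=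
  Finset.prod_induction _ Sg (fun _ _ => Sg.mul) (.inl rfl) fun f _ => by
    cases j f <;> simp [Sg]

theorem Qr_neg (o : D.Φ → D.L → ℝ) (j : D.Φ → Option D.L) : Qr (-o) j = sr j * Qr o j := by
  rw [sr, Qr, Qr, Qr, ← Finset.prod_mul_distrib]
  exact Finset.prod_congr rfl fun f _ => by cases j f <;> simp

theorem Qm_conj (o : D.Φ → D.L → ℝ) (j : D.Φ → Option D.L) :
    conj (Qm (tw I (qc o)) j) = Qm (tw (-I) (qc o)) j := by
  rw [Qm, Qm, map_prod]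
  exact Finset.prod_congr rfl fun f _ => by cases j f <;> simp [tw, qc]

theorem Qm_neg (o : D.Φ → D.L → ℝ) (j : D.Φ → Option D.L) :
    Qm (tw I (qc (-o))) j = Qm (tw (-I) (qc o)) j :=
  Finset.prod_congr rfl fun f _ => by cases j f <;> simp [tw, qc]

/-- the sign of a coordinate -/
def sg (ι : D.Iy) : ℝ := sr ι.2.2.2.1 ^ D.Dq ι.1 * sr ι.2.2.2.2

theorem sgn_eq (ι : D.Iy) : sgn ι = sg ι := by
  have : ∀ j : D.Φ → Option D.L, Qm (tw (-1) 1) j = sr j := fun j => by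
    rw [sr, ← Qm_qc]
    exact Finset.prod_congr rfl fun f _ => by cases j f <;> simp [tw, qc]
  simp [sgn, sg, this]

theorem sg_sg (ι : D.Iy) : Sg (sg ι) := by
  refine Sg.mul ?_ (sr_sg _)
  rcases sr_sg ι.2.2.2.1 with h | h <;> rw [h]
  · simp [Sg]
  · exact neg_one_pow_eq_or ℝ _

/-- the Cox coordinates -/
def cv (z g : D.T → ℂ) (a : ℂ) : Cv D.T → ℂ :=
  Sum.elim (fun x => ![z x.1, conj (z x.1), g x.1, conj (g x.1)] x.2) fun b => if b then a else conj a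

def xi (e : E D) (m : D.tor.Mon) : ℂ := cox (cv e.z e.g e.a) e.y m

def Wr (d : ℕ) (e : E D) (ι : D.Iy) : ℝ :=
  (e.x ι.2.1.1 ^ (d * (D.Kt - ∑ v, D.tor.ex ι.1 v)) * e.x ι.2.1.2) * pl e.r ι.2.2.1 *
    (Qr e.o ι.2.2.2.1 ^ D.Dq ι.1 * Qr e.o ι.2.2.2.2)

/-- real or imaginary part -/
def pt (s : ℝ) (v : ℂ) : ℝ := if s = 1 then v.re else v.im

def LR (d : ℕ) (e : E D) : D.Iy ⊕ D.Iy → ℝ :=
  Sum.elim (fun ι => 2 * Wr d e ι * pt (sg ι) (xi e ι.1))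
    fun ι => 2 * Wr d e ι * pt (-sg ι) (xi e ι.1)

/-- the invariant map -/
def Θ (d : ℕ) (e : E D) : V D := sq2 (LR d e)

theorem bar_bar {T : Type} (v : Cv T) : v.bar.bar = v := by
  rcases v with ⟨t, i⟩ | b
  · fin_cases i <;> rfl
  · simp [Cv.bar]

theorem cv_bar (z g : D.T → ℂ) (a : ℂ) (v : Cv D.T) : cv z g a v.bar = conj (cv z g a v) := by
  rcases v with ⟨t, i⟩ | b
  · fin_cases i <;> simp [cv, Cv.bar]
  · cases b <;> simp [cv, Cv.bar]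

theorem xi_bar (e : E D) (m : D.tor.Mon) : xi e (D.tor.bar m) = conj (xi e m) := by
  simp only [xi, cox, D.tor.bar_ex, map_mul, map_pow, map_prod, conj_ofReal, ← cv_bar]
  congr 1
  · simp [Cv.bar, add_comm]
  · exact Fintype.prod_equiv (Involutive.toPerm _ bar_bar) _ _ fun v => by
      change _ = cv _ _ _ v.bar.bar ^ _
      rw [bar_bar]; rfl

theorem Wr_bar (d : ℕ) (e : E D) (ι : D.Iy) : Wr d e (bar ι) = Wr d e ι := by
  have a : ∑ v, D.tor.ex (D.tor.bar ι.1) v = ∑ v, D.tor.ex ι.1 v := by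
    rw [D.tor.bar_ex]
    exact Fintype.sum_equiv (Involutive.toPerm _ bar_bar) _ _ fun v => rfl
  have b : D.Dq (D.tor.bar ι.1) = D.Dq ι.1 := by simp [Dq, D.tor.bar_ex, Cv.bar, add_comm]
  simp only [Wr, bar, a, b]

theorem Lr_eq {y : D.Iy → ℂ} {d : ℕ} (h : ∀ ι, y ι = xi e ι.1 * Wr d e ι) (i : D.Iy ⊕ D.Iy) :
    Lr y i = LR d e i := by
  have b : ∀ ι, y (bar ι) = conj (xi e ι.1) * Wr d e ι := fun ι => by
    rw [h, Wr_bar]; exact congrArg (· * _) (xi_bar e ι.1)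
  rcases i with ι | ι <;> rcases sg_sg ι with s | s <;>
    simp only [Lr, LR, Sum.elim_inl, Sum.elim_inr, sgn_eq, s, b, h ι, pt] <;>
    apply Complex.ext <;> norm_num <;> ring

theorem cv_cd (v : Cv D.T) : ContDiff ℝ ∞ fun e : E D => cv e.z e.g e.a v := by
  have := conjCLE.contDiff (n := ∞)
  rcases v with ⟨t, i⟩ | b
  · fin_cases i
    exacts [(by fun_prop : ContDiff ℝ ∞ fun e : E D => e.z t),
      this.comp (f := fun e : E D => e.z t) (by fun_prop),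
      (by fun_prop : ContDiff ℝ ∞ fun e : E D => e.g t),
      this.comp (f := fun e : E D => e.g t) (by fun_prop)]
  · cases b
    exacts [this.comp (f := fun e : E D => e.a) (by fun_prop),
      (by fun_prop : ContDiff ℝ ∞ fun e : E D => e.a)]

theorem xi_cd (m : D.tor.Mon) : ContDiff ℝ ∞ (xi · m) :=
  ContDiff.mul (by fun_prop) (contDiff_prod fun v _ => (cv_cd v).pow _)

theorem pt_cd (s : ℝ) : ContDiff ℝ ∞ (pt s) := by
  unfold pt; split_ifs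
  exacts [reCLM.contDiff, imCLM.contDiff]

theorem Θ_cd (d : ℕ) : ContDiff ℝ ∞ (Θ (D := D) d) := by
  have a : ∀ ι, ContDiff ℝ ∞ (Wr (D := D) d · ι) := fun ι => by
    unfold Wr pl
    fun_prop
  have b : ∀ i, ContDiff ℝ ∞ (LR (D := D) d · i) := by
    rintro (ι | ι) <;> exact (contDiff_const.mul (a ι)).mul ((pt_cd _).comp (xi_cd _))
  refine contDiff_pi.2 ?_
  rintro (i | i) <;> exact (b _).mul (b _)

end Pool.Agent.Lib.MP_78bd4b_ag.RJ
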