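import Pool.Agent.Lib.MP_78bd4b_ag.Real1
import Pool.Agent.Lib.MP_78bd4b_ag.Pert

/-! The symmetries of the real Cox space. -/

noncomputable section

namespace Pool.Agent.Lib.MP_78bd4b_ag.RJ

open Complex Filter Function Set Pm DJ
open scoped ContDiff Topology Real ComplexConjugate Matrix

variable {D : Pm} {i0 : D.Ix} {e : E D} {C : D.Slot → ℝ}

/-- the square of the Euclidean norm -/
def Nn (e : E D) : ℝ :=
  ∑ i, e.x i ^ 2 + e.y ^ 2 + ∑ i, ∑ a, e.r a i ^ 2 + ∑ a, ∑ b, e.lam a b ^ 2 + ∑ a, e.mu a ^ 2 +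
    ∑ f, ∑ j, e.o f j ^ 2 + ∑ f, e.nu f ^ 2 + ∑ t, normSq (e.z t) + ∑ t, normSq (e.g t) +
    normSq e.a

theorem Nn_euc : Euc (Nn (D := D)) := by
  unfold Nn
  repeat' first
    | exact Euc.sq ⟨fun _ _ => rfl, fun _ _ => rfl⟩
    | exact Euc.normSq ⟨fun _ _ => rfl, fun _ _ => rfl⟩
    | refine Euc.sum fun _ => ?_
    | apply Euc.add

theorem Nn_zero (e : E D) (h : Nn e = 0) : e = 0 := by
  have s : ∀ {ι : Type} [Fintype ι] (f : ι → ℝ), 0 ≤ ∑ i, f i ^ 2 := fun _ => by positivity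
  have s2 : ∀ {ι κ : Type} [Fintype ι] [Fintype κ] (f : ι → κ → ℝ), 0 ≤ ∑ i, ∑ j, f i j ^ 2 :=
    fun _ => by positivity
  have n : ∀ f : D.T → ℂ, 0 ≤ ∑ i, normSq (f i) := fun _ =>
    Finset.sum_nonneg fun _ _ => normSq_nonneg _
  have z : ∀ {ι : Type} [Fintype ι] (f : ι → ℝ), ∑ i, f i ^ 2 ≤ 0 → f = 0 := fun f h =>
    funext fun i => pow_eq_zero_iff two_ne_zero |>.1 ((Finset.sum_eq_zero_iff_of_nonneg
      fun _ _ => sq_nonneg _).1 (h.antisymm (s f)) i (Finset.mem_univ i))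
  have z2 : ∀ {ι κ : Type} [Fintype ι] [Fintype κ] (f : ι → κ → ℝ), ∑ i, ∑ j, f i j ^ 2 ≤ 0 →
      f = 0 := fun f h => funext fun i => z _ ((Finset.sum_eq_zero_iff_of_nonneg
        fun _ _ => s _).1 (h.antisymm (s2 f)) i (Finset.mem_univ i)).le
  have zn : ∀ f : D.T → ℂ, ∑ i, normSq (f i) ≤ 0 → f = 0 := fun f h =>
    funext fun i => normSq_eq_zero.1 ((Finset.sum_eq_zero_iff_of_nonneg
      fun _ _ => normSq_nonneg _).1 (h.antisymm (n f)) i (Finset.mem_univ i))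
  have := s e.x
  have := sq_nonneg e.y
  have := s2 fun i a => e.r a i
  have := s2 e.lam
  have := s e.mu
  have := s2 e.o
  have := s e.nu
  have := n e.z
  have := n e.g
  have := normSq_nonneg e.a
  unfold Nn at h
  exact Prod.ext (Prod.ext (z e.x (by linarith)) (pow_eq_zero_iff two_ne_zero |>.1
    (by linarith : e.y ^ 2 = 0))) (Prod.ext (Prod.ext (funext₂ fun a i => congrFun₂
    (z2 (fun i a => e.r a i) (by linarith)) i a) (Prod.ext (z2 e.lam (by linarith))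
    (z e.mu (by linarith)))) (Prod.ext (Prod.ext (z2 e.o (by linarith)) (z e.nu (by linarith)))
    (Prod.ext (zn e.z (by linarith)) (Prod.ext (zn e.g (by linarith))
    (normSq_eq_zero.1 (by linarith : normSq e.a = 0))))))

/-- symmetries -/
structure Sym (i0 : D.Ix) (g : E D → E D) : Prop where
  lin : IsLinearMap ℝ g
  N : ∀ e, Nn (g e) = Nn e
  Θ : ∀ d e, Θ d (g e) = Θ d e
  x : ∀ e, (g e).x = e.x
  y : ∀ e, (g e).y = e.y ∨ (g e).y = -e.y
  z : ∀ e t, ‖(g e).z t‖ = ‖e.z t‖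
  eqs : ∀ e C, Eqs i0 (g e) C ↔ Eqs i0 e C

theorem Sym.id : Sym i0 id :=
  ⟨⟨fun _ _ => rfl, fun _ _ => rfl⟩, fun _ => rfl, fun _ _ => rfl, fun _ => rfl, fun _ => .inl rfl,
    fun _ _ => rfl, fun _ _ => .rfl⟩

theorem Sym.comp {g g' : E D → E D} (h : Sym i0 g) (h' : Sym i0 g') : Sym i0 (g ∘ g') :=
  ⟨⟨fun a b => by simp [h.lin.1, h'.lin.1], fun a b => by simp [h.lin.2, h'.lin.2]⟩,
    fun e => (h.N _).trans (h'.N e), fun d e => (h.Θ d _).trans (h'.Θ d e),
    fun e => (h.x _).trans (h'.x e), fun e => by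
      rcases h.y (g' e) with a | a <;> rcases h'.y e with b | b <;> simp [a, b],
    fun e t => (h.z _ t).trans (h'.z e t), fun e C => (h.eqs _ C).trans (h'.eqs e C)⟩

theorem sq2_sign {A B : Type} {y y' : A ⊕ B → ℝ} {s s' : ℝ} (h : s * s = 1) (h' : s' * s' = 1)
    (a : ∀ i, y' (.inl i) = s * y (.inl i)) (b : ∀ i, y' (.inr i) = s' * y (.inr i)) :
    sq2 y' = sq2 y := by
  funext i
  rcases i with i | i <;> simp only [sq2, Sum.elim_inl, Sum.elim_inr, a, b]
  · linear_combination (y (.inl i.1) * y (.inl i.2)) * h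
  · linear_combination (y (.inr i.1) * y (.inr i.2)) * h'

/-- change of the frame -/
def rot (O : Matrix (Fin 2) (Fin 2) ℝ) (e : E D) : E D :=
  (e.1, (fun a => ∑ b, O a b • e.r b, fun a b => ∑ c, ∑ d, O a c * e.lam c d * O b d,
    fun a => ∑ b, O a b * e.mu b), e.2.2)

theorem orth {O : Matrix (Fin 2) (Fin 2) ℝ} (h : O * Oᵀ = 1) :
    O 0 0 * O 0 0 + O 0 1 * O 0 1 = 1 ∧ O 0 0 * O 1 0 + O 0 1 * O 1 1 = 0 ∧
      O 1 0 * O 1 0 + O 1 1 * O 1 1 = 1 := by
  have := fun a b => congrFun₂ h a b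
  simp only [Matrix.mul_apply, Fin.sum_univ_two, Matrix.transpose_apply] at this
  exact ⟨by simpa using this 0 0, by simpa using this 0 1, by simpa using this 1 1⟩

theorem rot_eqs {O : Matrix (Fin 2) (Fin 2) ℝ} (h : O * Oᵀ = 1) (q : Eqs i0 e C) :
    Eqs i0 (rot O e) C := by
  obtain ⟨a1, a2, a3⟩ := orth h
  obtain ⟨b1, b2, b3⟩ := orth (O := Oᵀ) (mul_eq_one_comm.1 h)
  simp only [Matrix.transpose_apply] at b1 b2 b3
  refine { q with v := fun i => ?_, A := fun a i => ?_, r := ?_ }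
  · simp only [q.v, rot, E.r, E.mu, Fin.sum_univ_two, Pi.add_apply, Pi.smul_apply, smul_eq_mul]
    linear_combination -(e.mu 0 * e.r 0 i) * b1 - (e.mu 0 * e.r 1 i + e.mu 1 * e.r 0 i) * b2 -
      e.mu 1 * e.r 1 i * b3
  · simp only [rot, E.r, E.lam, Fin.sum_univ_two, Pi.add_apply, Pi.smul_apply, smul_eq_mul, mul_add,
      Finset.sum_add_distrib, mul_left_comm _ (O a _), ← Finset.mul_sum, q.A]
    linear_combination -((O a 0 * e.lam 0 0 + O a 1 * e.lam 1 0) * e.r 0 i) * b1 -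
      ((O a 0 * e.lam 0 0 + O a 1 * e.lam 1 0) * e.r 1 i +
        (O a 0 * e.lam 0 1 + O a 1 * e.lam 1 1) * e.r 0 i) * b2 -
      (O a 0 * e.lam 0 1 + O a 1 * e.lam 1 1) * e.r 1 i * b3
  · simp [rot, Fin.forall_fin_two, q.r, a1, a2, a3, mul_comm (O 1 0), mul_comm (O 1 1)]

theorem rot_rot {O : Matrix (Fin 2) (Fin 2) ℝ} (h : O * Oᵀ = 1) (e : E D) :
    rot Oᵀ (rot O e) = e := by
  obtain ⟨b1, b2, b3⟩ := orth (O := Oᵀ) (mul_eq_one_comm.1 h)
  simp only [Matrix.transpose_apply] at b1 b2 b3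
  refine Prod.ext rfl (Prod.ext (Prod.ext ?_ (Prod.ext ?_ ?_)) rfl)
  · funext a i
    fin_cases a <;> simp [rot] <;> grind
  · funext a b
    fin_cases a <;> fin_cases b <;> simp [rot] <;> grind
  · funext a
    fin_cases a <;> simp [rot] <;> grind

theorem rot_sym {O : Matrix (Fin 2) (Fin 2) ℝ} (h : O * Oᵀ = 1) : Sym i0 (rot O) := by
  obtain ⟨a1, a2, a3⟩ := orth h
  obtain ⟨b1, b2, b3⟩ := orth (O := Oᵀ) (mul_eq_one_comm.1 h)
  simp only [Matrix.transpose_apply] at b1 b2 b3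
  refine ⟨⟨fun a b => ?_, fun a b => ?_⟩, fun e => ?_, fun d e => ?_, fun _ => rfl,
    fun _ => .inl rfl, fun _ _ => rfl, fun e C => ⟨fun q => rot_rot h e ▸
      rot_eqs (mul_eq_one_comm.1 h) q, rot_eqs h⟩⟩
  · ext <;> simp [rot] <;> ring
  · ext <;> simp [rot] <;> ring
  · have c1 : ∑ i, ∑ a, (rot O e).r a i ^ 2 = ∑ i, ∑ a, e.r a i ^ 2 :=
      Finset.sum_congr rfl fun i _ => by simp [rot]; grind
    have c2 : ∑ a, ∑ b, (rot O e).lam a b ^ 2 = ∑ a, ∑ b, e.lam a b ^ 2 := by simp [rot]; grind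
    have c3 : ∑ a, (rot O e).mu a ^ 2 = ∑ a, e.mu a ^ 2 := by simp [rot]; grind
    rw [Nn, c1, c2, c3]
    rfl
  · have c : ∀ ι, Wr d (rot O e) ι = (O 0 0 * O 1 1 - O 0 1 * O 1 0) * Wr d e ι := fun ι => by
      simp only [Wr, pl, rot, E.r, E.x, E.o, Fin.sum_univ_two, Pi.add_apply, Pi.smul_apply, smul_eq_mul]
      ring
    have s : (O 0 0 * O 1 1 - O 0 1 * O 1 0) * (O 0 0 * O 1 1 - O 0 1 * O 1 0) = 1 := by grind
    refine sq2_sign s s (fun ι => ?_) fun ι => ?_ <;>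
      simp only [LR, Sum.elim_inl, Sum.elim_inr, c, show xi (rot O e) = xi e from rfl] <;> ring

/-- reversal of the fibres -/
def cnj (e : E D) : E D :=
  (e.1, e.2.1, (-e.o, e.nu), fun t => conj (e.z t), fun t => conj (e.g t), conj e.a)

theorem cnj_eqs (q : Eqs i0 e C) : Eqs i0 (cnj e) C := by
  refine { q with a := ?_, B := fun f j => ?_, q := fun f => ?_, zg := fun t => ?_, z := fun t => ?_, g := fun t => ?_ }
  · simpa [cnj] using q.a
  · simpa [cnj] using q.B f j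
  · simpa [cnj] using q.q f
  · simpa [cnj, Qm_conj, Qm_neg] using congrArg conj (q.zg t)
  · simpa [cnj] using q.z t
  · simpa [cnj, Qr_neg, mul_pow, pow_two (sr _), (sr_sg _).sq] using q.g t

theorem pt_conj {s : ℝ} (h : Sg s) (v : ℂ) : pt s (conj v) = s * pt s v := by
  rcases h with rfl | rfl <;> norm_num [pt]

theorem cnj_sym : Sym i0 cnj := by
  refine ⟨⟨fun a b => ?_, fun a b => ?_⟩, fun e => by simp [Nn, cnj], fun d e => ?_, fun _ => rfl,
    fun _ => .inl rfl, fun _ _ => by simp [cnj], fun e C => ⟨fun q => ?_, cnj_eqs⟩⟩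
  · ext <;> simp [cnj, add_comm]
  · ext <;> simp [cnj]
  · have a : ∀ m, xi (cnj e) m = conj (xi e m) := fun m => by
      simp only [xi, cox, map_mul, map_pow, map_prod, conj_ofReal]
      refine congrArg _ (Finset.prod_congr rfl fun v _ => congrArg (· ^ _) ?_)
      rcases v with ⟨t, i⟩ | b
      · fin_cases i <;> simp [cv, cnj]
      · cases b <;> simp [cv, cnj]
    have b : ∀ ι, Wr d (cnj e) ι = sg ι * Wr d e ι := fun ι => by
      simp only [Wr, cnj, E.r, E.x, E.o, Qr_neg, sg]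
      ring
    refine sq2_sign (one_mul 1) (by norm_num : (-1 : ℝ) * -1 = 1) (fun ι => ?_) fun ι => ?_
    · simp only [LR, Sum.elim_inl, a, b, pt_conj (sg_sg ι)]
      linear_combination (2 * Wr d e ι * pt (sg ι) (xi e ι.1)) * (sg_sg ι).sq
    · have : Sg (-sg ι) := by simpa using (show Sg (-1) from .inr rfl).mul (sg_sg ι)
      simp only [LR, Sum.elim_inr, a, b, pt_conj this]
      linear_combination -(2 * Wr d e ι * pt (-sg ι) (xi e ι.1)) * (sg_sg ι).sq
  · simpa [cnj] using cnj_eqs q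

/-- gauge transformations -/
def gau (η : ℝ) (u : D.T → ℂ) (e : E D) : E D :=
  ((e.x, η * e.y), e.2.1, e.2.2.1, fun t => u t * e.z t, fun t => conj (u t) ^ D.p t * e.g t,
    η * (∏ t, u t ^ D.k t) * e.a)

variable {η : ℝ} {u : D.T → ℂ}

theorem gau_norm (h : Sg η) (hu : ∀ t, ‖u t‖ = 1) (e : E D) : (η * e.y) ^ 2 = e.y ^ 2 ∧
    normSq (gau η u e).a = normSq e.a ∧ (∀ t, normSq ((gau η u e).z t) = normSq (e.z t)) ∧
    ∀ t, normSq ((gau η u e).g t) = normSq (e.g t) := by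
  rcases h with rfl | rfl <;> simp [gau, normSq_eq_norm_sq, hu]

theorem gau_eqs (h : Sg η) (hu : ∀ t, ‖u t‖ = 1) (q : Eqs i0 e C) : Eqs i0 (gau η u e) C := by
  obtain ⟨a, b, c, d⟩ := gau_norm h hu e
  refine { q with y := a.trans q.y, a := b.trans q.a, zg := fun t => .trans ?_ (q.zg t), z := fun t => (c t).trans (q.z t), g := fun t => (d t).trans (q.g t) }
  simp only [gau, E.z, E.g]
  rw [mul_pow, mul_mul_mul_comm, ← mul_pow, mul_conj', hu]
  simp

theorem xi_gau (h : Sg η) (hu : ∀ t, ‖u t‖ = 1) (e : E D) (m : D.tor.Mon) :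
    xi (gau η u e) m = xi e m := by
  obtain ⟨n, hn⟩ := Nat.exists_eq_add_of_le (D.tor.two m)
  have c : (η : ℂ) * η = 1 := by exact_mod_cast h.sq
  have a : ∀ t, u t ^ D.tor.ex m (.inl (t, 0)) * conj (u t) ^ D.tor.ex m (.inl (t, 1)) *
      (conj (u t) ^ D.p t) ^ D.tor.ex m (.inl (t, 2)) * (u t ^ D.p t) ^ D.tor.ex m (.inl (t, 3)) *
      (u t ^ D.k t) ^ D.tor.ex m (.inr true) * (conj (u t) ^ D.k t) ^ D.tor.ex m (.inr false) = 1 :=
    fun t => by
    have g := D.tor.gau m t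
    have : D.tor.ex m (.inl (t, 0)) + D.p t * D.tor.ex m (.inl (t, 3)) +
        D.k t * D.tor.ex m (.inr true) = D.tor.ex m (.inl (t, 1)) +
        D.p t * D.tor.ex m (.inl (t, 2)) + D.k t * D.tor.ex m (.inr false) := by
      unfold we at g
      zify
      linear_combination g
    have k : u t ^ (D.tor.ex m (.inl (t, 0)) + D.p t * D.tor.ex m (.inl (t, 3)) +
        D.k t * D.tor.ex m (.inr true)) * conj (u t) ^ (D.tor.ex m (.inl (t, 1)) +
        D.p t * D.tor.ex m (.inl (t, 2)) + D.k t * D.tor.ex m (.inr false)) = 1 := by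
      rw [this, ← mul_pow, mul_conj', hu]; simp
    linear_combination k
  have b := Finset.prod_eq_one (s := Finset.univ) fun t _ => a t
  have d : (η : ℂ) ^ n * (η ^ D.tor.ex m (.inr true) * η ^ D.tor.ex m (.inr false)) = 1 := by
    rw [← pow_add, hn, pow_add, mul_left_comm, ← mul_pow, c, pow_two, c]
    simp
  simp only [Finset.prod_mul_distrib, Finset.prod_pow _ (D.tor.ex m (.inr _))] at b
  simp only [xi, cox, gau, E.y, E.z, E.g, E.a, hn, Nat.add_sub_cancel_left, Fintype.prod_sum_type,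
    Fintype.prod_prod_type, Fin.prod_univ_four, Fintype.prod_bool, cv, Sum.elim_inl, Sum.elim_inr,
    Matrix.cons_val, map_mul, map_pow, map_prod, conj_conj, conj_ofReal, mul_pow, ofReal_mul,
    Finset.prod_mul_distrib, if_true, Bool.false_eq_true, if_false]
  grind

theorem gau_sym (h : Sg η) (hu : ∀ t, ‖u t‖ = 1) : Sym i0 (gau η u) := by
  refine ⟨⟨fun a b => ?_, fun a b => ?_⟩, fun e => ?_, fun d e => ?_, fun _ => rfl,
    fun e => ?_, fun _ _ => by simp [gau, hu], fun e C => ⟨fun q => ?_, gau_eqs h hu⟩⟩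
  · ext <;> simp [gau, mul_add]
  · ext <;> simp [gau, mul_left_comm]
  · obtain ⟨a, b, c, d⟩ := gau_norm h hu e
    simp only [Nn, b, c, d]
    simp only [gau, a]
  · unfold RJ.Θ LR
    simp only [xi_gau h hu]
    rfl
  · rcases h with rfl | rfl <;> simp [gau]
  · have c : (η : ℂ) * η = 1 := by exact_mod_cast h.sq
    have b : ∀ t, conj (u t) * u t = 1 := fun t => by simp [conj_mul', hu]
    have d : (∏ t, conj (u t) ^ D.k t) * ∏ t, u t ^ D.k t = 1 := by
      simp [← Finset.prod_mul_distrib, ← mul_pow, b]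
    have : gau η (fun t => conj (u t)) (gau η u e) = e := by
      ext <;> simp only [gau, E.x, E.y, E.z, E.g, E.a, ← mul_assoc, h.sq, one_mul, b, conj_conj,
        ← mul_pow, mul_conj', hu, ofReal_one, one_pow]
      linear_combination (η * η * e.2.2.2.2.2) * d + e.2.2.2.2.2 * c
    exact this ▸ gau_eqs h (by simpa using hu) q

end Pool.Agent.Lib.MP_78bd4b_ag.RJ
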