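import Pool.Agent.Lib.MP_78bd4b_ag.Real2
import Pool.Agent.Lib.MP_78bd4b_ag.ModD

/-! Reading off the coordinates, and solutions of the complex system. -/

noncomputable section

namespace Pool.Agent.Lib.MP_78bd4b_ag.RJ

open Complex Filter Function Set Pm DJ
open scoped ContDiff Topology Real ComplexConjugate Matrix

variable {D : Pm} {i0 : D.Ix} {e : E D} {C : D.Slot → ℝ}

theorem exists_mon (n : D.T → Fin 4 → ℕ) (a b : ℕ)
    (h1 : ∀ t, n t 0 + D.p t * n t 3 + D.k t * a = n t 1 + D.p t * n t 2 + D.k t * b)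
    (h2 : 2 ≤ a + b) (h3 : ∀ t i, n t i ≤ D.b0) (h4 : a ≤ D.b0) (h5 : b ≤ D.b0) :
    ∃ m, ∀ e : E D, xi e m = e.y ^ (a + b - 2) * ((∏ t, e.z t ^ n t 0 * conj (e.z t) ^ n t 1 *
      e.g t ^ n t 2 * conj (e.g t) ^ n t 3) * (e.a ^ a * conj e.a ^ b)) := by
  obtain ⟨m, h⟩ := D.tor.mg (Sum.elim (fun x => n x.1 x.2) fun c => if c then a else b)
    (fun t => by
      have := h1 t
      zify at this
      simp only [we, Sum.elim_inl, Sum.elim_inr, if_true, Bool.false_eq_true, if_false]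
      linear_combination this) (by simpa using h2) (by
    rintro (⟨t, i⟩ | _ | _)
    exacts [h3 t i, h5, h4])
  exact ⟨m, fun e => by simp [xi, cox, h, Fintype.prod_prod_type, Fin.prod_univ_four, cv]⟩

theorem exists_m0 (D : Pm) : ∃ m, ∀ e : E D, xi e m = normSq e.a := by
  obtain ⟨m, h⟩ := exists_mon (D := D) 0 1 1 (by simp) le_rfl (by simp) (by linarith [D.b2])
    (by linarith [D.b2])
  exact ⟨m, fun e => by simp [h, mul_conj]⟩

def m0 (D : Pm) : D.tor.Mon := (exists_m0 D).choose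

theorem xi_m0 (e : E D) : xi e (m0 D) = normSq e.a := (exists_m0 D).choose_spec e

def nn (D : Pm) : D.Φ → Option D.L := fun _ => none

def jj (f : D.Φ) (j : D.L) : D.Φ → Option D.L := update (nn D) f (some j)

theorem Qr_nn (o : D.Φ → D.L → ℝ) : Qr o (nn D) = 1 := by simp [Qr, nn]

theorem Qr_jj (o : D.Φ → D.L → ℝ) (f : D.Φ) (j : D.L) : Qr o (jj f j) = o f j := by
  rw [Qr, Finset.prod_eq_single f (fun b _ h => by simp [jj, h, nn]) (by simp)]
  simp [jj]

theorem sr_nn : sr (nn D) = 1 := Qr_nn _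

theorem sr_jj (f : D.Φ) (j : D.L) : sr (jj f j) = -1 := Qr_jj _ f j

theorem Qm_nn (c : ℂ) (o : D.Φ → D.L → ℝ) : Qm (tw c (qc o)) (nn D) = 1 := by
  simp [Qm, nn, tw, qc]

theorem Qm_jj (c : ℂ) (o : D.Φ → D.L → ℝ) (f : D.Φ) (j : D.L) :
    Qm (tw c (qc o)) (jj f j) = c * o f j := by
  rw [Qm, Finset.prod_eq_single f (fun b _ h => by simp [jj, h, nn, tw, qc]) (by simp)]
  simp [jj, tw, qc]

/-- linear forms on the invariant coordinates -/
def fn (i0 : D.Ix) (m : D.tor.Mon) (i : D.Ix) (j : D.Φ → Option D.L) : V D →L[ℝ] ℝ :=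
  (8⁻¹ : ℝ) • ∑ a, ContinuousLinearMap.proj
    (Sum.inl ((m0 D, (i0, i0), a, nn D, nn D), (m, (i0, i), a, nn D, j)))

/-- normalised points -/
structure Nrm (i0 : D.Ix) (e : E D) : Prop where
  x : e.x i0 = 1
  a : normSq e.a = 1
  r : ∀ a b, e.r a ⬝ᵥ e.r b = if a = b then 1 else 0

theorem Eqs.nrm (h : Eqs i0 e C) : Nrm i0 e := ⟨h.x, h.a, h.r⟩

theorem Nrm.pl (h : Nrm i0 e) : ∑ a, pl e.r a * pl e.r a = 2 := by
  have : ∑ a, Pm.pl e.r a * Pm.pl e.r a = (e.r 0 ⬝ᵥ e.r 0) * (e.r 1 ⬝ᵥ e.r 1) +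
      (e.r 1 ⬝ᵥ e.r 1) * (e.r 0 ⬝ᵥ e.r 0) - 2 * ((e.r 0 ⬝ᵥ e.r 1) * (e.r 0 ⬝ᵥ e.r 1)) := by
    simp only [dotProduct, Finset.sum_mul_sum, Fintype.sum_prod_type, Pm.pl]
    simp only [Finset.mul_sum, ← Finset.sum_add_distrib, ← Finset.sum_sub_distrib]
    exact Finset.sum_congr rfl fun _ _ => Finset.sum_congr rfl fun _ _ => by ring
  rw [this]
  simp only [h.r]
  norm_num

theorem fn_Θ (h : Nrm i0 e) (d : ℕ) (m : D.tor.Mon) (i : D.Ix) (j : D.Φ → Option D.L) :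
    fn i0 m i j (Θ d e) = e.x i * Qr e.o j * pt (sr j) (xi e m) := by
  simp only [fn, smul_apply, sum_apply, ContinuousLinearMap.proj_apply, Θ, sq2, LR, Sum.elim_inl,
    Wr, sg, sr_nn, Qr_nn, h.x, xi_m0, h.a, one_pow, one_mul, mul_one, smul_eq_mul]
  rw [Finset.sum_congr rfl fun a _ => show _ = (4 * (e.x i * Qr e.o j * pt (sr j) (xi e m))) *
    (pl e.r a * pl e.r a) by simp only [pt, if_true, ofReal_one, one_re]; ring,
    ← Finset.mul_sum, h.pl]
  ring

theorem fn_x (h : Nrm i0 e) (d : ℕ) (i : D.Ix) : fn i0 (m0 D) i (nn D) (Θ d e) = e.x i := by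
  simp [fn_Θ h, Qr_nn, sr_nn, xi_m0, h.a, pt]

theorem fn_re (h : Nrm i0 e) (d : ℕ) (m : D.tor.Mon) :
    fn i0 m i0 (nn D) (Θ d e) = (xi e m).re := by
  simp [fn_Θ h, Qr_nn, sr_nn, h.x, pt]

theorem fn_im (h : Nrm i0 e) (d : ℕ) (m : D.tor.Mon) (f : D.Φ) (j : D.L) :
    fn i0 m i0 (jj f j) (Θ d e) = e.o f j * (xi e m).im := by
  rw [fn_Θ h, Qr_jj, sr_jj, h.x, pt, if_neg (by norm_num), one_mul]

/-- from degree zero to degree `d` -/
def up (i0 : D.Ix) (d : ℕ) (w : V D) : V D := fun i =>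
  (fn i0 (m0 D) (i.elim id id).1.2.1.1 (nn D) w ^ (d * (D.Kt - ∑ v, D.tor.ex (i.elim id id).1.1 v)) *
    fn i0 (m0 D) (i.elim id id).2.2.1.1 (nn D) w ^
      (d * (D.Kt - ∑ v, D.tor.ex (i.elim id id).2.1 v))) * w i

theorem up_cd (i0 : D.Ix) (d : ℕ) : ContDiff ℝ ∞ (up i0 d) := by
  unfold up
  fun_prop

theorem up_Θ (h : Nrm i0 e) (d : ℕ) : up i0 d (Θ 0 e) = Θ d e := by
  funext i
  rcases i with i | i <;> simp only [up, fn_x h] <;>
    simp only [Θ, sq2, LR, Wr, Sum.elim_inl, Sum.elim_inr, id] <;> ring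

/-- from degree `d` to degree zero -/
def dn (i0 : D.Ix) : V D →L[ℝ] V D := ContinuousLinearMap.pi fun i => ContinuousLinearMap.proj
  (i.map (fun p => ((p.1.1, (i0, p.1.2.1.2), p.1.2.2), (p.2.1, (i0, p.2.2.1.2), p.2.2.2)))
    fun p => ((p.1.1, (i0, p.1.2.1.2), p.1.2.2), (p.2.1, (i0, p.2.2.1.2), p.2.2.2)))

theorem dn_Θ (h : Nrm i0 e) (d : ℕ) : dn i0 (Θ d e) = Θ 0 e := by
  funext i
  rcases i with i | i <;> simp [dn, Θ, sq2, LR, Wr, sg, h.x]

/-- the model of degree `d` -/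
@[reducible] def wd (D : Pm) (d : ℕ) (h : 0 < d) : Pm :=
  { D with
    d := d, Dm := 2 * d + ∑ t, (D.p t + 1) * d, d0 := h,
    hD := fun t => (Finset.single_le_sum (f := fun t => (D.p t + 1) * d) (fun _ _ => Nat.zero_le _)
      (Finset.mem_univ t)).trans (Nat.le_add_left ..), hD2 := Nat.le_add_right .. }

variable {d : ℕ} {hd : 0 < d}

def ls (d : ℕ) (hd : 0 < d) : D.Slot → (wd D d hd).Slot
  | .v i => .v i
  | .A i j => .A i j
  | .B f j j' => .B f j j'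
  | .qd f j => .qd f j
  | .a t j => .a t j
  | .c t => .c t
  | .g t j => .g t j
  | .h => .h

def sl : (wd D d hd).Slot → D.Slot
  | .v i => .v i
  | .A i j => .A i j
  | .B f j j' => .B f j j'
  | .qd f j => .qd f j
  | .a t j => .a t j
  | .c t => .c t
  | .g t j => .g t j
  | .h => .h

theorem sl_ls (s : D.Slot) : sl (ls d hd s) = s := by cases s <;> rfl

/-- the complex point -/
def cp (d : ℕ) (hd : 0 < d) (e : E D) : (wd D d hd).Pt :=
  ⟨fun i => e.x i, fun a i => e.r a i, qc (D := D) e.o, xi (D := D) e⟩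

theorem Lr_cp (e : E D) (i : D.Iy ⊕ D.Iy) : Lr (Pj (cp d hd e)) i = LR d e i :=
  Lr_eq (y := Pj (cp d hd e)) (fun ι => by
    simp only [Pj, cp, Wr, Qm_qc, pl, Dx]
    push_cast
    simp only [mul_assoc]
    rfl) i

theorem cf_cast {D : Pm} (σ : D.Par → ℝ) (x : D.Ix → ℝ) (s : D.Slot) :
    cf (fun s => (σ s : ℂ)) (fun i => (x i : ℂ)) s = (cf σ x s : ℝ) := by
  simp [cf, xm, apply_ite ofReal]

theorem coxb_inl {D : Pm} (c : Cv D.T → ℂ) (y : ℂ) (t : D.T) (i : Fin 4) :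
    coxb c y (.inl (t, i)) = ![c (.inl (t, 0)) ^ D.p t * c (.inl (t, 2)),
      c (.inl (t, 1)) ^ D.p t * c (.inl (t, 3)), c (.inl (t, 0)) * c (.inl (t, 1)),
      c (.inl (t, 2)) * c (.inl (t, 3))] i := by
  simp only [coxb, wb, Fintype.prod_sum_type, Fintype.prod_prod_type, add_zero, pow_zero, one_mul,
    Finset.prod_const_one, mul_one]
  rw [Finset.prod_eq_single t (fun b _ h => by simp [h.symm]) (by simp)]
  fin_cases i <;> simp [Fin.prod_univ_four]

theorem sol {σ : (wd D d hd).Par → ℝ} (h : Eqs i0 e fun s => cf σ e.x (ls d hd s)) :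
    Xf (cf (fun s => (σ s : ℂ)) (cp d hd e).x) (cp d hd e).q = coxb (cv e.z e.g e.a) e.y ∧
      Sol (fun s => (σ s : ℂ)) (cp d hd e) := by
  have X : Xf (cf (fun s => (σ s : ℂ)) (cp d hd e).x) (cp d hd e).q =
      coxb (cv e.z e.g e.a) e.y := by
    funext b
    rcases b with ⟨t, i⟩ | _
    · rw [coxb_inl]
      fin_cases i
      · simpa [Xf, cp, cf_cast, cv, ls] using (h.zg t).symm
      · simpa [Xf, cp, cf_cast, cv, ls, Qm_conj] using congrArg conj (h.zg t).symm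
      · simpa [Xf, cp, cf_cast, cv, ls, mul_conj] using (h.z t).symm
      · simpa [Xf, cp, cf_cast, cv, ls, mul_conj, Qm_qc] using congrArg ofReal (h.g t).symm
    · have := congrArg ofReal h.y.symm
      simpa [Xf, cp, cf_cast, cv, ls, coxb, wb, mul_conj, h.a, pow_two] using this
  refine ⟨X, ⟨⟨fun b => e.mu b, fun i => ?_⟩, fun a => ⟨fun b => e.lam a b, fun i => ?_⟩,
    fun f j j' => ?_, fun f => ?_⟩, X ▸ (wd D d hd).cox_bin _ _, fun a => ?_, fun a => ?_,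
    fun f a => ?_, fun a => ?_⟩
  · simpa [cp, cf_cast, ls] using congrArg ofReal (h.v i)
  · simpa [cp, cf_cast, ls] using congrArg ofReal (h.A a i)
  · have a := congrArg ofReal (h.B f j)
    have b := congrArg ofReal (h.B f j')
    simp only [cp, cf_cast, ls, qc, Option.elim] at a b ⊢
    push_cast at a b
    rw [a, b]
    ring
  · simpa [cp, cf_cast, ls, qc] using congrArg ofReal (h.q f)
  · simpa [cp, h.x] using congrFun a i0
  · have := h.nrm.pl
    rw [Finset.sum_eq_zero fun i _ => by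
      have := congrFun a i
      simp only [cp, pl, Pi.zero_apply] at this
      norm_cast at this
      rw [pl, this, zero_mul]] at this
    norm_num at this
  · simpa [cp, qc] using congrFun a none
  · simpa [cp, xi_m0, h.a] using congrFun a (m0 D)

end Pool.Agent.Lib.MP_78bd4b_ag.RJ
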