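import Pool.Agent.Lib.MP_78bd4b_ag.Real3
import Pool.Agent.Lib.MP_78bd4b_ag.Appr

/-! The smooth model system and its regularity. -/

noncomputable section

namespace Pool.Agent.Lib.MP_78bd4b_ag.RJ

open Complex Filter Function Set Pm DJ
open scoped Manifold ContDiff Topology Real ComplexConjugate Matrix

theorem solve3 {z g : ℂ} {p : ℕ} (hp : 0 < p) {k : ℝ} {α : ℂ} (β γ : ℝ)
    (h : (z ≠ 0 ∧ 0 ≤ k ∧ (g ≠ 0 ∨ 0 < k)) ∨ (z = 0 ∧ g ≠ 0 ∧ p = 1) ∨ (z = 0 ∧ g ≠ 0 ∧ α = 0)) :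
    ∃ (dz dg : ℂ) (dx : ℝ), p * z ^ (p - 1) * dz * g + z ^ p * dg = α ∧
      2 * (conj z * dz).re - dx = β ∧ 2 * (conj g * dg).re - k * dx = γ := by
  have q : g ≠ 0 → 2 * (conj g * ((γ - k * β) / 2 / conj g : ℂ)).re - k * -β = γ := fun h => by
    rw [mul_div_cancel₀ _ (by simpa using h)]
    simp
    ring
  rcases h with ⟨a, b, c⟩ | ⟨rfl, b, rfl⟩ | ⟨rfl, b, rfl⟩
  · have n : 0 < p * normSq g + k * normSq z := by
      have := normSq_pos.2 a
      have := normSq_nonneg g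
      rcases c with c | c
      · have := normSq_pos.2 c
        positivity
      · positivity
    obtain ⟨s, hs⟩ : ∃ s : ℝ, s * (p * normSq g + k * normSq z) =
        (conj g * (α / z ^ p)).re + (k * β - γ) / 2 := ⟨_, div_mul_cancel₀ _ n.ne'⟩
    refine ⟨s * z, α / z ^ p - p * s * g, 2 * (s * normSq z) - β, ?_, ?_, ?_⟩
    · obtain ⟨p, rfl⟩ := Nat.exists_eq_add_of_lt hp
      simp only [zero_add, Nat.add_sub_cancel]
      field_simp
      ring
    · rw [mul_left_comm, ← normSq_eq_conj_mul_self, ← ofReal_mul, ofReal_re]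
      ring
    · rw [mul_sub, mul_left_comm (conj g), ← normSq_eq_conj_mul_self, sub_re, ← ofReal_natCast,
        ← ofReal_mul, ← ofReal_mul, ofReal_re]
      linear_combination -2 * hs
  · exact ⟨α / g, _, -β, by simp [b], by simp, q b⟩
  · exact ⟨0, _, -β, by simp [hp.ne'], by simp, q b⟩

theorem hd_line {V : Type*} [NormedAddCommGroup V] [NormedSpace ℝ V] (a b : V) :
    HasDerivAt (fun s : ℝ => a + s • b) b 0 := by
  simpa using ((hasDerivAt_id (0 : ℝ)).smul_const b).const_add a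

theorem hd_normSq {f : ℝ → ℂ} {f' : ℂ} (h : HasDerivAt f f' 0) :
    HasDerivAt (fun s => normSq (f s)) (2 * (conj (f 0) * f').re) 0 := by
  simpa only [normSq_eq_norm_sq, Complex.inner, mul_comm f'] using h.norm_sq

variable {M : Type*} [TopologicalSpace M] [ChartedSpace (EuclideanSpace ℝ (Fin 3)) M] (A : Dat M)

/-- a bound for the exponents -/
def bd : ℕ := 2 + ∑ t, ∑ t', (A.k t + 1) * (A.p t' + 2)

theorem bd_le (t t' : A.T) : (A.k t + 1) * (A.p t' + 2) ≤ bd A :=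
  ((Finset.single_le_sum (f := fun t' => (A.k t + 1) * (A.p t' + 2)) (fun _ _ => Nat.zero_le _)
    (Finset.mem_univ t')).trans (Finset.single_le_sum
      (f := fun t => ∑ t', (A.k t + 1) * (A.p t' + 2)) (fun _ _ => Nat.zero_le _)
      (Finset.mem_univ t))).trans (Nat.le_add_left ..)

/-- the discrete data -/
@[reducible] def mk (τ : Tor A.T A.p A.k (bd A)) : Pm where
  Ix := A.I' ⊕ A.T ⊕ Bool
  In := Option A.I'
  L := A.L
  T := A.T
  Φ := A.T ⊕ Fin 3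
  p := A.p
  k := A.k
  d := 1
  Dm := 2 * 1 + ∑ t, (A.p t + 1) * 1
  b0 := bd A
  tor := τ
  p0 := A.p0
  kb t := ⟨by nlinarith [bd_le A t t], by nlinarith [bd_le A t t]⟩
  b2 := Nat.le_add_right ..
  d0 := one_pos
  cx := by simp; omega
  cΦ := by simp
  hD t := (Finset.single_le_sum (f := fun t => (A.p t + 1) * 1) (fun _ _ => Nat.zero_le _)
    (Finset.mem_univ t)).trans (Nat.le_add_left ..)
  hD2 := Nat.le_add_right ..

/-- vectors in the standard basis -/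
def lin {I : Type} (u : Option I → ℝ) : (I → ℝ) × ℝ := (fun i => u (some i), u none)

/-- the Jacobian matrix -/
def BB (p : (A.I' → ℝ) × ℝ) : Matrix (Option A.I') (Option A.I') ℝ :=
  fun i k => fderiv ℝ A.v p (lin (Pi.single k 1)) i

def SS (p : (A.I' → ℝ) × ℝ) : Matrix (Option A.I') (Option A.I') ℝ := BB A p * (BB A p)ᵀ

/-- forgetting the auxiliary coordinates -/
def pr {I J : Type} (p : (I ⊕ J → ℝ) × ℝ) : (I → ℝ) × ℝ := (fun i => p.1 (.inl i), p.2)

variable {A} (τ : Tor A.T A.p A.k (bd A))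

/-- the coefficients of the smooth model -/
def c0 (p : ((mk A τ).Ix → ℝ) × ℝ) : (mk A τ).Slot → ℝ
  | .v i => A.v (pr p) i
  | .A i j => SS A (pr p) i j
  | .B _ j i => (if j = i then 1 else 0) - p.1 (.inl (A.iw j i))
  | .qd _ _ => 1
  | .a t j => (if j = nn (mk A τ) then p.1 (.inl (A.iR t)) else 0) +
      ∑ i, if j = jj (D := mk A τ) (.inr 0) i then p.1 (.inl (A.iI t i)) else 0
  | .c t => p.1 (.inr (.inl t))
  | .g t j => if j = nn (mk A τ) then
      p.1 (.inl (A.iG t)) + p.1 (.inl (A.ik t)) * p.1 (.inr (.inl t)) else 0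
  | .h => p.1 (.inr (.inr true))

/-- the homogenising coordinate -/
abbrev j0 : (mk A τ).Ix := .inr (.inr false)

def F0 (e : E (mk A τ)) : H (mk A τ) := Sys (j0 τ) (e, c0 τ e.1)

/-- the point of the Cox space over a point of a chart -/
def lift (l : A.L) (θ : ℝ) (w : ℂ) (r : Fin 2 → Option A.I' → ℝ) : E (mk A τ) :=
  ((Sum.elim (A.X l w) (Sum.elim (fun t => normSq (A.z l w t)) fun b =>
    if b then A.y l w ^ 2 else 1), A.y l w), (r, 0, 0), (fun _ => A.o l w, 0), A.z l w, A.g l w,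
    exp (θ * I))

variable {τ} {l : A.L} {θ : ℝ} {w : ℂ} {r : Fin 2 → Option A.I' → ℝ}

theorem BB_mul (p : (A.I' → ℝ) × ℝ) (u : Option A.I' → ℝ) :
    BB A p *ᵥ u = fderiv ℝ A.v p (lin u) := by
  have : lin u = ∑ k, u k • lin (Pi.single k 1) := by
    refine Prod.ext (funext fun i => ?_) ?_ <;>
      simp [lin, Prod.fst_sum, Prod.snd_sum, Pi.single_apply]
  funext i
  simp [this, BB, Matrix.mulVec, dotProduct, mul_comm]

theorem SS_rk (h : w ∈ A.act l) :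
    Module.finrank ℝ (LinearMap.ker (SS A (A.X l w, A.y l w)).mulVecLin) = 2 := by
  let φ : (Option A.I' → ℝ) ≃ₗ[ℝ] (A.I' → ℝ) × ℝ :=
    { toFun := lin, invFun := fun p o => o.elim p.2 p.1, map_add' := fun _ _ => rfl,
      map_smul' := fun _ _ => rfl, left_inv := fun u => funext fun o => by cases o <;> rfl,
      right_inv := fun _ => rfl }
  have : LinearMap.ker (BB A (A.X l w, A.y l w)).mulVecLin =
      (fderiv ℝ A.v (A.X l w, A.y l w)).ker.map φ.symm.toLinearMap := by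
    ext u
    rw [Submodule.mem_map_equiv]
    simp only [LinearMap.mem_ker, Matrix.mulVecLin_apply, BB_mul]
    rfl
  rw [SS, ker_gram _ rfl, this, φ.symm.finrank_map_eq, A.rk l w h]

theorem SS_psd (p : (A.I' → ℝ) × ℝ) : (SS A p).PosSemidef :=
  Matrix.posSemidef_self_mul_conjTranspose _

theorem SS_symm (p : (A.I' → ℝ) × ℝ) : (SS A p).IsSymm := Matrix.isSymm_mul_transpose_self _

theorem SS_cd (i j : Option A.I') : ContDiff ℝ ∞ (SS A · i j) := by
  have : ∀ i k, ContDiff ℝ ∞ (BB A · i k) := fun i k =>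
    contDiff_pi.1 ((A.sv.fderiv_right (by simp)).clm_apply contDiff_const) i
  exact ContDiff.sum fun k _ => (this i k).mul (this j k)

theorem SS_ev (x : A.I' → ℝ) (y : ℝ) : SS A (x, -y) = SS A (x, y) := by
  let R : ((A.I' → ℝ) × ℝ) →L[ℝ] (A.I' → ℝ) × ℝ := (ContinuousLinearMap.id ℝ _).prodMap (-.id ℝ ℝ)
  have a : A.v ∘ R = A.v := funext fun p => A.ev p.1 p.2
  have b : fderiv ℝ A.v (x, y) = (fderiv ℝ A.v (x, -y)).comp R := by
    rw [← a, fderiv_comp _ (A.sv.differentiable (by simp) _) R.differentiableAt, a, R.fderiv]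
    rfl
  ext i j
  refine Finset.sum_congr rfl fun k _ => ?_
  simp only [BB, b, ContinuousLinearMap.comp_apply, Matrix.transpose_apply]
  cases k with
  | none =>
    rw [show R (lin (Pi.single none 1)) = -lin (Pi.single none 1) by ext <;> simp [R, lin]]
    simp
  | some k => rw [show R (lin (Pi.single (some k) 1)) = lin (Pi.single (some k) 1) by
      ext <;> simp [R, lin]]

theorem pr_cd {I J : Type} [Fintype I] [Fintype J] : ContDiff ℝ ∞ (pr (I := I) (J := J)) := by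
  unfold pr
  fun_prop

theorem c0_cd (s : (mk A τ).Slot) : ContDiff ℝ ∞ (c0 τ · s) := by
  cases s <;> simp only [c0]
  · exact (contDiff_pi.1 A.sv _).comp pr_cd
  · exact (SS_cd _ _).comp pr_cd
  · fun_prop
  · fun_prop
  · refine ContDiff.add ?_ (ContDiff.sum fun i _ => ?_) <;> split_ifs <;> fun_prop
  · fun_prop
  · split_ifs <;> fun_prop
  · fun_prop

theorem c0_ev (x : (mk A τ).Ix → ℝ) (y : ℝ) : c0 τ (x, -y) = c0 τ (x, y) := by
  funext s
  cases s <;> simp only [c0, pr, A.ev, SS_ev]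

theorem F0_cd : ContDiff ℝ ∞ (F0 τ) :=
  (sys_cd _).comp (contDiff_id.prodMk ((contDiff_pi.2 c0_cd).comp contDiff_fst))

theorem c0_a (p : ((mk A τ).Ix → ℝ) × ℝ) (o : (mk A τ).Φ → A.L → ℝ) (t : A.T) :
    ∑ j, c0 τ p (.a t j) * Qm (tw I (qc (D := mk A τ) o)) j =
      p.1 (.inl (A.iR t)) + I * (∑ j, o (.inr 0) j * p.1 (.inl (A.iI t j)) : ℝ) := by
  simp only [c0, ofReal_add, ofReal_sum, add_mul, Finset.sum_add_distrib, Finset.sum_mul,
    apply_ite ofReal, ofReal_zero, ite_mul, zero_mul, Finset.sum_ite_eq', Finset.mem_univ, if_true,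
    Qm_nn (D := mk A τ), mul_one]
  rw [Finset.sum_comm]
  simp [Qm_jj (D := mk A τ), Finset.mul_sum, mul_comm, mul_left_comm, mul_assoc]

theorem c0_g (p : ((mk A τ).Ix → ℝ) × ℝ) (o : (mk A τ).Φ → A.L → ℝ) (t : A.T) :
    ∑ j, c0 τ p (.g t j) * Qr (D := mk A τ) o j ^ 2 =
      p.1 (.inl (A.iG t)) + p.1 (.inl (A.ik t)) * p.1 (.inr (.inl t)) := by
  simp [c0, Qr_nn]

theorem c0_B (p : ((mk A τ).Ix → ℝ) × ℝ) (o : A.L → ℝ) (f : (mk A τ).Φ) (j : A.L) :
    ∑ i, c0 τ p (.B f j i) * o i = o j - ∑ i, p.1 (.inl (A.iw j i)) * o i := by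
  simp [c0, sub_mul]

theorem oo_one (h : w ∈ A.act l) : ∑ j, A.o l w j * A.o l w j = 1 := by
  simpa only [pow_two] using A.eo l w h

theorem lift_eqs (h : w ∈ A.act l) (hr : Fr (SS A (A.X l w, A.y l w)) r) :
    Eqs (j0 τ) (lift τ l θ w r) (c0 τ (lift τ l θ w r).1) where
  x := rfl
  y := rfl
  a := by simp [lift, normSq_eq_norm_sq]
  v i := by simpa [lift, c0, pr] using congrFun (A.v0 l w h) i
  A a i := by simpa [lift, c0, pr, Matrix.mulVec, dotProduct] using congrFun (hr.2 a) i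
  r := hr.1
  B f j := by
    rw [c0_B]
    simp [lift, A.ew l w h, mul_assoc, ← Finset.mul_sum, oo_one h]
  q f := by simp [lift, c0, A.eo l w h]
  zg t := by rw [c0_a]; exact A.ea l w h t
  z t := rfl
  g t := by rw [c0_g]; exact A.eg l w h t

/-- the linearised system -/
def dF (e δ : E (mk A τ)) : H (mk A τ) :=
  ((δ.x (j0 τ), 2 * e.y * δ.y - δ.x (.inr (.inr true)), 2 * (conj e.a * δ.a).re),
   (fun i => fderiv ℝ A.v (pr e.1) (pr δ.1) i - ∑ b, (δ.mu b * e.r b i + e.mu b * δ.r b i),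
    fun a i => ∑ j, (fderiv ℝ (SS A · i j) (pr e.1) (pr δ.1) * e.r a j +
      SS A (pr e.1) i j * δ.r a j) - ∑ b, (δ.lam a b * e.r b i + e.lam a b * δ.r b i),
    δ.r 0 ⬝ᵥ e.r 0 + e.r 0 ⬝ᵥ δ.r 0, δ.r 0 ⬝ᵥ e.r 1 + e.r 0 ⬝ᵥ δ.r 1,
    δ.r 1 ⬝ᵥ e.r 1 + e.r 1 ⬝ᵥ δ.r 1),
   (fun f j => δ.o f j - ∑ i, (δ.x (.inl (A.iw j i)) * e.o f i + e.x (.inl (A.iw j i)) * δ.o f i) -
      (δ.nu f * e.o f j + e.nu f * δ.o f j),
    fun f => -∑ j, 2 * e.o f j * δ.o f j),
   fun t => A.p t * e.z t ^ (A.p t - 1) * δ.z t * e.g t + e.z t ^ A.p t * δ.g t -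
      (δ.x (.inl (A.iR t)) + I * (∑ j, (δ.o (.inr 0) j * e.x (.inl (A.iI t j)) +
        e.o (.inr 0) j * δ.x (.inl (A.iI t j))) : ℝ)),
   fun t => 2 * (conj (e.z t) * δ.z t).re - δ.x (.inr (.inl t)),
   fun t => 2 * (conj (e.g t) * δ.g t).re - (δ.x (.inl (A.iG t)) +
      (δ.x (.inl (A.ik t)) * e.x (.inr (.inl t)) + e.x (.inl (A.ik t)) * δ.x (.inr (.inl t)))))

theorem F0_deriv (e δ : E (mk A τ)) : fderiv ℝ (F0 τ) e δ = dF e δ := by
  refine (F0_cd.differentiable (by simp) e).hasFDerivAt.hasLineDerivAt δ |>.unique ?_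
  have x := fun i => hd_line (e.x i) (δ.x i)
  have r := fun a i => hd_line (e.r a i) (δ.r a i)
  have o := fun a i => hd_line (e.o a i) (δ.o a i)
  have p : ∀ {f : (A.I' → ℝ) × ℝ → ℝ}, ContDiff ℝ ∞ f → HasDerivAt (fun s : ℝ => f (pr (e + s • δ).1))
      (fderiv ℝ f (pr e.1) (pr δ.1)) 0 := fun h =>
    (h.differentiable (by simp) (pr e.1)).hasFDerivAt.hasLineDerivAt (pr δ.1)
  have d : ∀ a b, HasDerivAt (fun s : ℝ => (e + s • δ).r a ⬝ᵥ (e + s • δ).r b)
      (δ.r a ⬝ᵥ e.r b + e.r a ⬝ᵥ δ.r b) 0 := fun a b =>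
    (HasDerivAt.fun_sum fun i _ => (r a i).mul (r b i)).congr_deriv (by
      simp [dotProduct, Finset.sum_add_distrib])
  unfold HasLineDerivAt F0 Sys dF
  refine .prodMk (.prodMk ((x _).sub_const 1) (.prodMk ?_ ?_)) (.prodMk (.prodMk
    (hasDerivAt_pi.2 fun i => ?_) (.prodMk (hasDerivAt_pi.2 fun a => hasDerivAt_pi.2 fun i => ?_)
    (.prodMk ((d 0 0).sub_const 1) (.prodMk (d 0 1) ((d 1 1).sub_const 1))))) (.prodMk (.prodMk
    (hasDerivAt_pi.2 fun f => hasDerivAt_pi.2 fun j => ?_) (hasDerivAt_pi.2 fun f => ?_))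
    (.prodMk (hasDerivAt_pi.2 fun t => ?_) (.prodMk (hasDerivAt_pi.2 fun t => ?_)
    (hasDerivAt_pi.2 fun t => ?_)))))
  · exact (((hd_line e.y δ.y).fun_pow 2).sub (x _)).congr_deriv (by simp)
  · exact ((hd_normSq (hd_line e.a δ.a)).sub_const 1).congr_deriv (by simp)
  · exact ((p (contDiff_pi.1 A.sv i)).sub (HasDerivAt.fun_sum fun b _ =>
      (hd_line (e.mu b) (δ.mu b)).mul (r b i))).congr_deriv (by
        simp [fderiv_apply (A.sv.differentiable (by simp) _)])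
  · exact ((HasDerivAt.fun_sum fun j _ => (p (SS_cd i j)).mul (r a j)).sub
      (HasDerivAt.fun_sum fun b _ => (hd_line (e.lam a b) (δ.lam a b)).mul (r b i))).congr_deriv
        (by simp)
  · conv => enter [1, s]; rw [c0_B]
    exact (((o f j).sub (HasDerivAt.fun_sum (u := .univ) fun i _ =>
      (x (.inl (A.iw j i))).mul (o f i))).sub
      ((hd_line (e.nu f) (δ.nu f)).mul (o f j))).congr_deriv (by simp)
  · exact ((HasDerivAt.fun_sum fun j _ => ((o f j).fun_pow 2).const_mul 1).const_sub 1).congr_deriv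
      (by simp)
  · conv => enter [1, s]; rw [c0_a]
    exact ((((hd_line (e.z t) (δ.z t)).fun_pow (A.p t)).mul (hd_line (e.g t) (δ.g t))).sub
      ((x (.inl (A.iR t))).ofReal_comp.add ((HasDerivAt.fun_sum (u := .univ) fun j _ =>
        (o (.inr 0) j).mul (x (.inl (A.iI t j)))).ofReal_comp.const_mul I))).congr_deriv (by simp)
  · exact ((hd_normSq (hd_line (e.z t) (δ.z t))).sub (x _)).congr_deriv (by simp)
  · conv => enter [1, s]; rw [c0_g]
    exact ((hd_normSq (hd_line (e.g t) (δ.g t))).sub ((x (.inl (A.iG t))).add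
      ((x (.inl (A.ik t))).mul (x (.inr (.inl t)))))).congr_deriv (by simp)

theorem F0_surj (h : w ∈ A.act l) (hr : Fr (SS A (A.X l w, A.y l w)) r) :
    Surjective (fderiv ℝ (F0 τ) (lift τ l θ w r)) := by
  rintro ⟨⟨t1, t2, t3⟩, ⟨tv, tA, r1, r2, r3⟩, ⟨tB, tq⟩, ta, tc, tg⟩
  obtain ⟨u, -, hu⟩ := hr.solve (SS_symm _) (SS_rk h) tv
  obtain ⟨q, hq⟩ : ∃ q, fderiv ℝ A.v (A.X l w, A.y l w) q = SS A (A.X l w, A.y l w) *ᵥ u :=
    ⟨_, by rw [SS, ← Matrix.mulVec_mulVec, BB_mul]⟩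
  let β : _ → A.L → ℝ := fun f j => tB f j + ∑ i, q.1 (A.iw j i) * A.o l w i
  let dO : _ → A.L → ℝ := fun f j => β f j - (tq f / 2 + ∑ i, A.o l w i * β f i) * A.o l w j
  have oO : ∀ f, ∑ i, A.o l w i * dO f i = -(tq f / 2) := fun f => by
    simp only [dO, mul_sub, Finset.sum_sub_distrib, mul_left_comm (A.o l w _), ← Finset.mul_sum,
      oo_one h]
    ring
  let α : (A.I' → ℝ) → A.T → ℂ := fun x t => ta t + (x (A.iR t) + I * (∑ j, (dO (.inr 0) j *
    A.X l w (A.iI t j) + A.o l w j * x (A.iI t j)) : ℝ))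
  obtain ⟨k, k1, k2, k3⟩ : ∃ k : A.I' → ℝ, fderiv ℝ A.v (A.X l w, A.y l w) (k, 0) = 0 ∧
      (∀ j j', k (A.iw j j') = 0) ∧ ∀ t, A.Sp l w t → α (q.1 + k) t = 0 := by
    by_cases s : ∃ t, A.Sp l w t
    · obtain ⟨t, s⟩ := s
      obtain ⟨-, -, -, a, -, b⟩ := A.sp l w h t s
      obtain ⟨k, k1, k2, k3⟩ := b (-α q.1 t)
      refine ⟨k, k1, k2, fun t' s' => ?_⟩
      rw [a t' s']
      simp only [α, Pi.add_apply, mul_add, Finset.sum_add_distrib] at k3 ⊢
      push_cast at k3 ⊢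
      linear_combination k3
    · exact ⟨0, map_zero _, fun _ _ => rfl, fun t s' => absurd ⟨t, s'⟩ s⟩
  choose dz dg dx s1 s2 s3 using fun t => solve3 (A.p0 t) (α := α (q.1 + k) t) (tc t)
    (tg t + ((q.1 + k) (A.iG t) + (q.1 + k) (A.ik t) * normSq (A.z l w t)))
    ((A.nd l w h t).imp_right fun a => a.imp_right fun s =>
      ⟨(A.sp l w h t s).1, (A.sp l w h t s).2.1, k3 t s⟩)
  let ρ : Fin 2 → Option A.I' → ℝ := fun a i =>
    tA a i - ∑ j, fderiv ℝ (SS A · i j) (A.X l w, A.y l w) (q.1 + k, q.2) * r a j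
  choose U U1 U2 using fun a => hr.solve (SS_symm _) (SS_rk h) (ρ a)
  have U3 : ∀ a b, r b ⬝ᵥ U a = 0 := fun a b => by rw [dotProduct_comm, U1]
  obtain ⟨dr, d1, d2, d3, d4⟩ : ∃ dr : Fin 2 → Option A.I' → ℝ, (∀ a, SS A (A.X l w, A.y l w) *ᵥ
      dr a = SS A (A.X l w, A.y l w) *ᵥ U a) ∧ dr 0 ⬝ᵥ r 0 + r 0 ⬝ᵥ dr 0 = r1 ∧
      dr 0 ⬝ᵥ r 1 + r 0 ⬝ᵥ dr 1 = r2 ∧ dr 1 ⬝ᵥ r 1 + r 1 ⬝ᵥ dr 1 = r3 :=
    ⟨![U 0 + (r1 / 2) • r 0 + r2 • r 1, U 1 + (r3 / 2) • r 1], by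
      simp [Matrix.mulVec_add, Matrix.mulVec_smul, hr.1, hr.2, U1, U3]⟩
  refine ⟨((Sum.elim (q.1 + k) (Sum.elim dx fun b => if b then 2 * A.y l w * q.2 - t2 else t1),
    q.2), (dr, fun a b => -(ρ a ⬝ᵥ r b), fun b => -(tv ⬝ᵥ r b)),
    (dO, fun f => -∑ i, A.o l w i * β f i), dz, dg, (t3 / 2 : ℝ) * exp (θ * I)), ?_⟩
  rw [F0_deriv]
  refine Prod.ext (Prod.ext rfl (Prod.ext ?_ ?_)) (Prod.ext (Prod.ext (funext fun i => ?_)
    (Prod.ext (funext₂ fun a i => ?_) (Prod.ext d2 (Prod.ext d3 d4)))) (Prod.ext (Prod.ext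
    (funext₂ fun f j => ?_) (funext fun f => ?_)) (Prod.ext (funext fun t => ?_)
    (Prod.ext (funext fun t => s2 t) (funext fun t => ?_)))))
  · simp [dF, lift]
  · simp only [dF, lift, E.a]
    rw [mul_left_comm, conj_mul', norm_exp_ofReal_mul_I]
    simp only [ofReal_one, one_pow, mul_one, ofReal_re]
    ring
  · have : fderiv ℝ A.v (A.X l w, A.y l w) (q.1 + k, q.2) = SS A (A.X l w, A.y l w) *ᵥ u := by
      rw [← hq, show (q.1 + k, q.2) = q + (k, 0) by ext <;> simp, map_add, k1, add_zero]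
    change fderiv ℝ A.v (A.X l w, A.y l w) (q.1 + k, q.2) i -
      ∑ b, (-(tv ⬝ᵥ r b) * r b i + 0 * dr b i) = tv i
    simpa [this, sub_eq_add_neg] using congrFun hu i
  · have a1 := congrFun (U2 a) i
    rw [← d1] at a1
    change ∑ j, (fderiv ℝ (SS A · i j) (A.X l w, A.y l w) (q.1 + k, q.2) * r a j +
      SS A (A.X l w, A.y l w) i j * dr a j) - ∑ b, (-(ρ a ⬝ᵥ r b) * r b i + 0 * dr b i) = tA a i
    simp only [Pi.add_apply, Finset.sum_apply, Pi.smul_apply, smul_eq_mul, Matrix.mulVec] at a1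
    simp only [Finset.sum_add_distrib, zero_mul, add_zero, neg_mul, Finset.sum_neg_distrib]
    linear_combination (norm := skip) a1
    simp only [ρ, dotProduct]
    ring
  · simp only [dF, lift, E.o, E.x, E.nu, Sum.elim_inl, Pi.add_apply, k2, A.ew l w h, mul_assoc,
      Finset.sum_add_distrib, ← Finset.mul_sum, oO, add_zero, Pi.zero_apply, zero_mul]
    simp only [dO, β]
    ring
  · simp only [dF, lift, E.o, mul_assoc, ← Finset.mul_sum, oO]
    ring
  · exact sub_eq_of_eq_add (s1 t)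
  · simp only [dF, lift, E.g, E.x, Sum.elim_inl, Sum.elim_inr]
    linear_combination s3 t

end Pool.Agent.Lib.MP_78bd4b_ag.RJ
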