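import Pool.Agent.Lib.MP_78bd4b_ag.Real4

/-! The lifts of the points of the manifold. -/

noncomputable section

namespace Pool.Agent.Lib.MP_78bd4b_ag.RJ

open Complex Filter Function Set Pm DJ
open scoped Manifold ContDiff Topology Real ComplexConjugate Matrix

set_option synthInstance.maxSize 1024

variable {M : Type*} [TopologicalSpace M] [ChartedSpace (EuclideanSpace ℝ (Fin 3)) M] {A : Dat M}
  {τ : Tor A.T A.p A.k (bd A)} {l : A.L} {θ : ℝ} {w : ℂ} {r : Fin 2 → Option A.I' → ℝ}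

variable (τ) in
/-- `e` lies over `m` -/
def Lf (m : M) (e : E (mk A τ)) : Prop := ∃ l θ w r, w ∈ A.act l ∧ A.ψ l (θ, w) = m ∧
  Fr (SS A (A.X l w, A.y l w)) r ∧ e = lift τ l θ w r

theorem Lf.sym {m : M} {e e' : E (mk A τ)} (h : Lf τ m e) (h' : Lf τ m e') :
    ∃ g, Sym (j0 τ) g ∧ e' = g e := by
  obtain ⟨l, θ, w, r, a, b, c, rfl⟩ := h
  obtain ⟨l', θ', w', r', a', b', c', rfl⟩ := h'
  obtain ⟨ε, η, u, h1, h2, h3, h4, h5, h6, h7, h8⟩ := A.gauge l' l θ' θ w' a' w a (b'.trans b.symm)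
  have s : SS A (A.X l' w', A.y l' w') = SS A (A.X l w, A.y l w) := by
    rcases h2 with rfl | rfl <;> simp [h4, h5, SS_ev]
  obtain ⟨O, o1, o2⟩ := c.rot (s ▸ c') (SS_rk a)
  have y : A.y l' w' ^ 2 = A.y l w ^ 2 := by rcases h2 with rfl | rfl <;> simp [h5]
  have z : ∀ t, normSq (A.z l' w' t) = normSq (A.z l w t) := fun t => by
    simp [(h7 t).1, Sg.cj h1, cr_norm, normSq_eq_norm_sq, h3]
  simp only [Sg.cj h1] at h7 h8
  have z' := funext fun t => (h7 t).1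
  have g' := funext fun t => (h7 t).2
  have r' := funext o2
  rcases h1 with rfl | rfl
  · refine ⟨_, (rot_sym o1).comp (gau_sym h2 h3), ?_⟩
    simp only [lift, y, z]
    simp [rot, gau, h4, h5, h6, z', g', h8, r', cr_one, Pi.zero_def]
  · refine ⟨_, (rot_sym o1).comp (cnj_sym.comp (gau_sym h2 h3)), ?_⟩
    simp only [lift, y, z]
    simp [rot, gau, cnj, h4, h5, h6, z', g', h8, r', cr_neg, Pi.zero_def, Pi.neg_def]

open Classical in
theorem mon_gen (h : w ∈ A.act l) (e a n0 n2 : ℕ) (h1 : 2 ≤ e + a + a) (h2 : e + a ≤ bd A)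
    (h3 : ∀ t, A.k t * e ≤ bd A) (h4 : n0 ≤ bd A) (h5 : n2 ≤ bd A)
    (h6 : ∀ t, A.Sp l w t → n0 + A.k t * e = A.p t * n2) :
    ∃ (m : τ.Mon) (c : ℂ → ℂ), ContDiffAt ℝ ∞ c w ∧ c w ≠ 0 ∧ ∀ θ w' r, xi (lift τ l θ w' r) m =
      (A.y l w' ^ (e + a + a - 2) * ∏ t, if A.Sp l w t then A.z l w' t ^ n0 else 1) *
        (c w' * exp (θ * I) ^ e) := by
  let n1 : A.T → ℕ := fun t => if A.z l w t = 0 then 0 else A.k t * e
  let n2 : A.T → ℕ := fun t => if A.Sp l w t then n2 else if A.z l w t = 0 then A.k t * e else 0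
  have g : ∀ t, A.z l w t = 0 → A.g l w t ≠ 0 ∧ (¬A.Sp l w t → A.p t = 1) := fun t z => by
    rcases A.nd l w h t with b | b | b
    exacts [absurd z b.1, ⟨b.2.1, fun _ => b.2.2⟩, ⟨(A.sp l w h t b).2.1, fun c => absurd b c⟩]
  obtain ⟨m, hm⟩ := exists_mon (D := mk A τ)
    (fun t => ![if A.Sp l w t then n0 else 0, n1 t, n2 t, 0]) (e + a) a (fun t => by
      by_cases s : A.Sp l w t
      · simp [n1, n2, s, (A.sp l w h t s).1, ← h6 t s, mul_add, add_assoc]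
      · by_cases z : A.z l w t = 0 <;> simp [n1, n2, s, z, g, mul_add]) h1 (fun t i => by
      have := h3 t
      fin_cases i <;> simp only [n1, n2, Matrix.cons_val, Fin.isValue, Fin.reduceFinMk] <;>
        (try split_ifs) <;> omega) h2 (le_of_add_le_right h2)
  obtain ⟨-, -, -, sz, sg⟩ := A.sm l w h
  refine ⟨m, fun w => ∏ t, conj (A.z l w t) ^ n1 t * A.g l w t ^ n2 t,
    contDiffAt_prod fun t _ => ((conjCLE.contDiff.contDiffAt.comp w
      (contDiffAt_pi.1 sz t)).pow _).mul ((contDiffAt_pi.1 sg t).pow _),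
    Finset.prod_ne_zero_iff.2 fun t _ => ?_, fun θ w' r => ?_⟩
  · by_cases z : A.z l w t = 0
    · simp [n1, z, g t z]
    · have : ¬A.Sp l w t := fun s => z (A.sp l w h t s).1
      simp [n1, n2, z, this]
  · have : exp (θ * I) ^ a * conj (exp (θ * I)) ^ a = 1 := by
      rw [← mul_pow, mul_conj', norm_exp_ofReal_mul_I]
      simp
    rw [hm]
    simp only [lift, E.y, E.z, E.g, E.a, Matrix.cons_val, pow_zero, mul_one, pow_ite, pow_add,
      mul_assoc, this, Finset.prod_mul_distrib]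

theorem mon_per (h : w ∈ A.act l) : ∃ N : ℕ, 0 < N ∧
    (∀ θ, A.ψ l (θ + 2 * π / N, w) = A.ψ l (θ, w)) ∧ ∃ (m : τ.Mon) (c : ℂ → ℂ),
      ContDiffAt ℝ ∞ c w ∧ c w ≠ 0 ∧ ∀ θ w' r, xi (lift τ l θ w' r) m = c w' * exp (θ * I) ^ N := by
  have b : 2 ≤ bd A := Nat.le_add_right ..
  have y := ofRealCLM.contDiff.contDiffAt.comp w (A.sm l w h).2.1
  by_cases s : ∃ t, A.Sp l w t
  · obtain ⟨t, s⟩ := s
    obtain ⟨-, -, a1, a2, a3, -⟩ := A.sp l w h t s
    obtain ⟨m, c, c1, c2, c3⟩ := mon_gen (τ := τ) h (A.p t) 1 0 (A.k t) (by linarith [A.p0 t])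
      (by nlinarith [bd_le A t t]) (fun t' => by nlinarith [bd_le A t' t]) (Nat.zero_le _)
      (by nlinarith [bd_le A t t]) fun t' s' => by rw [a2 t' s', zero_add, mul_comm]
    exact ⟨_, A.p0 t, a3, m, fun w => A.y l w ^ A.p t * c w, (y.pow _).mul c1,
      by simp [a1, c2], fun θ w' r => by simp [c3, mul_assoc]⟩
  · by_cases a : A.y l w = 0
    · obtain ⟨m, c, c1, c2, c3⟩ := mon_gen (τ := τ) h 2 0 0 0 le_rfl b
        (fun t' => by nlinarith [bd_le A t' t']) (Nat.zero_le _) (Nat.zero_le _)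
        fun t' s' => absurd ⟨t', s'⟩ s
      exact ⟨2, two_pos, by simpa using A.half l w h a, m, c, c1, c2, fun θ w' r => by simp [c3]⟩
    · obtain ⟨m, c, c1, c2, c3⟩ := mon_gen (τ := τ) h 1 1 0 0 (by norm_num) b
        (fun t' => by nlinarith [bd_le A t' t']) (Nat.zero_le _) (Nat.zero_le _)
        fun t' s' => absurd ⟨t', s'⟩ s
      exact ⟨1, one_pos, fun θ => by simpa using A.per l θ w, m, fun w => A.y l w * c w,
        y.mul c1, by simp [a, c2], fun θ w' r => by simp [c3, mul_assoc]⟩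

theorem mon_y (h : w ∈ A.act l) (a : A.y l w = 0) : ∃ (m : τ.Mon) (c : ℝ × ℂ → ℂ),
    (∀ θ, ContDiffAt ℝ ∞ c (θ, w) ∧ c (θ, w) ≠ 0) ∧
      ∀ θ w' r, xi (lift τ l θ w' r) m = A.y l w' * c (θ, w') := by
  obtain ⟨m, c, c1, c2, c3⟩ := mon_gen (τ := τ) h 1 1 0 0 (by norm_num) (Nat.le_add_right ..)
    (fun t' => by nlinarith [bd_le A t' t']) (Nat.zero_le _) (Nat.zero_le _)
    fun t' s' => absurd a (A.sp l w h t' s').2.2.1
  exact ⟨m, fun x => c x.2 * ex x.1, fun θ => ⟨(c1.comp (θ, w) contDiffAt_snd).mul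
    (ex_cd.contDiffAt.comp _ contDiffAt_fst), mul_ne_zero c2 (ex_ne _)⟩,
    fun θ w' r => by simp [c3, ex]⟩

theorem mon_z (h : w ∈ A.act l) {t : A.T} (s : A.Sp l w t) : ∃ (m : τ.Mon) (c : ℝ × ℂ → ℂ),
    (∀ θ, ContDiffAt ℝ ∞ c (θ, w) ∧ c (θ, w) ≠ 0) ∧
      ∀ θ w' r, xi (lift τ l θ w' r) m = A.z l w' t * c (θ, w') := by
  obtain ⟨-, -, a1, a2, -⟩ := A.sp l w h t s
  have p := A.p0 t
  obtain ⟨e, e1, e2⟩ := Nat.exists_mul_mod_eq_of_coprime (A.p t - 1) (A.cop t) p.ne'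
  obtain ⟨n, hn⟩ : A.p t ∣ 1 + A.k t * e := (Nat.modEq_zero_iff_dvd).1 (by
    have := (show A.k t * e ≡ A.p t - 1 [MOD A.p t] from e2).add_left 1
    rw [Nat.add_sub_cancel' p] at this
    exact this.trans (Nat.modEq_zero_iff_dvd.2 dvd_rfl))
  obtain ⟨m, c, c1, c2, c3⟩ := mon_gen (τ := τ) h e 1 1 n (by omega) (by nlinarith [bd_le A t t])
    (fun t' => by nlinarith [bd_le A t' t]) (by nlinarith [bd_le A t t])
    (by nlinarith [bd_le A t t]) fun t' s' => by rw [a2 t' s', hn]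
  refine ⟨m, fun x => A.y l x.2 ^ e * (c x.2 * ex x.1 ^ e), fun θ => ⟨ContDiffAt.mul
    (((ofRealCLM.contDiff.contDiffAt.comp w (A.sm l w h).2.1).comp (θ, w) contDiffAt_snd).pow _)
    ((c1.comp (θ, w) contDiffAt_snd).mul ((ex_cd.contDiffAt.comp _ contDiffAt_fst).pow _)),
    by simp [a1, c2, ex_ne]⟩, fun θ w' r => ?_⟩
  rw [c3, Finset.prod_eq_single t (fun t' _ n => if_neg fun s' => n (a2 t' s')) (by simp), if_pos s]
  simp only [ex, Nat.add_assoc, Nat.reduceAdd, Nat.add_sub_cancel]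
  ring

theorem exists_o (h : w ∈ A.act l) : ∃ j, A.o l w j ≠ 0 := by
  obtain ⟨j, -, a⟩ := Finset.exists_ne_zero_of_sum_ne_zero ((oo_one h).trans_ne one_ne_zero)
  exact ⟨j, left_ne_zero_of_mul a⟩

theorem Lf.inj {m m' : M} {e e' : E (mk A τ)} (h : Lf τ m e) (h' : Lf τ m' e')
    (q : Θ 0 e = Θ 0 e') : m = m' := by
  obtain ⟨l, θ, w, r, a, rfl, c, rfl⟩ := h
  obtain ⟨l', θ', w', r', a', rfl, c', rfl⟩ := id h'
  have n := fun θ => (lift_eqs (τ := τ) (θ := θ) a c).nrm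
  have x : ∀ i, (lift τ l θ w r).x i = (lift τ l' θ' w' r').x i := fun i => by
    rw [← fn_x (n θ) 0, q, fn_x (lift_eqs a' c').nrm]
  obtain ⟨θ0, b⟩ := A.fib l l' w a w' a' (funext fun i => x (.inl i)) (x (.inr (.inr true))) θ'
  obtain ⟨g, g1, g2⟩ := Lf.sym ⟨l, θ0, w, r, a, b, c, rfl⟩ h'
  rw [g2, g1.Θ] at q
  obtain ⟨N, N0, per, m, c, -, c2, c3⟩ := mon_per (τ := τ) a
  obtain ⟨j, hj⟩ := exists_o a
  have : xi (lift τ l θ w r) m = xi (lift τ l θ0 w r) m := Complex.ext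
    (by rw [← fn_re (n θ) 0, q, fn_re (n θ0)]) (mul_left_cancel₀ hj (by
      have := fn_im (n θ) 0 m (.inr 0) j
      rw [q, fn_im (n θ0)] at this
      exact this.symm))
  rw [c3, c3, mul_right_inj' c2, ← exp_nat_mul, ← exp_nat_mul, exp_eq_exp_iff_exists_int] at this
  obtain ⟨k, hk⟩ := this
  have hk : N * θ = N * θ0 + k * (2 * π) := by simpa using congrArg im hk
  refine .trans (.trans ?_ ((Periodic.int_mul (f := fun θ => A.ψ l (θ, w)) per k) θ0)) b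
  congr 2
  field_simp
  linarith

theorem lift_cd (h : w ∈ A.act l) {r : ℂ → Fin 2 → Option A.I' → ℝ} (hr : ContDiffAt ℝ ∞ r w) :
    ContDiffAt ℝ ∞ (fun x : ℝ × ℂ => lift τ l x.1 x.2 (r x.2)) (θ, w) := by
  have s : ∀ {V : Type} [NormedAddCommGroup V] [NormedSpace ℝ V] {f : ℂ → V}, ContDiffAt ℝ ∞ f w →
      ContDiffAt ℝ ∞ (fun x : ℝ × ℂ => f x.2) (θ, w) := fun h => h.comp (θ, w) contDiffAt_snd
  obtain ⟨a, b, c, d, f⟩ := A.sm l w h
  refine .prodMk (.prodMk (s (f := fun w => (lift τ l 0 w 0).x) (contDiffAt_pi.2 ?_)) (s b))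
    (.prodMk (.prodMk (s hr) contDiffAt_const) (.prodMk (.prodMk (contDiffAt_pi.2 fun _ => s c)
    contDiffAt_const) (.prodMk (s d) (.prodMk (s f) (ex_cd.contDiffAt.comp _ contDiffAt_fst)))))
  rintro (i | t | _ | _)
  exacts [contDiffAt_pi.1 a i, normSq_cd.contDiffAt.comp w (contDiffAt_pi.1 d t), contDiffAt_const,
    b.pow 2]

theorem hd_zero {f g : ℝ → ℂ} {f' : ℂ} (hf : HasDerivAt f f' 0) (hg : DifferentiableAt ℝ g 0)
    (h0 : f 0 = 0) (h1 : g 0 ≠ 0) (h : HasDerivAt (fun s => f s * g s) 0 0) : f' = 0 := by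
  simpa [h0, h1] using (hf.mul hg.hasDerivAt).unique h

theorem lift_imm (h : w ∈ A.act l) {r : ℂ → Fin 2 → Option A.I' → ℝ}
    (hr : ∀ᶠ w in 𝓝 w, ContDiffAt ℝ ∞ r w ∧ Fr (SS A (A.X l w, A.y l w)) (r w)) :
    Injective (fderiv ℝ (Θ 0 ∘ fun x : ℝ × ℂ => lift τ l x.1 x.2 (r x.2)) (θ, w)) := by
  refine (injective_iff_map_eq_zero _).2 fun ⟨φ, u⟩ q => ?_
  have c := (lift_cd (τ := τ) (θ := θ) h hr.self_of_nhds.1).differentiableAt (by simp)
  have ln : ∀ {V : Type} [NormedAddCommGroup V] [NormedSpace ℝ V] {f : ℝ × ℂ → V},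
      DifferentiableAt ℝ f (θ, w) → HasDerivAt (fun s : ℝ => f (θ + s * φ, w + s • u))
        (fderiv ℝ f (θ, w) (φ, u)) 0 := fun h => h.hasFDerivAt.hasLineDerivAt (φ, u)
  have ln' : ∀ {V : Type} [NormedAddCommGroup V] [NormedSpace ℝ V] {f : ℂ → V},
      ContDiffAt ℝ ∞ f w → HasDerivAt (fun s : ℝ => f (w + s • u)) (fderiv ℝ f w u) 0 :=
    fun h => (h.differentiableAt (by simp)).hasFDerivAt.hasLineDerivAt u
  let e : ℝ → E (mk A τ) := fun s => lift τ l (θ + s * φ) (w + s • u) (r (w + s • u))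
  have ev : ∀ᶠ s : ℝ in 𝓝 0, w + s • u ∈ A.act l ∧ Nrm (j0 τ) (e s) :=
    ((Continuous.tendsto' (by fun_prop) _ _ (by simp) : Tendsto (fun s : ℝ => w + s • u) (𝓝 0)
      (𝓝 w)).eventually (((A.op l).eventually_mem h).and hr)).mono fun s a =>
        ⟨a.1, (lift_eqs a.1 a.2.2).nrm⟩
  have d := ln (((Θ_cd 0).differentiable (by simp) _).comp _ c)
  rw [q] at d
  have key : ∀ (m i j) {f : ℝ → ℝ} {f' : ℝ}, HasDerivAt f f' 0 → (∀ s, Nrm (j0 τ) (e s) →
      fn (j0 τ) m i j (Θ 0 (e s)) = f s) → f' = 0 := fun m i j f f' a b =>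
    (a.congr_of_eventuallyEq (ev.mono fun s h => b s h.2)).unique
      (((fn (j0 τ) m i j).hasFDerivAt.comp_hasDerivAt 0 d).congr_deriv (map_zero _))
  obtain ⟨sx, sy, so, sz, -⟩ := A.sm l w h
  have hX : fderiv ℝ (A.X l) w u = 0 := funext fun i =>
    key _ (.inl i) _ (hasDerivAt_pi.1 (ln' sx) i) fun s h => fn_x h 0 _
  have ho := hasDerivAt_pi.1 (ln' so)
  have ho2 : ∀ j j', fderiv ℝ (A.o l) w u j * A.o l w j' + A.o l w j * fderiv ℝ (A.o l) w u j' = 0 :=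
    fun j j' => by
    have := (((ho j).mul (ho j')).congr_of_eventuallyEq (ev.mono fun s h =>
      A.ew l _ h.1 j j')).unique (hasDerivAt_pi.1 (ln' sx) (A.iw j j'))
    simpa [hX] using this
  obtain ⟨j, hj⟩ := exists_o h
  have ho3 : fderiv ℝ (A.o l) w u j = 0 := mul_left_cancel₀ hj (by linarith [ho2 j j])
  have hξ : ∀ m, HasDerivAt (fun s => xi (e s) m) 0 0 := fun m => by
    have a := ln (((xi_cd m).differentiable (by simp) _).comp _ c)
    have b := key _ _ _ (reCLM.hasFDerivAt.comp_hasDerivAt 0 a) fun s h => fn_re h 0 m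
    have f := key _ _ _ ((ho j).mul (imCLM.hasFDerivAt.comp_hasDerivAt 0 a)) fun s h =>
      fn_im h 0 m (.inr 0) j
    refine a.congr_deriv (Complex.ext b ?_)
    simpa [ho3, hj] using f
  have hu : u = 0 := by
    refine A.imm l w h u hX ?_ fun t s => ?_
    · by_cases a : A.y l w = 0
      · obtain ⟨m, c, c1, c2⟩ := mon_y (τ := τ) h a
        exact ofReal_eq_zero.1 (hd_zero (ln' sy).ofReal_comp (ln ((c1 θ).1.differentiableAt
          (by simp))).differentiableAt (by simp [a]) (by simpa using (c1 θ).2)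
          (by simpa only [e, c2] using hξ m))
      · simpa [a] using key _ (.inr (.inr true)) _ ((ln' sy).fun_pow 2) fun s h => fn_x h 0 _
    · obtain ⟨m, c, c1, c2⟩ := mon_z (τ := τ) h s
      exact hd_zero (hasDerivAt_pi.1 (ln' sz) t) (ln ((c1 θ).1.differentiableAt
        (by simp))).differentiableAt (by simp [(A.sp l w h t s).1]) (by simpa using (c1 θ).2)
        (by simpa only [e, c2] using hξ m)
  obtain ⟨N, N0, -, m, c, -, c2, c3⟩ := mon_per (τ := τ) h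
  have := hξ m
  simp only [e, c3, hu, smul_zero, add_zero] at this
  have := ((((((hasDerivAt_id (0 : ℝ)).mul_const φ).const_add θ).ofReal_comp.mul_const
    I).cexp.fun_pow N).const_mul (c w)).unique this
  simpa [hu, c2, N0.ne'] using this

theorem exists_sec (m : M) : ∃ ψ ∈ range A.ψ, ∃ (w0 : ℝ × ℂ) (s : ℝ × ℂ → E (mk A τ)), ψ w0 = m ∧
    (∀ᶠ w in 𝓝 w0, ContDiffAt ℝ ∞ s w ∧ Lf τ (ψ w) (s w)) ∧
      Injective (fderiv ℝ (Θ 0 ∘ s) w0) := by
  obtain ⟨l, ⟨θ, w⟩, a, b⟩ := A.cover m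
  have e := (A.op l).eventually_mem a
  obtain ⟨r, hr⟩ := frame_loc (S := fun w => SS A (A.X l w, A.y l w)) (e.mono fun w h =>
    ⟨fun i j => (SS_cd i j).contDiffAt.comp w ((A.sm l w h).1.prodMk (A.sm l w h).2.1),
      SS_psd _, SS_rk h⟩)
  refine ⟨_, ⟨l, rfl⟩, (θ, w), fun x => lift τ l x.1 x.2 (r x.2), b, ?_, lift_imm a hr⟩
  filter_upwards [continuousAt_snd.eventually (e.and hr)] with x h
  exact ⟨lift_cd h.1 h.2.1, l, x.1, x.2, _, h.1, rfl, h.2.2, rfl⟩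

end Pool.Agent.Lib.MP_78bd4b_ag.RJ
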