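import Mathlib

/-! A cone lemma and the vertices of the staircase polyhedron. -/

namespace Pool.Agent.Lib.MP_78bd4b_ag

open Finset

/-- induction over a pointed rational cone -/
theorem cone_ind {Λ C : Type} [AddCommGroup Λ] [Fintype C] (ℓ : C → Λ →+ ℤ)
    (pt : ∀ d, (∀ c, ℓ c d = 0) → d = 0) (Q : Λ → Prop)
    (add : ∀ x y (a b : ℤ), 0 < a → 0 < b → (∀ c, 0 ≤ ℓ c x) → (∀ c, 0 ≤ ℓ c y) → Q x → Q y →
      Q (a • x + b • y))
    (sat : ∀ x (a : ℤ), 0 < a → Q (a • x) → Q x)
    (ext : ∀ x, (∀ c, 0 ≤ ℓ c x) →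
      (∀ d, (∀ c, ℓ c x = 0 → ℓ c d = 0) → ∃ a b : ℤ, a ≠ 0 ∧ a • d = b • x) → Q x)
    (x : Λ) (hx : ∀ c, 0 ≤ ℓ c x) : Q x := by
  classical
  induction hn : #{c | ℓ c x ≠ 0} using Nat.strong_induction_on generalizing x with
  | _ n ih =>
  by_contra hQ
  refine hQ (ext x hx fun d hd => ?_)
  by_contra hp
  push Not at hp
  set S : Finset C := {c | ℓ c x ≠ 0} with hS
  have pos : ∀ c ∈ S, 0 < ℓ c x := fun c h => (hx c).lt_of_ne' (by simpa [hS] using h)
  have out : ∀ c ∉ S, ℓ c x = 0 := fun c h => by simpa [hS] using h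
  have ne : S.Nonempty := by
    by_contra h
    rw [not_nonempty_iff_eq_empty] at h
    exact hp 1 0 one_ne_zero (by rw [pt d fun c => hd c (out c (by simp [h]))]; simp)
  obtain ⟨c1, m1, h1⟩ := S.exists_max_image (fun c => (ℓ c d : ℚ) / ℓ c x) ne
  obtain ⟨c2, m2, h2⟩ := S.exists_min_image (fun c => (ℓ c d : ℚ) / ℓ c x) ne
  have g1 : ∀ c ∈ S, ℓ c d * ℓ c1 x ≤ ℓ c1 d * ℓ c x := fun c h => by
    have := h1 c h
    rw [div_le_div_iff₀ (by exact_mod_cast pos c h) (by exact_mod_cast pos _ m1)] at this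
    exact_mod_cast this
  have g2 : ∀ c ∈ S, ℓ c2 d * ℓ c x ≤ ℓ c d * ℓ c2 x := fun c h => by
    have := h2 c h
    rw [div_le_div_iff₀ (by exact_mod_cast pos _ m2) (by exact_mod_cast pos c h)] at this
    exact_mod_cast this
  have step : ∀ (y : Λ) (a b : ℤ) (c0 : C), c0 ∈ S → y = a • x + b • d → ℓ c0 y = 0 →
      (∀ c ∈ S, 0 ≤ ℓ c y) → (∀ c, 0 ≤ ℓ c y) ∧ Q y := fun y a b c0 m e z h => by
    have o : ∀ c ∉ S, ℓ c y = 0 := fun c h => by simp [e, out c h, hd c (out c h)]
    have h' : ∀ c, 0 ≤ ℓ c y := fun c => by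
      by_cases m : c ∈ S
      · exact h c m
      · exact (o c m).ge
    refine ⟨h', ih _ (hn ▸ card_lt_card ⟨fun c m => ?_, fun s => ?_⟩) y h' rfl⟩
    · by_contra m'; exact (mem_filter.1 m).2 (o c m')
    · exact (mem_filter.1 (s m)).2 z
  obtain ⟨a1, b1⟩ := step _ (ℓ c1 d) (-ℓ c1 x) c1 m1 rfl (by simp [mul_comm]) fun c h => by
    have := g1 c h
    simp only [map_add, map_zsmul, smul_eq_mul]; linarith
  obtain ⟨a2, b2⟩ := step _ (-ℓ c2 d) (ℓ c2 x) c2 m2 rfl (by simp [mul_comm]) fun c h => by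
    have := g2 c h
    simp only [map_add, map_zsmul, smul_eq_mul]; linarith
  have lt : ℓ c2 d * ℓ c1 x < ℓ c1 d * ℓ c2 x := by
    refine (g1 c2 m2).lt_of_ne fun e => hp (ℓ c1 x) (ℓ c1 d) (pos _ m1).ne' ?_
    rw [← sub_eq_zero]
    refine pt _ fun c => ?_
    simp only [map_sub, map_zsmul, smul_eq_mul]
    by_cases m : c ∈ S
    · have := g1 c m
      have h := mul_le_mul_of_nonneg_right (g2 c m) (pos _ m1).le
      have : ℓ c1 d * ℓ c x ≤ ℓ c d * ℓ c1 x :=
        le_of_mul_le_mul_right (by linear_combination h - ℓ c x * e) (pos _ m2)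
      linarith
    · simp [out c m, hd c (out c m)]
  refine hQ (sat x (ℓ c1 d * ℓ c2 x - ℓ c2 d * ℓ c1 x) (by linarith) ?_)
  convert add _ _ _ _ (pos _ m2) (pos _ m1) a1 a2 b1 b2 using 1
  module

open Matrix

theorem fin3 : ∀ r : Fin 3, r = 0 ∨ r = 1 ∨ r = 2 := by decide

theorem fin4 : ∀ r : Fin 4, r = 0 ∨ r = 1 ∨ r = 2 ∨ r = 3 := by decide

/-- normals of the constraints -/
def row (p k : ℤ) : Option ℤ → Fin 3 → ℤ
  | none => ![0, 0, 1]
  | some s => ![1, s, -(k * s / p)]

/-- heights of the constraints -/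
def hgt (p : ℤ) : Option ℤ → ℤ
  | none => 0
  | some s => s * (p - s)

/-- indices of the constraints -/
def Vd (p : ℤ) (o : Option ℤ) : Prop := ∀ s, o = some s → 0 ≤ s ∧ s ≤ p

abbrev La : Type := (Fin 3 → ℤ) × ℤ

/-- the constraints -/
def cn (p k K : ℤ) (o : Option ℤ) (y : La) : ℤ := row p k o ⬝ᵥ y.1 - K * hgt p o * y.2

theorem cn_none (p k K : ℤ) (y : La) : cn p k K none y = y.1 2 := by
  simp [cn, row, hgt, dotProduct, Fin.sum_univ_three]

theorem cn_some (p k K s : ℤ) (y : La) :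
    cn p k K (some s) y = y.1 0 + s * y.1 1 - k * s / p * y.1 2 - K * (s * (p - s)) * y.2 := by
  simp [cn, row, hgt, dotProduct, Fin.sum_univ_three, sub_eq_add_neg]

/-- a smooth vertex -/
def Vx (C : La → Prop) (x : La) : Prop := ∃ F : La ≃+ La, (∀ y, (F y).2 = y.2) ∧
  (∀ y, C y → ∀ r, 0 ≤ (F y).1 r) ∧ x = x.2 • F.symm (0, 1) ∧ C (F.symm (0, 1)) ∧
    ∀ r, C (F.symm (Pi.single r 1, 1))

theorem Vx.map {C : La → Prop} {x : La} (T : La ≃+ La) (hT : ∀ y, (T y).2 = y.2)
    (h : Vx (fun y => C (T.symm y)) (T x)) : Vx C x := by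
  obtain ⟨F, a, b, c, d, e⟩ := h
  refine ⟨T.trans F, fun y => (a _).trans (hT y), fun y h => b _ (by simpa using h), ?_, d, e⟩
  apply T.injective
  rw [map_zsmul, ← hT x]
  simpa using c

variable {p k K B : ℤ} {x : La} {C : La → Prop}

theorem row_le (p0 : 0 < p) (k0 : 0 ≤ k) (hp : p ≤ B) (hk : k ≤ B) {o : Option ℤ} (h : Vd p o)
    (j : Fin 3) : |row p k o j| ≤ B := by
  rcases o with _ | s
  · fin_cases j <;> simp [row] <;> omega
  · obtain ⟨a, b⟩ := h s rfl
    have c : 0 ≤ k * s / p := Int.ediv_nonneg (by positivity) p0.le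
    have d : k * s / p ≤ k := Int.ediv_le_of_le_mul p0 (by nlinarith)
    fin_cases j <;> simp [row, abs_le] <;> omega

theorem vx_uni (p0 : 0 < p) (k0 : 0 ≤ k) (hp : p ≤ B) (hk : k ≤ B) (hK : 6 * B ^ 3 ≤ K)
    (x0 : 0 < x.2) (hx : ∀ c, Vd p c → 0 ≤ cn p k K c x)
    (C1 : ∀ y, C y → ∀ c, Vd p c → 0 ≤ cn p k K c y)
    (C2 : ∀ y, (∀ c, Vd p c → 0 ≤ cn p k K c y) → y.2 = 1 → x.2 * y.1 2 ≤ x.1 2 + x.2 * K → C y)
    (o : Fin 3 → Option ℤ) (vo : ∀ r, Vd p (o r)) (ti : ∀ r, cn p k K (o r) x = 0)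
    (hD : (of fun r => row p k (o r)).det = 1 ∨ (of fun r => row p k (o r)).det = -1)
    (only : ∀ c, Vd p c → cn p k K c x = 0 → ∃ r, c = o r) : Vx C x := by
  set M := of fun r => row p k (o r) with hM
  have DD : M.det * M.det = 1 := by rcases hD with h | h <;> simp [h]
  have K0 : 0 < K := by have : 0 < B := by omega
                        have : 0 < B ^ 3 := by positivity
                        omega
  set Mi := M.det • M.adjugate with hMi
  have m1 : M * Mi = 1 := by rw [hMi, Matrix.mul_smul, mul_adjugate, smul_smul, DD, one_smul]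
  have m2 : Mi * M = 1 := by rw [hMi, Matrix.smul_mul, adjugate_mul, smul_smul, DD, one_smul]
  set H : Fin 3 → ℤ := fun r => hgt p (o r) with hH
  let F : La ≃+ La :=
    { toFun := fun y => (M *ᵥ y.1 - (y.2 * K) • H, y.2)
      invFun := fun y => (Mi *ᵥ (y.1 + (y.2 * K) • H), y.2)
      left_inv := fun y => by simp [m2]
      right_inv := fun y => by simp [m1]
      map_add' := fun y z => by
        simp only [Prod.fst_add, Prod.snd_add, mulVec_add, add_mul, add_smul, Prod.mk_add_mk]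
        congr 1; abel }
  have f1 : ∀ y r, (F y).1 r = cn p k K (o r) y := fun y r => by
    simp [F, cn, hM, hH, mulVec]; ring
  have xv : x = x.2 • F.symm (0, 1) := by
    apply F.injective
    rw [map_zsmul, F.apply_symm_apply]
    exact Prod.ext (funext fun r => by simp [f1, ti]) (by simp [F])
  set v := F.symm (0, 1) with hv
  have v2 : v.2 = 1 := rfl
  have sc : ∀ c, cn p k K c x = x.2 * cn p k K c v := fun c => by
    conv_lhs => rw [xv]
    simp [cn, v2, -zsmul_eq_mul]; ring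
  have pv : ∀ c, Vd p c → 0 ≤ cn p k K c v := fun c h =>
    nonneg_of_mul_nonneg_right (sc c ▸ hx c h) x0
  have dv : ∀ c, K ∣ cn p k K c v := fun c =>
    ⟨row p k c ⬝ᵥ Mi *ᵥ H - hgt p c, by
      simp [cn, hv, F, mulVec_smul, -zsmul_eq_mul]; ring⟩
  have bd : ∀ c r, Vd p c → -K ≤ row p k c ⬝ᵥ Mi *ᵥ Pi.single r 1 ∧
      row p k c ⬝ᵥ Mi *ᵥ Pi.single r 1 ≤ K := fun c r h => by
    have e : row p k c ⬝ᵥ Mi *ᵥ Pi.single r 1 = M.det * (M.updateRow r (row p k c)).det := by
      rw [← cramer_transpose_apply, cramer_eq_adjugate_mulVec, ← adjugate_transpose, hMi]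
      simp [mulVec, dotProduct, Finset.mul_sum, mul_comm, mul_left_comm, Pi.single_apply, mul_assoc]
    have := det_le (A := M.updateRow r (row p k c)) (abv := AbsoluteValue.abs) (x := B)
      fun i j => by
        by_cases e : i = r
        · subst e; simpa using row_le p0 k0 hp hk h j
        · simpa [updateRow_ne e, hM] using row_le p0 k0 hp hk (vo i) j
    simp only [AbsoluteValue.abs_apply, Fintype.card_fin, Nat.factorial, abs_le] at this
    rw [e]
    rcases hD with h | h <;> rw [h] <;> norm_num at this ⊢ <;> constructor <;> linarith [this.1, this.2]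
  have sh : ∀ c r, cn p k K c (F.symm (Pi.single r 1, 1)) =
      cn p k K c v + row p k c ⬝ᵥ Mi *ᵥ Pi.single r 1 := fun c r => by
    simp [cn, hv, F, mulVec_add]; ring
  refine ⟨F, fun _ => rfl, fun y h r => f1 y r ▸ C1 y h _ (vo r), xv, C2 _ pv rfl ?_,
    fun r => C2 _ (fun c h => ?_) rfl ?_⟩
  · have := sc none
    rw [cn_none, cn_none] at this
    linarith [mul_pos x0 K0]
  · by_cases t : cn p k K c x = 0
    · obtain ⟨r', rfl⟩ := only c h t
      rw [← f1, F.apply_symm_apply]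
      by_cases e : r' = r <;> simp [e]
    · have : K ≤ cn p k K c v := Int.le_of_dvd ((pv c h).lt_of_ne' fun e => t (by
        rw [sc, e, mul_zero])) (dv c)
      rw [sh]
      linarith [(bd c r h).1]
  · have a := sc none
    have b := sh none r
    have c := (bd none r (by simp [Vd])).2
    simp only [cn_none] at a b
    rw [a, b]
    linarith [mul_le_mul_of_nonneg_left c x0.le]

/-- no further lattice point in a tight triangle -/
theorem tri_empty (p0 : 0 < p) (K0 : 0 < K) (x0 : 0 < x.2) (hx : ∀ c, Vd p c → 0 ≤ cn p k K c x)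
    {a b c : ℤ} (va : Vd p (some a)) (vb : Vd p (some b)) (vc : Vd p (some c))
    (ta : cn p k K (some a) x = 0) (tb : cn p k K (some b) x = 0) (tc : cn p k K (some c) x = 0)
    (ab : a ≠ b) (ac : a ≠ c) (bc : b ≠ c) {n l m s j : ℤ} (l0 : 0 ≤ l) (m0 : 0 ≤ m)
    (lm : l + m ≤ n) (ln : l < n) (mn : m < n) (nz : 0 < l + m)
    (hs : n * s = (n - l - m) * a + l * b + m * c)
    (hj : n * j = (n - l - m) * (k * a / p) + l * (k * b / p) + m * (k * c / p)) : False := by
  have n0 : 0 < n := by omega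
  have w0 : 0 ≤ n - l - m := by omega
  obtain ⟨a0, a1⟩ := va a rfl
  obtain ⟨b0, b1⟩ := vb b rfl
  obtain ⟨c0, c1⟩ := vc c rfl
  have q : ∀ t, p * (k * t / p) ≤ k * t ∧ k * t + 1 ≤ p * (k * t / p) + p := fun t => by
    have := Int.mul_ediv_add_emod (k * t) p
    have := Int.emod_nonneg (k * t) p0.ne'
    have := Int.emod_lt_of_pos (k * t) p0
    omega
  have vs : Vd p (some s) := by
    rintro _ ⟨⟩
    exact ⟨nonneg_of_mul_nonneg_right (by rw [hs]; positivity) n0,
      le_of_mul_le_mul_left (by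
        linear_combination hs + (n - l - m) * a1 + l * b1 + m * c1) n0⟩
  have js : k * s / p = j := by
    have e1 : p * j ≤ k * s := le_of_mul_le_mul_left (by
      linear_combination p * hj - k * hs + (n - l - m) * (q a).1 + l * (q b).1 + m * (q c).1) n0
    have e2 : k * s + 1 ≤ p * j + p := le_of_mul_le_mul_left (by
      linear_combination k * hs - p * hj + (n - l - m) * (q a).2 + l * (q b).2 + m * (q c).2) n0
    have := q s
    have e3 : k * s / p < j + 1 := lt_of_mul_lt_mul_left (by linarith) p0.le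
    have e4 : j < k * s / p + 1 := lt_of_mul_lt_mul_left (by linarith) p0.le
    omega
  have h := hx _ vs
  rw [cn_some] at h ta tb tc
  rw [js] at h
  have sq : ∀ {a b : ℤ}, a ≠ b → 1 ≤ (a - b) ^ 2 := fun h => by
    have := sq_pos_of_ne_zero (sub_ne_zero.2 h); omega
  have pos : 0 < (n - l - m) * l * (a - b) ^ 2 + (n - l - m) * m * (a - c) ^ 2 +
      l * m * (b - c) ^ 2 := by
    have := mul_le_mul_of_nonneg_left (sq ab) (mul_nonneg w0 l0)
    have := mul_le_mul_of_nonneg_left (sq ac) (mul_nonneg w0 m0)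
    have := mul_le_mul_of_nonneg_left (sq bc) (mul_nonneg l0 m0)
    rcases w0.lt_or_eq with h | h
    · linarith [mul_pos h nz, mul_nonneg l0 m0]
    · linarith [mul_pos (by omega : 0 < l) (by omega : 0 < m), mul_nonneg w0 l0, mul_nonneg w0 m0]
  have := mul_nonneg (mul_nonneg n0.le n0.le) h
  have e : n * n * (x.1 0 + s * x.1 1 - j * x.1 2 - K * (s * (p - s)) * x.2) =
      -(K * x.2 * ((n - l - m) * l * (a - b) ^ 2 + (n - l - m) * m * (a - c) ^ 2 +
      l * m * (b - c) ^ 2)) := by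
    linear_combination n * (n - l - m) * ta + n * l * tb + n * m * tc +
      (n * x.1 1 - n * K * p * x.2 + K * x.2 * (n * s + ((n - l - m) * a + l * b + m * c))) * hs -
      n * x.1 2 * hj
  linarith [mul_pos (mul_pos K0 x0) pos]

/-- the determinant of three columns -/
def dt (p k a b c : ℤ) : ℤ :=
  (c - a) * (k * b / p - k * a / p) - (b - a) * (k * c / p - k * a / p)

theorem tri_uni (p0 : 0 < p) (K0 : 0 < K) (x0 : 0 < x.2) (hx : ∀ c, Vd p c → 0 ≤ cn p k K c x)
    {a b c : ℤ} (va : Vd p (some a)) (vb : Vd p (some b)) (vc : Vd p (some c))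
    (ta : cn p k K (some a) x = 0) (tb : cn p k K (some b) x = 0) (tc : cn p k K (some c) x = 0) :
    dt p k a b c = 0 ∨ dt p k a b c = 1 ∨ dt p k a b c = -1 := by
  by_contra hh
  push Not at hh
  obtain ⟨h0, h1, h2⟩ := hh
  have ab : a ≠ b := by rintro rfl; simp [dt] at h0
  have ac : a ≠ c := by rintro rfl; simp [dt] at h0
  have bc : b ≠ c := by rintro rfl; simp [dt] at h0
  set D := dt p k a b c with hD
  have n0 : 0 < |D| := abs_pos.2 h0
  set qa := k * a / p with hqa
  set qb := k * b / p with hqb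
  set qc := k * c / p with hqc
  have key : ∀ l m : ℤ, |D| ∣ l * (b - a) + m * (c - a) → |D| ∣ l * (qb - qa) + m * (qc - qa) →
      |D| ∣ l ∧ |D| ∣ m := fun l m ⟨s, hs⟩ ⟨j, hj⟩ => by
    have l1 := Int.mul_ediv_add_emod l |D|
    have l2 := Int.emod_nonneg l n0.ne'
    have l3 := Int.emod_lt_of_pos l n0
    have m1 := Int.mul_ediv_add_emod m |D|
    have m2 := Int.emod_nonneg m n0.ne'
    have m3 := Int.emod_lt_of_pos m n0
    rw [Int.dvd_iff_emod_eq_zero, Int.dvd_iff_emod_eq_zero]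
    by_contra nz
    rcases le_or_gt (l % |D| + m % |D|) |D| with g | g
    · exact tri_empty p0 K0 x0 hx va vb vc ta tb tc ab ac bc l2 m2 g l3 m3 (by omega)
        (s := a + s - l / |D| * (b - a) - m / |D| * (c - a))
        (j := qa + j - l / |D| * (qb - qa) - m / |D| * (qc - qa))
        (by linear_combination -hs - (b - a) * l1 - (c - a) * m1)
        (by linear_combination -hj - (qb - qa) * l1 - (qc - qa) * m1)
    · exact tri_empty p0 K0 x0 hx va vb vc ta tb tc ab ac bc (n := |D|) (l := |D| - l % |D|)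
        (m := |D| - m % |D|) (by omega) (by omega) (by omega) (by omega) (by omega) (by omega)
        (s := a - s + (l / |D| + 1) * (b - a) + (m / |D| + 1) * (c - a))
        (j := qa - j + (l / |D| + 1) * (qb - qa) + (m / |D| + 1) * (qc - qa))
        (by linear_combination hs + (b - a) * l1 + (c - a) * m1)
        (by linear_combination hj + (qb - qa) * l1 + (qc - qa) * m1)
  have e : D = (c - a) * (qb - qa) - (b - a) * (qc - qa) := rfl
  obtain ⟨⟨s1, e1⟩, s2, e2⟩ := key (c - a) (-(b - a)) ⟨0, by ring⟩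
    ((abs_dvd _ _).2 ⟨1, by linear_combination -e⟩)
  obtain ⟨⟨s3, e3⟩, s4, e4⟩ := key (qc - qa) (-(qb - qa))
    ((abs_dvd _ _).2 ⟨-1, by linear_combination e⟩) ⟨0, by ring⟩
  have e5 : D = |D| * |D| * (s2 * s3 - s1 * s4) := by
    linear_combination e + (qb - qa) * e1 + (qc - qa) * e2 + |D| * s2 * e3 - |D| * s1 * e4
  rw [abs_mul_abs_self] at e5
  have e6 : D * (s2 * s3 - s1 * s4) = 1 := mul_left_cancel₀ h0 (by linear_combination -e5)
  rcases Int.eq_one_or_neg_one_of_mul_eq_one e6 with h | h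
  exacts [h1 h, h2 h]

theorem four_aux {a b c s D D1 D2 D3 : ℤ} (ab : a ≠ b) (ac : a ≠ c) (bc : b ≠ c) (sa : s ≠ a)
    (sb : s ≠ b) (sc : s ≠ c) (d : D = 1 ∨ D = -1) (d1 : D1 = 0 ∨ D1 = 1 ∨ D1 = -1)
    (d2 : D2 = 0 ∨ D2 = 1 ∨ D2 = -1) (d3 : D3 = 0 ∨ D3 = 1 ∨ D3 = -1) (e0 : D = D1 + D2 + D3)
    (e1 : D * s = D1 * a + D2 * b + D3 * c)
    (e2 : D * s ^ 2 = D1 * a ^ 2 + D2 * b ^ 2 + D3 * c ^ 2) : False := by
  have n1 : (a - b) * (a - c) ≠ 0 := mul_ne_zero (by omega) (by omega)
  have n2 : (b - a) * (b - c) ≠ 0 := mul_ne_zero (by omega) (by omega)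
  have n3 : (c - a) * (c - b) ≠ 0 := mul_ne_zero (by omega) (by omega)
  by_cases h1 : s = b + c - a
  · subst h1
    rcases d with rfl | rfl <;> rcases d1 with rfl | rfl | rfl <;>
      rcases d2 with rfl | rfl | rfl <;> rcases d3 with rfl | rfl | rfl <;>
      first | omega | exact n1 (by linarith)
  by_cases h2 : s = a + c - b
  · subst h2
    rcases d with rfl | rfl <;> rcases d1 with rfl | rfl | rfl <;>
      rcases d2 with rfl | rfl | rfl <;> rcases d3 with rfl | rfl | rfl <;>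
      first | omega | exact n2 (by linarith)
  by_cases h3 : s = a + b - c
  · subst h3
    rcases d with rfl | rfl <;> rcases d1 with rfl | rfl | rfl <;>
      rcases d2 with rfl | rfl | rfl <;> rcases d3 with rfl | rfl | rfl <;>
      first | omega | exact n3 (by linarith)
  rcases d with rfl | rfl <;> rcases d1 with rfl | rfl | rfl <;>
    rcases d2 with rfl | rfl | rfl <;> rcases d3 with rfl | rfl | rfl <;> omega

theorem vx_half (p0 : 0 < p) (k0 : 0 ≤ k) (hp : p ≤ B) (hk : k ≤ B) (hK : 6 * B ^ 3 ≤ K)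
    (x0 : 0 < x.2) (hx : ∀ c, Vd p c → 0 ≤ cn p k K c x)
    (C1 : ∀ y, C y → ∀ c, Vd p c → 0 ≤ cn p k K c y)
    (C2 : ∀ y, (∀ c, Vd p c → 0 ≤ cn p k K c y) → y.2 = 1 → x.2 * y.1 2 ≤ x.1 2 + x.2 * K → C y)
    (nd : ∀ d : Fin 3 → ℤ, (∀ c, Vd p c → cn p k K c x = 0 → row p k c ⬝ᵥ d = 0) → d = 0) :
    Vx C x := by
  have K0 : 0 < K := by have : 0 < B := by omega
                        have : 0 < B ^ 3 := by positivity
                        omega
  have two : ∃ a b, a < b ∧ Vd p (some a) ∧ Vd p (some b) ∧ cn p k K (some a) x = 0 ∧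
      cn p k K (some b) x = 0 := by
    by_contra h
    obtain ⟨a, ha⟩ : ∃ a, ∀ b, Vd p (some b) → cn p k K (some b) x = 0 → b = a := by
      by_cases e : ∃ a, Vd p (some a) ∧ cn p k K (some a) x = 0
      · obtain ⟨a, v, t⟩ := e
        refine ⟨a, fun b v' t' => ?_⟩
        rcases lt_trichotomy a b with c | c | c
        exacts [(h ⟨a, b, c, v, v', t, t'⟩).elim, c.symm, (h ⟨b, a, c, v', v, t', t⟩).elim]
      · exact ⟨0, fun b v t => (e ⟨b, v, t⟩).elim⟩
    have := nd ![-a, 1, 0] (by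
      rintro (_ | b) v t
      · simp [row]
      · simp [row, ha b v t])
    simpa using congrFun this 1
  obtain ⟨a, b, ab, va, vb, ta, tb⟩ := two
  by_cases E : x.1 2 = 0
  · have adj : ∀ a b, a < b → Vd p (some a) → Vd p (some b) → cn p k K (some a) x = 0 →
        cn p k K (some b) x = 0 → b = a + 1 := fun a b ab va vb ta tb => by
      have := hx (some (a + 1)) (by
        rintro _ ⟨⟩; have := va a rfl; have := vb b rfl; omega)
      rw [cn_some, E] at this ta tb
      by_contra ne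
      have e : (b - a) * (x.1 0 + (a + 1) * x.1 1 - k * (a + 1) / p * 0 -
          K * ((a + 1) * (p - (a + 1))) * x.2) = -(K * x.2 * ((b - a) * (b - a - 1))) := by
        linear_combination (b - a - 1) * ta + tb
      linarith [mul_pos (mul_pos K0 x0) (mul_pos (by omega : 0 < b - a) (by omega : 0 < b - a - 1)),
        mul_nonneg (by omega : 0 ≤ b - a) this]
    obtain rfl := adj a b ab va vb ta tb
    refine vx_uni p0 k0 hp hk hK x0 hx C1 C2 ![some a, some (a + 1), none] ?_ ?_ (.inl ?_) ?_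
    · intro r; rcases fin3 r with rfl | rfl | rfl
      exacts [va, vb, by simp [Vd]]
    · intro r; rcases fin3 r with rfl | rfl | rfl
      exacts [ta, tb, (cn_none ..).trans E]
    · simp [det_fin_three, row]
    · rintro (_ | c) v t
      · exact ⟨2, rfl⟩
      · rcases lt_trichotomy c a with h | h | h
        · have := adj c _ (by omega) v vb t tb; omega
        · exact ⟨0, by simp [h]⟩
        · exact ⟨1, by simp [adj a c h va v ta t]⟩
  obtain ⟨c, vc, tc, dc⟩ : ∃ c, Vd p (some c) ∧ cn p k K (some c) x = 0 ∧ dt p k a b c ≠ 0 := by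
    by_contra h
    push Not at h
    have := nd ![a * -(k * b / p) + k * a / p * b, k * b / p - k * a / p, b - a] (by
      rintro (_ | c) v t
      · exact (E ((cn_none ..).symm.trans t)).elim
      · have := h c v t
        simp only [dt] at this
        simp [row]
        linear_combination this)
    have := congrFun this 2
    simp at this
    omega
  have dD := (tri_uni p0 K0 x0 hx va vb vc ta tb tc).resolve_left dc
  refine vx_uni p0 k0 hp hk hK x0 hx C1 C2 ![some a, some b, some c] ?_ ?_ ?_ ?_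
  · intro r; rcases fin3 r with rfl | rfl | rfl
    exacts [va, vb, vc]
  · intro r; rcases fin3 r with rfl | rfl | rfl
    exacts [ta, tb, tc]
  · convert dD using 2 <;> simp [det_fin_three, row, dt] <;> ring
  · rintro (_ | s) v t
    · exact (E ((cn_none ..).symm.trans t)).elim
    have d1 := tri_uni p0 K0 x0 hx v vb vc t tb tc
    have d2 := tri_uni p0 K0 x0 hx va v vc ta t tc
    have d3 := tri_uni p0 K0 x0 hx va vb v ta tb t
    have ac : a ≠ c := by rintro rfl; simp [dt] at dc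
    have bc : b ≠ c := by rintro rfl; simp [dt] at dc
    have e0 : dt p k a b c = dt p k s b c + dt p k a s c + dt p k a b s := by simp only [dt]; ring
    have e1 : dt p k a b c * s = dt p k s b c * a + dt p k a s c * b + dt p k a b s * c := by
      simp only [dt]; ring
    have e3 : dt p k a b c * (k * s / p) = dt p k s b c * (k * a / p) +
        dt p k a s c * (k * b / p) + dt p k a b s * (k * c / p) := by simp only [dt]; ring
    have e2 : dt p k a b c * s ^ 2 =
        dt p k s b c * a ^ 2 + dt p k a s c * b ^ 2 + dt p k a b s * c ^ 2 := by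
      refine mul_left_cancel₀ (mul_pos K0 x0).ne' ?_
      rw [cn_some] at t ta tb tc
      linear_combination dt p k a b c * t - dt p k s b c * ta - dt p k a s c * tb -
        dt p k a b s * tc - x.1 0 * e0 - (x.1 1 - K * p * x.2) * e1 + x.1 2 * e3
    by_contra h
    push Not at h
    exact four_aux ab.ne ac bc (fun e => h 0 (by simp [e])) (fun e => h 1 (by simp [e]))
      (fun e => h 2 (by simp [e])) dD d1 d2 d3 e0 e1 e2

end Pool.Agent.Lib.MP_78bd4b_ag
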