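import Pool.Agent.Lib.MP_78bd4b_ag.TorB

/-! The double staircase. -/

namespace Pool.Agent.Lib.MP_78bd4b_ag

open Matrix

/-- one staircase -/
def St (p k K m0 z w e N : ℤ) : Prop := ∀ s, 0 ≤ s → s ≤ p →
  p * K * (s * (p - s)) * N ≤ s * z + (p - s) * w + k * s % p * (m0 * N + e)

/-- the cone over the polyhedron in the coordinates `w, i, e` -/
def Cn (p k K m0 : ℤ) (y : La) : Prop := 0 ≤ y.2 ∧ 0 ≤ m0 * y.2 + y.1 2 ∧ 0 ≤ m0 * y.2 - y.1 2 ∧
  St p k K m0 (y.1 0 + p * y.1 1 - k * y.1 2) (y.1 0) (y.1 2) y.2 ∧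
  St p k K m0 (y.1 0) (y.1 0 + p * y.1 1 - k * y.1 2) (-y.1 2) y.2

variable {p k K B m0 m1 z w e N : ℤ}

theorem St.left (p0 : 0 < p) (h : St p k K m0 z w e N) : 0 ≤ z :=
  nonneg_of_mul_nonneg_right (by simpa using h p p0.le le_rfl) p0

theorem St.right (p0 : 0 < p) (h : St p k K m0 z w e N) : 0 ≤ w :=
  nonneg_of_mul_nonneg_right (by simpa using h 0 le_rfl p0.le) p0

theorem St.of_big (p0 : 0 < p) (K0 : 0 ≤ K) (z0 : 0 ≤ z) (w0 : 0 ≤ w) (N0 : 0 ≤ N)
    (e0 : 0 ≤ m0 * N + e) (h : p * K * p * N ≤ z ∨ p * K * p * N ≤ w) : St p k K m0 z w e N := by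
  intro s s0 s1
  have a := mul_nonneg (Int.emod_nonneg (k * s) p0.ne') e0
  have s2 : 0 ≤ p - s := by omega
  have b : 0 ≤ p * K * N := by positivity
  rcases h with h | h
  · nlinarith [mul_le_mul_of_nonneg_left h s0, mul_nonneg s2 w0, mul_nonneg b (mul_self_nonneg s)]
  · nlinarith [mul_le_mul_of_nonneg_left h s2, mul_nonneg s0 z0,
      mul_nonneg b (mul_self_nonneg (p - s))]

theorem slack (K0 : 0 ≤ K) (cop : IsCoprime k p) (z0 : 0 ≤ z) (w0 : 0 ≤ w) (N0 : 0 ≤ N) {s c : ℤ}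
    (s0 : 0 < s) (s1 : s < p) (c0 : 0 ≤ c) (h : K * p ^ 3 * N + c ≤ m0 * N + e) :
    p * K * (s * (p - s)) * N + c ≤ s * z + (p - s) * w + k * s % p * (m0 * N + e) := by
  have p0 : 0 < p := by omega
  have r : 1 ≤ k * s % p := (Int.emod_nonneg _ p0.ne').lt_of_ne' fun h =>
    (Int.le_of_dvd s0 (cop.symm.dvd_of_dvd_mul_left (Int.dvd_of_emod_eq_zero h))).not_gt s1
  have b : 0 ≤ p * K * N := by positivity
  have d : 0 ≤ K * p ^ 3 * N := by positivity
  have f : s * (p - s) ≤ p * p := by nlinarith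
  nlinarith [mul_le_mul_of_nonneg_left f b, mul_nonneg s0.le z0,
    mul_nonneg (by omega : 0 ≤ p - s) w0, mul_le_mul_of_nonneg_right r (by omega : 0 ≤ m0 * N + e)]

theorem St.of_mid (K0 : 0 ≤ K) (cop : IsCoprime k p) (z0 : 0 ≤ z) (w0 : 0 ≤ w) (N0 : 0 ≤ N)
    (h : K * p ^ 3 * N ≤ m0 * N + e) : St p k K m0 z w e N := by
  intro s s0 s1
  rcases s0.lt_or_eq with s0 | rfl
  · rcases s1.lt_or_eq with s1 | rfl
    · simpa using slack K0 cop z0 w0 N0 s0 s1 le_rfl (by simpa using h)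
    · simpa using mul_nonneg s0.le z0
  · simpa using mul_nonneg s1 w0

/-- shift to the bottom face -/
def Sh (p k m1 : ℤ) : La ≃+ La where
  toFun y := (![y.1 0, y.1 1 + k * m1 * y.2, y.1 2 + p * m1 * y.2], y.2)
  invFun y := (![y.1 0, y.1 1 - k * m1 * y.2, y.1 2 - p * m1 * y.2], y.2)
  left_inv y := by ext i <;> [rcases fin3 i with rfl | rfl | rfl <;> simp; rfl]
  right_inv y := by ext i <;> [rcases fin3 i with rfl | rfl | rfl <;> simp; rfl]
  map_add' y z := by ext i <;> [rcases fin3 i with rfl | rfl | rfl <;> simp <;> ring; rfl]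

/-- the symmetry -/
def Sg (p k : ℤ) : La ≃+ La where
  toFun y := (![y.1 0 + p * y.1 1 - k * y.1 2, -y.1 1, -y.1 2], y.2)
  invFun y := (![y.1 0 + p * y.1 1 - k * y.1 2, -y.1 1, -y.1 2], y.2)
  left_inv y := by ext i <;> [rcases fin3 i with rfl | rfl | rfl <;> simp <;> ring; rfl]
  right_inv y := by ext i <;> [rcases fin3 i with rfl | rfl | rfl <;> simp <;> ring; rfl]
  map_add' y z := by ext i <;> [rcases fin3 i with rfl | rfl | rfl <;> simp <;> ring; rfl]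

theorem Sg_Sg (y : La) : Sg p k (Sg p k y) = y := (Sg p k).left_inv y

theorem cn_Sh (s : ℤ) (y : La) : p * cn p k K (some s) (Sh p k m1 y) =
    s * (y.1 0 + p * y.1 1 - k * y.1 2) + (p - s) * y.1 0 + k * s % p * (p * m1 * y.2 + y.1 2) -
      p * K * (s * (p - s)) * y.2 := by
  simp only [cn_some, Sh, AddEquiv.coe_mk, Equiv.coe_fn_mk, cons_val]
  linear_combination -(y.1 2 + p * m1 * y.2) * Int.mul_ediv_add_emod (k * s) p

theorem half_iff (p0 : 0 < p) (y : La) : (∀ c, Vd p c → 0 ≤ cn p k K c (Sh p k m1 y)) ↔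
    0 ≤ p * m1 * y.2 + y.1 2 ∧
      St p k K (p * m1) (y.1 0 + p * y.1 1 - k * y.1 2) (y.1 0) (y.1 2) y.2 := by
  have a : cn p k K none (Sh p k m1 y) = p * m1 * y.2 + y.1 2 := by simp [cn_none, Sh, add_comm]
  refine ⟨fun h => ⟨a ▸ h none (by simp [Vd]), fun s s0 s1 => ?_⟩, ?_⟩
  · have := mul_nonneg p0.le (h (some s) (by rintro _ ⟨⟩; exact ⟨s0, s1⟩))
    rw [cn_Sh] at this
    linarith
  · rintro ⟨h1, h2⟩ (_ | s) v
    · rwa [a]
    · refine nonneg_of_mul_nonneg_right ?_ p0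
      rw [cn_Sh]
      linarith [h2 s (v s rfl).1 (v s rfl).2]

theorem cn_iff (p0 : 0 < p) (y : La) : Cn p k K (p * m1) y ↔ 0 ≤ y.2 ∧
    (∀ c, Vd p c → 0 ≤ cn p k K c (Sh p k m1 y)) ∧
      ∀ c, Vd p c → 0 ≤ cn p k K c (Sh p k m1 (Sg p k y)) := by
  rw [half_iff p0, half_iff p0]
  simp only [Cn, Sg, AddEquiv.coe_mk, Equiv.coe_fn_mk, cons_val, ← sub_eq_add_neg]
  rw [show y.1 0 + p * y.1 1 - k * y.1 2 + p * -y.1 1 - k * -y.1 2 = y.1 0 by ring]
  tauto

theorem vx_full (p0 : 0 < p) (k0 : 0 ≤ k) (hp : p ≤ B) (hk : k ≤ B) (hK : 6 * B ^ 3 ≤ K)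
    (cop : IsCoprime k p) (hm : K * p ^ 3 + K ≤ p * m1) {x : La} (x0 : 0 < x.2)
    (hx : Cn p k K (p * m1) x) (e0 : x.1 2 ≤ 0)
    (nd : ∀ d : La, d.2 = 0 → (∀ c, Vd p c → cn p k K c (Sh p k m1 x) = 0 →
      cn p k K c (Sh p k m1 d) = 0) → (∀ c, Vd p c → cn p k K c (Sh p k m1 (Sg p k x)) = 0 →
      cn p k K c (Sh p k m1 (Sg p k d)) = 0) → d = 0) : Vx (Cn p k K (p * m1)) x := by
  have K0 : 0 < K := by have : 0 < B := by omega
                        have : 0 < B ^ 3 := by positivity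
                        omega
  refine Vx.map (Sh p k m1) (fun _ => rfl) (vx_half p0 k0 hp hk hK x0 ((cn_iff p0 x).1 hx).2.1
    (fun y h => by simpa using ((cn_iff p0 _).1 h).2.1) (fun y h y1 g => ?_) fun d h => ?_)
  · obtain ⟨y, rfl⟩ := (Sh p k m1).surjective y
    obtain ⟨h1, h2⟩ := (half_iff p0 y).1 h
    have y1 : y.2 = 1 := y1
    have g : x.2 * (y.1 2 + p * m1 * y.2) ≤ x.1 2 + p * m1 * x.2 + x.2 * K := g
    rw [y1] at g
    have : y.1 2 ≤ K := le_of_mul_le_mul_left (by linarith) x0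
    have : 0 ≤ K * p ^ 3 := by positivity
    rw [AddEquiv.symm_apply_apply]
    exact ⟨by omega, h1, by rw [y1]; linarith, h2,
      .of_mid K0.le cop (h2.right p0) (h2.left p0) (by omega) (by rw [y1]; linarith)⟩
  · have a : ∀ c, Vd p c → cn p k K c (Sh p k m1 x) = 0 → cn p k K c (Sh p k m1 (d, 0)) = 0 :=
      fun c v t => by
        have : Sh p k m1 (d, 0) = (d, 0) := by ext i <;> [rcases fin3 i with rfl | rfl | rfl <;> simp [Sh]; rfl]
        simpa [this, cn] using h c v t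
    have b0 : ∀ y, cn p k K (some 0) (Sh p k m1 (Sg p k y)) = cn p k K (some p) (Sh p k m1 y) :=
      fun y => mul_left_cancel₀ p0.ne' (by rw [cn_Sh, cn_Sh]; simp [Sg])
    have b1 : ∀ y, cn p k K (some p) (Sh p k m1 (Sg p k y)) = cn p k K (some 0) (Sh p k m1 y) :=
      fun y => by rw [← b0, Sg_Sg]
    refine congrArg Prod.fst (nd (d, 0) rfl a ?_)
    have big : K * p ^ 3 * x.2 + 1 ≤ p * m1 * x.2 + -x.1 2 := by
      nlinarith [mul_le_mul_of_nonneg_right hm x0.le, mul_pos K0 x0]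
    rintro (_ | s) v t
    · have : 0 ≤ K * p ^ 3 * x.2 := by positivity
      simp [cn_none, Sh, Sg] at t
      omega
    · obtain ⟨s0, s1⟩ := v s rfl
      rcases s0.lt_or_eq with s0 | rfl
      · rcases s1.lt_or_eq with s1 | rfl
        · have c := cn_Sh (p := p) (k := k) (K := K) (m1 := m1) s (Sg p k x)
          have := slack K0.le cop (hx.2.2.2.1.right p0) (hx.2.2.2.1.left p0) x0.le s0 s1
            zero_le_one big
          rw [t] at c
          simp only [Sg, AddEquiv.coe_mk, Equiv.coe_fn_mk, cons_val] at c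
          exfalso
          linarith
        · rw [b1] at t ⊢
          exact a _ (by rintro _ ⟨⟩; omega) t
      · rw [b0] at t ⊢
        exact a _ (by rintro _ ⟨⟩; omega) t

/-- the constraints as homomorphisms -/
def cnH (p k K : ℤ) (c : Option ℤ) : La →+ ℤ :=
  .mk' (cn p k K c) fun y z => by simp [cn]; ring

theorem stair_ind (p0 : 0 < p) (k0 : 0 ≤ k) (hp : p ≤ B) (hk : k ≤ B) (hK : 6 * B ^ 3 ≤ K)
    (cop : IsCoprime k p) (dm : p ∣ m0) (hm : K * p ^ 3 + K ≤ m0) (Q : La → Prop)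
    (add : ∀ x y (a b : ℤ), 0 < a → 0 < b → 0 ≤ x.2 → 0 ≤ y.2 → Q x → Q y → Q (a • x + b • y))
    (sat : ∀ x (a : ℤ), 0 < a → Q (a • x) → Q x) (rc : ∀ x, Cn p k K m0 x → x.2 = 0 → Q x)
    (vx : ∀ x, 0 < x.2 → Vx (Cn p k K m0) x → Q x) (x : La) (hx : Cn p k K m0 x) : Q x := by
  obtain ⟨m1, rfl⟩ := dm
  let ℓ : Option (Bool × Option (Finset.Icc 0 p)) → La →+ ℤ := fun c => c.elim (.snd _ _) fun c =>
    (cnH p k K (c.2.map (↑))).comp ((Sh p k m1).toAddMonoidHom.comp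
      (bif c.1 then (Sg p k).toAddMonoidHom else .id _))
  have all : ∀ P : Option ℤ → Prop,
      (∀ o : Option (Finset.Icc 0 p), P (o.map (↑))) ↔ ∀ c, Vd p c → P c := fun P => by
    refine ⟨?_, fun h o => h _ ?_⟩
    · rintro h (_ | s) v
      exacts [h none, h (some ⟨s, Finset.mem_Icc.2 (v s rfl)⟩)]
    · rcases o with _ | ⟨s, hs⟩ <;> rintro _ ⟨⟩
      exact Finset.mem_Icc.1 hs
  have iff : ∀ y, (∀ c, 0 ≤ ℓ c y) ↔ Cn p k K (p * m1) y := fun y => by
    rw [cn_iff p0, ← all, ← all]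
    simp [ℓ, Option.forall, cnH]
  refine cone_ind ℓ (fun d h => ?_) Q (fun x y a b a0 b0 h h' => add x y a b a0 b0 (h none) (h' none))
    sat (fun x h ex => ?_) x ((iff x).2 hx)
  · have h1 : d.2 = 0 := h none
    have h2 := h (some (false, none))
    have h3 := h (some (false, some ⟨0, by simp [p0.le]⟩))
    have h4 := h (some (true, some ⟨0, by simp [p0.le]⟩))
    simp [ℓ, cnH, cn_none, cn_some, Sh, Sg, h1] at h2 h3 h4
    simp [h2, h3, p0.ne'] at h4
    ext i <;> [rcases fin3 i with rfl | rfl | rfl <;> simpa; exact h1]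
  have hx := (iff x).1 h
  rcases hx.1.lt_or_eq with x0 | x0
  swap
  · exact rc x hx x0.symm
  have nd : ∀ d : La, d.2 = 0 → (∀ c, Vd p c → cn p k K c (Sh p k m1 x) = 0 →
      cn p k K c (Sh p k m1 d) = 0) → (∀ c, Vd p c → cn p k K c (Sh p k m1 (Sg p k x)) = 0 →
      cn p k K c (Sh p k m1 (Sg p k d)) = 0) → d = 0 := fun d d0 h1 h2 => by
    rw [← all] at h1 h2
    obtain ⟨a, b, a0, e⟩ := ex d (by
      rintro (_ | ⟨_ | _, o⟩)
      exacts [fun _ => d0, h1 o, h2 o])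
    have : b = 0 := by simpa [d0, x0.ne'] using congrArg Prod.snd e
    rw [this, zero_smul] at e
    exact (smul_eq_zero.1 e).resolve_left a0
  refine vx x x0 ?_
  rcases le_total (x.1 2) 0 with e0 | e0
  · exact vx_full p0 k0 hp hk hK cop hm x0 hx e0 nd
  · have sy : ∀ y, Cn p k K (p * m1) (Sg p k y) ↔ Cn p k K (p * m1) y := fun y => by
      rw [cn_iff p0, cn_iff p0, Sg_Sg, and_comm (a := ∀ c, _)]; rfl
    refine Vx.map (Sg p k) (fun _ => rfl) ?_
    rw [show (fun y => Cn p k K (p * m1) ((Sg p k).symm y)) = _ from funext fun y => propext (sy y)]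
    refine vx_full p0 k0 hp hk hK cop hm x0 ((sy x).2 hx) (by simpa [Sg] using e0)
      fun d d0 h1 h2 => ?_
    rw [Sg_Sg] at h2
    simpa using nd (Sg p k d) d0 h2 (by rwa [Sg_Sg])

end Pool.Agent.Lib.MP_78bd4b_ag
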