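import Pool.Agent.Lib.MP_78bd4b_ag.TorA
import Pool.Agent.Lib.MP_78bd4b_ag.TorC

/-! Frames, and lifting of lattice points to monomials. -/

noncomputable section

namespace Pool.Agent.Lib.MP_78bd4b_ag

open Function Matrix

set_option linter.unusedSectionVars false

abbrev GG (T : Type) : Type := (Cv T → ℤ) × ℤ

abbrev JJ (T : Type) : Type := (T × Fin 3) ⊕ Fin 3

variable {T : Type} [Fintype T] [DecidableEq T] (p k : T → ℕ) (K m0 : ℤ)

/-- the fibre weight -/
def ev (x : GG T) : ℤ := x.1 (.inr true) - x.1 (.inr false)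

/-- the cone over the set of monomials -/
structure Good (x : GG T) : Prop where
  nn : ∀ v, 0 ≤ x.1 v
  n0 : 0 ≤ x.2
  two : 2 * x.2 ≤ x.1 (.inr true) + x.1 (.inr false)
  lo : 0 ≤ m0 * x.2 + ev x
  hi : 0 ≤ m0 * x.2 - ev x
  gau : ∀ t, x.1 (.inl (t, 0)) =
    x.1 (.inl (t, 1)) + p t * (x.1 (.inl (t, 2)) - x.1 (.inl (t, 3))) - k t * ev x
  s1 : ∀ t, St (p t) (k t) K m0 (x.1 (.inl (t, 0))) (x.1 (.inl (t, 1))) (ev x) x.2
  s2 : ∀ t, St (p t) (k t) K m0 (x.1 (.inl (t, 1))) (x.1 (.inl (t, 0))) (-ev x) x.2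

/-- weights of the base functions -/
def bs (b : Bs T) : GG T := (fun v => wb p b v, 0)

/-- the base functions of a frame -/
def bi : Fin 3 → Fin 3 → Fin 4 := ![![2, 0, 1], ![0, 2, 3], ![1, 2, 3]]

/-- coefficients in a frame -/
def co (p : ℤ) (n : Fin 4 → ℤ) : Fin 3 → Fin 3 → ℤ :=
  ![![n 1 - p * n 3, n 2, n 3], ![n 2 - n 3, n 1, n 3], ![n 3 - n 2, n 0, n 2]]

/-- combinations in a frame -/
def cb (p k : ℤ) (y : Fin 3 → ℤ) (e : ℤ) : Fin 3 → Fin 4 → ℤ :=
  ![![y 0 + p * y 1 - k * e, y 0 + p * y 2, y 1, y 2],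
    ![p * y 0 + y 1 - k * e, y 1, y 0 + y 2, y 2], ![y 1, p * y 0 + y 1 + k * e, y 2, y 0 + y 2]]

/-- coordinates -/
def Ps (φ : T → Fin 3) : GG T →+ (JJ T → ℤ) :=
  .mk' (fun x => Sum.elim (fun a => co (p a.1) (fun j => x.1 (.inl (a.1, j))) (φ a.1) a.2)
    ![x.1 (.inr true), x.1 (.inr false), x.2]) fun x y => by
      funext j
      rcases j with ⟨t, r⟩ | r
      · simp only [Sum.elim_inl, Pi.add_apply]
        generalize φ t = f
        rcases fin3 f with rfl | rfl | rfl <;> rcases fin3 r with rfl | rfl | rfl <;> simp [co] <;> ring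
      · rcases fin3 r with rfl | rfl | rfl <;> simp

/-- parametrisation of the gauge invariant lattice -/
def Th (φ : T → Fin 3) : (JJ T → ℤ) →+ GG T :=
  .mk' (fun y => (Sum.elim (fun a => cb (p a.1) (k a.1) (fun r => y (.inl (a.1, r)))
    (y (.inr 0) - y (.inr 1)) (φ a.1) a.2) fun b => bif b then y (.inr 0) else y (.inr 1),
      y (.inr 2))) fun x y => by
      refine Prod.ext (funext ?_) rfl
      rintro (⟨t, r⟩ | _ | _)
      · simp only [Sum.elim_inl, Pi.add_apply, Prod.fst_add]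
        generalize φ t = f
        rcases fin3 f with rfl | rfl | rfl <;> rcases fin4 r with rfl | rfl | rfl | rfl <;> simp [cb] <;> ring
      · rfl
      · rfl

variable {p k K m0} {φ : T → Fin 3}

theorem Ps_Th (y : JJ T → ℤ) : Ps p φ (Th p k φ y) = y := by
  funext j
  rcases j with ⟨t, r⟩ | r
  · simp only [Ps, Th, AddMonoidHom.mk'_apply, Sum.elim_inl]
    generalize φ t = f
    rcases fin3 f with rfl | rfl | rfl <;> rcases fin3 r with rfl | rfl | rfl <;> simp [co, cb]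
  · rcases fin3 r with rfl | rfl | rfl <;> rfl

theorem Th_Ps {x : GG T} (h : Good p k K m0 x) : Th p k φ (Ps p φ x) = x := by
  refine Prod.ext (funext ?_) rfl
  rintro (⟨t, r⟩ | _ | _)
  · have := h.gau t
    simp only [Ps, Th, AddMonoidHom.mk'_apply, Sum.elim_inl, Sum.elim_inr, ev] at this ⊢
    generalize φ t = f
    rcases fin3 f with rfl | rfl | rfl <;> rcases fin4 r with rfl | rfl | rfl | rfl <;> simp [co, cb] <;> linarith
  · rfl
  · rfl

theorem Th_gau (y : JJ T → ℤ) (t : T) : (Th p k φ y).1 (.inl (t, 0)) =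
    (Th p k φ y).1 (.inl (t, 1)) + p t * ((Th p k φ y).1 (.inl (t, 2)) -
      (Th p k φ y).1 (.inl (t, 3))) - k t * ev (Th p k φ y) := by
  simp only [ev, Th, AddMonoidHom.mk'_apply, Sum.elim_inl, Sum.elim_inr, cond_true, cond_false]
  generalize φ t = f
  rcases fin3 f with rfl | rfl | rfl <;> simp [cb] <;> ring

theorem Th_single (t : T) (r : Fin 3) :
    Th p k φ (Pi.single (.inl (t, r)) 1) = bs p (.inl (t, bi (φ t) r)) := by
  refine Prod.ext (funext ?_) (by simp [Th, bs])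
  rintro (⟨t', j⟩ | _ | _)
  · simp only [Th, AddMonoidHom.mk'_apply, Sum.elim_inl, bs, wb]
    by_cases e : t = t'
    · subst e
      generalize φ t = f
      rcases fin3 f with rfl | rfl | rfl <;> rcases fin3 r with rfl | rfl | rfl <;> rcases fin4 j with rfl | rfl | rfl | rfl <;> simp [cb, bi]
    · generalize φ t' = f
      rcases fin3 f with rfl | rfl | rfl <;> rcases fin4 j with rfl | rfl | rfl | rfl <;> simp [cb, e, Ne.symm e]
  · simp [Th, bs, wb]
  · simp [Th, bs, wb]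

theorem Th_h : Th p k φ (Sum.elim 0 ![1, 1, 0]) = bs p (.inr ()) := by
  refine Prod.ext (funext ?_) rfl
  rintro (⟨t', j⟩ | _ | _)
  · simp only [Th, AddMonoidHom.mk'_apply, Sum.elim_inl, bs, wb]
    generalize φ t' = f
    rcases fin3 f with rfl | rfl | rfl <;> rcases fin4 j with rfl | rfl | rfl | rfl <;> simp [cb]
  · rfl
  · rfl

theorem Good.co_nn {x : GG T} (h : Good p k K m0 x) (t : T) {r : Fin 3} (hr : r ≠ 0) :
    0 ≤ Ps p φ x (.inl (t, r)) := by
  simp only [Ps, AddMonoidHom.mk'_apply, Sum.elim_inl]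
  generalize φ t = f
  rcases fin3 f with rfl | rfl | rfl <;> rcases fin3 r with rfl | rfl | rfl <;> simp_all [co, h.nn]

theorem good_zero (p0 : ∀ t, 0 < p t) (K0 : 0 ≤ K) {x : GG T} (nn : ∀ v, 0 ≤ x.1 v) (x0 : x.2 = 0)
    (e0 : ev x = 0) (gau : ∀ t, x.1 (.inl (t, 0)) =
      x.1 (.inl (t, 1)) + p t * (x.1 (.inl (t, 2)) - x.1 (.inl (t, 3)))) : Good p k K m0 x := by
  refine ⟨nn, x0.ge, x0 ▸ add_nonneg (nn _) (nn _), by simp [*], by simp [*], by simpa [e0],
    fun t => ?_, fun t => ?_⟩ <;>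
  exact .of_big (by exact_mod_cast p0 t) K0 (nn _) (nn _) x0.ge (by simp [*]) (by simp [*])

theorem good_bs (p0 : ∀ t, 0 < p t) (K0 : 0 ≤ K) (b : Bs T) : Good p k K m0 (bs p b) := by
  refine good_zero p0 K0 (fun v => by simp [bs]) rfl ?_ fun t => ?_
  · rcases b with ⟨t, j⟩ | _ <;> simp [ev, bs, wb]
  · rcases b with ⟨t', j⟩ | _
    · by_cases e : t' = t
      · subst e; rcases fin4 j with rfl | rfl | rfl | rfl <;> simp [bs, wb]
      · simp [bs, wb, e]
    · simp [bs, wb]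

variable {Mon : Type} [Fintype Mon] {ex : Mon → Cv T → ℕ} {u : Bs T ⊕ Mon → ℂ}

theorem ad_base (z : JJ T → ℤ) (z2 : z (.inr 2) = 0) (z0 : z (.inr 1) = z (.inr 0))
    (h1 : ∀ t r, z (.inl (t, r)) < 0 → u (.inl (.inl (t, bi (φ t) r))) ≠ 0)
    (h2 : z (.inr 0) < 0 → u (.inl (.inr ())) ≠ 0) : Ad (om p ex) u (Th p k φ z) := by
  have a : ∀ (b : Bs T) (n : ℤ), (n < 0 → u (.inl b) ≠ 0) → Ad (om p ex) u (n • bs p b) :=
    fun b n h => ⟨_, (Val.gen (wt := om p ex) (.inl b)).zsmul h⟩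
  have : z = ∑ a : T × Fin 3, z (.inl a) • Pi.single (.inl a) 1 +
      z (.inr 0) • (Sum.elim 0 ![1, 1, 0] : JJ T → ℤ) := by
    funext j
    rcases j with a | r
    · simp [Pi.single_apply]
    · rcases fin3 r with rfl | rfl | rfl <;> simp [z2, z0]
  rw [this, map_add, map_sum, map_zsmul, Th_h]
  refine (Ad.sum _ fun ⟨t, r⟩ => ?_).add (a _ _ h2)
  rw [map_zsmul, Th_single]
  exact a _ _ (h1 t r)

theorem Good.ad0 {x : GG T} (h : Good p k K m0 x) (x0 : x.2 = 0) : Ad (om p ex) u x := by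
  rw [← Th_Ps (φ := fun t => if x.1 (.inl (t, 3)) ≤ x.1 (.inl (t, 2)) then 1 else 2) h]
  have a := h.lo
  have b := h.hi
  simp only [x0, ev] at a b
  refine ad_base _ x0 (by simp [Ps]; omega) (fun t r c => absurd c (not_lt.2 ?_))
    fun c => absurd c (h.nn _).not_gt
  by_cases e : r = 0
  · subst e
    simp only [Ps, AddMonoidHom.mk'_apply, Sum.elim_inl]
    split_ifs <;> simp [co] <;> omega
  · exact h.co_nn t e

theorem lift_ad (p0 : ∀ t, 0 < p t) (K0 : 0 ≤ K)
    (h1 : ∀ x, Good p k K m0 x → x.2 = 1 → Ad (om p ex) u x) (sp : T → Prop) (y : JJ T → ℤ)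
    (y2 : y (.inr 2) = 1) (lo : 0 ≤ m0 + (y (.inr 0) - y (.inr 1)))
    (hi : 0 ≤ m0 - (y (.inr 0) - y (.inr 1)))
    (hn : ∀ t, ¬ sp t → (∀ r, y (.inl (t, r)) = 0) ∧ u (.inl (.inl (t, bi (φ t) 0))) ≠ 0)
    (hs : ∀ t, sp t → φ t = 1 ∧ u (.inl (.inl (t, 3))) ≠ 0 ∧ Cn (p t) (k t) K m0
      (![y (.inl (t, 1)), y (.inl (t, 0)), y (.inr 0) - y (.inr 1)], 1))
    (hr : (0 ≤ y (.inr 0) ∧ 0 ≤ y (.inr 1) ∧ 2 ≤ y (.inr 0) + y (.inr 1)) ∨
      u (.inl (.inr ())) ≠ 0) : Ad (om p ex) u (Th p k φ y) := by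
  classical
  obtain ⟨M', g0, g1, g2, g3⟩ : ∃ M' : ℤ, (0 < M' → u (.inl (.inr ())) ≠ 0) ∧
      0 ≤ y (.inr 0) + M' ∧ 0 ≤ y (.inr 1) + M' ∧ 2 ≤ y (.inr 0) + y (.inr 1) + 2 * M' := by
    rcases hr with h | h
    · exact ⟨0, by simp, by simpa using h⟩
    · have := neg_abs_le (y (.inr 0))
      have := neg_abs_le (y (.inr 1))
      have := abs_nonneg (y (.inr 0))
      have := abs_nonneg (y (.inr 1))
      exact ⟨|y (.inr 0)| + |y (.inr 1)| + 1, fun _ => h, by omega, by omega, by omega⟩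
  set e := y (.inr 0) - y (.inr 1) with he
  obtain ⟨M, hM⟩ := Finite.exists_le fun t =>
    |y (.inl (t, 0))| + |y (.inl (t, 2))| + |k t * e| + p t * K * p t
  set z : JJ T → ℤ := Sum.elim (fun a => if a.2 = if sp a.1 then 2 else 0 then M else 0)
    ![M', M', 0] with hz
  have a := ad_base (p := p) (k := k) (φ := φ) (ex := ex) (u := u) (-z) (by simp [hz])
    (by simp [hz]) (fun t r c => by
      by_cases s : sp t
      · obtain rfl : r = 2 := by by_contra n; simp [hz, s, n] at c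
        rw [(hs t s).1]; exact (hs t s).2.1
      · obtain rfl : r = 0 := by by_contra n; simp [hz, s, n] at c
        exact (hn t s).2) (by simpa [hz] using g0)
  have e1 : ev (Th p k φ (y + z)) = e := by simp [ev, Th, hz, he]
  have e2 : (Th p k φ (y + z)).2 = 1 := by simp [Th, hz, y2]
  have key : ∀ t, let n := fun j => (Th p k φ (y + z)).1 (.inl (t, j))
      0 ≤ n 2 ∧ 0 ≤ n 3 ∧ St (p t) (k t) K m0 (n 0) (n 1) e 1 ∧
        St (p t) (k t) K m0 (n 1) (n 0) (-e) 1 := fun t => by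
    have m := hM t
    have := neg_abs_le (y (.inl (t, 0)))
    have := neg_abs_le (y (.inl (t, 2)))
    have := neg_abs_le (k t * e)
    have := le_abs_self (k t * e)
    have := abs_nonneg (y (.inl (t, 0)))
    have := abs_nonneg (y (.inl (t, 2)))
    have q0 : (0 : ℤ) < p t := by exact_mod_cast p0 t
    have : 0 ≤ p t * K * p t := by positivity
    have : M ≤ p t * M := le_mul_of_one_le_left (by omega) q0
    have ee : y (.inr 0) + M' - (y (.inr 1) + M') = e := by omega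
    by_cases s : sp t
    · obtain ⟨f, -, -, -, -, c1, c2⟩ := hs t s
      simp [Th, hz, f, cb, s, ee]
      simp only [cons_val, add_comm (y _)] at c1 c2
      exact ⟨by omega, by omega, c1, c2⟩
    · have y0 := (hn t s).1
      simp only [Th, AddMonoidHom.mk'_apply, Sum.elim_inl, hz, Pi.add_apply, Sum.elim_inr, s, y0,
        cons_val, ee]
      generalize φ t = f
      rcases fin3 f with rfl | rfl | rfl <;> simp [cb] <;> (repeat' apply And.intro) <;>
        first | omega | exact .of_big q0 K0 (by omega) (by omega) (by omega) (by omega) (by omega)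
  have b := h1 (Th p k φ (y + z)) ⟨?_, by omega, by simp [Th, hz, y2]; omega,
    by rwa [e1, e2, mul_one], by rwa [e1, e2, mul_one], Th_gau _, fun t => e1 ▸ e2 ▸ (key t).2.2.1,
    fun t => e1 ▸ e2 ▸ (key t).2.2.2⟩ e2
  · simpa using b.add a
  · rintro (⟨t, j⟩ | _ | _)
    · have q0 : (0 : ℤ) < p t := by exact_mod_cast p0 t
      rcases fin4 j with rfl | rfl | rfl | rfl
      exacts [(key t).2.2.1.left q0, (key t).2.2.1.right q0, (key t).1, (key t).2.1]
    · simpa [Th, hz] using g2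
    · simpa [Th, hz] using g1

end Pool.Agent.Lib.MP_78bd4b_ag
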