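import Pool.Agent.Lib.MP_78bd4b_ag.TorD

/-! Smooth charts over the ordinary fibres. -/

noncomputable section

namespace Pool.Agent.Lib.MP_78bd4b_ag

open Function Matrix

set_option linter.unusedSectionVars false

variable {T : Type} [Fintype T] [DecidableEq T] {p k : T → ℕ} {K m0 B : ℤ} {φ : T → Fin 3}
  {Mon : Type} [Fintype Mon] {ex : Mon → Cv T → ℕ} {u : Bs T ⊕ Mon → ℂ}

theorem tc_of_equiv (hb : Bin (om p ex) u) (hG : ∀ i, Good p k K m0 (om p ex i))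
    (E : (JJ T → ℤ) ≃+ (JJ T → ℤ))
    (h : ∀ j, Un (om p ex) u (Th p k φ (E.symm (Pi.single j 1))) ∨
      Ad (om p ex) u (Th p k φ (E.symm (Pi.single j 1))) ∧
        ∀ x, Good p k K m0 x → 0 ≤ E (Ps p φ x) j) : ∃ κ ν, TC (J := JJ T) (om p ex) u κ ν :=
  tc_of_coord hb (E.toAddMonoidHom.comp (Ps p φ)) ((Th p k φ).comp E.symm.toAddMonoidHom)
    (fun y => by simp [Ps_Th]) (fun i => by simp [Th_Ps (hG i)])
    (fun j => (h j).elim Un.ad And.left)
    fun j i c => (h j).resolve_right fun d => (d.2 _ (hG i)).not_gt c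

theorem frame_ok {t : T} (h : u (.inl (.inl (t, bi (φ t) 0))) ≠ 0) (r : Fin 3) :
    Un (om p ex) u (Th p k φ (Pi.single (.inl (t, r)) 1)) ∨
      Ad (om p ex) u (Th p k φ (Pi.single (.inl (t, r)) 1)) ∧
        ∀ x, Good p k K m0 x → 0 ≤ Ps p φ x (.inl (t, r)) := by
  rw [Th_single]
  by_cases e : r = 0
  · subst e; exact .inl (Un.gen (wt := om p ex) h)
  · exact .inr ⟨Ad.gen (wt := om p ex) (.inl _), fun x h => h.co_nn t e⟩

/-- the polygon -/
def CA (m0 : ℤ) (c : Fin 3 → ℤ) : Prop := 0 ≤ c 0 ∧ 0 ≤ c 1 ∧ 2 * c 2 ≤ c 0 + c 1 ∧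
  0 ≤ m0 * c 2 + (c 0 - c 1) ∧ 0 ≤ m0 * c 2 - (c 0 - c 1)

theorem tc_plain (p0 : ∀ t, 0 < p t) (K0 : 0 ≤ K) (m3 : 3 ≤ m0) (hb : Bin (om p ex) u)
    (hG : ∀ i, Good p k K m0 (om p ex i))
    (h1 : ∀ x, Good p k K m0 x → x.2 = 1 → Ad (om p ex) u x)
    (hφ : ∀ t, u (.inl (.inl (t, bi (φ t) 0))) ≠ 0) {m : Mon} (hm : u (.inr m) ≠ 0) :
    ∃ κ ν, TC (J := JJ T) (om p ex) u κ ν := by
  by_contra no
  have ad : ∀ c, CA m0 c → c 2 = 1 → Ad (om p ex) u (Th p k φ (Sum.elim 0 c)) :=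
    fun c ⟨a0, a1, a2, a3, a4⟩ c2 => lift_ad p0 K0 h1 (fun _ => False) _ c2
      (by simpa [c2] using a3) (by simpa [c2] using a4) (fun t _ => ⟨fun _ => rfl, hφ t⟩)
      (fun _ => False.elim) (.inl ⟨a0, a1, by simpa [c2] using a2⟩)
  have nu : ∀ A A' : Matrix (Fin 3) (Fin 3) ℤ, A * A' = 1 → A' * A = 1 →
      (∀ c, CA m0 c → 0 ≤ (A *ᵥ c) 0 ∧ 0 ≤ (A *ᵥ c) 1) → A' 2 = ![0, 0, 1] →
      CA m0 (A'ᵀ 2) → CA m0 (A'ᵀ 0 + A'ᵀ 2) → CA m0 (A'ᵀ 1 + A'ᵀ 2) →
      Nu (om p ex) u (Th p k φ (Sum.elim 0 (A'ᵀ 2))) := fun A A' i1 i2 pos l c c0 c1 => by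
    refine (ad _ c (by simp [l])).or.resolve_left fun un => no ?_
    let E : (JJ T → ℤ) ≃+ (JJ T → ℤ) :=
      { toFun := fun y => Sum.elim (y ∘ .inl) (A *ᵥ (y ∘ .inr))
        invFun := fun y => Sum.elim (y ∘ .inl) (A' *ᵥ (y ∘ .inr))
        left_inv := fun y => by simp [i2]
        right_inv := fun y => by simp [i1]
        map_add' := fun y z => by
          funext j; rcases j with a | r <;> simp [Pi.add_comp, mulVec_add] }
    have e1 : ∀ a, E.symm (Pi.single (.inl a) 1) = Pi.single (.inl a) 1 := fun a => by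
      funext j; rcases j with a | r <;> simp [E, mulVec, dotProduct]
    have e2 : ∀ r, E.symm (Pi.single (.inr r) 1) = (Sum.elim 0 (A'ᵀ r) : JJ T → ℤ) := fun r => by
      funext j; rcases j with a | r <;> simp [E, mulVec, dotProduct, Pi.single_apply]
    have e3 : ∀ r, CA m0 (A'ᵀ r + A'ᵀ 2) → A' 2 r = 0 →
        Ad (om p ex) u (Th p k φ (Sum.elim 0 (A'ᵀ r))) := fun r c z => by
      refine Ad.sub ?_ un
      rw [← map_add]
      convert ad _ c (by simp [l, z]) using 2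
      funext j; rcases j with a | r <;> simp
    have e4 : ∀ x, Good p k K m0 x → CA m0 (Ps p φ x ∘ .inr) := fun x h =>
      ⟨h.nn _, h.nn _, h.two, h.lo, h.hi⟩
    refine tc_of_equiv (φ := φ) hb hG E ?_
    rintro (⟨t, r⟩ | r)
    · rw [e1]; exact frame_ok (hφ t) r
    · rw [e2]
      rcases fin3 r with rfl | rfl | rfl
      · exact .inr ⟨e3 0 c0 (by simp [l]), fun x h => (pos _ (e4 x h)).1⟩
      · exact .inr ⟨e3 1 c1 (by simp [l]), fun x h => (pos _ (e4 x h)).2⟩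
      · exact .inl un
  have n1 : ∀ ε c : ℤ, (ε = 1 ∧ c = 2 ∨ ε = -1 ∧ c = m0) →
      Nu (om p ex) u (Th p k φ (Sum.elim 0 ![c, 0, 1])) ∧
      Nu (om p ex) u (Th p k φ (Sum.elim 0 ![0, c, 1])) := fun ε c h => by
    constructor
    · convert nu !![0, 1, 0; ε, 1, -ε * c; 0, 0, 1] !![-ε, ε, c; 1, 0, 0; 0, 0, 1] ?_ ?_ ?_ rfl
        ?_ ?_ ?_ using 3
      · ext i; rcases fin3 i with rfl | rfl | rfl <;> rfl
      all_goals rcases h with ⟨rfl, rfl⟩ | ⟨rfl, rfl⟩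
      all_goals first
        | (ext i j; rcases fin3 i with rfl | rfl | rfl <;> rcases fin3 j with rfl | rfl | rfl <;> simp [mul_apply, Fin.sum_univ_three]; done)
        | (simp [CA, mulVec, dotProduct, Fin.sum_univ_three] <;> omega)
    · convert nu !![1, 0, 0; 1, ε, -ε * c; 0, 0, 1] !![1, 0, 0; -ε, ε, c; 0, 0, 1] ?_ ?_ ?_ rfl
        ?_ ?_ ?_ using 3
      · ext i; rcases fin3 i with rfl | rfl | rfl <;> rfl
      all_goals rcases h with ⟨rfl, rfl⟩ | ⟨rfl, rfl⟩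
      all_goals first
        | (ext i j; rcases fin3 i with rfl | rfl | rfl <;> rcases fin3 j with rfl | rfl | rfl <;> simp [mul_apply, Fin.sum_univ_three]; done)
        | (simp [CA, mulVec, dotProduct, Fin.sum_univ_three] <;> omega)
  obtain ⟨v1, v2⟩ := n1 1 2 (.inl ⟨rfl, rfl⟩)
  obtain ⟨v3, v4⟩ := n1 (-1) m0 (.inr ⟨rfl, rfl⟩)
  have g := hG (.inr m)
  set x := om p ex (.inr m) with hx
  set α := x.1 (.inr true)
  set β := x.1 (.inr false)
  have fin : ∀ (V V' : Fin 3 → ℤ) (a b h : ℤ), Nu (om p ex) u (Th p k φ (Sum.elim 0 V)) →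
      Nu (om p ex) u (Th p k φ (Sum.elim 0 V')) → 0 ≤ a → 0 ≤ b → 0 < a + b → 0 ≤ h →
      (a + b) • ![α, β, 1] = a • V + b • V' + ![h, h, 0] → False := by
    intro V V' a b h n n' a0 b0 ab h0 e
    refine ((Un.gen (wt := om p ex) hm).zsmul (a + b)).not_nu hb ?_
    have := (n.comb n' a0 b0 ab).add (ad_base (φ := φ) (k := k)
      (Sum.elim (fun j => (a + b) * Ps p φ x (.inl j)) ![h, h, 0]) rfl rfl (fun t r c => by
        by_cases e : r = 0
        · subst e; exact hφ t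
        · exact absurd c (mul_nonneg ab.le (g.co_nn t e)).not_gt) fun c => absurd c h0.not_gt)
    rw [← hx, ← Th_Ps (φ := φ) g, ← map_zsmul]
    simp only [← map_zsmul, ← map_add] at this
    convert this using 2
    funext j
    rcases j with j | r
    · simp
    · exact congrFun e r
  have g1 : 0 ≤ α := g.nn _
  have g2 : 0 ≤ β := g.nn _
  have g3 : 2 * 1 ≤ α + β := g.two
  have g4 : 0 ≤ m0 * 1 + (α - β) := g.lo
  have g5 : 0 ≤ m0 * 1 - (α - β) := g.hi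
  by_cases c1 : 2 ≤ α - β
  · exact fin _ _ (m0 - (α - β)) (α - β - 2) ((m0 - 2) * β) v1 v3 (by omega) (by omega) (by omega)
      (mul_nonneg (by omega) g2) (by ext i; rcases fin3 i with rfl | rfl | rfl <;> simp <;> ring)
  by_cases c2 : 2 ≤ β - α
  · exact fin _ _ (m0 - (β - α)) (β - α - 2) ((m0 - 2) * α) v2 v4 (by omega) (by omega) (by omega)
      (mul_nonneg (by omega) g1) (by ext i; rcases fin3 i with rfl | rfl | rfl <;> simp <;> ring)
  · exact fin _ _ (2 + (α - β)) (2 - (α - β)) (2 * (α + β) - 4) v1 v2 (by omega) (by omega)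
      (by omega) (by omega) (by ext i; rcases fin3 i with rfl | rfl | rfl <;> simp <;> ring)

end Pool.Agent.Lib.MP_78bd4b_ag
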