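import Pool.Agent.Lib.MP_78bd4b_ag.TorE

/-! Charts over the special fibres. -/

noncomputable section

namespace Pool.Agent.Lib.MP_78bd4b_ag

open Function Matrix

set_option linter.unusedSectionVars false

variable {T : Type} [Fintype T] [DecidableEq T] {p k : T → ℕ} {K m0 B : ℤ} {φ : T → Fin 3}
  {Mon : Type} [Fintype Mon] {ex : Mon → Cv T → ℕ} {u : Bs T ⊕ Mon → ℂ}

/-- the embedding of the staircase lattice -/
def io (t0 : T) : La →+ (JJ T → ℤ) :=
  .mk' (fun x => Sum.elim (fun a => if a.1 = t0 then ![x.1 1, x.1 0, 0] a.2 else 0)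
    ![x.1 2, 0, x.2]) fun x y => by
      funext j
      rcases j with ⟨t, r⟩ | r
      · by_cases e : t = t0 <;> rcases fin3 r with rfl | rfl | rfl <;> simp [e]
      · rcases fin3 r with rfl | rfl | rfl <;> simp

/-- the projection to the staircase lattice -/
def pr (t0 : T) (y : JJ T → ℤ) : La :=
  (![y (.inl (t0, 1)), y (.inl (t0, 0)), y (.inr 0) - y (.inr 1)], y (.inr 2))

/-- the remaining coordinates -/
def rs (t0 : T) (y : T × Fin 3 → ℤ) (g h : ℤ) : JJ T → ℤ :=
  Sum.elim (fun a => if a.1 = t0 then ![0, 0, g] a.2 else y a) ![h, h, 0]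

theorem pr_io (t0 : T) (x : La) (y g h) : pr t0 (io t0 x + rs t0 y g h) = x := by
  ext i <;> [rcases fin3 i with rfl | rfl | rfl <;> simp [pr, io, rs]; simp [pr, io, rs]]

theorem io_pr (t0 : T) (y : JJ T → ℤ) :
    io t0 (pr t0 y) + rs t0 (y ∘ .inl) (y (.inl (t0, 2))) (y (.inr 1)) = y := by
  funext j
  rcases j with ⟨t, r⟩ | r
  · by_cases e : t = t0 <;> rcases fin3 r with rfl | rfl | rfl <;> simp [e, pr, io, rs]
  · rcases fin3 r with rfl | rfl | rfl <;> simp [pr, io, rs]

theorem tc_special (p0 : ∀ t, 0 < p t) (K0 : 0 ≤ K) (hb : Bin (om p ex) u)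
    (hG : ∀ i, Good p k K m0 (om p ex i))
    (h1 : ∀ x, Good p k K m0 x → x.2 = 1 → Ad (om p ex) u x) {t0 : T} (hp : p t0 ≤ B)
    (hk : k t0 ≤ B) (hK : 6 * B ^ 3 ≤ K) (cop : Nat.Coprime (k t0) (p t0)) (dm : (p t0 : ℤ) ∣ m0)
    (hm0 : K * p t0 ^ 3 + K ≤ m0) (f0 : φ t0 = 1)
    (hφ : ∀ t, t ≠ t0 → u (.inl (.inl (t, bi (φ t) 0))) ≠ 0) (ug : u (.inl (.inl (t0, 3))) ≠ 0)
    (uh : u (.inl (.inr ())) ≠ 0) {m : Mon} (hm : u (.inr m) ≠ 0) :
    ∃ κ ν, TC (J := JJ T) (om p ex) u κ ν := by
  by_contra no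
  have q0 : (0 : ℤ) < p t0 := by exact_mod_cast p0 t0
  have ad : ∀ x, Cn (p t0) (k t0) K m0 x → x.2 = 1 → Ad (om p ex) u (Th p k φ (io t0 x)) :=
    fun x c x2 => lift_ad p0 K0 h1 (· = t0) _ x2 (by simpa [x2, io] using c.2.1)
      (by simpa [x2, io] using c.2.2.1) (fun t e => ⟨fun _ => by simp [io, e], hφ t e⟩)
      (by
        rintro _ rfl
        refine ⟨f0, ug, ?_⟩
        rw [show x = (![x.1 0, x.1 1, x.1 2], 1) by ext i <;> [rcases fin3 i with rfl | rfl | rfl <;> rfl; exact x2]] at c
        simpa [io] using c) (.inr uh)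
  have cn : ∀ x, Good p k K m0 x → Cn (p t0) (k t0) K m0 (pr t0 (Ps p φ x)) := fun x h => by
    have a := h.s1 t0
    have b := h.s2 t0
    rw [h.gau t0] at a b
    exact ⟨h.n0, h.lo, h.hi, by simpa [pr, Ps, f0, co, ev] using a,
      by simpa [pr, Ps, f0, co, ev] using b⟩
  have ar : ∀ y g h, (∀ t r, t ≠ t0 → r ≠ 0 → 0 ≤ y (t, r)) →
      Ad (om p ex) u (Th p k φ (rs t0 y g h)) := fun y g h hy =>
    ad_base _ rfl rfl (fun t r c => by
      by_cases e : t = t0
      · subst e
        obtain rfl : r = 2 := by rcases fin3 r with rfl | rfl | rfl <;> simp [rs] at c ⊢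
        rw [f0]; exact ug
      · by_cases e' : r = 0
        · subst e'; exact hφ t e
        · exact absurd (by simpa [rs, e] using c) (hy t r e e').not_gt) fun _ => uh
  have main := stair_ind q0 (Nat.cast_nonneg _) hp hk hK (Nat.isCoprime_iff_coprime.2 cop) dm hm0
    (fun x => ∃ N : ℤ, 0 < N ∧ Ad (om p ex) u (N • Th p k φ (io t0 x)) ∧
      (0 < x.2 → Nu (om p ex) u (N • Th p k φ (io t0 x)))) ?_ ?_ ?_ ?_ _ (cn _ (hG (.inr m)))
  · obtain ⟨N, N0, -, h⟩ := main
    refine ((Un.gen (wt := om p ex) hm).zsmul N).not_nu hb ?_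
    rw [← Th_Ps (φ := φ) (hG (.inr m)), ← io_pr t0 (Ps p φ _), map_add, smul_add]
    exact (h one_pos).add ((ar _ _ _ fun t r _ e => (hG (.inr m)).co_nn t e).zsmul N0.le)
  · rintro x y a b a0 b0 x0 y0 ⟨N, N0, c, d⟩ ⟨N', N0', c', d'⟩
    have e : (N * N') • Th p k φ (io t0 (a • x + b • y)) =
        (a * N') • N • Th p k φ (io t0 x) + (b * N) • N' • Th p k φ (io t0 y) := by
      simp only [map_add, map_zsmul]; module
    refine ⟨N * N', by positivity, ?_, fun h => ?_⟩ <;> rw [e]
    · exact (c.zsmul (by positivity)).add (c'.zsmul (by positivity))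
    · rcases x0.lt_or_eq with x0 | x0
      · exact ((d x0).zsmul (by positivity)).add (c'.zsmul (by positivity))
      · rw [add_comm]
        refine ((d' ((mul_pos_iff_of_pos_left b0).1 ?_)).zsmul (by positivity)).add
          (c.zsmul (by positivity))
        simpa [← x0] using h
  · rintro x a a0 ⟨N, N0, c, d⟩
    simp only [map_zsmul, smul_smul] at c d
    exact ⟨N * a, by positivity, c, fun h => d (mul_pos a0 h)⟩
  · rintro x ⟨-, c1, c2, c3, -⟩ x0
    refine ⟨1, one_pos, ?_, fun h => absurd x0 h.ne'⟩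
    have e : x.1 2 = 0 := by simp only [x0] at c1 c2; omega
    have z0 := c3.left q0
    have w0 := c3.right q0
    have := neg_abs_le (x.1 1)
    have e' : ev (Th p k φ (io t0 x + rs t0 0 |x.1 1| 0)) = 0 := by
      simpa [Th, io, rs, ev] using e
    have g := good_zero (k := k) (m0 := m0) p0 K0 (x := Th p k φ (io t0 x + rs t0 0 |x.1 1| 0)) ?_
      (by simpa [Th, io, rs] using x0) e' fun t => by rw [Th_gau, e', mul_zero, sub_zero]
    · simpa [← map_add, add_assoc, show rs t0 0 |x.1 1| 0 + rs t0 0 (-|x.1 1|) 0 = 0 by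
        funext j; rcases j with ⟨t, r⟩ | r <;> [by_cases e : t = t0; skip] <;>
          rcases fin3 r with rfl | rfl | rfl <;> simp [rs, *]] using
        (g.ad0 (by simpa [Th, io, rs] using x0)).add (ar 0 (-|x.1 1|) 0 (by simp))
    · rintro (⟨t, j⟩ | _ | _)
      · by_cases c : t = t0
        · subst c
          rcases fin4 j with rfl | rfl | rfl | rfl <;> simp [Th, io, rs, f0, cb, e] at z0 ⊢ <;> omega
        · simp only [Th, io, rs, AddMonoidHom.mk'_apply, Sum.elim_inl, Pi.add_apply, c]
          generalize φ t = f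
          rcases fin3 f with rfl | rfl | rfl <;> rcases fin4 j with rfl | rfl | rfl | rfl <;> simp [cb, e]
      · simp [Th, io, rs]
      · simp [Th, io, rs, e]
  rintro x x0 ⟨F, F2, pos, xv, c, ce⟩
  have v2 : ∀ y, (F.symm y).2 = y.2 := fun y => by rw [← F2, F.apply_symm_apply]
  have nu := (ad _ c (v2 _)).or.resolve_left fun un => no ?_
  · rw [xv]
    simp only [map_zsmul, one_smul]
    exact ⟨1, one_pos, by simpa using ⟨_, nu.zsmul x0⟩, fun _ => by simpa using nu.zsmul x0⟩
  let E : (JJ T → ℤ) ≃+ (JJ T → ℤ) :=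
    { toFun := fun y => Sum.elim (fun a => if a.1 = t0 then (F (pr t0 y)).1 a.2 else y (.inl a))
        ![y (.inr 2), y (.inl (t0, 2)), y (.inr 1)]
      invFun := fun y => io t0 (F.symm (fun r => y (.inl (t0, r)), y (.inr 0))) +
        rs t0 (y ∘ .inl) (y (.inr 1)) (y (.inr 2))
      left_inv := fun y => by
        have : ((F (pr t0 y)).1, y (.inr 2)) = F (pr t0 y) := Prod.ext rfl (F2 (pr t0 y)).symm
        simp only [Sum.elim_inl, Sum.elim_inr, if_true, cons_val, this, F.symm_apply_apply]
        conv_rhs => rw [← io_pr t0 y]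
        congr 1
        funext j
        rcases j with ⟨t, r⟩ | r
        · by_cases e : t = t0 <;> simp [rs, e]
        · rfl
      right_inv := fun y => by
        simp only [pr_io, F.apply_symm_apply]
        funext j
        rcases j with ⟨t, r⟩ | r
        · by_cases e : t = t0 <;> simp [io, rs, e]
        · rcases fin3 r with rfl | rfl | rfl <;> simp [io, rs, v2]
      map_add' := fun y z => by
        have : pr t0 (y + z) = pr t0 y + pr t0 z := by
          ext i <;> [rcases fin3 i with rfl | rfl | rfl <;> simp [pr] <;> ring; rfl]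
        funext j
        rcases j with ⟨t, r⟩ | r
        · by_cases e : t = t0 <;> simp [this, e]
        · rcases fin3 r with rfl | rfl | rfl <;> simp }
  have es : ∀ y, E.symm y = io t0 (F.symm (fun r => y (.inl (t0, r)), y (.inr 0))) +
      rs t0 (y ∘ .inl) (y (.inr 1)) (y (.inr 2)) := fun _ => rfl
  have z : ((fun _ => 0, 0) : La) = 0 := rfl
  refine tc_of_equiv (φ := φ) hb hG E ?_
  rintro (⟨t, r⟩ | r) <;> rw [es]
  · by_cases e : t = t0
    · subst e
      refine .inr ⟨Ad.sub ?_ un, fun x h => by simpa [E] using pos _ (cn x h) r⟩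
      rw [← map_add]
      convert ad _ (ce r) (v2 _) using 2
      rw [show ((Pi.single r 1, 1) : La) = (Pi.single r 1, 0) + (0, 1) by simp, map_add, map_add]
      congr 1
      simp only [Pi.single_apply, Sum.inl.injEq, Prod.mk.injEq, true_and, reduceCtorEq, if_false]
      convert add_zero _
      · funext j
        rcases j with ⟨t', r'⟩ | r'
        · by_cases e : t' = t <;> rcases fin3 r' with rfl | rfl | rfl <;> simp [rs, e, Pi.single_apply]
        · rcases fin3 r' with rfl | rfl | rfl <;> simp [rs]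
      · simp [Pi.single_apply]
    · convert frame_ok (K := K) (m0 := m0) (hφ t e) r using 4
      any_goals simp [E, e]; done
      all_goals
        simp only [Pi.single_apply, Sum.inl.injEq, Prod.mk.injEq, Ne.symm e, false_and,
          reduceCtorEq, if_false, z, map_zero, zero_add]
        funext j
        rcases j with ⟨t', r'⟩ | r'
        · by_cases e' : t' = t0 <;> rcases fin3 r' with rfl | rfl | rfl <;> simp [rs, e', Ne.symm e]
        · rcases fin3 r' with rfl | rfl | rfl <;> simp [rs]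
  · left
    have z' : ((fun _ => 0, 1) : La) = (0, 1) := rfl
    rcases fin3 r with rfl | rfl | rfl
    · convert un using 2
      simp only [Pi.single_apply, reduceCtorEq, if_false, if_true, z', Fin.zero_eta]
      convert add_zero _
      funext j
      rcases j with ⟨t', r'⟩ | r'
      · by_cases e : t' = t0 <;> rcases fin3 r' with rfl | rfl | rfl <;> simp [rs, e]
      · rcases fin3 r' with rfl | rfl | rfl <;> simp [rs]
    · have := Un.gen (wt := om p ex) ug
      rw [show om p ex (.inl (.inl (t0, 3))) = bs p (.inl (t0, bi (φ t0) 2)) by rw [f0]; rfl,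
        ← Th_single (k := k)] at this
      convert this using 2
      funext j
      rcases j with ⟨t', r'⟩ | r'
      · by_cases e : t' = t0 <;> rcases fin3 r' with rfl | rfl | rfl <;> simp [rs, e, z]
      · rcases fin3 r' with rfl | rfl | rfl <;> simp [rs, z]
    · have := Un.gen (wt := om p ex) uh
      rw [show om p ex (.inl (.inr ())) = bs p (.inr ()) from rfl, ← Th_h (k := k) (φ := φ)] at this
      convert this using 2
      funext j
      rcases j with ⟨t', r'⟩ | r'
      · by_cases e : t' = t0 <;> rcases fin3 r' with rfl | rfl | rfl <;> simp [rs, e, z]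
      · rcases fin3 r' with rfl | rfl | rfl <;> simp [rs, z]

end Pool.Agent.Lib.MP_78bd4b_ag
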